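import Mathlib

/-!
# Asymptotics of the slabs
-/

set_option autoImplicit false
set_option linter.unusedVariables false

noncomputable section

namespace BP

private theorem Asy_up (n : ℕ) {x y : ℝ} (hy : 0 ≤ y) (hxy : y ≤ x) :
    x ^ n - y ^ n ≤ n * (x - y) * x ^ (n - 1) := by
  rw [← (Commute.all x y).mul_geom_sum₂ n]
  have h1 : ∑ i ∈ Finset.range n, x ^ i * y ^ (n - 1 - i) ≤ n * x ^ (n - 1) := by
    have h2 : ∀ i ∈ Finset.range n, x ^ i * y ^ (n - 1 - i) ≤ x ^ (n - 1) := fun i hi => by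
      have hi' := Finset.mem_range.1 hi
      have h3 : x ^ (n - 1) = x ^ i * x ^ (n - 1 - i) := by
        rw [← pow_add]
        congr 1
        omega
      rw [h3]
      exact mul_le_mul_of_nonneg_left (pow_le_pow_left₀ hy hxy _)
        (pow_nonneg (hy.trans hxy) _)
    refine (Finset.sum_le_sum h2).trans (le_of_eq ?_)
    rw [Finset.sum_const, Finset.card_range, nsmul_eq_mul]
  calc (x - y) * ∑ i ∈ Finset.range n, x ^ i * y ^ (n - 1 - i)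
      ≤ (x - y) * (n * x ^ (n - 1)) := mul_le_mul_of_nonneg_left h1 (by linarith)
    _ = n * (x - y) * x ^ (n - 1) := by ring

private theorem Asy_low (n : ℕ) {θ : ℝ} (h0 : 0 ≤ θ) (h1 : θ ≤ 1) :
    ((n : ℝ) + 1) * (1 - θ) * θ ^ n ≤ 1 - θ ^ (n + 1) := by
  have e : 1 - θ ^ (n + 1) = (1 - θ) * ∑ i ∈ Finset.range (n + 1), θ ^ i := by
    rw [mul_comm, geom_sum_mul_neg]
  rw [e]
  have h2 : ((n : ℝ) + 1) * θ ^ n ≤ ∑ i ∈ Finset.range (n + 1), θ ^ i := by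
    have h3 : ∀ i ∈ Finset.range (n + 1), θ ^ n ≤ θ ^ i := fun i hi =>
      pow_le_pow_of_le_one h0 h1 (Nat.lt_succ_iff.1 (Finset.mem_range.1 hi))
    have h4 := Finset.sum_le_sum h3
    rw [Finset.sum_const, Finset.card_range, nsmul_eq_mul] at h4
    push_cast at h4
    exact h4
  calc ((n : ℝ) + 1) * (1 - θ) * θ ^ n = (1 - θ) * (((n : ℝ) + 1) * θ ^ n) := by ring
    _ ≤ _ := mul_le_mul_of_nonneg_left h2 (by linarith)

/-- Proof.  Let `Z = σ - S ∈ [S, (1 + η) S]` (as integers `σ`, `S ≤ Z`).  `lo = ⌈(1 - ε) S⌉₊ ≥ (1 - ε) S`,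
so `σ - lo + 1 ≤ Z + ε S + 1`, and `σ - S + 1 = Z + 1`.  So
`SN (σ - lo + 1) - SN (σ - S + 1) ≤ c ((Z + ε S + 1 + A)^n - max 0 (Z + 1 - A)^n)
≤ c n (ε S + 2 A) (Z + ε S + 1 + A)^(n-1)` (`x^n - y^n ≤ n (x - y) x^(n-1)` for `0 ≤ y ≤ x`;
if `Z + 1 - A < 0` then `x ≤ ε S + 2 A`)
`≤ c n ε' S ((1 + η + ε') S)^(n-1)` for `S` large (`(ε' - ε) S ≥ 2 A + 1`). -/
theorem slab_asy (n : ℕ) (hn : 1 ≤ n) (c A η ε ε' : ℝ) (hc : 0 < c) (hA : 0 ≤ A) (hη : 0 ≤ η)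
    (hε : 0 < ε) (hε1 : ε < 1) (hε' : ε < ε') (SN : ℕ → ℝ)
    (hup : ∀ X : ℕ, SN X ≤ c * ((X : ℝ) + A) ^ n)
    (hlow : ∀ X : ℕ, c * max 0 ((X : ℝ) - A) ^ n ≤ SN X) :
    ∃ S0 : ℕ, ∀ (S : ℕ) (σ : ℤ), S0 ≤ S → (2 * S : ℤ) ≤ σ → (σ : ℝ) ≤ (2 + η) * S →
      SN (σ - (⌈(1 - ε) * (S : ℝ)⌉₊ : ℕ) + 1).toNat - SN (σ - S + 1).toNat ≤
        c * n * ε' * (1 + η + ε') ^ (n - 1) * (S : ℝ) ^ n := by
  have hd : 0 < ε' - ε := by linarith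
  obtain ⟨S0, hS0⟩ := exists_nat_ge (max A ((2 * A + 1) / (ε' - ε)))
  refine ⟨S0, fun S σ hS hσ hσ2 => ?_⟩
  have hSr : (S0 : ℝ) ≤ S := by exact_mod_cast hS
  have hSA : A ≤ S := (le_max_left _ _).trans (hS0.trans hSr)
  have hSe : 2 * A + 1 ≤ (ε' - ε) * S := by
    have h1 := (le_max_right A ((2 * A + 1) / (ε' - ε))).trans (hS0.trans hSr)
    rw [div_le_iff₀ hd] at h1
    linarith
  have hS0' : (0 : ℝ) ≤ S := Nat.cast_nonneg _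
  obtain ⟨P, hP⟩ : ∃ P : ℕ, P = ⌈(1 - ε) * (S : ℝ)⌉₊ := ⟨_, rfl⟩
  rw [← hP]
  have hP1 : (1 - ε) * (S : ℝ) ≤ P := by
    rw [hP]
    exact Nat.le_ceil _
  have hP2 : P ≤ S := by
    rw [hP]
    refine Nat.ceil_le.2 ?_
    nlinarith
  have hP3 : (P : ℤ) ≤ S := by exact_mod_cast hP2
  have hX1 : (((σ - P + 1).toNat : ℕ) : ℝ) = (σ : ℝ) - P + 1 := by
    have h1 : (((σ - P + 1).toNat : ℕ) : ℤ) = σ - P + 1 := Int.toNat_of_nonneg (by omega)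
    have h2 : ((((σ - P + 1).toNat : ℕ) : ℤ) : ℝ) = ((σ - P + 1 : ℤ) : ℝ) := by rw [h1]
    push_cast at h2
    exact h2
  have hX2 : (((σ - S + 1).toNat : ℕ) : ℝ) = (σ : ℝ) - S + 1 := by
    have h1 : (((σ - S + 1).toNat : ℕ) : ℤ) = σ - S + 1 := Int.toNat_of_nonneg (by omega)
    have h2 : ((((σ - S + 1).toNat : ℕ) : ℤ) : ℝ) = ((σ - S + 1 : ℤ) : ℝ) := by rw [h1]
    push_cast at h2
    exact h2
  have hσr : 2 * (S : ℝ) ≤ σ := by exact_mod_cast hσ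
  have hPr : (P : ℝ) ≤ S := by exact_mod_cast hP2
  have h1 := hup (σ - P + 1).toNat
  have h2 := hlow (σ - S + 1).toNat
  rw [hX1] at h1
  rw [hX2, max_eq_right (by linarith)] at h2
  obtain ⟨x, hx⟩ : ∃ x : ℝ, x = (σ : ℝ) - P + 1 + A := ⟨_, rfl⟩
  obtain ⟨y, hy⟩ : ∃ y : ℝ, y = (σ : ℝ) - S + 1 - A := ⟨_, rfl⟩
  rw [← hx] at h1
  rw [← hy] at h2
  have hy0 : 0 ≤ y := by linarith
  have hyx : y ≤ x := by linarith
  have h3 := Asy_up n hy0 hyx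
  have h4 : x - y ≤ ε' * S := by nlinarith
  have h5 : x ≤ (1 + η + ε') * S := by nlinarith
  have h6 : x ^ (n - 1) ≤ ((1 + η + ε') * S) ^ (n - 1) := pow_le_pow_left₀ (hy0.trans hyx) h5 _
  have h7 : n * (x - y) * x ^ (n - 1) ≤ n * (ε' * S) * ((1 + η + ε') * S) ^ (n - 1) := by
    refine mul_le_mul ?_ h6 (pow_nonneg (hy0.trans hyx) _) ?_
    · exact mul_le_mul_of_nonneg_left h4 (Nat.cast_nonneg _)
    · exact mul_nonneg (Nat.cast_nonneg _) (mul_nonneg (by linarith) hS0')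
  have h8 : (S : ℝ) * (S : ℝ) ^ (n - 1) = (S : ℝ) ^ n := by
    rw [← pow_succ']
    congr 1
    omega
  calc SN (σ - P + 1).toNat - SN (σ - S + 1).toNat ≤ c * x ^ n - c * y ^ n := by linarith
    _ = c * (x ^ n - y ^ n) := by ring
    _ ≤ c * (n * (ε' * S) * ((1 + η + ε') * S) ^ (n - 1)) :=
        mul_le_mul_of_nonneg_left (h3.trans h7) hc.le
    _ = c * n * ε' * (1 + η + ε') ^ (n - 1) * ((S : ℝ) * (S : ℝ) ^ (n - 1)) := by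
        rw [mul_pow]
        ring
    _ = c * n * ε' * (1 + η + ε') ^ (n - 1) * (S : ℝ) ^ n := by rw [h8]

/-- Choice of the parameters.  Proof.  Put `ε' = ε (1 + ε)`, `θ = 1 - ε + ε²`.  By Bernoulli
`1 - θ^(n+1) ≥ (n + 1) (1 - θ) θ^n` (`x^(n+1) - y^(n+1) ≥ (n+1)(x - y) y^n` for `x ≥ y ≥ 0`)
`≥ (n + 1) ε (1 - ε) (1 - ε)^n`.  So it is enough that
`c n (1 + ε) (1 + η + ε (1 + ε))^(n-1) < (n + 1) B' (1 - ε)^(n+1)`; at `ε = 0` this is the hypothesis,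
and both sides are continuous. -/
theorem exists_eps (n : ℕ) (hn : 1 ≤ n) (c η B' : ℝ) (hc : 0 ≤ c) (hη : 0 ≤ η)
    (hB' : c * (n / (n + 1)) * (1 + η) ^ (n - 1) < B') :
    ∃ ε ε' θ : ℝ, 0 < ε ∧ ε < 1 ∧ ε < ε' ∧ 1 - ε < θ ∧ θ < 1 ∧
      c * n * ε' * (1 + η + ε') ^ (n - 1) < B' * (1 - θ ^ (n + 1)) := by
  have hn1 : (0 : ℝ) < (n : ℝ) + 1 := by positivity
  have hB0 : 0 < B' := lt_of_le_of_lt (by positivity) hB'
  have hF : Continuous fun ε : ℝ => c * n * (1 + ε) * (1 + η + ε * (1 + ε)) ^ (n - 1) := by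
    fun_prop
  have hG : Continuous fun ε : ℝ => B' * ((n + 1) * (1 - ε) * (1 - ε + ε ^ 2) ^ n) := by
    fun_prop
  have h0 : c * n * (1 + 0) * (1 + η + 0 * (1 + 0)) ^ (n - 1) <
      B' * (((n : ℝ) + 1) * (1 - 0) * (1 - 0 + 0 ^ 2) ^ n) := by
    have h1 : c * n * (1 + η) ^ (n - 1) < B' * ((n : ℝ) + 1) := by
      have h2 := mul_lt_mul_of_pos_right hB' hn1
      have h3 : c * (n / (n + 1)) * (1 + η) ^ (n - 1) * ((n : ℝ) + 1) =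
          c * n * (1 + η) ^ (n - 1) := by
        field_simp
      rwa [h3] at h2
    simpa using h1
  have h1 : ∀ᶠ ε : ℝ in nhds 0, c * n * (1 + ε) * (1 + η + ε * (1 + ε)) ^ (n - 1) <
      B' * ((n + 1) * (1 - ε) * (1 - ε + ε ^ 2) ^ n) :=
    hF.continuousAt.eventually_lt hG.continuousAt h0
  have h2 : ∀ᶠ ε : ℝ in nhdsWithin 0 (Set.Ioi 0), 0 < ε ∧ ε < 1 := by
    have h3 : Set.Ioo (0 : ℝ) 1 ∈ nhdsWithin (0 : ℝ) (Set.Ioi 0) := Ioo_mem_nhdsGT one_pos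
    filter_upwards [h3] with ε hε
    exact hε
  obtain ⟨ε, h3, hε0, hε1⟩ := ((h1.filter_mono nhdsWithin_le_nhds).and h2).exists
  have hε2 : ε ^ 2 < ε := by nlinarith
  have hθ0 : 0 ≤ 1 - ε + ε ^ 2 := by nlinarith
  refine ⟨ε, ε * (1 + ε), 1 - ε + ε ^ 2, hε0, hε1, by nlinarith, by nlinarith, by linarith, ?_⟩
  have h4 := Asy_low n hθ0 (by linarith : 1 - ε + ε ^ 2 ≤ 1)
  have h5 := mul_lt_mul_of_pos_left h3 hε0
  calc c * n * (ε * (1 + ε)) * (1 + η + ε * (1 + ε)) ^ (n - 1)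
      = ε * (c * n * (1 + ε) * (1 + η + ε * (1 + ε)) ^ (n - 1)) := by ring
    _ < ε * (B' * ((n + 1) * (1 - ε) * (1 - ε + ε ^ 2) ^ n)) := h5
    _ = B' * (((n : ℝ) + 1) * (1 - (1 - ε + ε ^ 2)) * (1 - ε + ε ^ 2) ^ n) := by ring
    _ ≤ B' * (1 - (1 - ε + ε ^ 2) ^ (n + 1)) := mul_le_mul_of_nonneg_left h4 hB0.le

end BP
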