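import Pool.Agent.Lib.MP_9e8926_ag_BP.Pre
import Pool.Agent.Lib.MP_9e8926_ag_DP.CntA

/-!
# Asymptotics of the Hilbert function
-/

set_option autoImplicit false
set_option linter.unusedVariables false

noncomputable section

namespace BP

/-- The leading coefficient `a_0 / (n! w_1 ⋯ w_n)`. -/
def cN {n : ℕ} (w : Fin (n + 1) → ℕ) (a0 : ℕ) : ℝ :=
  (a0 : ℝ) / ((n.factorial : ℝ) * ∏ i : Fin n, (w i.succ : ℝ))

/-- The error constant. -/
def aN {n : ℕ} (w : Fin (n + 1) → ℕ) (a0 : ℕ) : ℝ := (w 0 : ℝ) * a0 + ∑ i : Fin n, (w i.succ : ℝ)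

/-- (Split by the value `i` of `m_0`; `DP.sx`, `DP.mem_sx`.) -/
theorem SN_eq {n : ℕ} (w : Fin (n + 1) → ℕ) (hw : ∀ i, 0 < w i) (a0 X : ℕ) :
    SN w a0 X = ∑ i ∈ Finset.range a0, (DP.sx (fun v : Fin n => w v.succ) (X - w 0 * i)).card := by
  classical
  set T : Finset (Fin (n + 1) → ℕ) := (DP.sx w X).filter fun m => m 0 < a0 with hT
  have hmT : ∀ m, m ∈ T ↔ ∑ i, w i * m i < X ∧ m 0 < a0 := by
    intro m
    rw [hT, Finset.mem_filter, DP.mem_sx hw]
  have h1 : ∀ s ∈ Finset.range X, NN w a0 s = (T.filter fun m => ∑ i, w i * m i = s).card := by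
    intro s hs
    rw [Finset.mem_range] at hs
    unfold NN
    rw [← Set.ncard_coe_finset]
    congr 1
    ext m
    rw [Set.mem_setOf_eq, Finset.mem_coe, Finset.mem_filter, hmT]
    constructor
    · rintro ⟨h2, h3⟩
      exact ⟨⟨by omega, h2⟩, h3⟩
    · rintro ⟨⟨-, h2⟩, h3⟩
      exact ⟨h2, h3⟩
  unfold SN
  rw [Finset.sum_congr rfl h1, ← Finset.card_eq_sum_card_fiberwise (t := Finset.range X)
    (fun m hm => by
      rw [Finset.mem_coe, hmT] at hm
      rw [Finset.mem_coe, Finset.mem_range]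
      exact hm.1),
    Finset.card_eq_sum_card_fiberwise (f := fun m : Fin (n + 1) → ℕ => m 0)
      (t := Finset.range a0) (fun m hm => by
      rw [Finset.mem_coe, hmT] at hm
      rw [Finset.mem_coe, Finset.mem_range]
      exact hm.2)]
  refine Finset.sum_congr rfl fun i hi => ?_
  rw [Finset.mem_range] at hi
  refine Finset.card_nbij' (fun m v => m v.succ) (fun m => Fin.cons i m) ?_ ?_ ?_ ?_
  · intro m hm
    rw [Finset.mem_coe, Finset.mem_filter, hmT, Fin.sum_univ_succ] at hm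
    rw [Finset.mem_coe, DP.mem_sx (fun v => hw _)]
    obtain ⟨⟨h2, -⟩, h3⟩ := hm
    rw [h3] at h2
    change ∑ v : Fin n, w v.succ * m v.succ < X - w 0 * i
    omega
  · intro m hm
    rw [Finset.mem_coe, DP.mem_sx (fun v => hw _)] at hm
    rw [Finset.mem_coe, Finset.mem_filter, hmT, Fin.sum_univ_succ]
    simp only [Fin.cons_zero, Fin.cons_succ]
    refine ⟨⟨?_, hi⟩, trivial⟩
    omega
  · intro m hm
    rw [Finset.mem_coe, Finset.mem_filter] at hm
    rw [← hm.2]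
    exact Fin.cons_self_tail m
  · intro m _
    simp only [Fin.cons_succ]

/-- (`SN_eq`, `DP.card_up`.) -/
theorem SN_up {n : ℕ} (w : Fin (n + 1) → ℕ) (hw : ∀ i, 0 < w i) (a0 X : ℕ) :
    (SN w a0 X : ℝ) ≤ cN w a0 * ((X : ℝ) + aN w a0) ^ n := by
  have hP : (0 : ℝ) < (n.factorial : ℝ) * ∏ i : Fin n, (w i.succ : ℝ) := by
    refine mul_pos (by exact_mod_cast n.factorial_pos) (Finset.prod_pos fun i _ => ?_)
    exact_mod_cast hw _
  have hS : (0 : ℝ) ≤ ∑ i : Fin n, (w i.succ : ℝ) :=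
    Finset.sum_nonneg fun _ _ => Nat.cast_nonneg _
  rw [SN_eq w hw, Nat.cast_sum]
  have h1 : ∀ i ∈ Finset.range a0,
      ((DP.sx (fun v : Fin n => w v.succ) (X - w 0 * i)).card : ℝ) ≤
      ((X : ℝ) + aN w a0) ^ n / ((n.factorial : ℝ) * ∏ i : Fin n, (w i.succ : ℝ)) := by
    intro i _
    rw [le_div_iff₀ hP]
    have h2 := DP.card_up (fun v : Fin n => w v.succ) (fun v => hw _) (X - w 0 * i)
    rw [Fintype.card_fin] at h2
    rw [mul_comm]
    refine h2.trans (pow_le_pow_left₀ (add_nonneg (Nat.cast_nonneg _) hS) ?_ n)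
    have h3 : ((X - w 0 * i : ℕ) : ℝ) ≤ X := by exact_mod_cast Nat.sub_le _ _
    have h4 : (0 : ℝ) ≤ (w 0 : ℝ) * a0 := by positivity
    unfold aN
    linarith
  refine (Finset.sum_le_sum h1).trans (le_of_eq ?_)
  rw [Finset.sum_const, Finset.card_range, nsmul_eq_mul]
  unfold cN
  ring

/-- (`SN_eq`, `DP.card_low` for `X - w_0 i`, which is `≥ X - w_0 a0`.) -/
theorem SN_low {n : ℕ} (hn : 1 ≤ n) (w : Fin (n + 1) → ℕ) (hw : ∀ i, 0 < w i) (a0 X : ℕ) :
    cN w a0 * max 0 ((X : ℝ) - aN w a0) ^ n ≤ (SN w a0 X : ℝ) := by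
  have hP : (0 : ℝ) < (n.factorial : ℝ) * ∏ i : Fin n, (w i.succ : ℝ) := by
    refine mul_pos (by exact_mod_cast n.factorial_pos) (Finset.prod_pos fun i _ => ?_)
    exact_mod_cast hw _
  have hS : (0 : ℝ) ≤ ∑ i : Fin n, (w i.succ : ℝ) :=
    Finset.sum_nonneg fun _ _ => Nat.cast_nonneg _
  rw [SN_eq w hw, Nat.cast_sum]
  have h1 : ∀ i ∈ Finset.range a0,
      max 0 ((X : ℝ) - aN w a0) ^ n / ((n.factorial : ℝ) * ∏ i : Fin n, (w i.succ : ℝ)) ≤
      ((DP.sx (fun v : Fin n => w v.succ) (X - w 0 * i)).card : ℝ) := by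
    intro i hi
    rw [Finset.mem_range] at hi
    rw [div_le_iff₀ hP]
    have h2 := DP.card_low (υ := Fin n) (by rw [Fintype.card_fin]; exact hn)
      (fun v : Fin n => w v.succ) (fun v => hw _) (X - w 0 * i)
    rw [Fintype.card_fin] at h2
    rw [mul_comm]
    refine le_trans (pow_le_pow_left₀ (le_max_left _ _) ?_ n) h2
    have h3 : (X : ℝ) ≤ ((X - w 0 * i : ℕ) : ℝ) + w 0 * i := by
      have : X ≤ (X - w 0 * i) + w 0 * i := by omega
      exact_mod_cast this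
    have h4 : (w 0 : ℝ) * i ≤ (w 0 : ℝ) * a0 :=
      mul_le_mul_of_nonneg_left (by exact_mod_cast hi.le) (Nat.cast_nonneg _)
    refine max_le (Nat.cast_nonneg _) ?_
    unfold aN
    linarith
  refine le_trans (le_of_eq ?_) (Finset.sum_le_sum h1)
  rw [Finset.sum_const, Finset.card_range, nsmul_eq_mul]
  unfold cN
  ring

end BP
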