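import Pool.Agent.Lib.MP_9e8926_ag_BP.Slc
import Pool.Agent.Lib.MP_9e8926_ag_BP.CntN
import Pool.Agent.Lib.MP_9e8926_ag_BP.Asy

/-!
# The average over balls
-/

set_option autoImplicit false
set_option linter.unusedVariables false

noncomputable section

namespace BP

open MvPolynomial

/-- The constant `κ_0 = 2 W J' / (p (1 + η)^(n-1))`, `η = (4 n + 4) / J'`. -/
def kap (n W p J' : ℕ) : ℝ := 2 * W * J' / (p * (1 + (4 * n + 4) / (J' : ℝ)) ^ (n - 1))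

/-- Proof (`n = m + 2`, `η = (4 n + 4) / J'`).  The function `G` of `exists_G` (its hypothesis `hbd` is
`inn_top_level` with `e` large: `s ≤ W p^e J'`, `Λ = ⌈t p^(e+1)⌉₊`).  For `e` let `S = W p^e J'`,
`σ = sig` at `q = p^(e+1)`, `q = (p / (W J')) S`; `sig_bounds` gives `2 S ≤ σ ≤ (2 + η) S`.  For given
`δ > 0` let `B'_1 = (B0 + δ) 2 W J' / (t p)` if `t > 0`, so that
`cN (n/(n+1)) (1 + η)^(n-1) < B'_1`; take `ε, ε', θ` from `exists_eps`.  `slab_ineq` with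
`lo = ⌈(1 - ε) S⌉₊` and `slab_asy` (`SN_up`, `SN_low`) give
`HX S - HX lo ≤ (t p / (2 W J')) (cN n ε' (1 + η + ε')^(n-1)) S^(n+1) = B S^(n+1)`, for `e` large.
`ball` with `C` large, `κ = α a_last`, `c0 = (a_1, 0, …, 0, 1)` gives the statement.  If `t = 0` the
slab inequality gives `HX S - HX lo ≤ 0` and `ball` with `B = 0`. -/
theorem bal {m : ℕ} {K : Type*} [Field K] [IsAlgClosed K] (p : ℕ) [Fact p.Prime] [CharP K p]
    (a w : Fin (m + 3) → ℕ) (ha : ∀ i, 1 ≤ a i) (hw : ∀ i, 0 < w i) (W : ℕ) (hW : 0 < W)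
    (haw : ∀ i, a i * w i = W) (c : Fin (m + 3) → K) (hc : ∀ i, c i ≠ 0) (h0 : (a 0 : K) ≠ 0)
    (b : Fin (m + 3) → ℚ) (hb : ∀ i, 0 ≤ b i ∧ b i < 1) (hρ : 0 < rho a b) (hρ2 : rho a b ≤ 2)
    (J' : ℕ) (hP : Par a b p J') (f : MvPolynomial (Fin (m + 3)) K) (t : ℝ) (ht : 0 ≤ t)
    (Jc : ℕ → Ideal (MvPolynomial (Fin (m + 3)) K)) (hJ : Fam w W f (f0 c a) b p t Jc) :
    ∃ G : (Fin (a 0 / Nat.gcd (a 0) (a 1)) × Fin (a (Fin.last (m + 2)))) × (Fin (m + 2) → ℕ) → ℕ,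
      (∀ s l : ℕ, 1 ≤ l → Set.ncard {x | dG w (W / Nat.gcd (a 0) (a 1)) x = s ∧ l ≤ G x} +
        Module.finrank K (F0 w (f0 c a) s) = Module.finrank K (inn w (Jc l) s)) ∧
      ∀ δ : ℝ, 0 < δ → ∃ M : ℝ, ∀ X : ℕ,
        (HX (wG w (W / Nat.gcd (a 0) (a 1))) (dl w) G X : ℝ) ≤
          (t * cN w (a 0) * (((m + 2 : ℕ) : ℝ) / ((m + 2 : ℕ) + 1)) / kap (m + 2) W p J' + δ) *
            (X : ℝ) ^ (m + 3) + M := by
  have hp : 2 ≤ p := (Fact.out : p.Prime).two_le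
  have hJ1 : 1 ≤ J' := hP.one
  have hbd : ∀ s, ∃ Λ, ∀ l, Λ ≤ l → inn w (Jc l) s ≤ F0 w (f0 c a) s := by
    intro s
    refine ⟨⌈t * (p : ℝ) ^ (s + 1)⌉₊, fun l hl => ?_⟩
    refine inn_top_level p s a w W hW haw c hc b J' hP f t Jc hJ s ?_ l ?_
    · have h1 : s < p ^ s := Nat.lt_pow_self (by omega)
      calc s ≤ p ^ s * J' := le_trans h1.le (Nat.le_mul_of_pos_right _ (by omega))
        _ ≤ W * (p ^ s * J') := Nat.le_mul_of_pos_left _ hW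
    · exact (Nat.le_ceil _).trans (by exact_mod_cast hl)
  obtain ⟨G, hG, hdom⟩ := exists_G a w ha hw W hW haw c hc h0 f hJ.lead1 hJ.lead2 Jc hJ.anti
    hJ.mul hJ.mem hbd
  refine ⟨G, hG, fun δ hδ => ?_⟩
  have hg : 0 < Nat.gcd (a 0) (a 1) := Nat.gcd_pos_of_pos_left _ (ha 0)
  have hga : Nat.gcd (a 0) (a 1) ≤ a 0 := Nat.gcd_le_left _ (ha 0)
  have hWg : 0 < W / Nat.gcd (a 0) (a 1) := by
    refine Nat.div_pos (hga.trans ?_) hg
    rw [← haw 0]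
    exact Nat.le_mul_of_pos_right _ (hw 0)
  have hω : ∀ v, 1 ≤ wG w (W / Nat.gcd (a 0) (a 1)) v := by
    intro v
    unfold wG
    split_ifs
    · exact hWg
    · exact hw _
  have hκ : 0 < a 0 / Nat.gcd (a 0) (a 1) * a (Fin.last (m + 2)) :=
    Nat.mul_pos (Nat.div_pos hga hg) (ha _)
  have hpr : (0 : ℝ) < p := by exact_mod_cast (by omega : 0 < p)
  have hWr : (0 : ℝ) < W := by exact_mod_cast hW
  have hJr : (0 : ℝ) < J' := by exact_mod_cast hJ1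
  have hcN : 0 < cN w (a 0) := by
    unfold cN
    have h1 : (0 : ℝ) < a 0 := by exact_mod_cast ha 0
    have h2 : (0 : ℝ) < ∏ i : Fin (m + 2), (w i.succ : ℝ) :=
      Finset.prod_pos fun i _ => by exact_mod_cast hw _
    have h3 : (0 : ℝ) < ((m + 2).factorial : ℝ) := by exact_mod_cast Nat.factorial_pos _
    positivity
  have haN : 0 ≤ aN w (a 0) := by
    unfold aN
    have h2 : (0 : ℝ) ≤ ∑ i : Fin (m + 2), (w i.succ : ℝ) :=
      Finset.sum_nonneg fun i _ => Nat.cast_nonneg _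
    positivity
  obtain ⟨η, hη⟩ : ∃ η : ℝ, η = (4 * ((m + 2 : ℕ) : ℝ) + 4) / (J' : ℝ) := ⟨_, rfl⟩
  have hη0 : 0 ≤ η := by
    rw [hη]
    positivity
  obtain ⟨r, hr⟩ : ∃ r : ℝ, r = t * p / (2 * W * J') := ⟨_, rfl⟩
  have hr0 : 0 ≤ r := by
    rw [hr]
    positivity
  obtain ⟨κ1, hκ1⟩ : ∃ κ1 : ℝ, κ1 = cN w (a 0) * (((m + 2 : ℕ) : ℝ) / (((m + 2 : ℕ) : ℝ) + 1)) *
    (1 + η) ^ (m + 2 - 1) := ⟨_, rfl⟩
  have hlt : cN w (a 0) * (((m + 2 : ℕ) : ℝ) / (((m + 2 : ℕ) : ℝ) + 1)) *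
      (1 + η) ^ (m + 2 - 1) < κ1 + δ / (r + 1) := by
    rw [← hκ1]
    have : 0 < δ / (r + 1) := by positivity
    linarith
  obtain ⟨ε, ε', θ, hε, hε1, hε', hθ, hθ1, hfin⟩ :=
    exists_eps (m + 2) (by omega) (cN w (a 0)) η (κ1 + δ / (r + 1)) hcN.le hη0 hlt
  obtain ⟨Bc, hBc⟩ : ∃ Bc : ℝ, Bc = cN w (a 0) * ((m + 2 : ℕ) : ℝ) * ε' *
    (1 + η + ε') ^ (m + 2 - 1) := ⟨_, rfl⟩
  rw [← hBc] at hfin
  have hBc0 : 0 ≤ Bc := by
    rw [hBc]
    have h1 : 0 < ε' := hε.trans hε'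
    positivity
  have hB'e : t * cN w (a 0) * (((m + 2 : ℕ) : ℝ) / (((m + 2 : ℕ) : ℝ) + 1)) /
      kap (m + 2) W p J' = r * κ1 := by
    unfold kap
    rw [← hη, hκ1, hr]
    have h1 : 0 < (1 + η) ^ (m + 2 - 1) := by positivity
    have h2 : (0 : ℝ) < ((m + 2 : ℕ) : ℝ) + 1 := by positivity
    field_simp
  have hcard : Fintype.card (Fin (m + 2)) + 1 = m + 3 := by rw [Fintype.card_fin]
  have hθ0 : 0 < θ := by linarith
  have hpow : 0 < 1 - θ ^ (m + 3) := by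
    have := pow_lt_one₀ hθ0.le hθ1 (show m + 3 ≠ 0 by omega)
    linarith
  have hBB : r * Bc < (r * κ1 + δ) * (1 - θ ^ (m + 3)) := by
    have h1 : r * Bc ≤ r * ((κ1 + δ / (r + 1)) * (1 - θ ^ (m + 3))) :=
      mul_le_mul_of_nonneg_left hfin.le hr0
    have h2 : r * (δ / (r + 1)) < δ := by
      rw [← mul_div_assoc, div_lt_iff₀ (by linarith)]
      nlinarith
    have h3 : r * ((κ1 + δ / (r + 1)) * (1 - θ ^ (m + 3))) =
        (r * κ1 + r * (δ / (r + 1))) * (1 - θ ^ (m + 3)) := by ring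
    rw [h3] at h1
    refine h1.trans_lt (mul_lt_mul_of_pos_right (by linarith) hpow)
  obtain ⟨S0, hS0⟩ := slab_asy (m + 2) (by omega) (cN w (a 0)) (aN w (a 0)) η ε ε' hcN haN hη0
    hε hε1 hε' (fun X => (SN w (a 0) X : ℝ)) (fun X => SN_up w hw (a 0) X)
    (fun X => SN_low (by omega) w hw (a 0) X)
  have hslab : ∀ S1 : ℕ, ∃ s : ℕ, S1 ≤ s ∧
      (HX (wG w (W / Nat.gcd (a 0) (a 1))) (dl w) G s : ℝ) -
        HX (wG w (W / Nat.gcd (a 0) (a 1))) (dl w) G ⌈(1 - ε) * s⌉₊ ≤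
      r * Bc * (s : ℝ) ^ (Fintype.card (Fin (m + 2)) + 1) := by
    intro S1
    obtain ⟨e, he⟩ : ∃ e : ℕ, e = max S0 S1 := ⟨_, rfl⟩
    have h1 : e ≤ W * (p ^ e * J') := by
      have h1 : e < p ^ e := Nat.lt_pow_self (by omega)
      calc e ≤ p ^ e * J' := le_trans h1.le (Nat.le_mul_of_pos_right _ (by omega))
        _ ≤ W * (p ^ e * J') := Nat.le_mul_of_pos_left _ hW
    obtain ⟨S, hS⟩ : ∃ S : ℕ, S = W * (p ^ e * J') := ⟨_, rfl⟩
    have hSS0 : S0 ≤ S := by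
      have := le_max_left S0 S1
      omega
    have hSS1 : S1 ≤ S := by
      have := le_max_right S0 S1
      omega
    refine ⟨S, hSS1, ?_⟩
    have hSr : (S : ℝ) = W * ((p : ℝ) ^ e * J') := by
      rw [hS]
      push_cast
      ring
    obtain ⟨hs1, hs2⟩ := sig_bounds (n := m + 2) (by omega) a w ha W haw b hb hρ hρ2 p J'
      (by omega) hP e
    rw [← hS] at hs1 hs2
    have hσ1 : (2 * S : ℤ) ≤ sig w W b (p ^ (e + 1)) := by
      have h2 : (0 : ℤ) ≤ ((m + 2 + 1 : ℕ) : ℤ) * (W : ℤ) := by positivity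
      push_cast at hs1 h2 ⊢
      linarith
    have hσ2 : ((sig w W b (p ^ (e + 1)) : ℤ) : ℝ) ≤ (2 + η) * S := by
      have h2 : ((sig w W b (p ^ (e + 1)) : ℤ) : ℝ) ≤
          2 * (S : ℝ) + ((4 * (m + 2) + 4) * W * p ^ e : ℕ) := by
        exact_mod_cast hs2
      refine h2.trans (le_of_eq ?_)
      have h3 : η * S = (4 * ((m + 2 : ℕ) : ℝ) + 4) * W * (p : ℝ) ^ e := by
        rw [hη, hSr]
        field_simp
      have h4 : (2 + η) * (S : ℝ) = 2 * S + η * S := by ring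
      rw [h4, h3]
      push_cast
      ring
    have hlo : ⌈(1 - ε) * (S : ℝ)⌉₊ ≤ W * (p ^ e * J') := by
      rw [← hS]
      refine Nat.ceil_le.2 ?_
      have : (0 : ℝ) ≤ S := Nat.cast_nonneg S
      nlinarith
    have h4 := slab_ineq p e a w ha hw W hW haw c hc b hb hρ hρ2 J' hP f t ht Jc hJ G hG
      ⌈(1 - ε) * (S : ℝ)⌉₊ hlo
    rw [← hS] at h4
    have h5 := hS0 S (sig w W b (p ^ (e + 1))) hSS0 hσ1 hσ2
    rw [← hBc] at h5
    have h6 : (0 : ℝ) ≤ t * (p : ℝ) ^ (e + 1) := by positivity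
    have h7 := h4.trans (mul_le_mul_of_nonneg_left h5 h6)
    have h8 : t * (p : ℝ) ^ (e + 1) * (Bc * (S : ℝ) ^ (m + 2)) =
        2 * (r * Bc * (S : ℝ) ^ (m + 3)) := by
      have h9 : r * (S : ℝ) = t * (p : ℝ) ^ (e + 1) / 2 := by
        rw [hr, hSr, pow_succ]
        field_simp
      have h10 : r * Bc * (S : ℝ) ^ (m + 3) = (r * S) * Bc * (S : ℝ) ^ (m + 2) := by ring
      rw [h10, h9]
      ring
    rw [h8] at h7
    rw [hcard]
    linarith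
  obtain ⟨M, hM⟩ := ball (wG w (W / Nat.gcd (a 0) (a 1))) hω (dl w) G
    (fun v => if v = 0 then a 1 else if v = Fin.last (m + 1) then 1 else 0)
    ((∑ i : Fin (a 0 / Nat.gcd (a 0) (a 1)) × Fin (a (Fin.last (m + 2))), dl w i) + ∑ v, wG w (W / Nat.gcd (a 0) (a 1)) v +
      ∑ v, wG w (W / Nat.gcd (a 0) (a 1)) v *
        (if v = 0 then a 1 else if v = Fin.last (m + 1) then 1 else 0))
    (fun i => by
      exact Nat.add_le_add_right (Nat.add_le_add_right (Finset.single_le_sum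
        (f := fun i : Fin (a 0 / Nat.gcd (a 0) (a 1)) × Fin (a (Fin.last (m + 2))) => dl w i)
        (fun _ _ => Nat.zero_le _) (Finset.mem_univ i)) _) _)
    _ hκ (fun k hk hd i j β => hdom k hk hd i j β) (r * Bc) ε (mul_nonneg hr0 hBc0) hε hε1
    hslab θ hθ hθ1 (r * κ1 + δ) (by rw [hcard]; exact hBB)
  refine ⟨M, fun X => ?_⟩
  have h11 := hM X
  rw [hcard] at h11
  rw [hB'e]
  exact h11

end BP
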