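import Pool.Agent.Lib.MP_9e8926_ag_BP.In

/-!
# Dimensions of spaces of leading forms
-/

set_option autoImplicit false
set_option linter.unusedVariables false

noncomputable section

namespace BP

open MvPolynomial

variable {ι : Type*} [Fintype ι] {k : Type*} [Field k] {w : ι → ℕ}

/-- (Copy of `DP.sum_finrank`.) -/
theorem sum_finrank (hw : ∀ i, 0 < w i) (I : Ideal (MvPolynomial ι k))
    [Module.Finite k (MvPolynomial ι k ⧸ I)] (F : Finset ℕ) :
    ∑ s ∈ F, Module.finrank k (PP k w s : Submodule k (MvPolynomial ι k)) ≤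
      Module.finrank k (MvPolynomial ι k ⧸ I) + ∑ s ∈ F, Module.finrank k (inn w I s) := by
  classical
  let W : ∀ s : ℕ, Submodule k (PP k w s : Submodule k (MvPolynomial ι k)) :=
    fun s => (inn w I s).comap (PP k w s).subtype
  have hW : ∀ s, Module.finrank k (W s) = Module.finrank k (inn w I s) := fun s =>
    (Submodule.comapSubtypeEquivOfLe (inn_le I s)).finrank_eq
  have hsec : ∀ s, ∃ c : ((PP k w s : Submodule k (MvPolynomial ι k)) ⧸ W s) →ₗ[k]
      (PP k w s : Submodule k (MvPolynomial ι k)), ∀ x, (W s).mkQ (c x) = x := by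
    intro s
    obtain ⟨c, hc⟩ := LinearMap.exists_rightInverse_of_surjective (W s).mkQ (W s).range_mkQ
    exact ⟨c, fun x => LinearMap.congr_fun hc x⟩
  choose c hc using hsec
  let Ψ : (∀ s : F, (PP k w s.1 : Submodule k (MvPolynomial ι k)) ⧸ W s.1) →ₗ[k]
      (MvPolynomial ι k ⧸ I) :=
    ∑ s : F, ((Ideal.Quotient.mkₐ k I).toLinearMap ∘ₗ (PP k w s.1).subtype ∘ₗ (c s.1)) ∘ₗ
      LinearMap.proj s
  have hΨ : ∀ x, Ψ x = Ideal.Quotient.mk I (∑ s : F, (c s.1 (x s) : MvPolynomial ι k)) := by
    intro x
    rw [map_sum, LinearMap.sum_apply]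
    rfl
  have hinj : Function.Injective Ψ := by
    rw [injective_iff_map_eq_zero]
    intro x hx
    rw [hΨ, Ideal.Quotient.eq_zero_iff_mem] at hx
    by_contra hne
    obtain ⟨ν', hν'⟩ := Function.ne_iff.mp hne
    obtain ⟨s0, hs0, hmin⟩ := Finset.exists_min_image
      (Finset.univ.filter fun s : F => x s ≠ 0) (fun s => s.1)
      ⟨ν', Finset.mem_filter.2 ⟨Finset.mem_univ _, hν'⟩⟩
    have hx0 : x s0 ≠ 0 := (Finset.mem_filter.1 hs0).2
    apply hx0
    rw [← hc s0.1 (x s0), Submodule.mkQ_apply, Submodule.Quotient.mk_eq_zero]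
    change (c s0.1 (x s0) : MvPolynomial ι k) ∈ inn w I s0.1
    refine ⟨_, hx, ?_, ?_⟩
    · intro m hm
      obtain ⟨s, hs, hms⟩ := Finset.mem_biUnion.1 (support_sum hm)
      have h1 : wd w m = s.1 := (c s.1 (x s)).2 m hms
      rw [h1]
      refine hmin s (Finset.mem_filter.2 ⟨Finset.mem_univ _, fun h2 => ?_⟩)
      rw [h2, map_zero] at hms
      simp at hms
    · rw [map_sum, Finset.sum_eq_single s0]
      · exact comp_of_mem (c s0.1 (x s0)).2
      · intro s _ hs
        exact comp_of_ne (c s.1 (x s)).2 fun h1 => hs (Subtype.ext h1)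
      · intro h1
        exact absurd (Finset.mem_univ _) h1
  have hfin : ∀ s, Module.Finite k (PP k w s : Submodule k (MvPolynomial ι k)) := PP_finite hw
  have h1 : ∑ s ∈ F, Module.finrank k ((PP k w s : Submodule k (MvPolynomial ι k)) ⧸ W s) ≤
      Module.finrank k (MvPolynomial ι k ⧸ I) := by
    have hfree : ∀ s : F, Module.Free k
        ((PP k w s.1 : Submodule k (MvPolynomial ι k)) ⧸ W s.1) := fun s =>
      Module.Free.of_divisionRing k _
    have hfi : ∀ s : F, Module.Finite k
        ((PP k w s.1 : Submodule k (MvPolynomial ι k)) ⧸ W s.1) := fun s =>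
      Module.Finite.quotient k (W s.1)
    rw [← Finset.sum_coe_sort, ← Module.finrank_pi_fintype]
    exact LinearMap.finrank_le_finrank_of_injective hinj
  have h2 : ∑ s ∈ F, Module.finrank k (PP k w s : Submodule k (MvPolynomial ι k)) =
      ∑ s ∈ F, Module.finrank k ((PP k w s : Submodule k (MvPolynomial ι k)) ⧸ W s) +
        ∑ s ∈ F, Module.finrank k (inn w I s) := by
    rw [← Finset.sum_add_distrib]
    refine Finset.sum_congr rfl fun s _ => ?_
    rw [← hW s, Submodule.finrank_quotient_add_finrank]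
  rw [h2]
  exact Nat.add_le_add_right h1 _

/-- A complement of the leading forms. -/
private theorem InB_compl (hw : ∀ i, 0 < w i) (I : Ideal (MvPolynomial ι k)) (s : ℕ) :
    ∃ E : Submodule k (MvPolynomial ι k), E ≤ PP k w s ∧
      Module.finrank k E + Module.finrank k (inn w I s) =
        Module.finrank k (PP k w s : Submodule k (MvPolynomial ι k)) ∧
      ∀ u ∈ PP k w s, ∃ c ∈ E, u - c ∈ inn w I s := by
  classical
  have hfin : Module.Finite k (PP k w s : Submodule k (MvPolynomial ι k)) := PP_finite hw s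
  let V : Submodule k (PP k w s : Submodule k (MvPolynomial ι k)) :=
    (inn w I s).comap (PP k w s).subtype
  have hV : Module.finrank k V = Module.finrank k (inn w I s) :=
    (Submodule.comapSubtypeEquivOfLe (inn_le I s)).finrank_eq
  obtain ⟨W, hVW⟩ := Submodule.exists_isCompl V
  refine ⟨W.map (PP k w s).subtype, Submodule.map_subtype_le _ _, ?_, ?_⟩
  · have h1 : Module.finrank k (W.map (PP k w s).subtype) = Module.finrank k W :=
      LinearEquiv.finrank_eq
        (Submodule.equivMapOfInjective _ (PP k w s).injective_subtype W).symm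
    have h2 : Module.finrank k V + Module.finrank k W =
        Module.finrank k (PP k w s : Submodule k (MvPolynomial ι k)) :=
      Submodule.finrank_add_eq_of_isCompl hVW
    rw [h1, ← hV, add_comm, h2]
  · intro u hu
    have h1 : (⟨u, hu⟩ : PP k w s) ∈ V ⊔ W := by
      rw [hVW.sup_eq_top]
      exact Submodule.mem_top
    obtain ⟨a, ha, c, hc, hac⟩ := Submodule.mem_sup.1 h1
    refine ⟨c.1, ⟨c, hc, rfl⟩, ?_⟩
    have h2 : u - c.1 = a.1 := by
      have h3 : a.1 + c.1 = u := congrArg Subtype.val hac
      rw [← h3, add_sub_cancel_right]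
    rw [h2]
    exact ha

/-- The reverse inequality for ideals which contain all polynomials of weight `≥ C`.  (By
`Wt k w C ≤ I` and the reduction of a polynomial modulo `I`: let `E_s` be a complement of
`inn w I s` in `PP k w s` for `s < C`; every polynomial is congruent modulo `I` to an element of
`∑_{s < C} E_s`: induction on the lowest weight `s < C`: the component of weight `s` of `u` (with
`Ge w s u`) is `e + comp s h` with `e ∈ E_s`, `h ∈ I`, `Ge w s h`, and `u - e - h` satisfies
`Ge w (s + 1)`; for `s = C` the polynomial is in `I`.  See `DP.red`, `DP.finrank_Wt` (RedA, RedB).) -/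
theorem finrank_le_sum (hw : ∀ i, 0 < w i) (I : Ideal (MvPolynomial ι k)) (C : ℕ)
    (hC : Wt k w C ≤ I) :
    Module.Finite k (MvPolynomial ι k ⧸ I) ∧
    Module.finrank k (MvPolynomial ι k ⧸ I) + ∑ s ∈ Finset.range C, Module.finrank k (inn w I s) ≤
      ∑ s ∈ Finset.range C, Module.finrank k (PP k w s : Submodule k (MvPolynomial ι k)) := by
  classical
  choose W hWle hWdim hWQ using InB_compl (k := k) hw I
  have hWfin : ∀ s, Module.Finite k (W s) := fun s => by
    have := PP_finite (k := k) hw s
    exact Submodule.finiteDimensional_of_le (hWle s)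
  let F := Finset.range C
  let T : Type _ := ∀ s : {s // s ∈ F}, W s.1
  let S : T →ₗ[k] MvPolynomial ι k :=
    ∑ s : {s // s ∈ F}, (W s.1).subtype ∘ₗ LinearMap.proj s
  have hS : ∀ (s : {s // s ∈ F}) (c : W s.1), S (Pi.single s c) = c.1 := by
    intro s c
    have h1 : S (Pi.single s c) =
        ∑ s' : {s // s ∈ F}, ((Pi.single s c : T) s' : MvPolynomial ι k) := by
      rw [LinearMap.sum_apply]
      rfl
    rw [h1, Finset.sum_eq_single s]
    · rw [Pi.single_eq_same]
    · intro s' _ hs'
      rw [Pi.single_eq_of_ne hs']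
      rfl
    · intro h
      exact absurd (Finset.mem_univ s) h
  have hGsub : ∀ (s : ℕ) (a b : MvPolynomial ι k), Ge w s a → Ge w s b → Ge w s (a - b) := by
    intro s a b ha hb m hm
    rcases Finset.mem_union.1 (support_sub _ a b hm) with h | h
    · exact ha m h
    · exact hb m h
  have hred : ∀ j : ℕ, j ≤ C → ∀ u : MvPolynomial ι k, Ge w (C - j) u →
      ∃ t : T, u - S t ∈ I := by
    intro j
    induction j with
    | zero =>
      intro _ u hu
      refine ⟨0, ?_⟩
      rw [map_zero, sub_zero]
      exact hC hu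
    | succ j ih =>
      intro hj u hu
      have hsC : C - (j + 1) ∈ F := Finset.mem_range.2 (by omega)
      obtain ⟨c, hc, h, hI, hGe, hcomp⟩ := hWQ (C - (j + 1)) (comp w (C - (j + 1)) u)
        (comp_mem _ u)
      have hcPP : c ∈ PP k w (C - (j + 1)) := hWle _ hc
      have hu' : Ge w (C - j) (u - c - h) := by
        intro m hm
        have h1 : C - (j + 1) ≤ wd w m :=
          hGsub _ _ _ (hGsub _ _ _ hu (ge_of_mem hcPP)) hGe m hm
        by_contra h2
        have h3 : wd w m = C - (j + 1) := by omega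
        have h4 : comp w (C - (j + 1)) (u - c - h) = 0 := by
          rw [map_sub, map_sub, hcomp, comp_of_mem hcPP, sub_self]
        have h5 := coeff_comp (w := w) (C - (j + 1)) (u - c - h) m
        rw [h4, if_pos h3, coeff_zero] at h5
        exact (mem_support_iff.1 hm) h5.symm
      obtain ⟨t, ht⟩ := ih (by omega) _ hu'
      refine ⟨t + Pi.single ⟨C - (j + 1), hsC⟩ ⟨c, hc⟩, ?_⟩
      have h6 : S (t + Pi.single ⟨C - (j + 1), hsC⟩ ⟨c, hc⟩) = S t + c := by
        rw [map_add]
        congr 1
        exact hS ⟨C - (j + 1), hsC⟩ ⟨c, hc⟩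
      rw [h6]
      have h7 : u - (S t + c) = (u - c - h - S t) + h := by ring
      rw [h7]
      exact I.add_mem ht hI
  let ψ : T →ₗ[k] (MvPolynomial ι k ⧸ I) := (Ideal.Quotient.mkₐ k I).toLinearMap ∘ₗ S
  have hψ : Function.Surjective ψ := by
    intro x
    obtain ⟨u, rfl⟩ := Ideal.Quotient.mk_surjective x
    obtain ⟨t, ht⟩ := hred C le_rfl u (by
      intro m _
      rw [Nat.sub_self]
      exact Nat.zero_le _)
    refine ⟨t, ?_⟩
    change Ideal.Quotient.mk _ (S t) = Ideal.Quotient.mk _ u
    rw [eq_comm, Ideal.Quotient.eq]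
    exact ht
  have hTfin : Module.Finite k T := Module.Finite.pi
  refine ⟨Module.Finite.of_surjective ψ hψ, ?_⟩
  have h1 := LinearMap.finrank_range_le ψ
  rw [LinearMap.range_eq_top.2 hψ, finrank_top] at h1
  have h2 : Module.finrank k T = ∑ s : {s // s ∈ F}, Module.finrank k (W s.1) :=
    Module.finrank_pi_fintype k
  have h3 : ∑ s : {s // s ∈ F}, Module.finrank k (W s.1) =
      ∑ s ∈ F, Module.finrank k (W s) :=
    Finset.sum_coe_sort F (fun s => Module.finrank k (W s))
  rw [h2, h3] at h1
  have h4 : ∑ s ∈ F, Module.finrank k (W s) + ∑ s ∈ F, Module.finrank k (inn w I s) =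
      ∑ s ∈ F, Module.finrank k (PP k w s : Submodule k (MvPolynomial ι k)) := by
    rw [← Finset.sum_add_distrib]
    exact Finset.sum_congr rfl fun s _ => hWdim s
  exact (Nat.add_le_add_right h1 _).trans (le_of_eq h4)

end BP
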