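import Pool.Agent.Lib.MP_9e8926_ag_BP.Bal
import Pool.Agent.Lib.MP_9e8926_ag_BP.InB

/-!
# The average of the colengths
-/

set_option autoImplicit false
set_option linter.unusedVariables false

noncomputable section

namespace BP

open MvPolynomial

/-- Proof.  For `N ≥ 1`: `sum_finrank` (over `s < X`), `finrank_F0` and the first property of `G` give
`SN X - finrank (P / Jc N) ≤ ∑_{s < X} #{x | dG x = s, N ≤ G x}`; sum over `N ≤ Nm` and use
`HX_layer_le`, `bal`. -/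
theorem bal_sum {m : ℕ} {K : Type*} [Field K] [IsAlgClosed K] (p : ℕ) [Fact p.Prime] [CharP K p]
    (a w : Fin (m + 3) → ℕ) (ha : ∀ i, 1 ≤ a i) (hw : ∀ i, 0 < w i) (W : ℕ) (hW : 0 < W)
    (haw : ∀ i, a i * w i = W) (c : Fin (m + 3) → K) (hc : ∀ i, c i ≠ 0) (h0 : (a 0 : K) ≠ 0)
    (b : Fin (m + 3) → ℚ) (hb : ∀ i, 0 ≤ b i ∧ b i < 1) (hρ : 0 < rho a b) (hρ2 : rho a b ≤ 2)
    (J' : ℕ) (hP : Par a b p J') (f : MvPolynomial (Fin (m + 3)) K) (t : ℝ) (ht : 0 ≤ t)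
    (Jc : ℕ → Ideal (MvPolynomial (Fin (m + 3)) K)) (hJ : Fam w W f (f0 c a) b p t Jc)
    (δ : ℝ) (hδ : 0 < δ) :
    ∃ M : ℝ, ∀ X Nm : ℕ, ∑ N ∈ Finset.Icc 1 Nm, ((SN w (a 0) X : ℝ) -
      Module.finrank K (MvPolynomial (Fin (m + 3)) K ⧸ Jc N)) ≤
        (t * cN w (a 0) * (((m + 2 : ℕ) : ℝ) / ((m + 2 : ℕ) + 1)) / kap (m + 2) W p J' + δ) *
          (X : ℝ) ^ (m + 3) + M := by
  obtain ⟨G, hG1, hG2⟩ := bal p a w ha hw W hW haw c hc h0 b hb hρ hρ2 J' hP f t ht Jc hJ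
  obtain ⟨M, hM⟩ := hG2 δ hδ
  refine ⟨M, fun X Nm => ?_⟩
  have hWg : 0 < W / Nat.gcd (a 0) (a 1) := by
    have hg : 0 < Nat.gcd (a 0) (a 1) := Nat.gcd_pos_of_pos_left _ (ha 0)
    have hd : Nat.gcd (a 0) (a 1) ∣ W := by
      rw [← haw 0]
      exact (Nat.gcd_dvd_left _ _).mul_right _
    exact Nat.div_pos (Nat.le_of_dvd hW hd) hg
  -- one level
  have h1 : ∀ N ∈ Finset.Icc 1 Nm, SN w (a 0) X ≤
      Module.finrank K (MvPolynomial (Fin (m + 3)) K ⧸ Jc N) +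
        ∑ s ∈ Finset.range X, Set.ncard {x | dG w (W / Nat.gcd (a 0) (a 1)) x = s ∧ N ≤ G x} := by
    intro N hN
    have hN1 : 1 ≤ N := (Finset.mem_Icc.1 hN).1
    have := hJ.fin N
    have h2 := sum_finrank (k := K) hw (Jc N) (Finset.range X)
    have h3 : ∑ s ∈ Finset.range X, Module.finrank K (F0 w (f0 c a) s) + SN w (a 0) X =
        ∑ s ∈ Finset.range X,
          Module.finrank K (PP K w s : Submodule K (MvPolynomial (Fin (m + 3)) K)) := by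
      unfold SN
      rw [← Finset.sum_add_distrib]
      exact Finset.sum_congr rfl fun s _ => finrank_F0 ha hw haw hc s
    have h4 : ∑ s ∈ Finset.range X, Module.finrank K (inn w (Jc N) s) =
        ∑ s ∈ Finset.range X,
          Set.ncard {x | dG w (W / Nat.gcd (a 0) (a 1)) x = s ∧ N ≤ G x} +
          ∑ s ∈ Finset.range X, Module.finrank K (F0 w (f0 c a) s) := by
      rw [← Finset.sum_add_distrib]
      exact Finset.sum_congr rfl fun s _ => (hG1 s N hN1).symm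
    omega
  have h5 : ∑ N ∈ Finset.Icc 1 Nm, ((SN w (a 0) X : ℝ) -
      Module.finrank K (MvPolynomial (Fin (m + 3)) K ⧸ Jc N)) ≤
      ∑ N ∈ Finset.Icc 1 Nm, ((∑ s ∈ Finset.range X,
        Set.ncard {x | dG w (W / Nat.gcd (a 0) (a 1)) x = s ∧ N ≤ G x} : ℕ) : ℝ) := by
    refine Finset.sum_le_sum fun N hN => ?_
    have h6 : ((SN w (a 0) X : ℕ) : ℝ) ≤
        ((Module.finrank K (MvPolynomial (Fin (m + 3)) K ⧸ Jc N) +
          ∑ s ∈ Finset.range X,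
            Set.ncard {x | dG w (W / Nat.gcd (a 0) (a 1)) x = s ∧ N ≤ G x} : ℕ) : ℝ) :=
      Nat.cast_le.2 (h1 N hN)
    rw [Nat.cast_add] at h6
    linarith
  have h7 : ∑ N ∈ Finset.Icc 1 Nm, ((∑ s ∈ Finset.range X,
        Set.ncard {x | dG w (W / Nat.gcd (a 0) (a 1)) x = s ∧ N ≤ G x} : ℕ) : ℝ) ≤
      (HX (wG w (W / Nat.gcd (a 0) (a 1))) (dl w) G X : ℝ) := by
    rw [← Nat.cast_sum, Nat.cast_le, Finset.sum_comm]
    exact HX_layer_le w hw _ hWg G X Nm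
  exact h5.trans (h7.trans (hM X))

end BP
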