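import Pool.Agent.Lib.MP_9e8926_ag_BP.ComB

/-!
# The ball
-/

set_option autoImplicit false
set_option linter.unusedVariables false

noncomputable section

namespace BP

variable {cl υ : Type*} [Fintype cl] [Fintype υ] [DecidableEq υ]

/-- The ball.  Proof (`N = card υ + 1`).  Choose `X0` such that for `X ≥ X0`:
`(1 - ε)(X + C + 1) < θ X - C` and `B' (θ X + 1)^N + B (X + C + 1)^N ≤ B' X^N` (possible as
`B' θ^N + B < B'`), and `⌈θ X⌉₊ < X`.  Let `M = HX X0`.  Strong induction on `X`: for `X ≤ X0` use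
`HX_mono`; for `X > X0` apply `annulus` with `X2 = X`, `X1 = ⌈θ X⌉₊`. -/
theorem ball (ω : υ → ℕ) (hω : ∀ v, 1 ≤ ω v) (δ : cl → ℕ) (G : cl × (υ → ℕ) → ℕ) (c0 : υ → ℕ)
    (C : ℕ) (hC : ∀ i, δ i + ∑ v, ω v + ∑ v, ω v * c0 v ≤ C) (κ : ℕ) (hκ : 0 < κ)
    (dom : ∀ k : ℕ, 0 < k → κ ∣ k → ∀ i j (β : υ → ℕ),
      k * G (i, fun v => β v / k) ≤ G (j, fun v => β v + k * c0 v))
    (B ε : ℝ) (hB : 0 ≤ B) (hε : 0 < ε) (hε1 : ε < 1)
    (slab : ∀ S0 : ℕ, ∃ s : ℕ, S0 ≤ s ∧ (HX ω δ G s : ℝ) - HX ω δ G ⌈(1 - ε) * s⌉₊ ≤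
      B * (s : ℝ) ^ (Fintype.card υ + 1))
    (θ : ℝ) (hθ : 1 - ε < θ) (hθ1 : θ < 1) (B' : ℝ)
    (hB' : B < B' * (1 - θ ^ (Fintype.card υ + 1))) :
    ∃ M : ℝ, ∀ X : ℕ, (HX ω δ G X : ℝ) ≤ B' * (X : ℝ) ^ (Fintype.card υ + 1) + M := by
  classical
  set N : ℕ := Fintype.card υ + 1 with hN
  have hθ0 : 0 < θ := by linarith
  have hN0 : N ≠ 0 := Nat.succ_ne_zero _
  have hθN : θ ^ N < 1 := pow_lt_one₀ hθ0.le hθ1 hN0
  have hB'0 : 0 < B' := by
    by_contra h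
    push Not at h
    have h1 : B' * (1 - θ ^ N) ≤ 0 := mul_nonpos_of_nonpos_of_nonneg h (by linarith)
    linarith
  -- the bound for large `X`
  have hlim : Filter.Tendsto (fun X : ℕ => B' * (θ + 1 / (X : ℝ)) ^ N +
      B * (1 + ((C : ℝ) + 1) / (X : ℝ)) ^ N) Filter.atTop (nhds (B' * (θ + 0) ^ N +
      B * (1 + 0) ^ N)) := by
    have h1 : Filter.Tendsto (fun X : ℕ => 1 / (X : ℝ)) Filter.atTop (nhds 0) :=
      tendsto_one_div_atTop_nhds_zero_nat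
    have h2 : Filter.Tendsto (fun X : ℕ => ((C : ℝ) + 1) / (X : ℝ)) Filter.atTop (nhds 0) :=
      tendsto_const_div_atTop_nhds_zero_nat _
    exact ((h1.const_add θ).pow N).const_mul B' |>.add (((h2.const_add 1).pow N).const_mul B)
  have hev1 : ∀ᶠ X : ℕ in Filter.atTop, B' * (θ + 1 / (X : ℝ)) ^ N +
      B * (1 + ((C : ℝ) + 1) / (X : ℝ)) ^ N < B' := by
    refine hlim.eventually_lt_const ?_
    rw [add_zero, add_zero, one_pow, mul_one]
    linarith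
  have hδ : 0 < θ - (1 - ε) := by linarith
  have hev2 : ∀ᶠ X : ℕ in Filter.atTop,
      ((1 - ε) * ((C : ℝ) + 1) + C) / (θ - (1 - ε)) < (X : ℝ) :=
    tendsto_natCast_atTop_atTop.eventually_gt_atTop _
  have hev3 : ∀ᶠ X : ℕ in Filter.atTop, 1 / (1 - θ) < (X : ℝ) :=
    tendsto_natCast_atTop_atTop.eventually_gt_atTop _
  have hev4 : ∀ᶠ X : ℕ in Filter.atTop, 0 < X := Filter.eventually_gt_atTop 0
  obtain ⟨X0, hX0⟩ := Filter.eventually_atTop.1 (hev1.and (hev2.and (hev3.and hev4)))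
  refine ⟨HX ω δ G X0, fun X => ?_⟩
  induction X using Nat.strong_induction_on with
  | _ X ih =>
    rcases le_or_gt X X0 with hX | hX
    · have h1 : (HX ω δ G X : ℝ) ≤ HX ω δ G X0 := by
        exact_mod_cast HX_mono ω hω δ G hX
      have h2 : 0 ≤ B' * (X : ℝ) ^ N := by positivity
      linarith
    · obtain ⟨e1, e2, e3, e4⟩ := hX0 X hX.le
      have hXr : (0 : ℝ) < X := by exact_mod_cast e4
      rw [div_lt_iff₀ hδ] at e2
      have h1θ : 0 < 1 - θ := by linarith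
      rw [div_lt_iff₀ h1θ] at e3
      have hθX : 0 ≤ θ * X := by positivity
      have hc1 : θ * (X : ℝ) ≤ (⌈θ * (X : ℝ)⌉₊ : ℝ) := Nat.le_ceil _
      have hc2 : (⌈θ * (X : ℝ)⌉₊ : ℝ) < θ * X + 1 := Nat.ceil_lt_add_one hθX
      have hlt : ⌈θ * (X : ℝ)⌉₊ < X := by
        have h1 : (⌈θ * (X : ℝ)⌉₊ : ℝ) < X := by nlinarith
        exact_mod_cast h1
      have h3 := annulus ω hω δ G c0 C hC κ hκ dom B ε hB hε hε1 slab ⌈θ * (X : ℝ)⌉₊ X hlt.le
        (by nlinarith)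
      have h4 := ih _ hlt
      have h5 : B' * (⌈θ * (X : ℝ)⌉₊ : ℝ) ^ N ≤ B' * (θ * X + 1) ^ N :=
        mul_le_mul_of_nonneg_left (pow_le_pow_left₀ (Nat.cast_nonneg _) hc2.le N) hB'0.le
      have h6 : B' * (θ * X + 1) ^ N + B * ((X : ℝ) + C + 1) ^ N ≤ B' * (X : ℝ) ^ N := by
        have h7 : (θ * X + 1) ^ N = (θ + 1 / (X : ℝ)) ^ N * (X : ℝ) ^ N := by
          rw [← mul_pow]
          congr 1
          field_simp
        have h8 : ((X : ℝ) + C + 1) ^ N = (1 + ((C : ℝ) + 1) / (X : ℝ)) ^ N * (X : ℝ) ^ N := by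
          rw [← mul_pow]
          congr 1
          field_simp
          ring
        rw [h7, h8, ← mul_assoc, ← mul_assoc, ← add_mul]
        exact mul_le_mul_of_nonneg_right e1.le (by positivity)
      linarith

end BP
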