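import Mathlib

/-!
# Scaling of sums of a superadditive function
-/

set_option autoImplicit false
set_option linter.unusedVariables false

noncomputable section

namespace BP

variable {cl υ : Type*} [Fintype cl] [Fintype υ] [DecidableEq υ]

/-- The degree of an index. -/
def dgc (ω : υ → ℕ) (δ : cl → ℕ) (x : cl × (υ → ℕ)) : ℕ := δ x.1 + ∑ v, ω v * x.2 v

/-- The indices of degree less than `X` (`ω ≥ 1`). -/
def idx (ω : υ → ℕ) (δ : cl → ℕ) (X : ℕ) : Finset (cl × (υ → ℕ)) :=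
  open Classical in
  (Finset.univ ×ˢ Fintype.piFinset fun _ => Finset.range X).filter fun x => dgc ω δ x < X

/-- The sum of `G` over the indices of degree less than `X`. -/
def HX (ω : υ → ℕ) (δ : cl → ℕ) (G : cl × (υ → ℕ) → ℕ) (X : ℕ) : ℕ := ∑ x ∈ idx ω δ X, G x

theorem mem_idx (ω : υ → ℕ) (hω : ∀ v, 1 ≤ ω v) (δ : cl → ℕ) (X : ℕ) (x : cl × (υ → ℕ)) :
    x ∈ idx ω δ X ↔ dgc ω δ x < X := by
  classical
  unfold idx
  rw [Finset.mem_filter, Finset.mem_product, Fintype.mem_piFinset]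
  constructor
  · exact fun h => h.2
  · intro h
    refine ⟨⟨Finset.mem_univ _, fun v => Finset.mem_range.2 (lt_of_le_of_lt ?_ h)⟩, h⟩
    calc x.2 v ≤ ω v * x.2 v := Nat.le_mul_of_pos_left _ (hω v)
      _ ≤ ∑ v, ω v * x.2 v := Finset.single_le_sum (f := fun v => ω v * x.2 v)
          (fun _ _ => Nat.zero_le _) (Finset.mem_univ v)
      _ ≤ _ := Nat.le_add_left _ _

theorem HX_mono (ω : υ → ℕ) (hω : ∀ v, 1 ≤ ω v) (δ : cl → ℕ) (G : cl × (υ → ℕ) → ℕ) {X Y : ℕ}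
    (h : X ≤ Y) : HX ω δ G X ≤ HX ω δ G Y := by
  unfold HX
  refine Finset.sum_le_sum_of_subset fun x hx => ?_
  rw [mem_idx ω hω] at hx ⊢
  exact hx.trans_le h

private theorem ComA_diff (ω : υ → ℕ) (hω : ∀ v, 1 ≤ ω v) (δ : cl → ℕ) (G : cl × (υ → ℕ) → ℕ)
    {X Y : ℕ} (h : X ≤ Y) [DecidableEq (cl × (υ → ℕ))] :
    HX ω δ G Y = HX ω δ G X + ∑ x ∈ idx ω δ Y \ idx ω δ X, G x := by
  unfold HX
  rw [add_comm, Finset.sum_sdiff]
  intro x hx
  rw [mem_idx ω hω] at hx ⊢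
  exact hx.trans_le h

private theorem ComA_fix (ω : υ → ℕ) (hω : ∀ v, 1 ≤ ω v) (δ : cl → ℕ) (G : cl × (υ → ℕ) → ℕ)
    (c0 : υ → ℕ)
    (C : ℕ) (hC : ∀ i, δ i + ∑ v, ω v + ∑ v, ω v * c0 v ≤ C) (k : ℕ) (hk : 0 < k)
    (dom : ∀ i j (β : υ → ℕ), k * G (i, fun v => β v / k) ≤ G (j, fun v => β v + k * c0 v))
    (X1 X2 lo up : ℕ) (h1 : (lo : ℤ) ≤ k * ((X1 : ℤ) - C))
    (h2 : k * (X2 + C) ≤ up) [DecidableEq (cl × (υ → ℕ))] (i : cl) (B : Finset (υ → ℕ))
    (hB : ∀ β ∈ B, X1 ≤ dgc ω δ (i, β) ∧ dgc ω δ (i, β) < X2) :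
    Fintype.card cl * (k ^ Fintype.card υ * k) * ∑ β ∈ B, G (i, β) ≤
      ∑ y ∈ idx ω δ up \ idx ω δ lo, G y := by
  obtain ⟨F, hF⟩ : ∃ F : (υ → ℕ) × (cl × (υ → Fin k)) → cl × (υ → ℕ),
    F = fun z => (z.2.1, fun v => k * z.1 v + (z.2.2 v : ℕ) + k * c0 v) := ⟨_, rfl⟩
  have hinj : Set.InjOn F ↑(B ×ˢ (Finset.univ : Finset (cl × (υ → Fin k)))) := by
    rintro ⟨β, j, r⟩ _ ⟨β', j', r'⟩ _ h
    rw [hF] at h
    obtain ⟨h3, h4⟩ := Prod.mk.inj h
    have h5 : ∀ v, k * β v + (r v : ℕ) = k * β' v + (r' v : ℕ) := fun v => by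
      have h6 := congrFun h4 v
      exact Nat.add_right_cancel h6
    have h7 : β = β' := by
      funext v
      have h8 := congrArg (fun t => t / k) (h5 v)
      simp only [Nat.mul_add_div hk] at h8
      rwa [Nat.div_eq_of_lt (r v).2, Nat.div_eq_of_lt (r' v).2, add_zero, add_zero] at h8
    have h9 : r = r' := by
      funext v
      have h8 := h5 v
      rw [h7] at h8
      exact Fin.ext (Nat.add_left_cancel h8)
    simp only at h3
    rw [h3, h7, h9]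
  have hsub : (B ×ˢ (Finset.univ : Finset (cl × (υ → Fin k)))).image F ⊆
      idx ω δ up \ idx ω δ lo := by
    intro y hy
    obtain ⟨⟨β, j, r⟩, hz, rfl⟩ := Finset.mem_image.1 hy
    obtain ⟨b1, b2⟩ := hB β (Finset.mem_product.1 hz).1
    rw [Finset.mem_sdiff, mem_idx ω hω, mem_idx ω hω, not_lt]
    have e1 : dgc ω δ (F (β, j, r)) = δ j + (k * ∑ v, ω v * β v + ∑ v, ω v * (r v : ℕ) +
        k * ∑ v, ω v * c0 v) := by
      rw [hF]
      unfold dgc
      rw [Finset.mul_sum, Finset.mul_sum, ← Finset.sum_add_distrib, ← Finset.sum_add_distrib]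
      congr 1
      refine Finset.sum_congr rfl fun v _ => ?_
      ring
    have e2 : dgc ω δ (i, β) = δ i + ∑ v, ω v * β v := rfl
    have e3 : ∑ v, ω v * (r v : ℕ) ≤ (k - 1) * ∑ v, ω v := by
      rw [Finset.mul_sum]
      refine Finset.sum_le_sum fun v _ => ?_
      rw [mul_comm]
      exact Nat.mul_le_mul_right _ (Nat.le_sub_one_of_lt (r v).2)
    obtain ⟨l, rfl⟩ : ∃ l, k = l + 1 := ⟨k - 1, by omega⟩
    rw [Nat.add_sub_cancel] at e3
    have c1 := hC j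
    have c2 := hC i
    obtain ⟨S, hS⟩ : ∃ S, ∑ v, ω v * β v = S := ⟨_, rfl⟩
    obtain ⟨Q, hQ⟩ : ∃ Q, ∑ v, ω v * (r v : ℕ) = Q := ⟨_, rfl⟩
    obtain ⟨Z, hZ⟩ : ∃ Z, ∑ v, ω v * c0 v = Z := ⟨_, rfl⟩
    obtain ⟨O, hO⟩ : ∃ O, ∑ v, ω v = O := ⟨_, rfl⟩
    rw [hS, hQ, hZ] at e1
    rw [hS] at e2
    rw [hQ, hO] at e3
    rw [hZ, hO] at c1 c2
    rw [e2] at b1 b2
    rw [e1]
    constructor
    · have g1 : (l + 1) * (S + δ i + 1) ≤ (l + 1) * X2 := Nat.mul_le_mul_left _ (by omega)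
      have g2 : (l + 1) * (δ j + O + Z) ≤ (l + 1) * C := Nat.mul_le_mul_left _ c1
      nlinarith [Nat.zero_le (l * δ j), Nat.zero_le (l * δ i)]
    · have g1 : ((l + 1 : ℕ) : ℤ) * ((X1 : ℤ) - C) ≤ ((l + 1 : ℕ) : ℤ) * (S : ℤ) := by
        refine mul_le_mul_of_nonneg_left ?_ (by positivity)
        have g2 : (X1 : ℤ) ≤ δ i + S := by exact_mod_cast b1
        have g3 : (δ i : ℤ) ≤ C := by
          have : δ i ≤ C := by omega
          exact_mod_cast this
        linarith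
      have g4 : (lo : ℤ) ≤ ((l + 1) * S : ℕ) := by
        push_cast at g1 h1 ⊢
        linarith
      have g5 : lo ≤ (l + 1) * S := by exact_mod_cast g4
      omega
  have hsum : ∑ z ∈ B ×ˢ (Finset.univ : Finset (cl × (υ → Fin k))), k * G (i, z.1) ≤
      ∑ z ∈ B ×ˢ (Finset.univ : Finset (cl × (υ → Fin k))), G (F z) := by
    refine Finset.sum_le_sum fun z _ => ?_
    have h3 := dom i z.2.1 (fun v => k * z.1 v + (z.2.2 v : ℕ))
    have h4 : (fun v => (k * z.1 v + (z.2.2 v : ℕ)) / k) = z.1 := by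
      funext v
      rw [Nat.mul_add_div hk, Nat.div_eq_of_lt (z.2.2 v).2, add_zero]
    rw [h4] at h3
    rw [hF]
    exact h3
  have hleft : ∑ z ∈ B ×ˢ (Finset.univ : Finset (cl × (υ → Fin k))), k * G (i, z.1) =
      Fintype.card cl * (k ^ Fintype.card υ * k) * ∑ β ∈ B, G (i, β) := by
    rw [Finset.sum_product, Finset.mul_sum]
    refine Finset.sum_congr rfl fun β _ => ?_
    change ∑ _y : cl × (υ → Fin k), k * G (i, β) = _
    rw [Finset.sum_const, Finset.card_univ, Fintype.card_prod, Fintype.card_fun,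
      Fintype.card_fin, smul_eq_mul]
    ring
  rw [← hleft]
  refine hsum.trans ?_
  rw [← Finset.sum_image (f := G) hinj]
  exact Finset.sum_le_sum_of_subset hsub

/-- One scale.  Proof.  Consider the set `T` of triples `(i, j, β)`, `i, j : cl`, such that
`x' = (i, ⌊β / k⌋)` has `X1 ≤ dgc x' < X2`.  For each `x' = (i, β')` there are exactly
`card cl * k^(card υ)` triples (`β ∈ k β' + [0, k)^υ`, `j` arbitrary).  So
`∑_T k G(x') = card cl * k^(card υ + 1) * (HX X2 - HX X1)`.  By `dom` the left side is at most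
`∑_T G(j, β + k c0)`.  For fixed `i` the map `(j, β) ↦ y = (j, β + k c0)` is injective, and
`lo ≤ dgc y < up`: `dgc y ≥ k ω·β' = k (dgc x' - δ_i) ≥ k (X1 - C) ≥ lo`, and
`dgc y ≤ δ_j + k ω·β' + (k - 1) ∑ ω + k ω·c0 < k (X2 + C) ≤ up`.  So
`∑_T G(y) ≤ card cl * (HX up - HX lo)`.  Divide by `card cl` (`≥ 1`; if `cl` is empty both sides are
zero). -/
theorem scale (ω : υ → ℕ) (hω : ∀ v, 1 ≤ ω v) (δ : cl → ℕ) (G : cl × (υ → ℕ) → ℕ) (c0 : υ → ℕ)
    (C : ℕ) (hC : ∀ i, δ i + ∑ v, ω v + ∑ v, ω v * c0 v ≤ C) (k : ℕ) (hk : 0 < k)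
    (dom : ∀ i j (β : υ → ℕ), k * G (i, fun v => β v / k) ≤ G (j, fun v => β v + k * c0 v))
    (X1 X2 lo up : ℕ) (h12 : X1 ≤ X2) (h1 : (lo : ℤ) ≤ k * ((X1 : ℤ) - C))
    (h2 : k * (X2 + C) ≤ up) :
    (k : ℝ) ^ (Fintype.card υ + 1) * ((HX ω δ G X2 : ℝ) - HX ω δ G X1) ≤
      (HX ω δ G up : ℝ) - HX ω δ G lo := by
  classical
  have hlu : lo ≤ up := by
    have g1 : (lo : ℤ) ≤ up := by
      have g2 : ((k * (X2 + C) : ℕ) : ℤ) ≤ up := by exact_mod_cast h2
      have g3 : (k : ℤ) * ((X1 : ℤ) - C) ≤ (k : ℤ) * ((X2 : ℤ) + C) := by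
        refine mul_le_mul_of_nonneg_left ?_ (by positivity)
        have g4 : (X1 : ℤ) ≤ X2 := by exact_mod_cast h12
        have g5 : (0 : ℤ) ≤ C := by positivity
        linarith
      push_cast at g2
      linarith
    exact_mod_cast g1
  rcases isEmpty_or_nonempty cl with hcl | hcl
  · have h0 : ∀ X, HX ω δ G X = 0 := fun X => by
      unfold HX
      exact Finset.sum_eq_zero fun x _ => (hcl.false x.1).elim
    rw [h0, h0, h0, h0]
    simp
  · rw [ComA_diff ω hω δ G h12, ComA_diff ω hω δ G hlu]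
    obtain ⟨D, hD⟩ : ∃ D, D = idx ω δ X2 \ idx ω δ X1 := ⟨_, rfl⟩
    obtain ⟨D', hD'⟩ : ∃ D', D' = idx ω δ up \ idx ω δ lo := ⟨_, rfl⟩
    rw [← hD, ← hD']
    have hN : 0 < Fintype.card cl := Fintype.card_pos
    have e1 : ∑ x ∈ D, G x = ∑ i : cl, ∑ β ∈ (D.filter fun x => x.1 = i).image Prod.snd,
        G (i, β) := by
      rw [← Finset.sum_fiberwise_of_maps_to (g := Prod.fst) (fun x _ => Finset.mem_univ x.1)]
      refine Finset.sum_congr rfl fun i _ => ?_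
      rw [Finset.sum_image]
      · refine Finset.sum_congr rfl fun x hx => ?_
        rw [← (Finset.mem_filter.1 hx).2]
      · intro x hx y hy hxy
        have hx' := (Finset.mem_filter.1 (Finset.mem_coe.1 hx)).2
        have hy' := (Finset.mem_filter.1 (Finset.mem_coe.1 hy)).2
        exact Prod.ext (hx'.trans hy'.symm) hxy
    have key : Fintype.card cl * (k ^ Fintype.card υ * k) * ∑ x ∈ D, G x ≤
        Fintype.card cl * ∑ y ∈ D', G y := by
      rw [e1, Finset.mul_sum]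
      have h3 : ∀ i ∈ (Finset.univ : Finset cl), Fintype.card cl * (k ^ Fintype.card υ * k) *
          ∑ β ∈ (D.filter fun x => x.1 = i).image Prod.snd, G (i, β) ≤ ∑ y ∈ D', G y := by
        intro i _
        rw [hD']
        refine ComA_fix ω hω δ G c0 C hC k hk dom X1 X2 lo up h1 h2 i _ ?_
        intro β hβ
        obtain ⟨x, hx, rfl⟩ := Finset.mem_image.1 hβ
        obtain ⟨hx1, hx2⟩ := Finset.mem_filter.1 hx
        rw [hD, Finset.mem_sdiff, mem_idx ω hω, mem_idx ω hω, not_lt] at hx1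
        have e2 : (i, x.2) = x := Prod.ext hx2.symm rfl
        rw [e2]
        exact ⟨hx1.2, hx1.1⟩
      refine (Finset.sum_le_sum h3).trans ?_
      rw [Finset.sum_const, Finset.card_univ, smul_eq_mul]
    have key2 : k ^ Fintype.card υ * k * ∑ x ∈ D, G x ≤ ∑ y ∈ D', G y := by
      refine Nat.le_of_mul_le_mul_left ?_ hN
      rw [← mul_assoc]
      exact key
    have key3 : ((k ^ Fintype.card υ * k * ∑ x ∈ D, G x : ℕ) : ℝ) ≤
        ((∑ y ∈ D', G y : ℕ) : ℝ) := by exact_mod_cast key2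
    rw [Nat.cast_add, Nat.cast_add, add_sub_cancel_left, add_sub_cancel_left, pow_succ]
    rw [Nat.cast_mul, Nat.cast_mul, Nat.cast_pow] at key3
    exact key3

end BP
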