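import Pool.Agent.Lib.MP_9e8926_ag_BP.ComA

/-!
# Annuli
-/

set_option autoImplicit false
set_option linter.unusedVariables false

noncomputable section

namespace BP

variable {cl υ : Type*} [Fintype cl] [Fintype υ] [DecidableEq υ]

/-- An annulus.  Proof.  Let `Y = X2 + C`.  For `s` large let `k = κ ⌊s / (κ Y)⌋` (a positive multiple
of `κ`), so `k Y ≤ s` and `k (Y + 1) ≥ s` for `s ≥ κ Y (Y + 1)` (`k Y > s - κ Y`).  Apply `scale` with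
`lo = ⌈(1 - ε) s⌉₊`, `up = s`: `(1 - ε) s ≤ (1 - ε) k (Y + 1) < k (X1 - C)`, and the difference
`k (X1 - C - (1 - ε)(Y + 1))` is `≥ 1` for `k` large, so `lo ≤ (1 - ε) s + 1 ≤ k (X1 - C)`.
So `HX X2 - HX X1 ≤ k^(-(n+1)) B s^(n+1) ≤ B (Y + 1)^(n+1)`. -/
theorem annulus (ω : υ → ℕ) (hω : ∀ v, 1 ≤ ω v) (δ : cl → ℕ) (G : cl × (υ → ℕ) → ℕ) (c0 : υ → ℕ)
    (C : ℕ) (hC : ∀ i, δ i + ∑ v, ω v + ∑ v, ω v * c0 v ≤ C) (κ : ℕ) (hκ : 0 < κ)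
    (dom : ∀ k : ℕ, 0 < k → κ ∣ k → ∀ i j (β : υ → ℕ),
      k * G (i, fun v => β v / k) ≤ G (j, fun v => β v + k * c0 v))
    (B ε : ℝ) (hB : 0 ≤ B) (hε : 0 < ε) (hε1 : ε < 1)
    (slab : ∀ S0 : ℕ, ∃ s : ℕ, S0 ≤ s ∧ (HX ω δ G s : ℝ) - HX ω δ G ⌈(1 - ε) * s⌉₊ ≤
      B * (s : ℝ) ^ (Fintype.card υ + 1))
    (X1 X2 : ℕ) (h12 : X1 ≤ X2) (h1 : (1 - ε) * ((X2 : ℝ) + C + 1) < (X1 : ℝ) - C) :
    (HX ω δ G X2 : ℝ) - HX ω δ G X1 ≤ B * ((X2 : ℝ) + C + 1) ^ (Fintype.card υ + 1) := by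
  have hX1 : (0 : ℝ) < X1 := by
    have h2 : 0 ≤ (1 - ε) * ((X2 : ℝ) + C + 1) := mul_nonneg (by linarith) (by positivity)
    have h3 : (0 : ℝ) ≤ C := Nat.cast_nonneg C
    linarith
  have hX1' : 0 < X1 := by exact_mod_cast hX1
  obtain ⟨Y, hY⟩ : ∃ Y, Y = X2 + C := ⟨_, rfl⟩
  have hY0 : 0 < Y := by omega
  have hYr : (Y : ℝ) = X2 + C := by rw [hY]; push_cast; ring
  rw [← hYr] at h1 ⊢
  obtain ⟨d, hd⟩ : ∃ d : ℝ, d = (X1 : ℝ) - C - (1 - ε) * ((Y : ℝ) + 1) := ⟨_, rfl⟩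
  have hd0 : 0 < d := by rw [hd]; linarith
  obtain ⟨s, hs0, hs⟩ := slab (κ * Y * (Y + 1) + ⌈((Y : ℝ) + 1) / d⌉₊)
  obtain ⟨q, hq⟩ : ∃ q, q = s / (κ * Y) := ⟨_, rfl⟩
  have hκY : 0 < κ * Y := Nat.mul_pos hκ hY0
  have hq1 : Y + 1 ≤ q := by
    rw [hq, Nat.le_div_iff_mul_le hκY]
    calc (Y + 1) * (κ * Y) = κ * Y * (Y + 1) := by ring
      _ ≤ s := le_trans (Nat.le_add_right _ _) hs0
  have hmod : κ * Y * q + s % (κ * Y) = s := by rw [hq]; exact Nat.div_add_mod s (κ * Y)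
  have hlt : s % (κ * Y) < κ * Y := Nat.mod_lt _ hκY
  obtain ⟨k, hk⟩ : ∃ k, k = κ * q := ⟨_, rfl⟩
  have hk0 : 0 < k := by rw [hk]; exact Nat.mul_pos hκ (by omega)
  have hkY : k * Y ≤ s := by
    have h2 : k * Y = κ * Y * q := by rw [hk]; ring
    omega
  have hkY1 : s ≤ k * (Y + 1) := by
    have h2 : k * (Y + 1) = κ * Y * q + κ * q := by rw [hk]; ring
    have h3 : κ * (Y + 1) ≤ κ * q := Nat.mul_le_mul_left κ hq1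
    have h4 : κ * (Y + 1) = κ * Y + κ := by ring
    omega
  have hkr : (0 : ℝ) < k := by exact_mod_cast hk0
  have hsk : (s : ℝ) ≤ k * ((Y : ℝ) + 1) := by exact_mod_cast hkY1
  have hkd : 1 ≤ (k : ℝ) * d := by
    have h2 : ((Y : ℝ) + 1) / d ≤ s := by
      have h3 : ((Y : ℝ) + 1) / d ≤ (⌈((Y : ℝ) + 1) / d⌉₊ : ℝ) := Nat.le_ceil _
      have h4 : (⌈((Y : ℝ) + 1) / d⌉₊ : ℝ) ≤ s := by
        exact_mod_cast le_trans (Nat.le_add_left _ _) hs0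
      linarith
    rw [div_le_iff₀ hd0] at h2
    have h5 : (s : ℝ) * d ≤ k * ((Y : ℝ) + 1) * d := mul_le_mul_of_nonneg_right hsk hd0.le
    have h6 : (0 : ℝ) < (Y : ℝ) + 1 := by positivity
    have h7 : ((Y : ℝ) + 1) * 1 ≤ ((Y : ℝ) + 1) * (k * d) := by
      calc ((Y : ℝ) + 1) * 1 = (Y : ℝ) + 1 := mul_one _
        _ ≤ k * ((Y : ℝ) + 1) * d := h2.trans h5
        _ = ((Y : ℝ) + 1) * (k * d) := by ring
    exact le_of_mul_le_mul_left h7 h6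
  have hlo : ((⌈(1 - ε) * (s : ℝ)⌉₊ : ℕ) : ℤ) ≤ k * ((X1 : ℤ) - C) := by
    have h2 : ((⌈(1 - ε) * (s : ℝ)⌉₊ : ℕ) : ℝ) < (1 - ε) * s + 1 :=
      Nat.ceil_lt_add_one (mul_nonneg (by linarith) (Nat.cast_nonneg s))
    have h3 : (1 - ε) * (s : ℝ) ≤ (1 - ε) * (k * ((Y : ℝ) + 1)) :=
      mul_le_mul_of_nonneg_left hsk (by linarith)
    have h4 : (1 - ε) * (k * ((Y : ℝ) + 1)) + k * d = k * ((X1 : ℝ) - C) := by rw [hd]; ring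
    have h5 : (((⌈(1 - ε) * (s : ℝ)⌉₊ : ℕ) : ℤ) : ℝ) ≤ ((k * ((X1 : ℤ) - C) : ℤ) : ℝ) := by
      push_cast
      linarith
    exact_mod_cast h5
  have hsc := scale ω hω δ G c0 C hC k hk0
    (dom k hk0 (by rw [hk]; exact Nat.dvd_mul_right κ q)) X1 X2 ⌈(1 - ε) * (s : ℝ)⌉₊ s h12 hlo
    (by rw [← hY]; exact hkY)
  have hfin : (k : ℝ) ^ (Fintype.card υ + 1) * ((HX ω δ G X2 : ℝ) - HX ω δ G X1) ≤
      (k : ℝ) ^ (Fintype.card υ + 1) * (B * ((Y : ℝ) + 1) ^ (Fintype.card υ + 1)) := by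
    calc (k : ℝ) ^ (Fintype.card υ + 1) * ((HX ω δ G X2 : ℝ) - HX ω δ G X1)
        ≤ B * (s : ℝ) ^ (Fintype.card υ + 1) := hsc.trans hs
      _ ≤ B * (k * ((Y : ℝ) + 1)) ^ (Fintype.card υ + 1) :=
          mul_le_mul_of_nonneg_left (pow_le_pow_left₀ (Nat.cast_nonneg s) hsk _) hB
      _ = (k : ℝ) ^ (Fintype.card υ + 1) * (B * ((Y : ℝ) + 1) ^ (Fintype.card υ + 1)) := by
          rw [mul_pow]; ring
  exact le_of_mul_le_mul_left hfin (pow_pos hkr _)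

end BP
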