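import Mathlib

/-!
# The error term
-/

set_option autoImplicit false
set_option linter.unusedVariables false

noncomputable section

namespace BP

private theorem Cst_bern {x : ℝ} (hx : 0 ≤ x) (m : ℕ) : (1 + x) ^ m * (1 - m * x) ≤ 1 := by
  induction m with
  | zero => simp
  | succ m ih =>
    refine le_trans ?_ ih
    have h1 : (1 + x) ^ (m + 1) * (1 - ((m + 1 : ℕ) : ℝ) * x) =
        (1 + x) ^ m * (1 - m * x - (m + 1) * x ^ 2) := by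
      push_cast
      ring
    rw [h1]
    refine mul_le_mul_of_nonneg_left ?_ (by positivity)
    have h2 : 0 ≤ ((m : ℝ) + 1) * x ^ 2 := by positivity
    linarith

private theorem Cst_pow {y r : ℝ} (hy : 0 ≤ y) (hyr : y ≤ r) (m : ℕ) :
    r ^ (m + 1) - y ^ (m + 1) ≤ (m + 1) * (r - y) * r ^ m := by
  induction m with
  | zero => simp
  | succ m ih =>
    have hr : 0 ≤ r := hy.trans hyr
    have h1 : r ^ (m + 1 + 1) - y ^ (m + 1 + 1) =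
        r * (r ^ (m + 1) - y ^ (m + 1)) + y ^ (m + 1) * (r - y) := by ring
    have h2 : y ^ (m + 1) ≤ r ^ (m + 1) := pow_le_pow_left₀ hy hyr _
    have h3 := mul_le_mul_of_nonneg_left ih hr
    have h4 := mul_le_mul_of_nonneg_right h2 (sub_nonneg.2 hyr)
    rw [h1]
    push_cast
    have h5 : ((m : ℝ) + 1 + 1) * (r - y) * r ^ (m + 1) =
        r * ((m + 1) * (r - y) * r ^ m) + r ^ (m + 1) * (r - y) := by ring
    linarith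

/-- Proof.  Let `y = (2 J' / p) / (1 + (4 n + 4) / J')^(n - 1) ≥ 0`.  Let `D = (4 n + 4) + (n - 1)(16 n + 16)` and
`C = P (n D ρ^(n-1) + 2 (4 n + 4) ρ^(n-1))`.

Case `p ρ ≤ 2 (4 n + 4)`: `P ρ^n - P y^n ≤ P ρ^n = P ρ^(n-1) (p ρ) / p ≤ P ρ^(n-1) 2 (4 n + 4) / p`
(`n ≥ 1`).

Case `p ρ > 2 (4 n + 4)`: `2 J' ≥ p ρ - (4 n + 4) ≥ p ρ / 2`, `J' ≥ p ρ / 4`, so
`x = (4 n + 4) / J' ≤ (16 n + 16) / (p ρ)`.  By Bernoulli `(1 + x)^(-(n-1)) ≥ 1 - (n - 1) x`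
(`(1 + x)^(n-1) (1 - (n-1) x) ≤ 1`: e.g. `1 / (1 + x) ≥ 1 - x`, and `(1 - x)^(n-1) ≥ 1 - (n-1) x` if
`x ≤ 1`; if `x > 1` and `n ≥ 2` the right side is `≤ 0`, if `n = 1` it is `1 ≤ 1`).  As
`2 J' / p ≤ ρ`: `y ≥ 2 J' / p - (2 J' / p)(n - 1) x ≥ ρ - (4 n + 4) / p - ρ (n - 1) (16 n + 16) / (p ρ) =
ρ - D / p`, and `y ≤ ρ`, so `ρ^n - y^n ≤ n (ρ - y) ρ^(n-1) ≤ n D ρ^(n-1) / p`. -/
theorem cst (n : ℕ) (hn : 1 ≤ n) (P ρ : ℝ) (hP : 0 ≤ P) (hρ : 0 < ρ) :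
    ∃ C : ℝ, ∀ p J' : ℕ, 1 ≤ p → 1 ≤ J' → (p : ℝ) * ρ - (4 * n + 4) ≤ 2 * J' →
      2 * (J' : ℝ) ≤ p * ρ - (3 * n + 2) →
      P * ρ ^ n - P * ((2 * (J' : ℝ) / p) / (1 + (4 * n + 4) / (J' : ℝ)) ^ (n - 1)) ^ n ≤
        C / p := by
  obtain ⟨m, rfl⟩ : ∃ m, n = m + 1 := ⟨n - 1, by omega⟩
  refine ⟨P * ((m + 1) * ((4 * ((m + 1 : ℕ) : ℝ) + 4) * (1 + 2 * m)) * ρ ^ m),
    fun p J' hp hJ h1 h2 => ?_⟩
  rw [Nat.add_sub_cancel]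
  have hp0 : (0 : ℝ) < p := by exact_mod_cast hp
  have hJ0 : (0 : ℝ) < J' := by exact_mod_cast hJ
  have hm0 : (0 : ℝ) ≤ m := Nat.cast_nonneg m
  obtain ⟨c, hc⟩ : ∃ c : ℝ, c = 4 * ((m + 1 : ℕ) : ℝ) + 4 := ⟨_, rfl⟩
  have hc0 : 0 < c := by
    rw [hc]
    positivity
  rw [← hc] at h1 ⊢
  obtain ⟨z, hz⟩ : ∃ z : ℝ, z = 2 * (J' : ℝ) / p := ⟨_, rfl⟩
  have hz0 : 0 ≤ z := by
    rw [hz]
    positivity
  have hzr : z ≤ ρ := by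
    rw [hz, div_le_iff₀ hp0]
    have h3 : (0 : ℝ) ≤ 3 * ((m + 1 : ℕ) : ℝ) + 2 := by positivity
    linarith
  obtain ⟨x, hx⟩ : ∃ x : ℝ, x = c / J' := ⟨_, rfl⟩
  have hx0 : 0 ≤ x := by
    rw [hx]
    positivity
  obtain ⟨y, hy⟩ : ∃ y : ℝ, y = z / (1 + x) ^ m := ⟨_, rfl⟩
  have hxm : 0 < (1 + x) ^ m := by positivity
  have hy0 : 0 ≤ y := by
    rw [hy]
    positivity
  have hyz : y ≤ z := by
    rw [hy]
    exact div_le_self hz0 (one_le_pow₀ (by linarith))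
  have hylow : z * (1 - m * x) ≤ y := by
    rw [hy, le_div_iff₀ hxm]
    have h3 := mul_le_mul_of_nonneg_left (Cst_bern hx0 m) hz0
    linarith
  have hd : ρ - y ≤ c * (1 + 2 * m) / p := by
    have h3 : z * (m * x) = c * (2 * m) / p := by
      rw [hz, hx]
      field_simp
    have h4 : ρ - z ≤ c / p := by
      rw [hz, le_div_iff₀ hp0, sub_mul, div_mul_cancel₀ _ hp0.ne']
      linarith
    have h5 : c * (1 + 2 * m) / p = c / p + c * (2 * m) / p := by ring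
    rw [h5]
    linarith
  rw [← hz, ← hx, ← hy]
  have h3 := Cst_pow hy0 (hyz.trans hzr) m
  have h4 : ((m : ℝ) + 1) * (ρ - y) * ρ ^ m ≤ (m + 1) * (c * (1 + 2 * m) / p) * ρ ^ m :=
    mul_le_mul_of_nonneg_right (mul_le_mul_of_nonneg_left hd (by linarith)) (by positivity)
  have h5 := mul_le_mul_of_nonneg_left (h3.trans h4) hP
  rw [mul_sub] at h5
  refine h5.trans (le_of_eq ?_)
  field_simp

end BP
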