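import Mathlib

/-!
# Frobenius volumes and normalized volumes of hypersurface singularities with boundary

The boundary is supported on the coordinate hyperplanes.
-/

set_option autoImplicit false

noncomputable section

namespace BP

open MvPolynomial Filter MeasureTheory

/-! ## Ideals -/

/-- An ideal `I` which is primary to the maximal ideal `𝔪`. -/
def IsPrim {R : Type*} [CommRing R] (𝔪 I : Ideal R) : Prop := I ≤ 𝔪 ∧ ∃ N : ℕ, 𝔪 ^ N ≤ I

/-- The Hilbert-Samuel multiplicity of an ideal in a ring of dimension `n` over `k`. -/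
def emult (k : Type*) [CommRing k] (n : ℕ) {R : Type*} [CommRing R] [Algebra k R]
    (I : Ideal R) : ℝ :=
  limsup (fun N : ℕ => (n.factorial : ℝ) * (Module.finrank k (R ⧸ I ^ N) : ℝ) / (N : ℝ) ^ n) atTop

variable {ι : Type*}

/-- The coordinate ring of the hypersurface `f = 0`. -/
abbrev Rg {k : Type*} [CommRing k] (f : MvPolynomial ι k) : Type _ :=
  MvPolynomial ι k ⧸ Ideal.span {f}

/-- The maximal ideal of the origin in the coordinate ring of `f = 0`. -/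
def mX {k : Type*} [CommRing k] (f : MvPolynomial ι k) : Ideal (Rg f) :=
  Ideal.span (Set.range fun v => Ideal.Quotient.mk (Ideal.span {f}) (X v))

/-! ## Characteristic `p` -/

/-- The monomial `∏ x_i ^ ⌈b_i (q - 1)⌉`. -/
def Yq {k : Type*} [CommRing k] [Fintype ι] (b : ι → ℚ) (q : ℕ) : MvPolynomial ι k :=
  ∏ i, X i ^ ⌈(b i : ℝ) * ((q : ℝ) - 1)⌉₊

/-- Strong `F`-regularity of the triple `(f = 0, ∑ b_i div x_i, I^t)` at the origin: for every `d`
which is not zero in the local ring at the origin there are `e ≥ 1`, a `p^{-e}`-linear map `φ` and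
`a ∈ I ^ ⌈t (p^e - 1)⌉` such that `φ (d ∏ x_i ^ ⌈b_i (p^e - 1)⌉ a)` does not vanish at the
origin. -/
def SFR {k : Type*} [CommRing k] [Fintype ι] (p : ℕ) (f : MvPolynomial ι k) (b : ι → ℚ)
    (I : Ideal (Rg f)) (t : ℝ) : Prop :=
  ∀ d : Rg f, (∀ s : Rg f, s ∉ mX f → s * d ≠ 0) → ∃ e : ℕ, 1 ≤ e ∧ ∃ φ : Rg f →+ Rg f,
    (∀ a u, φ (a ^ p ^ e * u) = a * φ u) ∧
    ∃ a ∈ I ^ ⌈t * ((p ^ e : ℕ) - 1 : ℝ)⌉₊,
      φ (d * Ideal.Quotient.mk (Ideal.span {f}) (Yq b (p ^ e)) * a) ∉ mX f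

/-- The `F`-pure threshold of `I` at the origin with respect to `(f = 0, ∑ b_i div x_i)`. -/
def fpt {k : Type*} [CommRing k] [Fintype ι] (p : ℕ) (f : MvPolynomial ι k) (b : ι → ℚ)
    (I : Ideal (Rg f)) : ℝ := sSup {t : ℝ | 0 ≤ t ∧ SFR p f b I t}

/-- The Frobenius volume at the origin of the pair `(f = 0, ∑ b_i div x_i)` of dimension `n`. -/
def Fvol {k : Type*} [CommRing k] [Fintype ι] (p n : ℕ) (f : MvPolynomial ι k)
    (b : ι → ℚ) : ℝ :=
  sInf {v : ℝ | ∃ I : Ideal (Rg f), IsPrim (mX f) I ∧ v = emult k n I * fpt p f b I ^ n}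

/-! ## Characteristic zero -/

/-- The log canonical threshold of an ideal `I` at the origin with respect to
`(f = 0, ∑ b_i div x_i)`: the supremum of all `t ≥ 0` such that, for polynomials `h` whose classes
generate `I`, and all `c < 1`, the function `|f|^{-2c} ∏ |x_i|^{-2 b_i} (∑ |h|²)^{-t}` is integrable
near the origin of the ambient space (inversion of adjunction). -/
def lct [Fintype ι] (f : MvPolynomial ι ℂ) (b : ι → ℚ) (I : Ideal (Rg f)) : ℝ :=
  sSup {t : ℝ | 0 ≤ t ∧ ∃ Γ : Finset (MvPolynomial ι ℂ),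
    Ideal.span (Ideal.Quotient.mk (Ideal.span {f}) '' (Γ : Set (MvPolynomial ι ℂ))) = I ∧
    ∀ c : ℝ, 0 ≤ c → c < 1 → ∃ ρ : ℝ, 0 < ρ ∧ IntegrableOn
      (fun z : ι → ℂ => ‖eval z f‖ ^ (-(2 * c)) *
        (∏ i, ‖z i‖ ^ (-(2 * (b i : ℝ)))) * (∑ h ∈ Γ, ‖eval z h‖ ^ 2) ^ (-t))
      (Metric.ball (0 : ι → ℂ) ρ)}

/-- The normalized volume at the origin of the pair `(f = 0, ∑ b_i div x_i)` of dimension `n`
(Liu's formula). -/
def volhat [Fintype ι] (n : ℕ) (f : MvPolynomial ι ℂ) (b : ι → ℚ) : ℝ :=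
  sInf {v : ℝ | ∃ I : Ideal (Rg f), IsPrim (mX f) I ∧ v = emult ℂ n I * lct f b I ^ n}

end BP
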