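import Pool.Agent.Lib.MP_9e8926_ag_BP.In

/-!
# The multiples of a diagonal form
-/

set_option autoImplicit false
set_option linter.unusedVariables false

noncomputable section

namespace BP

open MvPolynomial

variable {k : Type*} [Field k] {n : ℕ} {a w : Fin (n + 1) → ℕ} {W : ℕ} {c : Fin (n + 1) → k}

private theorem FW_equiv (w : Fin (n + 1) → ℕ) (s : ℕ) :
    Nat.card {m : Fin (n + 1) →₀ ℕ | wd w m = s} =
      Set.ncard {m : Fin (n + 1) → ℕ | ∑ i, w i * m i = s} := by
  rw [← Nat.card_coe_set_eq]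
  refine Nat.card_congr ?_
  exact Equiv.subtypeEquiv Finsupp.equivFunOnFinite (fun m => Iff.rfl)

/-- (The monomials of weight `s` are a basis of `PP k w s`.) -/
theorem finrank_PP (hw : ∀ i, 0 < w i) (s : ℕ) :
    Module.finrank k (PP k w s : Submodule k (MvPolynomial (Fin (n + 1)) k)) =
      Set.ncard {m : Fin (n + 1) → ℕ | ∑ i, w i * m i = s} := by
  have h : (PP k w s : Submodule k (MvPolynomial (Fin (n + 1)) k)) =
      restrictSupport k {m : Fin (n + 1) →₀ ℕ | wd w m = s} := by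
    ext u
    rw [mem_restrictSupport_iff]
    exact Iff.rfl
  rw [h, Module.finrank_eq_nat_card_basis (basisRestrictSupport k _)]
  exact FW_equiv w s

private theorem FW_coeff_f0 (ha : ∀ i, 1 ≤ a i) (j : Fin (n + 1)) :
    coeff (Finsupp.single j (a j)) (f0 c a) = c j := by
  classical
  rw [f0, coeff_sum, Finset.sum_eq_single j]
  · rw [coeff_C_mul, coeff_X_pow, if_pos rfl, mul_one]
  · intro b _ hb
    rw [coeff_C_mul, coeff_X_pow, if_neg, mul_zero]
    intro h
    have h1 := DFunLike.congr_fun h b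
    rw [Finsupp.single_eq_same, Finsupp.single_eq_of_ne hb] at h1
    have := ha b
    omega
  · intro h
    exact absurd (Finset.mem_univ j) h

private theorem FW_f0_ne (ha : ∀ i, 1 ≤ a i) (hc : ∀ i, c i ≠ 0) : f0 c a ≠ 0 := by
  intro h
  have h1 := FW_coeff_f0 (c := c) ha 0
  rw [h, coeff_zero] at h1
  exact hc 0 h1.symm

private theorem FW_fin (hw : ∀ i, 0 < w i) (s : ℕ) :
    {m : Fin (n + 1) → ℕ | ∑ i, w i * m i = s}.Finite := by
  refine (Set.finite_Icc (0 : Fin (n + 1) → ℕ) (fun _ => s)).subset ?_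
  intro m hm
  refine ⟨fun i => Nat.zero_le _, fun i => ?_⟩
  have hm' : ∑ i, w i * m i = s := hm
  have h1 : w i * m i ≤ ∑ i, w i * m i :=
    Finset.single_le_sum (f := fun i => w i * m i) (fun j _ => Nat.zero_le _) (Finset.mem_univ i)
  have h2 : m i ≤ w i * m i := Nat.le_mul_of_pos_left _ (hw i)
  exact (h2.trans h1).trans hm'.le

private theorem FW_sum_add (w : Fin (n + 1) → ℕ) (m : Fin (n + 1) → ℕ) (d : ℕ) :
    ∑ i, w i * (m + Pi.single 0 d : Fin (n + 1) → ℕ) i = ∑ i, w i * m i + d * w 0 := by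
  simp only [Pi.add_apply, mul_add, Finset.sum_add_distrib]
  congr 1
  rw [Finset.sum_eq_single 0]
  · rw [Pi.single_eq_same, mul_comm]
  · intro b _ hb
    rw [Pi.single_eq_of_ne hb, mul_zero]
  · intro h
    exact absurd (Finset.mem_univ _) h

private theorem FW_count (hw : ∀ i, 0 < w i) (haw : ∀ i, a i * w i = W) (s : ℕ) :
    Set.ncard {m : Fin (n + 1) → ℕ | ∑ i, w i * m i = s} =
      (if W ≤ s then Set.ncard {m : Fin (n + 1) → ℕ | ∑ i, w i * m i = s - W} else 0) +
        NN w (a 0) s := by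
  have hsplit : {m : Fin (n + 1) → ℕ | ∑ i, w i * m i = s} =
      {m : Fin (n + 1) → ℕ | a 0 ≤ m 0 ∧ ∑ i, w i * m i = s} ∪
        {m : Fin (n + 1) → ℕ | m 0 < a 0 ∧ ∑ i, w i * m i = s} := by
    ext m
    constructor
    · intro h
      rcases le_or_gt (a 0) (m 0) with h1 | h1
      · exact Or.inl ⟨h1, h⟩
      · exact Or.inr ⟨h1, h⟩
    · rintro (h | h)
      · exact h.2
      · exact h.2
  have hdis : Disjoint {m : Fin (n + 1) → ℕ | a 0 ≤ m 0 ∧ ∑ i, w i * m i = s}
      {m : Fin (n + 1) → ℕ | m 0 < a 0 ∧ ∑ i, w i * m i = s} := by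
    rw [Set.disjoint_left]
    rintro m ⟨h1, -⟩ ⟨h2, -⟩
    omega
  have hf1 : {m : Fin (n + 1) → ℕ | a 0 ≤ m 0 ∧ ∑ i, w i * m i = s}.Finite :=
    (FW_fin hw s).subset (fun m h => h.2)
  have hf2 : {m : Fin (n + 1) → ℕ | m 0 < a 0 ∧ ∑ i, w i * m i = s}.Finite :=
    (FW_fin hw s).subset (fun m h => h.2)
  rw [hsplit, Set.ncard_union_eq hdis hf1 hf2, NN]
  congr 1
  split_ifs with hWs
  · symm
    refine Set.ncard_congr (fun m _ => m + Pi.single 0 (a 0)) ?_ ?_ ?_
    · intro m hm
      have hm' : ∑ i, w i * m i = s - W := hm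
      refine ⟨?_, ?_⟩
      · simp
      · rw [FW_sum_add, hm', haw 0]
        omega
    · intro m m' _ _ h
      exact add_right_cancel h
    · rintro m ⟨h1, h2⟩
      have h3 : m - Pi.single 0 (a 0) + Pi.single 0 (a 0) = m := by
        funext i
        by_cases hi : i = 0
        · subst hi
          simp only [Pi.add_apply, Pi.sub_apply, Pi.single_eq_same]
          omega
        · simp [Pi.single_eq_of_ne hi]
      refine ⟨m - Pi.single 0 (a 0), ?_, h3⟩
      have h4 := FW_sum_add w (m - Pi.single 0 (a 0)) (a 0)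
      rw [h3, h2, haw 0] at h4
      change ∑ i, w i * (m - Pi.single 0 (a 0) : Fin (n + 1) → ℕ) i = s - W
      omega
  · rw [Set.ncard_eq_zero hf1]
    ext m
    constructor
    · rintro ⟨h1, h2⟩
      exfalso
      have h5 : w 0 * m 0 ≤ ∑ i, w i * m i :=
        Finset.single_le_sum (f := fun i => w i * m i) (fun j _ => Nat.zero_le _)
          (Finset.mem_univ 0)
      have h6 : w 0 * a 0 ≤ w 0 * m 0 := Nat.mul_le_mul_left _ h1
      have h7 := haw 0
      rw [mul_comm] at h7
      omega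
    · intro h
      exact absurd h (Set.notMem_empty m)

/-- (Multiplication by `f0 c a` is an isomorphism from `PP k w (s - W)` to `F0 w (f0 c a) s` for
`s ≥ W` (`comp_mul_left`), and `F0 = 0` for `s < W` (`comp_mul_left_lt`).  So
`finrank F0 = #{m | w m = s - W}` (`0` if `s < W`), and `m ↦ m + a_0 e_0` is a bijection onto
`{m | w m = s, m_0 ≥ a_0}`.) -/
theorem finrank_F0 (ha : ∀ i, 1 ≤ a i) (hw : ∀ i, 0 < w i) (haw : ∀ i, a i * w i = W)
    (hc : ∀ i, c i ≠ 0) (s : ℕ) :
    Module.finrank k (F0 w (f0 c a) s) + NN w (a 0) s =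
      Module.finrank k (PP k w s : Submodule k (MvPolynomial (Fin (n + 1)) k)) := by
  have hf0 : f0 c a ∈ PP k w W := f0_mem a W haw c
  have hne : f0 c a ≠ 0 := FW_f0_ne ha hc
  rw [finrank_PP hw s, FW_count hw haw s]
  congr 1
  split_ifs with hWs
  · rw [← finrank_PP (k := k) hw (s - W)]
    have hmap : F0 w (f0 c a) s = (PP k w (s - W)).map (LinearMap.mulLeft k (f0 c a)) := by
      ext u
      constructor
      · rintro ⟨h1, h2⟩
        have h2' : u ∈ Ideal.span {f0 c a} := h2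
        obtain ⟨v, rfl⟩ := Ideal.mem_span_singleton.1 h2'
        have h3 := comp_mul_left (s := s - W) hf0 v
        rw [Nat.add_sub_cancel' hWs, comp_of_mem h1] at h3
        exact ⟨comp w (s - W) v, comp_mem _ _, h3.symm⟩
      · rintro ⟨v, hv, rfl⟩
        refine ⟨?_, ?_⟩
        · have h3 := PP_mul hf0 hv
          rw [Nat.add_sub_cancel' hWs] at h3
          exact h3
        · change f0 c a * v ∈ Ideal.span {f0 c a}
          exact Ideal.mul_mem_right _ _ (Ideal.mem_span_singleton_self _)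
    rw [hmap]
    have hinj : Function.Injective (LinearMap.mulLeft k (f0 c a)) := by
      intro u v h
      exact mul_left_cancel₀ hne h
    exact (Submodule.equivMapOfInjective _ hinj _).finrank_eq.symm
  · have h0 : F0 w (f0 c a) s = ⊥ := by
      rw [eq_bot_iff]
      rintro u ⟨h1, h2⟩
      have h2' : u ∈ Ideal.span {f0 c a} := h2
      obtain ⟨v, rfl⟩ := Ideal.mem_span_singleton.1 h2'
      have h3 := comp_mul_left_lt (s := s) hf0 v (by omega)
      rw [comp_of_mem h1] at h3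
      rw [Submodule.mem_bot]
      exact h3
    rw [h0, finrank_bot]

/-- A variable is not a zero divisor modulo `f0 c a` (`n ≥ 1`).  (If `X_i u = f0 v`, the prime
element `X_i` divides `f0 v`, and not `f0`, which has the monomial `x_j^(a_j)`, `j ≠ i`; so it divides
`v`.  `MvPolynomial.X_prime`, `X_dvd_iff...`.) -/
theorem X_mul_mem (hn : 1 ≤ n) (ha : ∀ i, 1 ≤ a i) (hc : ∀ i, c i ≠ 0) (i : Fin (n + 1))
    (u : MvPolynomial (Fin (n + 1)) k) (h : f0 c a ∣ X i * u) : f0 c a ∣ u := by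
  obtain ⟨v, hv⟩ := h
  obtain ⟨j, hj⟩ : ∃ j : Fin (n + 1), j ≠ i := by
    have : Nontrivial (Fin (n + 1)) := Fin.nontrivial_iff_two_le.2 (by omega)
    exact exists_ne i
  have hX : Prime (X i : MvPolynomial (Fin (n + 1)) k) := X_prime
  have h1 : (X i : MvPolynomial (Fin (n + 1)) k) ∣ f0 c a * v := ⟨u, hv.symm⟩
  rcases hX.dvd_or_dvd h1 with h2 | h2
  · exfalso
    obtain ⟨t, ht⟩ := h2
    have h3 := FW_coeff_f0 (c := c) ha j
    rw [ht, coeff_X_mul', if_neg] at h3
    · exact hc j h3.symm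
    · rw [Finsupp.mem_support_iff, not_not, Finsupp.single_eq_of_ne hj.symm]
  · obtain ⟨t, rfl⟩ := h2
    refine ⟨t, ?_⟩
    apply mul_left_cancel₀ hX.ne_zero
    rw [hv]
    ring

theorem mono_mul_mem (hn : 1 ≤ n) (ha : ∀ i, 1 ≤ a i) (hc : ∀ i, c i ≠ 0)
    (μ : Fin (n + 1) →₀ ℕ) (u : MvPolynomial (Fin (n + 1)) k)
    (h : f0 c a ∣ monomial μ 1 * u) : f0 c a ∣ u := by
  classical
  let M : Submonoid (MvPolynomial (Fin (n + 1)) k) :=
    { carrier := {h | ∀ u : MvPolynomial (Fin (n + 1)) k, f0 c a ∣ h * u → f0 c a ∣ u}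
      one_mem' := by
        intro u hu
        rwa [one_mul] at hu
      mul_mem' := by
        intro x y hx hy u hu
        rw [mul_assoc] at hu
        exact hy u (hx _ hu) }
  have hM : (monomial μ 1 : MvPolynomial (Fin (n + 1)) k) ∈ M := by
    rw [monomial_eq, C_1, one_mul]
    exact M.prod_mem fun i _ => M.pow_mem (fun u hu => X_mul_mem hn ha hc i u hu) _
  exact hM u h

end BP
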