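import Pool.Agent.Lib.MP_9e8926_ag_BP.FW

/-!
# Monomials of given weight
-/

set_option autoImplicit false
set_option linter.unusedVariables false

noncomputable section

namespace BP

open MvPolynomial

variable {k : Type*} [Field k] {n : ℕ} {a w : Fin (n + 1) → ℕ} {W : ℕ} {c : Fin (n + 1) → k}

/-- Multiplication by a monomial of weight `δ` induces an injective map from `inn_s / F0_s` to
`inn_(s + δ) / F0_(s + δ)` (`inn_mul_pp`, `mono_mul_mem`). -/
theorem mon (hn : 1 ≤ n) (ha : ∀ i, 1 ≤ a i) (hw : ∀ i, 0 < w i) (hc : ∀ i, c i ≠ 0)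
    (I : Ideal (MvPolynomial (Fin (n + 1)) k)) (hI : ∀ s, F0 w (f0 c a) s ≤ inn w I s)
    (μ : Fin (n + 1) →₀ ℕ) (s : ℕ) :
    Module.finrank k (inn w I s) + Module.finrank k (F0 w (f0 c a) (s + wd w μ)) ≤
      Module.finrank k (inn w I (s + wd w μ)) + Module.finrank k (F0 w (f0 c a) s) := by
  classical
  set T : MvPolynomial (Fin (n + 1)) k →ₗ[k] MvPolynomial (Fin (n + 1)) k :=
    LinearMap.mulLeft k (monomial μ 1) with hTd
  have hT0 : (monomial μ (1 : k)) ≠ 0 := by
    rw [Ne, monomial_eq_zero]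
    exact one_ne_zero
  have hT : Function.Injective T := by
    intro u v huv
    have h : monomial μ (1 : k) * u = monomial μ 1 * v := huv
    exact mul_left_cancel₀ hT0 h
  have hfin : ∀ (N : Submodule k (MvPolynomial (Fin (n + 1)) k)) (s : ℕ), N ≤ PP k w s →
      FiniteDimensional k N := by
    intro N s h
    have := PP_finite (k := k) hw s
    exact Submodule.finiteDimensional_of_le h
  have hS := hfin (inn w I s) s (inn_le I s)
  have hS' := hfin (inn w I (s + wd w μ)) _ (inn_le I _)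
  have hA := hfin (F0 w (f0 c a) s) s inf_le_left
  have hA' := hfin (F0 w (f0 c a) (s + wd w μ)) _ inf_le_left
  have h1 : Module.finrank k ((inn w I s).map T) = Module.finrank k (inn w I s) :=
    (LinearEquiv.finrank_eq (Submodule.equivMapOfInjective T hT (inn w I s))).symm
  have h2 : Module.finrank k ((F0 w (f0 c a) s).map T) = Module.finrank k (F0 w (f0 c a) s) :=
    (LinearEquiv.finrank_eq (Submodule.equivMapOfInjective T hT (F0 w (f0 c a) s))).symm
  have h3 : (inn w I s).map T ⊓ F0 w (f0 c a) (s + wd w μ) = (F0 w (f0 c a) s).map T := by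
    ext u
    constructor
    · rintro ⟨⟨v, hv, rfl⟩, hu⟩
      have h4 : T v ∈ Ideal.span {f0 c a} := hu.2
      have h5 : f0 c a ∣ monomial μ 1 * v := Ideal.mem_span_singleton.mp h4
      exact ⟨v, ⟨inn_le I s hv, Ideal.mem_span_singleton.mpr (mono_mul_mem hn ha hc μ v h5)⟩,
        rfl⟩
    · rintro ⟨v, hv, rfl⟩
      refine ⟨⟨v, hI s hv, rfl⟩, ?_, ?_⟩
      · have h4 := PP_mul (PP_monomial (w := w) μ (1 : k)) hv.1
        rw [add_comm (wd w μ) s] at h4
        exact h4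
      · have h4 : v ∈ Ideal.span {f0 c a} := hv.2
        exact Ideal.mul_mem_left _ _ h4
  have h4 : (inn w I s).map T ⊔ F0 w (f0 c a) (s + wd w μ) ≤ inn w I (s + wd w μ) := by
    refine sup_le ?_ (hI _)
    rintro _ ⟨v, hv, rfl⟩
    have h5 := inn_mul_pp hv (PP_monomial (w := w) μ (1 : k))
    rw [mul_comm] at h5
    exact h5
  have h5 := Submodule.finrank_sup_add_finrank_inf_eq ((inn w I s).map T)
    (F0 w (f0 c a) (s + wd w μ))
  have h6 := Submodule.finrank_mono h4
  rw [h3, h2, h1] at h5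
  omega

/-- Existence of a monomial of weight `sig - 2 s`.  Proof.  Let `d_i = q - 1 - ⌈b_i (q-1)⌉ - 2 m_i`
(an integer), `r_i = d_i mod a_i ∈ [0, a_i)`.  `sig - 2 s = ∑ w_i d_i - W (q - 1)`, and
`w_i d_i ≡ w_i r_i mod W`.  So `sig - 2 s - ∑ w_i r_i = W T`, and `∑ w_i r_i ≤ ∑ w_i (a_i - 1) <
(n + 1) W` gives `T ≥ 0`.  Take `μ_i = r_i` for `i ≠ 0` and `μ_0 = r_0 + a_0 T`. -/
theorem exists_mono (ha : ∀ i, 1 ≤ a i) (hw : ∀ i, 0 < w i) (haw : ∀ i, a i * w i = W)
    (b : Fin (n + 1) → ℚ) (q s : ℕ) (m : Fin (n + 1) →₀ ℕ) (hm : wd w m = s)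
    (h : ((n + 1) * W : ℤ) ≤ sig w W b q - 2 * s) :
    ∃ μ : Fin (n + 1) →₀ ℕ, (wd w μ : ℤ) = sig w W b q - 2 * s := by
  have hWpos : 0 < W := by
    have := Nat.mul_pos (ha 0) (hw 0)
    rwa [haw 0] at this
  set d : Fin (n + 1) → ℤ := fun i =>
    (q : ℤ) - 1 - (⌈(b i : ℝ) * ((q : ℝ) - 1)⌉₊ : ℕ) - 2 * m i with hd
  have hai : ∀ i, (0 : ℤ) < a i := fun i => by exact_mod_cast ha i
  have hr0 : ∀ i, 0 ≤ d i % a i := fun i => Int.emod_nonneg _ (hai i).ne'
  have hr1 : ∀ i, d i % a i < a i := fun i => Int.emod_lt_of_pos _ (hai i)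
  have haw' : ∀ i, (a i : ℤ) * w i = W := fun i => by exact_mod_cast haw i
  have h1 : sig w W b q - 2 * s = ∑ i, (w i : ℤ) * d i - W * ((q : ℤ) - 1) := by
    have h2 : (s : ℤ) = ∑ i, (w i : ℤ) * m i := by
      rw [← hm]
      unfold wd
      push_cast
      rfl
    rw [h2]
    unfold sig
    have h3 : ∑ i, (w i : ℤ) * d i = ∑ i, (w i : ℤ) * ((q : ℤ) - 1 -
        (⌈(b i : ℝ) * ((q : ℝ) - 1)⌉₊ : ℕ)) - 2 * ∑ i, (w i : ℤ) * m i := by
      rw [Finset.mul_sum, ← Finset.sum_sub_distrib]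
      refine Finset.sum_congr rfl fun i _ => ?_
      rw [hd]
      ring
    rw [h3]
    ring
  set T : ℤ := ∑ i, d i / a i - ((q : ℤ) - 1) with hT
  have h2 : sig w W b q - 2 * s = W * T + ∑ i, (w i : ℤ) * (d i % a i) := by
    rw [h1, hT]
    have h3 : ∑ i, (w i : ℤ) * d i = W * ∑ i, d i / a i + ∑ i, (w i : ℤ) * (d i % a i) := by
      rw [Finset.mul_sum, ← Finset.sum_add_distrib]
      refine Finset.sum_congr rfl fun i _ => ?_
      have h4 := Int.mul_ediv_add_emod (d i) (a i)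
      calc (w i : ℤ) * d i = w i * (a i * (d i / a i) + d i % a i) := by rw [h4]
        _ = a i * w i * (d i / a i) + w i * (d i % a i) := by ring
        _ = _ := by rw [haw' i]
    rw [h3]
    ring
  have h3 : ∑ i, (w i : ℤ) * (d i % a i) < (n + 1) * W := by
    have h4 : ∑ i, (w i : ℤ) * (d i % a i) < ∑ _i : Fin (n + 1), (W : ℤ) := by
      refine Finset.sum_lt_sum_of_nonempty Finset.univ_nonempty fun i _ => ?_
      rw [← haw' i, mul_comm (a i : ℤ)]
      exact mul_lt_mul_of_pos_left (hr1 i) (by exact_mod_cast hw i)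
    have h5 : ∑ _i : Fin (n + 1), (W : ℤ) = (n + 1) * W := by
      simp
    rwa [h5] at h4
  have hT0 : 0 ≤ T := by
    by_contra hneg
    have h4 : T ≤ -1 := by omega
    have h5 : (W : ℤ) * T ≤ W * (-1) :=
      mul_le_mul_of_nonneg_left h4 (by exact_mod_cast hWpos.le)
    have h6 : (0 : ℤ) < W := by exact_mod_cast hWpos
    linarith
  refine ⟨Finsupp.equivFunOnFinite.symm fun i =>
    (d i % a i).toNat + if i = 0 then a 0 * T.toNat else 0, ?_⟩
  rw [h2]
  unfold wd
  push_cast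
  have h4 : ∀ i : Fin (n + 1), ((Finsupp.equivFunOnFinite.symm fun i : Fin (n + 1) =>
      (d i % a i).toNat + if i = 0 then a 0 * T.toNat else 0) i : ℤ) =
      d i % a i + if i = 0 then a 0 * T else 0 := by
    intro i
    simp only [Finsupp.coe_equivFunOnFinite_symm]
    push_cast
    rw [Int.toNat_of_nonneg (hr0 i), Int.toNat_of_nonneg hT0]
  simp only [h4, mul_add, mul_ite, mul_zero]
  rw [Finset.sum_add_distrib, Finset.sum_ite_eq' Finset.univ (0 : Fin (n + 1))]
  simp only [Finset.mem_univ, if_true]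
  rw [← haw' 0]
  ring

end BP
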