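import Pool.Agent.Lib.MP_9e8926_ag_BP.Nda

/-!
# Nondegeneracy of the Frobenius pairing for diagonal forms
-/

set_option autoImplicit false
set_option linter.unusedVariables false

noncomputable section

namespace BP

open MvPolynomial

variable {k : Type*} [Field k]

theorem f0_eq_ex {ι : Type*} [Fintype ι] (c : ι → k) (a : ι → ℕ) :
    f0 c a = ex a (∑ i, C (c i) * X i) := by
  simp [f0, ex]

/-- Let `q = p^(e+1)`, `Q = p^e`.  Proof.  For every class `ε` (`ε_i < a_i`):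
`f0^(q-1) Yq u = (∏ x_i^γ_i) * (u * ex a (lin c ^ (q-1)))`, `γ_i = ⌈b_i (q - 1)⌉₊`, is in
`DP.J = Jr (fun _ => q)`.  By `cls_mem` with `N_i = Q κ_i`, `r_i = q`:
`cls a ε u * lin c ^ (q - 1) ∈ (x_i^(Q κ_i))`.  By `deg_cls` (`a_i w_i = W`)
`totalDegree (cls a ε u) * W ≤ s ≤ W Q J'`, so the degree is `≤ Q J'`.  By `nd_lin` `lin c` divides
`cls a ε u`.  By `recon` `u` is a multiple of `ex a (lin c) = f0 c a`. -/
theorem nd {n : ℕ} (p : ℕ) [Fact p.Prime] [CharP k p] (e : ℕ) (a w : Fin (n + 1) → ℕ) (W : ℕ)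
    (hW : 0 < W) (haw : ∀ i, a i * w i = W) (c : Fin (n + 1) → k) (hc : ∀ i, c i ≠ 0)
    (b : Fin (n + 1) → ℚ) (κ : Fin (n + 1) → ℕ) (hκ1 : ∀ i, 1 ≤ κ i) (hκ2 : ∀ i, κ i ≤ p)
    (N J' : ℕ) (hN : p - κ 0 ≤ N) (h1 : 2 * J' + N + n ≤ ∑ i : Fin n, κ i.succ)
    (h2 : J' + N < p) (h3 : ∀ i : Fin n, J' < κ i.succ)
    (h4 : ∀ i, a i * (p ^ e * κ i) + ⌈(b i : ℝ) * (((p ^ (e + 1) : ℕ) : ℝ) - 1)⌉₊ ≤ p ^ (e + 1))
    (s : ℕ) (hs : s ≤ W * (p ^ e * J')) (u : MvPolynomial (Fin (n + 1)) k) (hu : u ∈ PP k w s)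
    (h : f0 c a ^ (p ^ (e + 1) - 1) * Yq b (p ^ (e + 1)) * u ∈
      DP.J (Fin (n + 1)) k (p ^ (e + 1))) : f0 c a ∣ u := by
  classical
  have ha : ∀ i, 1 ≤ a i := by
    intro i
    rcases Nat.eq_zero_or_pos (a i) with h0 | h0
    · have h5 := haw i
      rw [h0, zero_mul] at h5
      omega
    · exact h0
  have hf : f0 c a = ex a (lin c) := f0_eq_ex c a
  have hm : (∏ i, X i ^ ⌈(b i : ℝ) * (((p ^ (e + 1) : ℕ) : ℝ) - 1)⌉₊) *
      (u * ex a (lin c ^ (p ^ (e + 1) - 1))) ∈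
      Jr k (fun _ : Fin (n + 1) => p ^ (e + 1)) := by
    rw [J_eq_Jr] at h
    have he : (∏ i, X i ^ ⌈(b i : ℝ) * (((p ^ (e + 1) : ℕ) : ℝ) - 1)⌉₊) *
        (u * ex a (lin c ^ (p ^ (e + 1) - 1))) =
        f0 c a ^ (p ^ (e + 1) - 1) * Yq b (p ^ (e + 1)) * u := by
      rw [map_pow, ← hf]
      unfold Yq
      ring
    rw [he]
    exact h
  rw [recon a ha u, hf]
  refine Finset.dvd_sum fun ε hε => ?_
  rw [Fintype.mem_piFinset] at hε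
  have hε' : ∀ i, ε i < a i := fun i => Finset.mem_range.1 (hε i)
  refine Dvd.dvd.mul_left (map_dvd (ex a) ?_) _
  have h5 := cls_mem a ε hε' _ (fun i => p ^ e * κ i) (fun _ => p ^ (e + 1)) h4 u _ hm
  have h6 := deg_cls a ε w W s hε' (fun i => (haw i).ge) u (fun m hm => (hu m hm).le)
  have h7 : (cls a ε u).totalDegree ≤ p ^ e * J' := by
    refine Nat.le_of_mul_le_mul_left ?_ hW
    rw [mul_comm W (cls a ε u).totalDegree]
    exact h6.trans hs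
  exact nd_lin p e c hc κ hκ1 hκ2 N J' hN h1 h2 h3 _ h7 h5

end BP
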