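import Pool.Agent.Lib.MP_9e8926_ag_BP.In

/-!
# Orthogonality
-/

set_option autoImplicit false
set_option linter.unusedVariables false

noncomputable section

namespace BP

open MvPolynomial

variable {ι : Type*} [Fintype ι] {k : Type*} [Field k] {w : ι → ℕ}

/-- (If not, some monomial `m` with `m_i < q` for all `i` occurs in `G u` (`PiB.mem_Jr`).  Take
`u' = x^(q - 1 - m)`: the coefficient of `x^(q-1)` in `G u u'` is that of `m` in `G u`, not zero.
Weights: `wd m = g + s` (`G u ∈ PP (g + s)`), so `wd (q - 1 - m) = ∑ w_i (q - 1) - g - s = s'`.) -/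
theorem exists_partner (hw : ∀ i, 0 < w i) (q : ℕ) (hq : 1 ≤ q) (g : ℕ) (G : MvPolynomial ι k)
    (hG : G ∈ PP k w g) (s s' : ℕ) (hs : g + s + s' = ∑ i, w i * (q - 1))
    (u : MvPolynomial ι k) (hu : u ∈ PP k w s)
    (h : ∀ u' ∈ PP k w s', coeff (Finsupp.equivFunOnFinite.symm fun _ => q - 1) (G * u * u') = 0) :
    G * u ∈ DP.J ι k q := by
  classical
  rw [J_eq_Jr, mem_Jr]
  by_contra hc
  push Not at hc
  obtain ⟨m, hm, hmq⟩ := hc
  have hw1 : wd w m = g + s := PP_mul hG hu m hm
  set m' : ι →₀ ℕ := Finsupp.equivFunOnFinite.symm fun i => q - 1 - m i with hm'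
  have hsum : m + m' = Finsupp.equivFunOnFinite.symm fun _ => q - 1 := by
    ext i
    simp only [hm', Finsupp.add_apply, Finsupp.equivFunOnFinite_symm_apply_apply]
    have := hmq i
    omega
  have hw2 : wd w m' = s' := by
    have h1 : wd w (m + m') = ∑ i, w i * (q - 1) := by
      rw [hsum]
      unfold wd
      simp
    rw [wd_add, hw1] at h1
    omega
  have h2 := h (monomial m' 1) (hw2 ▸ PP_monomial m' 1)
  rw [← hsum, coeff_mul_monomial, mul_one] at h2
  exact (mem_support_iff.1 hm) h2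

/-- Proof.  Let `G = F^(q-1) Yq b q ∈ PP g`, `g = (q - 1) W + ∑ w_i ⌈b_i (q-1)⌉₊`, so
`g + s + s' = ∑ w_i (q - 1)`.  Let `Φ(v)` be the coefficient of `x^(q-1)` in `G v`.  The linear map
`U → Dual (PP s')`, `u ↦ (u' ↦ Φ (u u'))` has image in the annihilator of `U'` (by `horth`:
elements of
`DP.J` have no monomial `x^(q-1)`), of dimension `finrank PP s' - finrank U'`, and kernel contained
in
`F0 w F s` (`exists_partner`, `hnd`).  So `finrank U - finrank F0 ≤ finrank PP s' - finrank U'`.
(E.g. rank-nullity for the map, `Submodule.finrank_add_finrank_dualAnnihilator_eq` or an explicit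
map `U → Dual (PP s' / U')`.) -/
theorem ort (hw : ∀ i, 0 < w i) (W : ℕ) (F : MvPolynomial ι k) (hF : F ∈ PP k w W) (b : ι → ℚ)
    (q : ℕ) (hq : 1 ≤ q) (s s' : ℕ) (hss : (s : ℤ) + s' = sig w W b q)
    (hnd : ∀ u ∈ PP k w s, F ^ (q - 1) * Yq b q * u ∈ DP.J ι k q → F ∣ u)
    (U U' : Submodule k (MvPolynomial ι k)) (hU : U ≤ PP k w s) (hU' : U' ≤ PP k w s')
    (horth : ∀ u ∈ U, ∀ u' ∈ U', F ^ (q - 1) * Yq b q * (u * u') ∈ DP.J ι k q) :
    Module.finrank k U + Module.finrank k U' ≤
      Module.finrank k (F0 w F s) +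
        Module.finrank k (PP k w s' : Submodule k (MvPolynomial ι k)) := by
  classical
  have := PP_finite (k := k) hw s
  have := PP_finite (k := k) hw s'
  have hUf : Module.Finite k U := Submodule.finiteDimensional_of_le hU
  have hFf : Module.Finite k (F0 w F s) := Submodule.finiteDimensional_of_le inf_le_left
  set G : MvPolynomial ι k := F ^ (q - 1) * Yq b q with hGdef
  set g : ℕ := (q - 1) * W + ∑ i, w i * ⌈(b i : ℝ) * ((q : ℝ) - 1)⌉₊ with hg
  have hG : G ∈ PP k w g := PP_mul (PP_pow hF (q - 1)) (Yq_mem b q)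
  have hsum : g + s + s' = ∑ i, w i * (q - 1) := by
    have h1 : ((g + s + s' : ℕ) : ℤ) = ((∑ i, w i * (q - 1) : ℕ) : ℤ) := by
      push_cast [hg, Nat.cast_sub hq]
      rw [add_assoc, hss]
      unfold sig
      have h2 : ∀ i, (w i : ℤ) * ((q : ℤ) - 1 - (⌈(b i : ℝ) * ((q : ℝ) - 1)⌉₊ : ℕ)) =
          (w i : ℤ) * ((q : ℤ) - 1) - (w i : ℤ) * (⌈(b i : ℝ) * ((q : ℝ) - 1)⌉₊ : ℕ) :=
        fun i => by ring
      rw [Finset.sum_congr rfl fun i _ => h2 i, Finset.sum_sub_distrib]
      ring
    exact_mod_cast h1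
  set κ : ι →₀ ℕ := Finsupp.equivFunOnFinite.symm fun _ => q - 1 with hκ
  -- the pairing
  let Φ : MvPolynomial ι k →ₗ[k] k := (lcoeff k κ).comp (LinearMap.mulLeft k G)
  have hΦ : ∀ v, Φ v = coeff κ (G * v) := fun v => rfl
  let L0 : MvPolynomial ι k →ₗ[k] MvPolynomial ι k →ₗ[k] k :=
    (LinearMap.mul k (MvPolynomial ι k)).compr₂ Φ
  have hL0 : ∀ u v, L0 u v = coeff κ (G * (u * v)) := fun u v => rfl
  let L : U →ₗ[k] Module.Dual k (PP k w s') := (L0.domRestrict₁₂ U (PP k w s'))
  have hL : ∀ (u : U) (v : PP k w s'), L u v =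
      coeff κ (G * ((u : MvPolynomial ι k) * (v : MvPolynomial ι k))) := fun u v => rfl
  have hJ : ∀ v ∈ DP.J ι k q, coeff κ v = 0 := by
    intro v hv
    rw [J_eq_Jr, mem_Jr] at hv
    by_contra hc
    obtain ⟨i, hi⟩ := hv κ (mem_support_iff.2 hc)
    simp only [hκ, Finsupp.equivFunOnFinite_symm_apply_apply] at hi
    omega
  have h1 := LinearMap.finrank_range_add_finrank_ker L
  -- the kernel
  have h2 : Module.finrank k (LinearMap.ker L) ≤ Module.finrank k (F0 w F s) := by
    rw [← Submodule.finrank_map_subtype_eq U (LinearMap.ker L)]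
    refine Submodule.finrank_mono ?_
    rintro _ ⟨u, hu, rfl⟩
    have hu' : L u = 0 := hu
    have hus : (u : MvPolynomial ι k) ∈ PP k w s := hU u.2
    have h3 : G * (u : MvPolynomial ι k) ∈ DP.J ι k q := by
      refine exists_partner hw q hq g G hG s s' hsum _ hus ?_
      intro v hv
      have h4 : L u ⟨v, hv⟩ = 0 := by rw [hu', LinearMap.zero_apply]
      rw [hL] at h4
      rw [mul_assoc]
      exact h4
    exact ⟨hus, Ideal.mem_span_singleton.2 (hnd _ hus h3)⟩
  -- the range
  have h3 : Module.finrank k (LinearMap.range L) + Module.finrank k U' ≤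
      Module.finrank k (PP k w s' : Submodule k (MvPolynomial ι k)) := by
    set U1 : Submodule k (PP k w s') := U'.submoduleOf (PP k w s') with hU1
    have h4 : LinearMap.range L ≤ U1.dualAnnihilator := by
      rintro _ ⟨u, rfl⟩
      rw [Submodule.mem_dualAnnihilator]
      intro v hv
      rw [hL]
      exact hJ _ (horth _ u.2 _ hv)
    have h5 := Submodule.finrank_mono h4
    have h6 := Subspace.finrank_add_finrank_dualAnnihilator_eq U1
    have h7 : Module.finrank k U1 = Module.finrank k U' :=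
      (Submodule.submoduleOfEquivOfLe hU').finrank_eq
    omega
  omega

end BP
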