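import Pool.Agent.Lib.MP_9e8926_ag_BP.Pre

/-!
# Choice of the numerical parameters
-/

set_option autoImplicit false
set_option linter.unusedVariables false

noncomputable section

namespace BP

/-- Numerical data at a prime `p`: see `nd`. -/
structure Par {n : ℕ} (a : Fin (n + 1) → ℕ) (b : Fin (n + 1) → ℚ) (p J' : ℕ) : Prop where
  ex : ∃ (κ : Fin (n + 1) → ℕ) (N : ℕ), (∀ i, 1 ≤ κ i) ∧ (∀ i, κ i ≤ p) ∧ p - κ 0 ≤ N ∧
    2 * J' + N + n ≤ ∑ i : Fin n, κ i.succ ∧ J' + N < p ∧ (∀ i : Fin n, J' < κ i.succ) ∧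
    ∀ (e : ℕ) (i : Fin (n + 1)),
      a i * (p ^ e * κ i) + ⌈(b i : ℝ) * (((p ^ (e + 1) : ℕ) : ℝ) - 1)⌉₊ ≤ p ^ (e + 1)
  one : 1 ≤ J'
  lo : (p : ℝ) * rho a b - (4 * n + 4) ≤ 2 * J'
  up : 2 * (J' : ℝ) ≤ p * rho a b - (3 * n + 2)

/-- Proof.  `β_i = (1 - b_i) / a_i`, `ρ = ∑ β_i - 1`, `ρ ≤ 2 β_i`.  Take `P0` with `P0 β_i ≥ 4` for
all `i` and `P0 ρ ≥ 4 n + 6`.  Put `κ_i = ⌊β_i p⌋₊ - 2`, so `β_i p - 3 < κ_i ≤ β_i p - 2`, `N = p - κ_0`,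
`J' = (∑_{i ≥ 1} κ_i - n - N) / 2` (integer part).  Then `2 J' ≤ ∑_{i ≥ 0} κ_i - n - p ≤
p (ρ + 1) - 2 (n + 1) - n - p = p ρ - 3 n - 2`, `2 J' ≥ ∑_{i ≥ 0} κ_i - n - p - 1 ≥
p (ρ + 1) - 3 (n + 1) - n - p - 1 = p ρ - 4 n - 4 ≥ 2`.  `J' + N ≤ (∑_{i ≥ 1} κ_i - n + p - κ_0) / 2 < p`,
as `∑_{i ≥ 1} κ_i - κ_0 - n < p (∑_{i≥1} β_i - β_0) - 2 n + 3 - n = p (1 + ρ - 2 β_0) - 3 n + 3 ≤ p`
(`n ≥ 2`; `n ≥ 1` is enough here).
`2 J' ≤ p ρ - 3 n - 2 ≤ 2 β_i p - 8 < 2 κ_i` (`n ≥ 2`).  Last condition, `Q = p^e`, `q = p Q`: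
`a_i Q κ_i ≤ Q ((1 - b_i) p - 2 a_i) = (1 - b_i) q - 2 a_i Q` and `⌈b_i (q - 1)⌉₊ ≤ b_i (q - 1) + 1`,
the sum is `≤ q - b_i + 1 - 2 a_i Q ≤ q`. -/
theorem exists_par {n : ℕ} (hn : 2 ≤ n) (a : Fin (n + 1) → ℕ) (ha : ∀ i, 1 ≤ a i)
    (b : Fin (n + 1) → ℚ) (hb : ∀ i, 0 ≤ b i ∧ b i < 1) (hρ : 0 < rho a b)
    (hρ2 : ∀ i, rho a b ≤ 2 * ((1 - (b i : ℝ)) / a i)) :
    ∃ P0 : ℕ, ∀ p : ℕ, P0 ≤ p → ∃ J' : ℕ, Par a b p J' := by
  set β : Fin (n + 1) → ℝ := fun i => (1 - (b i : ℝ)) / a i with hβ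
  have ha' : ∀ i, (1 : ℝ) ≤ a i := fun i => by exact_mod_cast ha i
  have hb0 : ∀ i, (0 : ℝ) ≤ b i := fun i => by exact_mod_cast (hb i).1
  have hb1 : ∀ i, (b i : ℝ) < 1 := fun i => by exact_mod_cast (hb i).2
  have hβpos : ∀ i, 0 < β i := fun i =>
    div_pos (by linarith [hb1 i]) (by linarith [ha' i])
  have hβle : ∀ i, β i ≤ 1 := fun i => by
    rw [hβ]
    simp only
    rw [div_le_one (by linarith [ha' i])]
    linarith [ha' i, hb0 i]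
  have hrho : rho a b = ∑ i, β i - 1 := rfl
  obtain ⟨P1, hP1⟩ := exists_nat_gt ((4 * n + 6) / rho a b)
  obtain ⟨P2, hP2⟩ := exists_nat_gt (∑ i, 4 / β i)
  refine ⟨max P1 P2, fun p hp => ?_⟩
  have hp1 : (P1 : ℝ) ≤ p := by exact_mod_cast (le_max_left _ _).trans hp
  have hp2 : (P2 : ℝ) ≤ p := by exact_mod_cast (le_max_right _ _).trans hp
  have hpρ : (4 * n + 6 : ℝ) ≤ p * rho a b := by
    have h1 : (4 * n + 6) / rho a b ≤ p := by linarith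
    rwa [div_le_iff₀ hρ] at h1
  have hpβ : ∀ i, 4 ≤ p * β i := fun i => by
    have h1 : 4 / β i ≤ ∑ i, 4 / β i :=
      Finset.single_le_sum (f := fun i => 4 / β i) (fun j _ => (div_pos (by norm_num) (hβpos j)).le)
        (Finset.mem_univ i)
    have h2 : 4 / β i ≤ p := by linarith
    rwa [div_le_iff₀ (hβpos i)] at h2
  have hp0 : (0 : ℝ) ≤ p := by positivity
  -- the numbers
  have hfl : ∀ i, 4 ≤ ⌊p * β i⌋₊ := fun i => Nat.le_floor (by exact_mod_cast hpβ i)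
  set κ : Fin (n + 1) → ℕ := fun i => ⌊p * β i⌋₊ - 2 with hκ
  have hκu : ∀ i, (κ i : ℝ) ≤ p * β i - 2 := fun i => by
    have h1 : ((⌊p * β i⌋₊ - 2 : ℕ) : ℝ) = ⌊p * β i⌋₊ - 2 := by
      rw [Nat.cast_sub (by linarith [hfl i] : 2 ≤ ⌊p * β i⌋₊)]
      norm_num
    have h2 := Nat.floor_le (show 0 ≤ p * β i by linarith [hpβ i])
    simp only [hκ]
    rw [h1]
    linarith
  have hκl : ∀ i, p * β i - 3 < (κ i : ℝ) := fun i => by
    have h1 : ((⌊p * β i⌋₊ - 2 : ℕ) : ℝ) = ⌊p * β i⌋₊ - 2 := by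
      rw [Nat.cast_sub (by linarith [hfl i] : 2 ≤ ⌊p * β i⌋₊)]
      norm_num
    have h2 := Nat.lt_floor_add_one (p * β i)
    simp only [hκ]
    rw [h1]
    linarith
  have hκp : ∀ i, κ i ≤ p := fun i => by
    have h1 : (κ i : ℝ) ≤ p := by
      have := mul_le_mul_of_nonneg_left (hβle i) hp0
      linarith [hκu i]
    exact_mod_cast h1
  have hκ1 : ∀ i, 1 ≤ κ i := fun i => by
    have := hfl i
    simp only [hκ]
    omega
  have hsum : ∑ i, β i = β 0 + ∑ i : Fin n, β i.succ := Fin.sum_univ_succ _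
  set S : ℕ := ∑ i : Fin n, κ i.succ with hS
  have hSu : (S : ℝ) ≤ p * (∑ i : Fin n, β i.succ) - 2 * n := by
    rw [hS]
    push_cast
    calc ∑ i : Fin n, (κ i.succ : ℝ) ≤ ∑ i : Fin n, (p * β i.succ - 2) :=
          Finset.sum_le_sum fun i _ => hκu _
      _ = _ := by
          rw [Finset.sum_sub_distrib, ← Finset.mul_sum]
          simp
          ring
  have hSl : p * (∑ i : Fin n, β i.succ) - 3 * n ≤ S := by
    rw [hS]
    push_cast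
    calc _ = ∑ i : Fin n, (p * β i.succ - 3) := by
          rw [Finset.sum_sub_distrib, ← Finset.mul_sum]
          simp
          ring
      _ ≤ _ := Finset.sum_le_sum fun i _ => (hκl _).le
  have hN : ((p - κ 0 : ℕ) : ℝ) = p - κ 0 := by
    rw [Nat.cast_sub (hκp 0)]
  have hprho : p * rho a b = p * β 0 + p * (∑ i : Fin n, β i.succ) - p := by
    rw [hrho, hsum]
    ring
  have hu0 := hκu 0
  have hl0 := hκl 0
  have hge : n + (p - κ 0) + 2 ≤ S := by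
    have : ((n + (p - κ 0) + 2 : ℕ) : ℝ) ≤ S := by
      push_cast [hN]
      linarith
    exact_mod_cast this
  set J' : ℕ := (S - n - (p - κ 0)) / 2 with hJ
  have hJ2 : 2 * J' + (p - κ 0) + n ≤ S := by omega
  have hJ3 : S ≤ 2 * J' + (p - κ 0) + n + 1 := by omega
  have hJ1 : 1 ≤ J' := by omega
  have hJ2' : 2 * (J' : ℝ) + (p - κ 0) + n ≤ S := by
    have : ((2 * J' + (p - κ 0) + n : ℕ) : ℝ) ≤ S := by exact_mod_cast hJ2
    push_cast [hN] at this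
    exact this
  have hJ3' : (S : ℝ) ≤ 2 * (J' : ℝ) + (p - κ 0) + n + 1 := by
    have : (S : ℝ) ≤ ((2 * J' + (p - κ 0) + n + 1 : ℕ) : ℝ) := by exact_mod_cast hJ3
    push_cast [hN] at this
    exact this
  have hn' : (2 : ℝ) ≤ n := by exact_mod_cast hn
  have hup : 2 * (J' : ℝ) ≤ p * rho a b - (3 * n + 2) := by linarith
  have hlo : (p : ℝ) * rho a b - (4 * n + 4) ≤ 2 * J' := by linarith
  refine ⟨J', ⟨⟨κ, p - κ 0, hκ1, hκp, le_rfl, hJ2, ?_, ?_, ?_⟩, hJ1, hlo, hup⟩⟩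
  · have h1 : ((J' + (p - κ 0) : ℕ) : ℝ) < p := by
      push_cast [hN]
      have h2 := mul_le_mul_of_nonneg_left (hρ2 0) hp0
      have h3 : p * (2 * ((1 - (b 0 : ℝ)) / a 0)) = 2 * (p * β 0) := by
        rw [hβ]
        ring
      rw [h3] at h2
      linarith
    exact_mod_cast h1
  · intro i
    have h2 := mul_le_mul_of_nonneg_left (hρ2 i.succ) hp0
    have h3 : p * (2 * ((1 - (b i.succ : ℝ)) / a i.succ)) = 2 * (p * β i.succ) := by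
      rw [hβ]
      ring
    rw [h3] at h2
    have h4 : (J' : ℝ) < κ i.succ := by
      linarith [hκl i.succ]
    exact_mod_cast h4
  · intro e i
    have hQ : (0 : ℝ) ≤ (p : ℝ) ^ e := by positivity
    have hpp : (1 : ℕ) ≤ p := by
      have : (1 : ℝ) ≤ p := by
        have := mul_le_mul_of_nonneg_left (hβle i) hp0
        linarith [hpβ i]
      exact_mod_cast this
    have hq1 : (1 : ℝ) ≤ ((p ^ (e + 1) : ℕ) : ℝ) := by
      exact_mod_cast Nat.one_le_pow _ _ hpp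
    have hQ1 : (1 : ℝ) ≤ (p : ℝ) ^ e := by
      exact_mod_cast Nat.one_le_pow _ _ hpp
    have h1 : (⌈(b i : ℝ) * (((p ^ (e + 1) : ℕ) : ℝ) - 1)⌉₊ : ℝ)
        < (b i : ℝ) * (((p ^ (e + 1) : ℕ) : ℝ) - 1) + 1 :=
      Nat.ceil_lt_add_one (mul_nonneg (hb0 i) (by linarith))
    have h2 : (a i : ℝ) * ((p : ℝ) ^ e * κ i) ≤ (a i : ℝ) * ((p : ℝ) ^ e * (p * β i - 2)) :=
      mul_le_mul_of_nonneg_left (mul_le_mul_of_nonneg_left (hκu i) hQ) (by linarith [ha' i])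
    have h3 : (a i : ℝ) * ((p : ℝ) ^ e * (p * β i - 2))
        = (p : ℝ) ^ (e + 1) * (1 - b i) - 2 * a i * (p : ℝ) ^ e := by
      have : (a i : ℝ) * β i = 1 - b i := by
        rw [hβ]
        simp only
        rw [mul_div_cancel₀]
        linarith [ha' i]
      calc (a i : ℝ) * ((p : ℝ) ^ e * (p * β i - 2))
          = (p : ℝ) ^ (e + 1) * ((a i : ℝ) * β i) - 2 * a i * (p : ℝ) ^ e := by ring
        _ = _ := by rw [this]
    have h4 : (1 : ℝ) ≤ a i * (p : ℝ) ^ e := one_le_mul_of_one_le_of_one_le (ha' i) hQ1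
    have h5 : ((a i * (p ^ e * κ i) + ⌈(b i : ℝ) * (((p ^ (e + 1) : ℕ) : ℝ) - 1)⌉₊ : ℕ) : ℝ)
        ≤ ((p ^ (e + 1) : ℕ) : ℝ) := by
      push_cast at h1 ⊢
      nlinarith [hb0 i, hb1 i]
    exact_mod_cast h5

end BP
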