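import Pool.Agent.Lib.MP_9e8926_ag_BP.FWb
import Pool.Agent.Lib.MP_9e8926_ag_BP.Ort
import Pool.Agent.Lib.MP_9e8926_ag_BP.Ndb
import Pool.Agent.Lib.MP_9e8926_ag_BP.Par

/-!
# Families of ideals
-/

set_option autoImplicit false
set_option linter.unusedVariables false

noncomputable section

namespace BP

open MvPolynomial

/-- A graded family of ideals which contain `f` (with leading form `F` of weight `W`), of finite
colength, such that `F`-splitting fails at the exponent `t`. -/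
structure Fam {ι : Type*} [Fintype ι] {K : Type*} [Field K] (w : ι → ℕ) (W : ℕ)
    (f F : MvPolynomial ι K) (b : ι → ℚ) (p : ℕ) (t : ℝ) (Jc : ℕ → Ideal (MvPolynomial ι K)) :
    Prop where
  zero : Jc 0 = ⊤
  anti : Antitone Jc
  mul : ∀ i j, Jc i * Jc j ≤ Jc (i + j)
  mem : ∀ n, f ∈ Jc n
  fin : ∀ n, Module.Finite K (MvPolynomial ι K ⧸ Jc n)
  lead1 : Ge w W f
  lead2 : comp w W f = F
  iso : ∀ e n : ℕ, t * (p : ℝ) ^ e ≤ n → ∀ u ∈ Jc n,
    f ^ (p ^ e - 1) * Yq b (p ^ e) * u ∈ DP.J ι K (p ^ e)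

end BP
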