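import Pool.Agent.Lib.MP_9e8926_ag_BP.FptB

/-!
# The threshold and the ideals `J q`
-/

set_option autoImplicit false

noncomputable section

namespace BP

open MvPolynomial
open DP (m0 J mem_m0 m0_eq_span mem_J flat exists_psi_unit)

variable {ι : Type*} [Fintype ι] {k : Type*} [Field k]

private theorem FptA_exp (c : ℚ) (q₁ q : ℕ) :
    ⌈(c : ℝ) * (((q₁ * q : ℕ) : ℝ) - 1)⌉₊ ≤
      ⌈(c : ℝ) * ((q₁ : ℝ) - 1)⌉₊ + ⌈(c : ℝ) * ((q : ℝ) - 1)⌉₊ * q₁ := by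
  rw [Nat.ceil_le]
  push_cast
  have h1 := Nat.le_ceil ((c : ℝ) * ((q₁ : ℝ) - 1))
  have h2 := Nat.le_ceil ((c : ℝ) * ((q : ℝ) - 1))
  have h3 : (0 : ℝ) ≤ (q₁ : ℝ) := Nat.cast_nonneg _
  have h4 := mul_le_mul_of_nonneg_right h2 h3
  have h5 : (c : ℝ) * ((q₁ : ℝ) * (q : ℝ) - 1) =
      (c : ℝ) * ((q₁ : ℝ) - 1) + (c : ℝ) * ((q : ℝ) - 1) * (q₁ : ℝ) := by ring
  rw [h5]
  exact add_le_add h1 h4

private theorem FptA_Yq (b : ι → ℚ) (q₁ q : ℕ) :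
    (Yq b (q₁ * q) : MvPolynomial ι k) ∣ Yq b q₁ * Yq b q ^ q₁ := by
  unfold Yq
  rw [← Finset.prod_pow, ← Finset.prod_mul_distrib]
  refine Finset.prod_dvd_prod_of_dvd _ _ fun j _ => ?_
  rw [← pow_mul, ← pow_add]
  exact pow_dvd_pow _ (FptA_exp (b j) q₁ q)

private theorem FptA_notMem (f d : MvPolynomial ι k) (M : ℕ)
    (h : Ideal.Quotient.mk (Ideal.span {f}) d ∉ mX f ^ M) :
    d ∉ Ideal.span {f} ⊔ m0 ι k ^ M := by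
  intro hd
  apply h
  obtain ⟨x, hx, y, hy, rfl⟩ := Submodule.mem_sup.1 hd
  rw [map_add, Ideal.Quotient.eq_zero_iff_mem.2 hx, zero_add, mX_eq, ← Ideal.map_pow]
  exact Ideal.mem_map_of_mem _ hy

/-- Strong `F`-regularity of the pair `(f = 0, ∑ b_i div x_i)`, in terms of Fedder's criterion. -/
def Rgl (p : ℕ) (f : MvPolynomial ι k) (b : ι → ℚ) : Prop :=
  ∀ (d : MvPolynomial ι k) (M : ℕ), d ∉ Ideal.span {f} ⊔ m0 ι k ^ M →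
    ∃ e : ℕ, 1 ≤ e ∧ f ^ (p ^ e - 1) * Yq b (p ^ e) * d ∉ J ι k (p ^ e)

variable (p : ℕ) [Fact p.Prime] [CharP k p] [PerfectField k] (f : MvPolynomial ι k)
  (hf : f ≠ 0) (hf0 : constantCoeff f = 0) (b : ι → ℚ) (hR : Rgl p f b)

include hf0 hR

theorem sfr_of (I : Ideal (Rg f)) (t : ℝ) (ht : 0 ≤ t) (e : ℕ)
    (u : MvPolynomial ι k)
    (hu : Ideal.Quotient.mk _ u ∈ I ^ ⌈t * (p : ℝ) ^ e⌉₊)
    (h : f ^ (p ^ e - 1) * Yq b (p ^ e) * u ∉ J ι k (p ^ e)) :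
    SFR p f b I t := by
  intro d hd
  have hp0 : 0 < p := (Fact.out : p.Prime).pos
  obtain ⟨M, hM⟩ := kru hf0 d hd
  obtain ⟨d', rfl⟩ := Ideal.Quotient.mk_surjective d
  obtain ⟨e₁, he₁, hreg⟩ := hR d' M (FptA_notMem _ d' M hM)
  have hflat : f ^ (p ^ e₁ - 1) * Yq b (p ^ e₁) * d' *
      (f ^ (p ^ e - 1) * Yq b (p ^ e) * u) ^ p ^ e₁ ∉
        J ι k (p ^ e₁ * p ^ e) :=
    fun hmem => h (flat p e₁ (p ^ e) _ _ hreg hmem)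
  obtain ⟨y, hy⟩ := exists_eq_mul_right_of_dvd
    (FptA_Yq (k := k) b (p ^ e₁) (p ^ e))
  have hpow : f ^ (p ^ e₁ - 1) * (f ^ (p ^ e - 1)) ^ p ^ e₁ =
      f ^ (p ^ (e₁ + e) - 1) := by
    rw [← pow_mul, ← pow_add]
    congr 1
    have h1 : 1 ≤ p ^ e₁ := Nat.one_le_pow _ _ hp0
    have h2 : 1 ≤ p ^ e := Nat.one_le_pow _ _ hp0
    rw [pow_add]
    obtain ⟨x, hx⟩ := Nat.exists_eq_add_of_le h1
    obtain ⟨z, hz⟩ := Nat.exists_eq_add_of_le h2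
    rw [hx, hz, Nat.add_sub_cancel_left, Nat.add_sub_cancel_left]
    have h3 : (1 + x) * (1 + z) = 1 + (x + z * (1 + x)) := by ring
    rw [h3, Nat.add_sub_cancel_left]
  have hnot : f ^ (p ^ (e₁ + e) - 1) * (Yq b (p ^ (e₁ + e)) * d' * u ^ p ^ e₁) ∉
      J ι k (p ^ (e₁ + e)) := by
    intro hmem
    apply hflat
    rw [← pow_add]
    have h1 : f ^ (p ^ e₁ - 1) * Yq b (p ^ e₁) * d' *
        (f ^ (p ^ e - 1) * Yq b (p ^ e) * u) ^ p ^ e₁ =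
        y * (f ^ (p ^ (e₁ + e) - 1) * (Yq b (p ^ (e₁ + e)) * d' * u ^ p ^ e₁)) := by
      rw [← hpow, mul_pow, mul_pow, pow_add]
      linear_combination (f ^ (p ^ e₁ - 1) * (f ^ (p ^ e - 1)) ^ p ^ e₁ * d' *
        u ^ p ^ e₁) * hy
    rw [h1]
    exact Ideal.mul_mem_left _ _ hmem
  obtain ⟨ψ, hψ1, hψ2⟩ := exists_psi_unit p (e₁ + e) _ hnot
  obtain ⟨φ, hφ1, hφ2⟩ := fed_down p f (e₁ + e) ψ hψ1
  refine ⟨e₁ + e, by omega, φ, hφ1, Ideal.Quotient.mk _ u ^ p ^ e₁, ?_, ?_⟩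
  · have h1 : Ideal.Quotient.mk _ u ^ p ^ e₁ ∈ I ^ (⌈t * (p : ℝ) ^ e⌉₊ * p ^ e₁) := by
      have h0 := Ideal.pow_mem_pow hu (p ^ e₁)
      have h6 : (I ^ ⌈t * (p : ℝ) ^ e⌉₊) ^ p ^ e₁ = I ^ (⌈t * (p : ℝ) ^ e⌉₊ * p ^ e₁) :=
        (pow_mul I _ _).symm
      rwa [h6] at h0
    refine Ideal.pow_le_pow_right ?_ h1
    rw [Nat.ceil_le]
    have h2 := Nat.le_ceil (t * (p : ℝ) ^ e)
    have h3 : (0 : ℝ) ≤ (p : ℝ) ^ e₁ := by positivity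
    have h4 := mul_le_mul_of_nonneg_right h2 h3
    push_cast
    refine le_trans ?_ h4
    rw [pow_add]
    nlinarith
  · have h1 : Ideal.Quotient.mk (Ideal.span {f}) d' *
        Ideal.Quotient.mk (Ideal.span {f}) (Yq b (p ^ (e₁ + e))) *
          Ideal.Quotient.mk (Ideal.span {f}) u ^ p ^ e₁ =
        Ideal.Quotient.mk (Ideal.span {f})
          (Yq b (p ^ (e₁ + e)) * d' * u ^ p ^ e₁) := by
      rw [map_mul, map_mul, map_pow]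
      ring
    rw [h1, hφ2, mem_mX hf0]
    exact hψ2

include hf

theorem iso_of_lt (I : Ideal (Rg f)) (hI : I ≤ mX f) (t : ℝ)
    (ht : fpt p f b I < t) (e n : ℕ) (hn : t * (p : ℝ) ^ e ≤ n)
    (u : MvPolynomial ι k) (hu : Ideal.Quotient.mk _ u ∈ I ^ n) :
    f ^ (p ^ e - 1) * Yq b (p ^ e) * u ∈ J ι k (p ^ e) := by
  by_contra hcon
  have ht0 : 0 ≤ t := le_trans (Real.sSup_nonneg fun _ hx => hx.1) ht.le
  have hu' : Ideal.Quotient.mk _ u ∈ I ^ ⌈t * (p : ℝ) ^ e⌉₊ :=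
    Ideal.pow_le_pow_right (Nat.ceil_le.2 hn) hu
  have h1 := sfr_of p f hf0 b hR I t ht0 e u hu' hcon
  have h2 : t ≤ fpt p f b I :=
    le_csSup ⟨(Fintype.card ι : ℝ), fun s hs => sfr_bdd p f hf hf0 b I hI s hs.2⟩
      ⟨ht0, h1⟩
  linarith

end BP
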