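import Pool.Agent.Lib.MP_9e8926_ag_BP.Wts
import Pool.Agent.Lib.MP_9e8926_ag_BP.Kru

/-!
# Boundedness of the thresholds
-/

set_option autoImplicit false

noncomputable section

namespace BP

open MvPolynomial
open DP (m0 J mem_m0 m0_eq_span mem_J)

variable {ι : Type*} [Fintype ι] {k : Type*} [Field k]

theorem sfr_bdd (p : ℕ) [Fact p.Prime] [CharP k p] [PerfectField k] (f : MvPolynomial ι k)
    (hf : f ≠ 0) (hf0 : constantCoeff f = 0) (b : ι → ℚ) (I : Ideal (Rg f)) (hI : I ≤ mX f)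
    (t : ℝ) (h : SFR p f b I t) : t ≤ Fintype.card ι := by
  obtain ⟨e, he, φ, hφ, c, hc, hφc⟩ := h 1 (by
    intro s hs h1
    rw [mul_one] at h1
    exact hs (h1 ▸ (mX f).zero_mem))
  set T : ℕ := ⌈t * ((p ^ e : ℕ) - 1 : ℝ)⌉₊ with hT
  have h1 : c ∈ mX f ^ T := Ideal.pow_right_mono hI T hc
  rw [mX_eq, ← Ideal.map_pow,
    Ideal.mem_map_iff_of_surjective _ Ideal.Quotient.mk_surjective] at h1
  obtain ⟨c', hc', rfl⟩ := h1
  rw [one_mul, ← map_mul] at hφc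
  have h2 := fed_up p f hf hf0 e φ hφ _ hφc
  have h3 : c' ∉ J ι k (p ^ e) := fun h4 =>
    h2 (Ideal.mul_mem_left _ _ (Ideal.mul_mem_left _ _ h4))
  rw [mem_J] at h3
  push Not at h3
  obtain ⟨m, hm, hmq⟩ := h3
  have h4 : T ≤ wd (fun _ : ι => 1) m :=
    pow_le_Wt (fun _ => 1) (fun _ => one_pos) T hc' m hm
  have hq : 2 ≤ p ^ e := by
    calc 2 ≤ p := (Fact.out : p.Prime).two_le
      _ = p ^ 1 := (pow_one p).symm
      _ ≤ p ^ e := Nat.pow_le_pow_right (Fact.out : p.Prime).pos he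
  have h5 : wd (fun _ : ι => 1) m ≤ Fintype.card ι * (p ^ e - 1) := by
    simp only [wd, one_mul]
    refine (Finset.sum_le_card_nsmul _ _ (p ^ e - 1) fun i _ => ?_).trans (by simp)
    have := hmq i
    omega
  have h6 : t * ((p ^ e : ℕ) - 1 : ℝ) ≤ T := Nat.le_ceil _
  have h7 : (T : ℝ) ≤ Fintype.card ι * ((p ^ e : ℕ) - 1 : ℝ) := by
    have h8 : ((T : ℕ) : ℝ) ≤ ((Fintype.card ι * (p ^ e - 1) : ℕ) : ℝ) := by
      exact_mod_cast h4.trans h5
    rw [Nat.cast_mul, Nat.cast_sub (by omega), Nat.cast_one] at h8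
    exact h8
  have h9 : (0 : ℝ) < (p ^ e : ℕ) - 1 := by
    have : (2 : ℝ) ≤ (p ^ e : ℕ) := by exact_mod_cast hq
    linarith
  exact le_of_mul_le_mul_right (h6.trans h7) h9

end BP
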