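import Pool.Agent.Lib.MP_9e8926_ag_BP.PiB

/-!
# The grading by the weight
-/

set_option autoImplicit false
set_option linter.unusedVariables false

noncomputable section

namespace BP

open MvPolynomial

variable {ι : Type*} [Fintype ι] {k : Type*} [CommRing k] {w : ι → ℕ}

theorem wd_add (m m' : ι →₀ ℕ) : wd w (m + m') = wd w m + wd w m' := by
  unfold wd
  rw [← Finset.sum_add_distrib]
  refine Finset.sum_congr rfl fun i _ => ?_
  rw [Finsupp.add_apply, Nat.mul_add]

/-- (`coeff_weightedHomogeneousComponent`; `Finsupp.weight w m = ∑ m i • w i = wd w m`.) -/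
theorem coeff_comp [DecidableEq ℕ] (s : ℕ) (u : MvPolynomial ι k) (m : ι →₀ ℕ) :
    coeff m (comp w s u) = if wd w m = s then coeff m u else 0 := by
  classical
  have h1 : Finsupp.weight w m = wd w m := by
    rw [Finsupp.weight_apply, Finsupp.sum_fintype m (fun i c => c • w i)
      (fun i => zero_nsmul _)]
    unfold wd
    refine Finset.sum_congr rfl fun i _ => ?_
    rw [smul_eq_mul, Nat.mul_comm]
  unfold comp
  rw [coeff_weightedHomogeneousComponent, h1]

theorem comp_mem (s : ℕ) (u : MvPolynomial ι k) : comp w s u ∈ PP k w s := by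
  classical
  intro m hm
  rw [mem_support_iff, coeff_comp] at hm
  by_contra h
  exact hm (if_neg h)

theorem comp_of_mem {s : ℕ} {u : MvPolynomial ι k} (hu : u ∈ PP k w s) : comp w s u = u := by
  classical
  ext m
  rw [coeff_comp]
  by_cases h : wd w m = s
  · rw [if_pos h]
  · rw [if_neg h]
    by_contra h1
    exact h (hu m (mem_support_iff.2 (Ne.symm h1)))

theorem comp_of_ne {s s' : ℕ} {u : MvPolynomial ι k} (hu : u ∈ PP k w s) (h : s ≠ s') :
    comp w s' u = 0 := by
  classical
  ext m
  rw [coeff_comp, coeff_zero]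
  by_cases h1 : wd w m = s'
  · rw [if_pos h1]
    by_contra h2
    exact h ((hu m (mem_support_iff.2 h2)).symm.trans h1)
  · rw [if_neg h1]

theorem PP_mul {s s' : ℕ} {u v : MvPolynomial ι k} (hu : u ∈ PP k w s) (hv : v ∈ PP k w s') :
    u * v ∈ PP k w (s + s') := by
  classical
  intro m hm
  obtain ⟨m1, hm1, m2, hm2, rfl⟩ := Finset.mem_add.1 (support_mul u v hm)
  rw [wd_add, hu m1 hm1, hv m2 hm2]

private theorem Gr_mono (m : ι →₀ ℕ) (c : k) :
    (monomial m c : MvPolynomial ι k) ∈ PP k w (wd w m) := by
  classical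
  intro m' hm'
  rw [mem_support_iff, coeff_monomial] at hm'
  by_contra h
  refine hm' (if_neg ?_)
  rintro rfl
  exact h rfl

theorem PP_one : (1 : MvPolynomial ι k) ∈ PP k w 0 := by
  have h1 := Gr_mono (k := k) (w := w) 0 1
  have h2 : wd w (0 : ι →₀ ℕ) = 0 := by
    unfold wd
    simp
  rwa [h2] at h1

theorem PP_pow {s : ℕ} {u : MvPolynomial ι k} (hu : u ∈ PP k w s) (n : ℕ) :
    u ^ n ∈ PP k w (n * s) := by
  induction n with
  | zero =>
    rw [pow_zero, Nat.zero_mul]
    exact PP_one
  | succ n ih =>
    rw [pow_succ, Nat.succ_mul]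
    exact PP_mul ih hu

theorem PP_X (v : ι) : (X v : MvPolynomial ι k) ∈ PP k w (w v) := by
  classical
  have h1 := Gr_mono (k := k) (w := w) (Finsupp.single v 1) 1
  have h2 : wd w (Finsupp.single v 1) = w v := by
    unfold wd
    simp [Finsupp.single_apply]
  rwa [h2] at h1

theorem PP_monomial (m : ι →₀ ℕ) (x : k) : monomial m x ∈ PP k w (wd w m) := by
  exact Gr_mono m x

/-- (The exponents of weight `s` form a finite set, `m_i ≤ s`.) -/
theorem PP_finite (hw : ∀ i, 0 < w i) (s : ℕ) :
    Module.Finite k (PP k w s : Submodule k (MvPolynomial ι k)) := by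
  classical
  have hfin : {m : ι →₀ ℕ | wd w m = s}.Finite := by
    refine (Set.finite_Iic (Finsupp.equivFunOnFinite.symm (fun _ : ι => s))).subset ?_
    intro m hm
    have hm' : wd w m = s := hm
    rw [Set.mem_Iic]
    intro v
    rw [Finsupp.coe_equivFunOnFinite_symm]
    have h1 : w v * m v ≤ wd w m :=
      Finset.single_le_sum (f := fun i => w i * m i) (fun _ _ => Nat.zero_le _)
        (Finset.mem_univ v)
    rw [hm'] at h1
    exact (Nat.le_mul_of_pos_left (m v) (hw v)).trans h1
  have heq : (PP k w s : Submodule k (MvPolynomial ι k)) =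
      Submodule.span k ((fun m => monomial m (1 : k)) '' {m : ι →₀ ℕ | wd w m = s}) := by
    refine le_antisymm ?_ ?_
    · intro u hu
      rw [← support_sum_monomial_coeff u]
      refine Submodule.sum_mem _ fun m hm => ?_
      have h1 : monomial m (coeff m u) = coeff m u • monomial m (1 : k) := by
        rw [smul_monomial, smul_eq_mul, mul_one]
      rw [h1]
      exact Submodule.smul_mem _ _ (Submodule.subset_span ⟨m, hu m hm, rfl⟩)
    · rw [Submodule.span_le]
      rintro _ ⟨m, hm, rfl⟩
      have hm' : wd w m = s := hm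
      rw [← hm']
      exact Gr_mono m 1
  rw [Module.Finite.iff_fg, heq]
  exact Submodule.fg_span (hfin.image _)

/-- (`comp` is linear and multiplicative for a homogeneous factor; compare coefficients, or write
`v` as the sum of its components.) -/
theorem comp_mul_left {a s : ℕ} {Q : MvPolynomial ι k} (hQ : Q ∈ PP k w a)
    (u : MvPolynomial ι k) : comp w (a + s) (Q * u) = Q * comp w s u := by
  classical
  have h1 : Q * u = Q * comp w s u + Q * (u - comp w s u) := by ring
  have h2 : Q * comp w s u ∈ PP k w (a + s) := PP_mul hQ (comp_mem s u)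
  have h3 : comp w (a + s) (Q * (u - comp w s u)) = 0 := by
    ext m
    rw [coeff_comp, coeff_zero]
    by_cases h4 : wd w m = a + s
    · rw [if_pos h4]
      by_contra h5
      obtain ⟨m1, hm1, m2, hm2, rfl⟩ :=
        Finset.mem_add.1 (support_mul Q (u - comp w s u) (mem_support_iff.2 h5))
      rw [wd_add, hQ m1 hm1] at h4
      have h6 : wd w m2 = s := Nat.add_left_cancel h4
      rw [mem_support_iff, coeff_sub, coeff_comp, if_pos h6, sub_self] at hm2
      exact hm2 rfl
    · rw [if_neg h4]
  rw [h1, map_add, h3, add_zero, comp_of_mem h2]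

/-- (For `s < a` the component of weight `s` of `Q u` is zero.) -/
theorem comp_mul_left_lt {a s : ℕ} {Q : MvPolynomial ι k} (hQ : Q ∈ PP k w a)
    (u : MvPolynomial ι k) (h : s < a) : comp w s (Q * u) = 0 := by
  classical
  ext m
  rw [coeff_comp, coeff_zero]
  by_cases h4 : wd w m = s
  · rw [if_pos h4]
    by_contra h5
    obtain ⟨m1, hm1, m2, hm2, rfl⟩ :=
      Finset.mem_add.1 (support_mul Q u (mem_support_iff.2 h5))
    rw [wd_add, hQ m1 hm1] at h4
    omega
  · rw [if_neg h4]

end BP
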