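import Pool.Agent.Lib.MP_9e8926_ag_BP.FptA
import Pool.Agent.Lib.MP_9e8926_ag_BP.Gr

/-!
# Elementary facts about `f`, strong `F`-regularity
-/

set_option autoImplicit false
set_option linter.unusedVariables false

noncomputable section

namespace BP

open MvPolynomial
open DP (m0 J mem_m0 m0_eq_span mem_J)

variable {ι : Type*} [Fintype ι] {k : Type*} [Field k]

theorem const_zero (w : ι → ℕ) (W : ℕ) (hW : 0 < W) (f : MvPolynomial ι k) (hf1 : Ge w W f) :
    constantCoeff f = 0 := by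
  rw [constantCoeff_eq]
  by_contra h
  have h1 := hf1 0 (mem_support_iff.2 h)
  have h2 : wd w (0 : ι →₀ ℕ) = 0 := by simp [wd]
  omega

/-- (The coefficient of `x_0^(a_0)` is `c_0`.) -/
theorem f0_ne {n : ℕ} (a : Fin (n + 1) → ℕ) (ha : ∀ i, 1 ≤ a i) (c : Fin (n + 1) → k)
    (hc : ∀ i, c i ≠ 0) : f0 c a ≠ 0 := by
  classical
  intro h0
  have h1 : coeff (Finsupp.single 0 (a 0)) (f0 c a) = 0 := by rw [h0, coeff_zero]
  rw [f0, coeff_sum, Finset.sum_eq_single 0] at h1
  · rw [coeff_C_mul, coeff_X_pow, if_pos rfl, mul_one] at h1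
    exact hc 0 h1
  · intro i _ hi
    rw [coeff_C_mul, coeff_X_pow, if_neg, mul_zero]
    intro h
    have h3 := DFunLike.congr_fun h i
    rw [Finsupp.single_eq_same, Finsupp.single_apply, if_neg (Ne.symm hi)] at h3
    have := ha i
    omega
  · intro h
    exact absurd (Finset.mem_univ _) h

theorem f_ne {n : ℕ} (a w : Fin (n + 1) → ℕ) (ha : ∀ i, 1 ≤ a i) (W : ℕ)
    (c : Fin (n + 1) → k) (hc : ∀ i, c i ≠ 0) (f : MvPolynomial (Fin (n + 1)) k)
    (hf2 : comp w W f = f0 c a) : f ≠ 0 := by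
  rintro rfl
  rw [map_zero] at hf2
  exact f0_ne a ha c hc hf2.symm

end BP
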