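import Pool.Agent.Lib.MP_9e8926_ag_BP.Gr

/-!
# Lowest parts
-/

set_option autoImplicit false
set_option linter.unusedVariables false

noncomputable section

namespace BP

open MvPolynomial

variable {ι : Type*} [Fintype ι] {k : Type*} [CommRing k] {w : ι → ℕ}

theorem ge_of_mem {s : ℕ} {u : MvPolynomial ι k} (hu : u ∈ PP k w s) : Ge w s u :=
  fun m hm => le_of_eq (hu m hm).symm

theorem ge_mul {s s' : ℕ} {h h' : MvPolynomial ι k} (hh : Ge w s h) (hh' : Ge w s' h') :
    Ge w (s + s') (h * h') := by
  classical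
  intro m hm
  obtain ⟨a, ha, a', ha', rfl⟩ := Finset.mem_add.1 (support_mul h h' hm)
  rw [wd_add]
  exact add_le_add (hh a ha) (hh' a' ha')

theorem ge_pow {s : ℕ} {h : MvPolynomial ι k} (hh : Ge w s h) (n : ℕ) : Ge w (n * s) (h ^ n) := by
  induction n with
  | zero =>
    rw [zero_mul, pow_zero]
    exact ge_of_mem PP_one
  | succ n ih =>
    rw [Nat.succ_mul, pow_succ]
    exact ge_mul ih hh

/-- (Copy of `DP.comp_mul`: the coefficient of `m` with `wd m = s + s'` in `h h'` is the sum over
`m = m₁ + m₂`; only the terms with `wd m₁ = s`, `wd m₂ = s'` are nonzero.) -/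
theorem comp_mul {s s' : ℕ} {h h' : MvPolynomial ι k} (hh : Ge w s h) (hh' : Ge w s' h') :
    comp w (s + s') (h * h') = comp w s h * comp w s' h' := by
  classical
  ext m
  rw [coeff_comp, coeff_mul, coeff_mul]
  have key : ∀ x ∈ Finset.HasAntidiagonal.antidiagonal m,
      (if wd w m = s + s' then coeff x.1 h * coeff x.2 h' else 0) =
        coeff x.1 (comp w s h) * coeff x.2 (comp w s' h') := by
    rintro ⟨a, a'⟩ hx
    rw [Finset.HasAntidiagonal.mem_antidiagonal] at hx
    simp only at hx ⊢
    rw [coeff_comp, coeff_comp, ← hx, wd_add]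
    by_cases h1 : wd w a = s ∧ wd w a' = s'
    · rw [if_pos h1.1, if_pos h1.2, h1.1, h1.2, if_pos rfl]
    · have h2 : (if wd w a = s then coeff a h else 0) *
          (if wd w a' = s' then coeff a' h' else 0) = 0 := by
        by_cases h3 : wd w a = s
        · have h4 : wd w a' ≠ s' := fun h4 => h1 ⟨h3, h4⟩
          rw [if_neg h4, mul_zero]
        · rw [if_neg h3, zero_mul]
      rw [h2]
      by_cases h3 : wd w a + wd w a' = s + s'
      · rw [if_pos h3]
        by_contra h4
        have h5 := hh a (mem_support_iff.2 (left_ne_zero_of_mul h4))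
        have h6 := hh' a' (mem_support_iff.2 (right_ne_zero_of_mul h4))
        exact h1 ⟨by omega, by omega⟩
      · rw [if_neg h3]
  rw [← Finset.sum_congr rfl key]
  by_cases h1 : wd w m = s + s'
  · simp only [if_pos h1]
  · simp only [if_neg h1, Finset.sum_const_zero]

theorem comp_pow {s : ℕ} {h : MvPolynomial ι k} (hh : Ge w s h) (n : ℕ) :
    comp w (n * s) (h ^ n) = comp w s h ^ n := by
  induction n with
  | zero =>
    rw [zero_mul, pow_zero, pow_zero]
    exact comp_of_mem PP_one
  | succ n ih =>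
    rw [Nat.succ_mul, pow_succ, pow_succ, comp_mul (ge_pow hh n) hh, ih]

theorem comp_mem_Jr {r : ι → ℕ} {u : MvPolynomial ι k} (hu : u ∈ Jr k r) (s : ℕ) :
    comp w s u ∈ Jr k r := by
  classical
  rw [mem_Jr] at hu ⊢
  intro m hm
  refine hu m ?_
  rw [mem_support_iff, coeff_comp] at hm
  rw [mem_support_iff]
  intro h
  rw [h, ite_self] at hm
  exact hm rfl

private theorem GrB_prod (δ : ι → ℕ) (F : Finset ι) :
    (∏ i ∈ F, X i ^ δ i : MvPolynomial ι k) ∈ PP k w (∑ i ∈ F, w i * δ i) := by
  classical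
  induction F using Finset.induction with
  | empty =>
    rw [Finset.prod_empty, Finset.sum_empty]
    exact PP_one
  | insert a F ha ih =>
    rw [Finset.prod_insert ha, Finset.sum_insert ha, mul_comm (w a)]
    exact PP_mul (PP_pow (PP_X a) _) ih

theorem Yq_mem (b : ι → ℚ) (q : ℕ) : (Yq b q : MvPolynomial ι k) ∈
    PP k w (∑ i, w i * ⌈(b i : ℝ) * ((q : ℝ) - 1)⌉₊) :=
  GrB_prod _ _

theorem f0_mem (a : ι → ℕ) (W : ℕ) (haw : ∀ i, a i * w i = W) (c : ι → k) :
    f0 c a ∈ PP k w W := by
  unfold f0
  refine Submodule.sum_mem _ fun i _ => ?_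
  rw [← smul_eq_C_mul]
  refine Submodule.smul_mem _ _ ?_
  have h1 : (X i ^ a i : MvPolynomial ι k) ∈ PP k w (a i * w i) := PP_pow (PP_X i) _
  rwa [haw i] at h1

/-- The leading form of `f = f0 + g`, where all monomials of `g` have weight `> W`. -/
theorem lead_f (a : ι → ℕ) (W : ℕ) (haw : ∀ i, a i * w i = W) (c : ι → k)
    (g : MvPolynomial ι k) (hg : ∀ m ∈ g.support, W < wd w m) :
    Ge w W (f0 c a + g) ∧ comp w W (f0 c a + g) = f0 c a := by
  classical
  constructor
  · intro m hm
    rcases Finset.mem_union.1 (support_add hm) with h | h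
    · exact ge_of_mem (f0_mem a W haw c) m h
    · exact (hg m h).le
  · have h1 : comp w W g = 0 := by
      ext m
      rw [coeff_comp, coeff_zero]
      by_cases h2 : wd w m = W
      · rw [if_pos h2]
        by_contra h3
        have := hg m (mem_support_iff.2 h3)
        omega
      · rw [if_neg h2]
    rw [map_add, h1, add_zero, comp_of_mem (f0_mem a W haw c)]

end BP
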