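import Pool.Agent.Lib.MP_9e8926_ag_BP.GrB

/-!
# Leading forms
-/

set_option autoImplicit false
set_option linter.unusedVariables false

noncomputable section

namespace BP

open MvPolynomial

variable {ι : Type*} [Fintype ι] {k : Type*} [Field k] {w : ι → ℕ}

theorem inn_le (I : Ideal (MvPolynomial ι k)) (s : ℕ) : inn w I s ≤ PP k w s := by
  rintro u ⟨h, -, -, rfl⟩
  exact comp_mem s h

theorem inn_mono {I I' : Ideal (MvPolynomial ι k)} (h : I ≤ I') (s : ℕ) :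
    inn w I s ≤ inn w I' s := by
  rintro u ⟨g, hg, h1, h2⟩
  exact ⟨g, h hg, h1, h2⟩

theorem inn_top (s : ℕ) : inn w (⊤ : Ideal (MvPolynomial ι k)) s = PP k w s := by
  exact le_antisymm (inn_le ⊤ s) fun u hu => ⟨u, trivial, ge_of_mem hu, comp_of_mem hu⟩

/-- (`comp_mul`.) -/
theorem mul_inn {I I' : Ideal (MvPolynomial ι k)} {s s' : ℕ} {u v : MvPolynomial ι k}
    (hu : u ∈ inn w I s) (hv : v ∈ inn w I' s') : u * v ∈ inn w (I * I') (s + s') := by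
  obtain ⟨h, h1, h2, rfl⟩ := hu
  obtain ⟨g, g1, g2, rfl⟩ := hv
  exact ⟨h * g, Ideal.mul_mem_mul h1 g1, ge_mul h2 g2, comp_mul h2 g2⟩

/-- (`comp_mul` with `h' = v`.) -/
theorem inn_mul_pp {I : Ideal (MvPolynomial ι k)} {s s' : ℕ} {u v : MvPolynomial ι k}
    (hu : u ∈ inn w I s) (hv : v ∈ PP k w s') : u * v ∈ inn w I (s + s') := by
  obtain ⟨h, h1, h2, rfl⟩ := hu
  exact ⟨h * v, I.mul_mem_right _ h1, ge_mul h2 (ge_of_mem hv), by
    rw [comp_mul h2 (ge_of_mem hv), comp_of_mem hv]⟩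

/-- (`u = F v` with `u` of weight `s`.  If `s < W`, `u = comp s u = 0` by `comp_mul_left_lt`.
Otherwise `s = W + s'`, `u = comp s (F v) = F comp s' v`, and `h = f * comp s' v ∈ I` satisfies
`Ge w s h`, `comp w s h = u` (`comp_mul`).) -/
theorem F0_le {W : ℕ} {f F : MvPolynomial ι k} (hf1 : Ge w W f) (hf2 : comp w W f = F)
    {I : Ideal (MvPolynomial ι k)} (hfI : f ∈ I) (s : ℕ) : F0 w F s ≤ inn w I s := by
  rintro u ⟨hu1, hu2⟩
  have hu3 : u ∈ Ideal.span {F} := hu2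
  obtain ⟨v, hv⟩ := Ideal.mem_span_singleton'.1 hu3
  have hF : F ∈ PP k w W := by
    rw [← hf2]
    exact comp_mem W f
  have hu4 : u = comp w s (F * v) := by
    rw [mul_comm, hv, comp_of_mem hu1]
  rcases lt_or_ge s W with hs | hs
  · rw [hu4, comp_mul_left_lt hF v hs]
    exact Submodule.zero_mem _
  · obtain ⟨s', rfl⟩ := Nat.exists_eq_add_of_le hs
    rw [comp_mul_left hF] at hu4
    refine ⟨f * comp w s' v, I.mul_mem_right _ hfI, ge_mul hf1 (ge_of_mem (comp_mem s' v)), ?_⟩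
    rw [comp_mul hf1 (ge_of_mem (comp_mem s' v)), hf2, comp_of_mem (comp_mem s' v), hu4]

/-- (If `u = comp s h`, `h ∈ I`, `Ge w s h`: the lowest part of `f^(q-1) Yq h` is
`F^(q-1) Yq u`: `comp_mul`, `comp_pow`, `comp_mem_Jr`.) -/
theorem innIso {W : ℕ} {f F : MvPolynomial ι k} (hf1 : Ge w W f) (hf2 : comp w W f = F)
    (b : ι → ℚ) (q : ℕ) (I : Ideal (MvPolynomial ι k))
    (hI : ∀ v ∈ I, f ^ (q - 1) * Yq b q * v ∈ DP.J ι k q) {s : ℕ} {u : MvPolynomial ι k}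
    (hu : u ∈ inn w I s) : F ^ (q - 1) * Yq b q * u ∈ DP.J ι k q := by
  obtain ⟨h, h1, h2, rfl⟩ := hu
  have hf := ge_pow hf1 (q - 1)
  have hY : Ge w (∑ i, w i * ⌈(b i : ℝ) * ((q : ℝ) - 1)⌉₊) (Yq b q : MvPolynomial ι k) :=
    ge_of_mem (Yq_mem b q)
  have e1 := comp_mul (ge_mul hf hY) h2
  rw [comp_mul hf hY, comp_pow hf1, hf2, comp_of_mem (Yq_mem b q)] at e1
  rw [← e1]
  exact comp_mem_Jr (r := fun _ => q) (hI h h1) _

end BP
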