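import Pool.Agent.Lib.MP_9e8926_ag_BP.LexA

/-!
# Leading exponents of subspaces
-/

set_option autoImplicit false
set_option linter.unusedVariables false

noncomputable section

namespace BP

open MvPowerSeries

variable {K : Type*} [Field K] {σ : Type*} [LinearOrder σ] [WellFoundedGT σ]

/-- The leading exponents of the elements of a subspace. -/
def lds (V : Submodule K (MvPowerSeries σ K)) : Set (σ →₀ ℕ) :=
  {e | ∃ v ∈ V, lexOrder v = (toLex e : Lex (σ →₀ ℕ))}

/-- The number of leading exponents is the dimension.  (`≤`: elements with distinct leading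
exponents are linearly independent.  `≥`: let `v_e ∈ V` have leading exponent `e`, for `e ∈ lds V`
(finite); the `v_e` span `V`: otherwise take `v ∈ V` outside the span whose leading exponent is
maximal among the finitely many elements of `lds V`; subtract a multiple of `v_e`, `e` the leading
exponent of `v`: the difference is outside the span, and not zero, with larger leading exponent
(`coeff_ne_zero_of_lexOrder`, `le_lexOrder_iff`).) -/
theorem lds_card (V : Submodule K (MvPowerSeries σ K)) [FiniteDimensional K V] :
    (lds V).Finite ∧ (lds V).ncard = Module.finrank K V := by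
  classical
  choose v hvV hv using fun e : lds V => e.2
  have hli : LinearIndependent K (fun e : lds V => (⟨v e, hvV e⟩ : V)) := by
    apply LinearIndependent.of_comp V.subtype
    rw [linearIndependent_iff']
    intro s g hg
    by_contra hne
    push Not at hne
    obtain ⟨i₀, hi₀s, hi₀⟩ := hne
    obtain ⟨m, hm, hmin⟩ := Finset.exists_min_image (s.filter fun i => g i ≠ 0)
      (fun i => (toLex i.1 : Lex (σ →₀ ℕ))) ⟨i₀, Finset.mem_filter.2 ⟨hi₀s, hi₀⟩⟩
    rw [Finset.mem_filter] at hm
    have h1 := congrArg (fun φ => MvPowerSeries.coeff (m.1 : σ →₀ ℕ) φ) hg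
    simp only [map_sum, map_zero, Function.comp_apply, Submodule.coe_subtype, map_smul,
      smul_eq_mul] at h1
    rw [Finset.sum_eq_single_of_mem m hm.1] at h1
    · rcases mul_eq_zero.1 h1 with h2 | h2
      · exact hm.2 h2
      · exact coeff_ne_zero_of_lexOrder (hv m).symm h2
    · intro i his him
      by_cases hgi : g i = 0
      · rw [hgi, zero_mul]
      · have h2 := hmin i (Finset.mem_filter.2 ⟨his, hgi⟩)
        have h3 : (toLex m.1 : Lex (σ →₀ ℕ)) < toLex i.1 := by
          refine lt_of_le_of_ne h2 fun h => him ?_
          exact (Subtype.ext (toLex.injective h)).symm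
        have h4 : MvPowerSeries.coeff (m.1 : σ →₀ ℕ) (v i) = 0 := by
          apply coeff_eq_zero_of_lt_lexOrder
          rw [hv i]
          exact WithTop.coe_lt_coe.2 h3
        rw [h4, mul_zero]
  have hfin : (lds V).Finite := by
    have : Finite (lds V) := hli.finite
    exact Set.toFinite _
  refine ⟨hfin, ?_⟩
  have : Fintype (lds V) := hfin.fintype
  have hcard : (lds V).ncard = Fintype.card (lds V) := by
    rw [← Nat.card_eq_fintype_card, Nat.card_coe_set_eq]
  rw [hcard]
  apply le_antisymm hli.fintype_card_le_finrank
  let L : V →ₗ[K] (lds V → K) := LinearMap.pi fun e => (MvPowerSeries.coeff e.1).comp V.subtype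
  have hL : Function.Injective L := by
    rw [← LinearMap.ker_eq_bot, LinearMap.ker_eq_bot']
    intro w hw
    by_contra hne
    have hne' : (w : MvPowerSeries σ K) ≠ 0 := fun h => hne (Subtype.ext h)
    obtain ⟨d, hd⟩ := exists_finsupp_eq_lexOrder_of_ne_zero hne'
    have hdm : d ∈ lds V := ⟨w, w.2, hd⟩
    have h1 := congrFun hw ⟨d, hdm⟩
    exact coeff_ne_zero_of_lexOrder hd.symm h1
  have h2 := LinearMap.finrank_le_finrank_of_injective hL
  rwa [Module.finrank_fintype_fun_eq_card] at h2

end BP
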