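import Pool.Agent.Lib.MP_9e8926_ag_BP.PreG

/-!
# The number of indices
-/

set_option autoImplicit false
set_option linter.unusedVariables false

noncomputable section

namespace BP

/-- the exponent of an index -/
private def preH_F {m : ℕ} (α g aL : ℕ) {A B : ℕ} (x : (Fin A × Fin B) × (Fin (m + 2) → ℕ)) :
    Fin (m + 3) → ℕ :=
  Fin.cons (x.1.1 + α * (x.2 (Fin.last (m + 1)) % g)) fun v =>
    if v = Fin.last (m + 1) then x.1.2 + aL * (x.2 (Fin.last (m + 1)) / g) else x.2 v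

private theorem preH_zero {m : ℕ} (α g aL : ℕ) {A B : ℕ}
    (x : (Fin A × Fin B) × (Fin (m + 2) → ℕ)) :
    preH_F α g aL x 0 = x.1.1 + α * (x.2 (Fin.last (m + 1)) % g) := rfl

private theorem preH_succ {m : ℕ} (α g aL : ℕ) {A B : ℕ}
    (x : (Fin A × Fin B) × (Fin (m + 2) → ℕ)) (v : Fin (m + 2)) :
    preH_F α g aL x v.succ = if v = Fin.last (m + 1) then
      x.1.2 + aL * (x.2 (Fin.last (m + 1)) / g) else x.2 v := rfl

private theorem preH_wt {m : ℕ} (w : Fin (m + 3) → ℕ) (α g aL Wg : ℕ) {A B : ℕ}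
    (h0 : w 0 * α = Wg) (h1 : w (Fin.last (m + 2)) * aL = g * Wg)
    (x : (Fin A × Fin B) × (Fin (m + 2) → ℕ)) :
    ∑ i, w i * preH_F α g aL x i = dG w Wg x := by
  rw [Fin.sum_univ_succ, preH_zero]
  unfold dG
  rw [Fin.sum_univ_castSucc, Fin.sum_univ_castSucc (f := fun v => wG w Wg v * x.2 v)]
  have h2 : ∀ v : Fin (m + 1), v.castSucc ≠ Fin.last (m + 1) := fun v => Fin.castSucc_ne_last v
  have h3 : ∑ v : Fin (m + 1), w v.castSucc.succ * preH_F α g aL x v.castSucc.succ =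
      ∑ v : Fin (m + 1), wG w Wg v.castSucc * x.2 v.castSucc := by
    refine Finset.sum_congr rfl fun v _ => ?_
    rw [preH_succ, if_neg (h2 v), wG, if_neg (h2 v)]
  rw [h3, preH_succ, if_pos rfl, wG, if_pos rfl, Fin.succ_last]
  have h4 := Nat.mod_add_div (x.2 (Fin.last (m + 1))) g
  set β := x.2 (Fin.last (m + 1)) with hβ
  calc w 0 * (x.1.1 + α * (β % g)) +
        (∑ v : Fin (m + 1), wG w Wg v.castSucc * x.2 v.castSucc +
          w (Fin.last (m + 2)) * (x.1.2 + aL * (β / g))) =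
      w 0 * x.1.1 + w (Fin.last (m + 2)) * x.1.2 +
        (∑ v : Fin (m + 1), wG w Wg v.castSucc * x.2 v.castSucc +
          (w 0 * α * (β % g) + w (Fin.last (m + 2)) * aL * (β / g))) := by ring
    _ = w 0 * x.1.1 + w (Fin.last (m + 2)) * x.1.2 +
        (∑ v : Fin (m + 1), wG w Wg v.castSucc * x.2 v.castSucc +
          Wg * (β % g + g * (β / g))) := by
        rw [h0, h1]
        ring
    _ = _ := by rw [h4]

private theorem preH_eq {A x y p q : ℕ} (hx : x < A) (hy : y < A) (h : x + A * p = y + A * q) :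
    x = y ∧ p = q := by
  have h1 : x = y := by
    have h2 : (x + A * p) % A = (y + A * q) % A := by rw [h]
    rwa [Nat.add_mul_mod_self_left, Nat.add_mul_mod_self_left, Nat.mod_eq_of_lt hx,
      Nat.mod_eq_of_lt hy] at h2
  refine ⟨h1, ?_⟩
  subst h1
  exact Nat.eq_of_mul_eq_mul_left (by omega) (Nat.add_left_cancel h)

private theorem preH_inj {m : ℕ} {α g aL : ℕ}
    (x y : (Fin α × Fin aL) × (Fin (m + 2) → ℕ)) (h : preH_F α g aL x = preH_F α g aL y) :
    x = y := by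
  have h0 := congrFun h 0
  rw [preH_zero, preH_zero] at h0
  have h1 := congrFun h (Fin.last (m + 1)).succ
  rw [preH_succ, preH_succ, if_pos rfl, if_pos rfl] at h1
  obtain ⟨e1, e2⟩ := preH_eq x.1.1.2 y.1.1.2 h0
  obtain ⟨e3, e4⟩ := preH_eq x.1.2.2 y.1.2.2 h1
  have e5 : x.2 (Fin.last (m + 1)) = y.2 (Fin.last (m + 1)) := by
    rw [← Nat.mod_add_div (x.2 (Fin.last (m + 1))) g, e2, e4, Nat.mod_add_div]
  refine Prod.ext (Prod.ext (Fin.ext e1) (Fin.ext e3)) ?_
  funext v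
  by_cases hv : v = Fin.last (m + 1)
  · rw [hv, e5]
  · have h2 := congrFun h v.succ
    rwa [preH_succ, preH_succ, if_neg hv, if_neg hv] at h2

private theorem preH_surj {m : ℕ} {α g aL : ℕ} (hα : 0 < α) (hL : 0 < aL) (hg : 0 < g)
    (μ : Fin (m + 3) → ℕ) (h : μ 0 < α * g) :
    ∃ x : (Fin α × Fin aL) × (Fin (m + 2) → ℕ), preH_F α g aL x = μ := by
  have h1 : μ 0 / α < g := Nat.div_lt_of_lt_mul h
  refine ⟨((⟨μ 0 % α, Nat.mod_lt _ hα⟩, ⟨μ (Fin.last (m + 1)).succ % aL, Nat.mod_lt _ hL⟩),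
    fun v => if v = Fin.last (m + 1) then μ 0 / α + g * (μ (Fin.last (m + 1)).succ / aL)
      else μ v.succ), ?_⟩
  funext i
  refine Fin.cases ?_ (fun v => ?_) i
  · rw [preH_zero]
    simp only [if_true]
    rw [Nat.add_mul_mod_self_left, Nat.mod_eq_of_lt h1, Nat.mod_add_div]
  · rw [preH_succ]
    by_cases hv : v = Fin.last (m + 1)
    · rw [if_pos hv, hv]
      simp only [if_true]
      rw [Nat.add_mul_div_left _ _ hg, Nat.div_eq_of_lt h1, zero_add, Nat.mod_add_div]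
    · rw [if_neg hv]
      simp only [if_neg hv]

/-- The number of indices of weight `s`.  Bijection with `{μ | μ_0 < a_0, w μ = s}`:
`i = μ_0 % α`, `l = μ_0 / α < g`, `j = μ_last % a_last`, `c = μ_last / a_last`, `β_v = μ_(v+1)` for
`v ≠ last`, `β_last = l + g c`; inverse: `l = β_last % g`, `c = β_last / g`.  Weights:
`w_0 α = W / g`, `w_last a_last = W = g (W / g)`. -/
theorem card_G {m : ℕ} (a w : Fin (m + 3) → ℕ) (ha : ∀ i, 1 ≤ a i) (hw : ∀ i, 0 < w i) (W : ℕ)
    (haw : ∀ i, a i * w i = W) (s : ℕ) :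
    Set.ncard {x : (Fin (a 0 / Nat.gcd (a 0) (a 1)) × Fin (a (Fin.last (m + 2)))) ×
      (Fin (m + 2) → ℕ) | dG w (W / Nat.gcd (a 0) (a 1)) x = s} = NN w (a 0) s := by
  set g := Nat.gcd (a 0) (a 1) with hg
  have hg0 : 0 < g := Nat.gcd_pos_of_pos_left _ (ha 0)
  have hga : g ∣ a 0 := Nat.gcd_dvd_left _ _
  obtain ⟨α, hα⟩ := hga
  have hα1 : a 0 / g = α := by
    rw [hα, Nat.mul_div_cancel_left _ hg0]
  have hα0 : 0 < α := by
    rcases Nat.eq_zero_or_pos α with h | h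
    · rw [h, mul_zero] at hα
      have := ha 0
      omega
    · exact h
  have hW : W = g * (α * w 0) := by
    rw [← haw 0, hα, mul_assoc]
  have hWg : W / g = w 0 * α := by
    rw [hW, Nat.mul_div_cancel_left _ hg0, mul_comm]
  rw [hα1, hWg]
  have hwt := preH_wt (A := α) (B := a (Fin.last (m + 2))) w α g (a (Fin.last (m + 2)))
    (w 0 * α) rfl (by
      rw [mul_comm, haw, hW]
      ring)
  unfold NN
  refine Set.ncard_congr (fun x _ => preH_F α g (a (Fin.last (m + 2))) x) ?_ ?_ ?_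
  · intro x hx
    refine ⟨?_, ?_⟩
    · rw [preH_zero, hα]
      have h1 := x.1.1.2
      have h2 : x.2 (Fin.last (m + 1)) % g < g := Nat.mod_lt _ hg0
      have h3 : α * (x.2 (Fin.last (m + 1)) % g + 1) ≤ α * g := Nat.mul_le_mul_left _ h2
      rw [mul_comm g α]
      rw [mul_add, mul_one] at h3
      omega
    · rw [hwt]
      exact hx
  · intro x y _ _ h
    exact preH_inj x y h
  · intro μ hμ
    obtain ⟨x, hx⟩ := preH_surj hα0 (ha (Fin.last (m + 2))) hg0 μ (by
      rw [mul_comm, ← hα]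
      exact hμ.1)
    refine ⟨x, ?_, hx⟩
    show dG w (w 0 * α) x = s
    rw [← hwt, hx]
    exact hμ.2

end BP
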