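import Pool.Agent.Lib.MP_9e8926_ag_BP.ThtM
import Pool.Agent.Lib.MP_9e8926_ag_BP.LexB
import Pool.Agent.Lib.MP_9e8926_ag_BP.PreH
import Pool.Agent.Lib.MP_9e8926_ag_BP.FW

/-!
# The kernel of the parametrization in one degree
-/

set_option autoImplicit false
set_option linter.unusedVariables false

noncomputable section

namespace BP

open MvPolynomial

variable {m : ℕ} {K : Type*} [Field K] {a w : Fin (m + 3) → ℕ} {W : ℕ} {c : Fin (m + 3) → K}
  {Θ : MvPolynomial (Fin (m + 3)) K →ₐ[K] MvPowerSeries (Fin (m + 1)) K}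
  {z : MvPolynomial (Fin (m + 3)) K}

private theorem KerT_rank {V₁ V₂ : Type*} [AddCommGroup V₁] [Module K V₁] [AddCommGroup V₂]
    [Module K V₂] (T : V₁ →ₗ[K] V₂) (U : Submodule K V₁) [FiniteDimensional K U] :
    Module.finrank K (U.map T) + Module.finrank K (U ⊓ LinearMap.ker T : Submodule K V₁) =
      Module.finrank K U := by
  have h := LinearMap.finrank_range_add_finrank_ker (T.domRestrict U)
  have h1 : LinearMap.range (T.domRestrict U) = U.map T := by
    ext v
    simp [Submodule.mem_map]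
  have h2 : (LinearMap.ker (T.domRestrict U)).map U.subtype = U ⊓ LinearMap.ker T := by
    ext v
    simp [Submodule.mem_map, and_comm]
  have h3 : Module.finrank K ((LinearMap.ker (T.domRestrict U)).map U.subtype) =
      Module.finrank K (LinearMap.ker (T.domRestrict U)) :=
    (Submodule.equivMapOfInjective U.subtype U.injective_subtype _).symm.finrank_eq
  rw [h1] at h
  rw [h2] at h3
  rw [h3]
  exact h

/-- The image of a subspace of weight `s` which contains the multiples of `f0`: dimension, and the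
leading exponents are those of indices of weight `s`.  Proof.  Let `V = Θ (PP s)`.  By `exists_M` and
`eG_inj` the `NN s` (`card_G`) indices `x` of weight `s` give distinct elements `eG x` of `lds V`, so
`NN s ≤ ncard (lds V) = finrank V` (`lds_card`).  On the other hand `F0 s` is in the kernel of `Θ`
(`Tht.zero`), so `finrank V ≤ finrank (PP s) - finrank (F0 s) = NN s` (`finrank_F0`).  Hence equality:
`lds V = {eG x}` and the kernel of `Θ` on `PP s` is `F0 s`.  For `F0 s ≤ U ≤ PP s` the image of `U`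
has dimension `finrank U - finrank F0 s`, and `lds (Θ U) ⊆ lds V`; the indices `x` of weight `s` with
`eG x ∈ lds (Θ U)` are in bijection with `lds (Θ U)` (`eG_inj`), use `lds_card`. -/
theorem card_lds (ha : ∀ i, 1 ≤ a i) (hw : ∀ i, 0 < w i) (hW : 0 < W)
    (haw : ∀ i, a i * w i = W) (hc : ∀ i, c i ≠ 0) (hT : Tht a w W c Θ z) (s : ℕ)
    (U : Submodule K (MvPolynomial (Fin (m + 3)) K)) (hU : U ≤ PP K w s)
    (hU0 : F0 w (f0 c a) s ≤ U) :
    Set.ncard {x : (Fin (a 0 / Nat.gcd (a 0) (a 1)) × Fin (a (Fin.last (m + 2)))) ×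
      (Fin (m + 2) → ℕ) | dG w (W / Nat.gcd (a 0) (a 1)) x = s ∧
        eG (a (Fin.last (m + 2))) x ∈ lds (U.map Θ.toLinearMap)} +
      Module.finrank K (F0 w (f0 c a) s) = Module.finrank K U := by
  classical
  have hPf : FiniteDimensional K (PP K w s : Submodule K (MvPolynomial (Fin (m + 3)) K)) :=
    PP_finite hw s
  have hUf : FiniteDimensional K U := Submodule.finiteDimensional_of_le hU
  set T : MvPolynomial (Fin (m + 3)) K →ₗ[K] MvPowerSeries (Fin (m + 1)) K := Θ.toLinearMap
    with hTd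
  have hF0P : F0 w (f0 c a) s ≤ PP K w s := inf_le_left
  have hF0k : F0 w (f0 c a) s ≤ LinearMap.ker T := by
    intro u hu
    obtain ⟨v, hv⟩ := Ideal.mem_span_singleton.1 (show u ∈ Ideal.span {f0 c a} from hu.2)
    rw [LinearMap.mem_ker, hTd, AlgHom.toLinearMap_apply, hv, map_mul, hT.zero, zero_mul]
  have hinj : Set.InjOn (eG (a (Fin.last (m + 2)))) {x : (Fin (a 0 / Nat.gcd (a 0) (a 1)) ×
      Fin (a (Fin.last (m + 2)))) × (Fin (m + 2) → ℕ) |
        dG w (W / Nat.gcd (a 0) (a 1)) x = s} := by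
    intro x hx y hy hxy
    exact eG_inj a w W hW haw x y (Eq.trans hx (Eq.symm hy)) hxy
  have hVf : FiniteDimensional K ((PP K w s).map T) := inferInstance
  have hUVf : FiniteDimensional K (U.map T) := inferInstance
  obtain ⟨hV1, hV2⟩ := lds_card ((PP K w s).map T)
  obtain ⟨hU1, hU2⟩ := lds_card (U.map T)
  have hsub : eG (a (Fin.last (m + 2))) '' {x : (Fin (a 0 / Nat.gcd (a 0) (a 1)) ×
      Fin (a (Fin.last (m + 2)))) × (Fin (m + 2) → ℕ) |
        dG w (W / Nat.gcd (a 0) (a 1)) x = s} ⊆ lds ((PP K w s).map T) := by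
    rintro _ ⟨x, hx, rfl⟩
    obtain ⟨M, hM1, hM2⟩ := exists_M a w W c Θ z hT x
    have hx' : dG w (W / Nat.gcd (a 0) (a 1)) x = s := hx
    rw [hx'] at hM1
    exact ⟨Θ M, Submodule.mem_map.2 ⟨M, hM1, rfl⟩, hM2⟩
  have hcard := card_G a w ha hw W haw s
  have hle : NN w (a 0) s ≤ Module.finrank K ((PP K w s).map T) := by
    rw [← hV2, ← hcard, ← hinj.ncard_image]
    exact Set.ncard_le_ncard hsub hV1
  have hr1 := KerT_rank T (PP K w s)
  have hr2 := KerT_rank T U
  have hF : Module.finrank K (F0 w (f0 c a) s) + NN w (a 0) s =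
      Module.finrank K (PP K w s : Submodule K (MvPolynomial (Fin (m + 3)) K)) :=
    finrank_F0 (k := K) (c := c) ha hw haw hc s
  have hKf : FiniteDimensional K
      (PP K w s ⊓ LinearMap.ker T : Submodule K (MvPolynomial (Fin (m + 3)) K)) :=
    Submodule.finiteDimensional_of_le inf_le_left
  have hF0le : F0 w (f0 c a) s ≤ PP K w s ⊓ LinearMap.ker T := le_inf hF0P hF0k
  have hle2 := Submodule.finrank_mono hF0le
  have heq : F0 w (f0 c a) s = PP K w s ⊓ LinearMap.ker T :=
    Submodule.eq_of_le_of_finrank_eq hF0le (by omega)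
  have hUk : U ⊓ LinearMap.ker T = F0 w (f0 c a) s := by
    refine le_antisymm ?_ (le_inf hU0 hF0k)
    rw [heq]
    exact inf_le_inf_right _ hU
  have hldsV : eG (a (Fin.last (m + 2))) '' {x : (Fin (a 0 / Nat.gcd (a 0) (a 1)) ×
      Fin (a (Fin.last (m + 2)))) × (Fin (m + 2) → ℕ) |
        dG w (W / Nat.gcd (a 0) (a 1)) x = s} = lds ((PP K w s).map T) := by
    refine Set.eq_of_subset_of_ncard_le hsub ?_ hV1
    rw [hinj.ncard_image, hcard, hV2]
    omega
  have himg : eG (a (Fin.last (m + 2))) '' {x : (Fin (a 0 / Nat.gcd (a 0) (a 1)) ×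
      Fin (a (Fin.last (m + 2)))) × (Fin (m + 2) → ℕ) |
        dG w (W / Nat.gcd (a 0) (a 1)) x = s ∧
        eG (a (Fin.last (m + 2))) x ∈ lds (U.map T)} = lds (U.map T) := by
    ext e
    constructor
    · rintro ⟨x, hx, rfl⟩
      exact hx.2
    · intro he
      have he' : e ∈ lds ((PP K w s).map T) := by
        obtain ⟨v, hv, hve⟩ := he
        exact ⟨v, Submodule.map_mono hU hv, hve⟩
      rw [← hldsV] at he'
      obtain ⟨x, hx, rfl⟩ := he'
      exact ⟨x, ⟨hx, he⟩, rfl⟩
  have hinj' := hinj.mono (show {x : (Fin (a 0 / Nat.gcd (a 0) (a 1)) ×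
      Fin (a (Fin.last (m + 2)))) × (Fin (m + 2) → ℕ) |
        dG w (W / Nat.gcd (a 0) (a 1)) x = s ∧
        eG (a (Fin.last (m + 2))) x ∈ lds (U.map T)} ⊆ _ from fun x hx => hx.1)
  rw [← hinj'.ncard_image, himg, hU2]
  rw [hUk] at hr2
  exact hr2

end BP
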