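import Pool.Agent.Lib.MP_9e8926_ag_BP.Fed

/-!
# The weight ideals
-/

set_option autoImplicit false

noncomputable section

namespace BP

open MvPolynomial
open DP (m0 J mem_m0 m0_eq_span)

variable {ι : Type*} [Fintype ι] {k : Type*} [Field k]

private theorem Wts_add (w : ι → ℕ) (m m' : ι →₀ ℕ) : wd w (m + m') = wd w m + wd w m' := by
  simp [wd, mul_add, Finset.sum_add_distrib]

theorem Wt_mul (w : ι → ℕ) (i j : ℕ) :
    Wt k w i * Wt k w j ≤ (Wt k w (i + j) : Ideal (MvPolynomial ι k)) := by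
  classical
  refine Ideal.mul_le.2 fun u hu v hv m hm => ?_
  obtain ⟨m1, hm1, m2, hm2, rfl⟩ := Finset.mem_add.1 (support_mul u v hm)
  have h1 : i ≤ wd w m1 := hu m1 hm1
  have h2 : j ≤ wd w m2 := hv m2 hm2
  rw [Wts_add]
  omega

theorem Wt_pow (w : ι → ℕ) (i n : ℕ) :
    Wt k w i ^ n ≤ (Wt k w (i * n) : Ideal (MvPolynomial ι k)) := by
  induction n with
  | zero =>
    intro u _ m _
    rw [mul_zero]
    exact Nat.zero_le _
  | succ n ih =>
    rw [pow_succ, mul_add, mul_one]
    exact (Ideal.mul_mono_left ih).trans (Wt_mul w (i * n) i)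

theorem Wt_le_pow (w : ι → ℕ) (M : ℕ) :
    Wt k w ((∑ i, w i + 1) * M) ≤ m0 ι k ^ M := by
  intro u hu
  rw [m0_eq_span]
  refine (MvPolynomial.mem_pow_idealOfVars_iff M u).2 fun m hm => ?_
  have h1 : (∑ i, w i + 1) * M ≤ wd w m := hu m hm
  have h2 : wd w m ≤ (∑ i, w i + 1) * Finsupp.degree m := by
    have h3 : wd w m ≤ (∑ i, w i) * Finsupp.degree m := by
      rw [Finsupp.degree_eq_sum, Finset.mul_sum]
      refine Finset.sum_le_sum fun j _ => Nat.mul_le_mul_right _ ?_
      exact Finset.single_le_sum (f := w) (fun _ _ => Nat.zero_le _) (Finset.mem_univ j)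
    nlinarith
  exact Nat.le_of_mul_le_mul_left (h1.trans h2) (Nat.succ_pos _)

theorem pow_le_Wt (w : ι → ℕ) (hw : ∀ i, 0 < w i) (C : ℕ) :
    m0 ι k ^ C ≤ Wt k w C := by
  intro u hu
  rw [m0_eq_span] at hu
  intro m hm
  have h1 := (MvPolynomial.mem_pow_idealOfVars_iff C u).1 hu m hm
  refine h1.trans ?_
  rw [Finsupp.degree_eq_sum]
  exact Finset.sum_le_sum fun j _ => Nat.le_mul_of_pos_left _ (hw j)

private theorem Wts_single (w : ι → ℕ) (v : ι) :
    wd w (Finsupp.single v 1) ≤ ∑ i, w i := by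
  classical
  unfold wd
  refine Finset.sum_le_sum fun i _ => ?_
  rw [Finsupp.single_apply]
  split <;> simp

/-- a divisor of bounded weight -/
private theorem Wts_div (w : ι → ℕ) (C : ℕ) (m : ι →₀ ℕ)
    (hm : C ≤ wd w m) : ∃ m' m'' : ι →₀ ℕ, m = m' + m'' ∧
      C ≤ wd w m' ∧ wd w m' ≤ C + ∑ i, w i := by
  classical
  have hex : ∃ d : ℕ, ∃ m' m'' : ι →₀ ℕ, m = m' + m'' ∧ C ≤ wd w m' ∧
      m'.degree = d := ⟨m.degree, m, 0, by rw [add_zero], hm, rfl⟩
  obtain ⟨m', m'', h1, h2, h3⟩ := Nat.find_spec hex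
  refine ⟨m', m'', h1, h2, ?_⟩
  by_cases h0 : m' = 0
  · have h4 : wd w m' = 0 := by
      rw [h0]
      simp [wd]
    omega
  · obtain ⟨v, hv⟩ := Finsupp.support_nonempty_iff.2 h0
    have hv1 : Finsupp.single v 1 ≤ m' := by
      rw [Finsupp.single_le_iff]
      exact Nat.one_le_iff_ne_zero.2 (Finsupp.mem_support_iff.1 hv)
    have h5 : m' = (m' - Finsupp.single v 1) + Finsupp.single v 1 := (tsub_add_cancel_of_le hv1).symm
    have h6 : wd w m' = wd w (m' - Finsupp.single v 1) +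
        wd w (Finsupp.single v 1) := by
      conv_lhs => rw [h5]
      exact Wts_add w _ _
    have h7 : m'.degree = (m' - Finsupp.single v 1).degree + 1 := by
      conv_lhs => rw [h5]
      rw [map_add, Finsupp.degree_single]
    have h8 := Wts_single w v
    by_contra hc
    push Not at hc
    have h9 : C ≤ wd w (m' - Finsupp.single v 1) := by omega
    have h10 := Nat.find_min hex (m := (m' - Finsupp.single v 1).degree) (by omega)
    apply h10
    refine ⟨m' - Finsupp.single v 1, m'' + Finsupp.single v 1, ?_, h9, rfl⟩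
    rw [h1]
    conv_lhs => rw [h5]
    rw [add_assoc, add_comm (Finsupp.single v 1) m'']

private theorem Wts_mono (w : ι → ℕ) (C n : ℕ) : ∀ m : ι →₀ ℕ,
    (C + ∑ i, w i) * n ≤ wd w m →
      ∀ a : k, (monomial m a : MvPolynomial ι k) ∈ (Wt k w C) ^ n := by
  classical
  induction n with
  | zero =>
    intro m _ a
    rw [pow_zero, Ideal.one_eq_top]
    exact Submodule.mem_top
  | succ n ih =>
    intro m hm a
    have hC : C ≤ wd w m := by
      refine le_trans ?_ hm
      rw [Nat.mul_succ]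
      omega
    obtain ⟨m', m'', h1, h2, h3⟩ := Wts_div w C m hC
    have h4 : (C + ∑ i, w i) * n ≤ wd w m'' := by
      rw [h1, Wts_add, Nat.mul_succ] at hm
      omega
    have h5 := ih m'' h4 a
    have h6 : (monomial m' (1 : k) : MvPolynomial ι k) ∈ Wt k w C := by
      intro x hx
      have := support_monomial_subset hx
      rw [Finset.mem_singleton] at this
      rw [this]
      exact h2
    have h7 : (monomial m a : MvPolynomial ι k) = monomial m'' a * monomial m' 1 := by
      rw [monomial_mul, mul_one, h1, add_comm]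
    rw [h7, pow_succ]
    exact Ideal.mul_mem_mul h5 h6

theorem Wt_split (w : ι → ℕ) (C n : ℕ) :
    Wt k w ((C + ∑ i, w i) * n) ≤
      (Wt k w C : Ideal (MvPolynomial ι k)) ^ n := by
  intro u hu
  rw [u.as_sum]
  exact Ideal.sum_mem _ fun m hm => Wts_mono w C n m (hu m hm) _

theorem mX_eq (f : MvPolynomial ι k) :
    mX f = (m0 ι k).map (Ideal.Quotient.mk (Ideal.span {f})) := by
  rw [m0_eq_span, Ideal.map_span, ← Set.range_comp]
  rfl

theorem ak_prim (f : MvPolynomial ι k) (w : ι → ℕ) (hw : ∀ i, 0 < w i)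
    (C : ℕ) (hC : 1 ≤ C) : IsPrim (mX f) (ak f w C) := by
  rw [mX_eq]
  refine ⟨Ideal.map_mono ?_, C, ?_⟩
  · intro u hu
    rw [m0, RingHom.mem_ker]
    by_contra h
    have h1 : (0 : ι →₀ ℕ) ∈ u.support := mem_support_iff.2 h
    have h2 := hu 0 h1
    have h3 : wd w (0 : ι →₀ ℕ) = 0 := by simp [wd]
    omega
  · rw [← Ideal.map_pow]
    exact Ideal.map_mono (pow_le_Wt w hw C)

theorem ak_pow (f : MvPolynomial ι k) (w : ι → ℕ) (C n : ℕ) :
    ak f w ((C + ∑ i, w i) * n) ≤ ak f w C ^ n := by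
  rw [ak, ak, ← Ideal.map_pow]
  exact Ideal.map_mono (Wt_split w C n)

/-- Large weight ideals are in large powers of the maximal ideal. -/
theorem ak_le_mX (f : MvPolynomial ι k) (w : ι → ℕ) (M : ℕ) :
    ak f w ((∑ i, w i + 1) * M) ≤ mX f ^ M := by
  rw [mX_eq, ak, ← Ideal.map_pow]
  exact Ideal.map_mono (Wt_le_pow w M)

end BP
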