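import Pool.Agent.Lib.MP_9e8926_ag_BP.LuD
import Pool.Agent.Lib.MP_9e8926_ag_BP.Wts
import Pool.Agent.Lib.MP_9e8926_ag_BP.FptC

/-!
# The log canonical threshold of the weight ideals

Model: `Pool/Agent/Lib/MP_9e8926_ag_DP/LctU.lean`.
-/

set_option autoImplicit false
set_option linter.unusedVariables false

noncomputable section

namespace BP

open MvPolynomial MeasureTheory

/-- Some generator is not zero. -/
private theorem lctU_gen {n : ℕ} (hn : 1 ≤ n) (w : Fin (n + 1) → ℕ)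
    (hw : ∀ i, 0 < w i) (W : ℕ) (hW : 0 < W) (f : MvPolynomial (Fin (n + 1)) ℂ)
    (hf1 : Ge w W f) (k : ℕ) (hk : 1 ≤ k)
    (Γ : Finset (MvPolynomial (Fin (n + 1)) ℂ))
    (hΓ : Ideal.span (Ideal.Quotient.mk (Ideal.span {f}) ''
      (Γ : Set (MvPolynomial (Fin (n + 1)) ℂ))) = ak f w k) :
    ∃ h ∈ Γ, h ≠ 0 := by
  by_contra hcon
  push Not at hcon
  have h1 : ak f w k = ⊥ := by
    rw [← hΓ, Ideal.span_eq_bot]
    rintro _ ⟨h, hh, rfl⟩
    rw [hcon h hh, map_zero]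
  obtain ⟨-, M, hM⟩ := ak_prim f w hw k hk
  rw [h1] at hM
  have hdiv : ∀ v : Fin (n + 1), f ∣ X v ^ M := by
    intro v
    have h2 : Ideal.Quotient.mk (Ideal.span {f}) (X v) ∈ mX f :=
      Ideal.subset_span ⟨v, rfl⟩
    have h3 := hM (Ideal.pow_mem_pow h2 M)
    rwa [Ideal.mem_bot, ← map_pow, Ideal.Quotient.eq_zero_iff_mem,
      Ideal.mem_span_singleton] at h3
  obtain ⟨j, -, hj⟩ := (dvd_prime_pow (MvPolynomial.X_prime (R := ℂ) (i := (0 : Fin (n + 1)))) M).1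
    (hdiv 0)
  have h01 : (⟨1, by omega⟩ : Fin (n + 1)) ≠ 0 := by
    intro h
    have := congrArg Fin.val h
    simp at this
  rcases Nat.eq_zero_or_pos j with h0 | h0
  · rw [h0, pow_zero] at hj
    have h5 : IsUnit f := (associated_one_iff_isUnit).1 hj
    have h6 := h5.map (constantCoeff : MvPolynomial (Fin (n + 1)) ℂ →+* ℂ)
    rw [const_zero w W hW f hf1] at h6
    exact not_isUnit_zero h6
  · have h5 : (X 0 : MvPolynomial (Fin (n + 1)) ℂ) ∣ X ⟨1, by omega⟩ ^ M :=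
      ((dvd_pow_self _ h0.ne').trans hj.symm.dvd).trans (hdiv _)
    obtain ⟨u, hu⟩ := h5
    have h6 := congrArg (eval (fun v : Fin (n + 1) => if v = 0 then (0 : ℂ) else 1)) hu
    rw [map_pow, eval_X, map_mul, eval_X, if_neg h01, if_pos rfl, one_pow, zero_mul] at h6
    exact one_ne_zero h6

/-- The bound for the generators. -/
private theorem lctU_bound {n : ℕ} (w : Fin (n + 1) → ℕ)
    (f : MvPolynomial (Fin (n + 1)) ℂ) (k : ℕ)
    (Γ : Finset (MvPolynomial (Fin (n + 1)) ℂ))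
    (hΓ : Ideal.span (Ideal.Quotient.mk (Ideal.span {f}) ''
      (Γ : Set (MvPolynomial (Fin (n + 1)) ℂ))) = ak f w k) :
    ∃ C : ℝ, 0 < C ∧ ∀ ρ : ℝ, 0 < ρ → ρ ≤ 1 → ∀ z : Fin (n + 1) → ℂ,
      (∀ v, ‖z v‖ ≤ ρ ^ w v) → ‖eval z f‖ ≤ ρ ^ k →
      ∑ h ∈ Γ, ‖eval z h‖ ^ 2 ≤ C * (ρ ^ k) ^ 2 := by
  have h1 : ∀ h : MvPolynomial (Fin (n + 1)) ℂ, ∃ C : ℝ, 0 ≤ C ∧ (h ∈ Γ → ∀ ρ : ℝ, 0 < ρ →
      ρ ≤ 1 → ∀ z : Fin (n + 1) → ℂ, (∀ v, ‖z v‖ ≤ ρ ^ w v) →
      ‖eval z f‖ ≤ ρ ^ k → ‖eval z h‖ ≤ C * ρ ^ k) := by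
    intro h
    by_cases hh : h ∈ Γ
    · have h2 : Ideal.Quotient.mk (Ideal.span {f}) h ∈ ak f w k := by
        rw [← hΓ]
        exact Ideal.subset_span ⟨h, hh, rfl⟩
      obtain ⟨h', hh', he⟩ := (Ideal.mem_map_iff_of_surjective _
        Ideal.Quotient.mk_surjective).1 h2
      rw [eq_comm, Ideal.Quotient.eq, Ideal.mem_span_singleton] at he
      obtain ⟨u, hu⟩ := he
      have hd : h = h' + f * u := by
        rw [← hu]
        ring
      obtain ⟨c1, hc1, hb1⟩ := wt_bound w k h' hh'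
      obtain ⟨c2, hc2, hb2⟩ := wt_bound w 0 u (fun m _ => Nat.zero_le _)
      refine ⟨c1 + c2, by positivity, fun _ ρ hρ hρ1 z hz hf => ?_⟩
      have e1 := hb1 ρ hρ.le hρ1 z hz
      have e2 := hb2 ρ hρ.le hρ1 z hz
      rw [pow_zero, mul_one] at e2
      rw [hd, map_add, map_mul]
      refine (norm_add_le _ _).trans ?_
      rw [norm_mul, add_mul]
      refine add_le_add e1 ?_
      rw [mul_comm c2]
      exact mul_le_mul hf e2 (norm_nonneg _) (by positivity)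
    · exact ⟨0, le_rfl, fun h' => absurd h' hh⟩
  choose C hC h2 using h1
  refine ⟨∑ h ∈ Γ, C h ^ 2 + 1, ?_, fun ρ hρ hρ1 z hz hf => ?_⟩
  · have := Finset.sum_nonneg fun h (_ : h ∈ Γ) => sq_nonneg (C h)
    linarith
  · have h3 : ∑ h ∈ Γ, ‖eval z h‖ ^ 2 ≤ ∑ h ∈ Γ, C h ^ 2 * (ρ ^ k) ^ 2 := by
      refine Finset.sum_le_sum fun h hh => ?_
      rw [← mul_pow]
      exact pow_le_pow_left₀ (norm_nonneg _) (h2 h hh ρ hρ hρ1 z hz hf) 2
    rw [← Finset.sum_mul] at h3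
    have h5 : 0 ≤ (ρ ^ k) ^ 2 := by positivity
    nlinarith

/-- `∑ w_v (1 - b_v) = W (rho a b + 1)` -/
private theorem lctU_sum {n : ℕ} (a w : Fin (n + 1) → ℕ) (ha : ∀ i, 1 ≤ a i) (W : ℕ)
    (haw : ∀ i, a i * w i = W) (b : Fin (n + 1) → ℚ) :
    ∑ v, (w v : ℝ) * (1 - (b v : ℝ)) = W * (rho a b + 1) := by
  have h1 : rho a b + 1 = ∑ i, (1 - (b i : ℝ)) / (a i : ℝ) := by
    unfold rho
    ring
  rw [h1, Finset.mul_sum]
  refine Finset.sum_congr rfl fun v _ => ?_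
  have h2 : (a v : ℝ) ≠ 0 := by
    have := ha v
    exact_mod_cast (show a v ≠ 0 by omega)
  have h3 : (W : ℝ) = a v * w v := by exact_mod_cast (haw v).symm
  rw [h3]
  field_simp

/-- Copy of `DP.lct_ak`, with `W` in place of `2 ax`, `∏_i ‖z i‖^(-2 b_i)` over all variables, and
`W * rho a b` in place of `κ n`.  Differences:
* some `h ∈ Γ` is not zero: otherwise `ak f w k = ⊥`, so `mX f ^ M = ⊥` for some `M` (`ak_prim`),
  and `f` divides `X 0 ^ M` and `X 1 ^ M` (`n ≥ 1`).  As `X 0` is prime (`MvPolynomial.X_prime` or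
  `prime_X`), `f` is associated to a power `X 0 ^ j` (`dvd_prime_pow`), and to `X 1 ^ j'`; so `j =
  0` (otherwise `X 0 ∣ X 1 ^ j'`), `f` is a unit, but its constant coefficient is zero
  (`const_zero`; `W > 0`).
* `f ≠ 0`: `f_ne`.
* the exponent: with `∑_v w_v (1 - b_v) = W (rho a b + 1)` (`W = a_i w_i`) the integral over the
  set in `tube` is at least `c' ρ^{2 E}` with `E = ∑ w_v + (k - W) - c k - ∑ w_v b_v - k t = W rho
  a b + k (1 - c) - k t < 0` for suitable `c < 1` if `k t > W rho a b`. -/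
theorem lct_ak {n : ℕ} (hn : 1 ≤ n) (a w : Fin (n + 1) → ℕ) (ha : ∀ i, 1 ≤ a i)
    (hw : ∀ i, 0 < w i) (W : ℕ) (hW : 0 < W) (haw : ∀ i, a i * w i = W) (c : Fin (n + 1) → ℂ)
    (hc : ∀ i, c i ≠ 0) (f : MvPolynomial (Fin (n + 1)) ℂ) (hf1 : Ge w W f)
    (hf2 : comp w W f = f0 c a) (b : Fin (n + 1) → ℚ) (hb : ∀ i, 0 ≤ b i ∧ b i < 1)
    (hρ : 0 < rho a b) (k : ℕ) (hk : W ≤ k) : lct f b (ak f w k) ≤ W * rho a b / k := by
  have hk0 : 0 < k := by omega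
  have hkR : (0 : ℝ) < k := by exact_mod_cast hk0
  have hWR : (0 : ℝ) < W := by exact_mod_cast hW
  refine Real.sSup_le ?_ (by positivity)
  rintro t ⟨ht, Γ, hΓ, hint⟩
  by_contra hlt
  push Not at hlt
  rw [div_lt_iff₀ hkR] at hlt
  have hfne : f ≠ 0 := f_ne a w ha W c hc f hf2
  obtain ⟨h0, hh0, hh0ne⟩ := lctU_gen hn w hw W hW f hf1 k hk0 Γ hΓ
  obtain ⟨C, hC, hCb⟩ := lctU_bound w f k Γ hΓ
  -- the choice of `c`
  set ε : ℝ := t * k - W * rho a b with hε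
  have hεpos : 0 < ε := by
    rw [hε]
    linarith
  obtain ⟨d, hd0, hd1, hdε⟩ : ∃ d : ℝ, 0 ≤ d ∧ d < 1 ∧ k * (1 - d) < ε := by
    refine ⟨max 0 (1 - ε / (2 * k)), le_max_left _ _, max_lt one_pos ?_, ?_⟩
    · have : 0 < ε / (2 * k) := by positivity
      linarith
    · have h1 : 1 - ε / (2 * k) ≤ max 0 (1 - ε / (2 * k)) := le_max_right _ _
      have h2 : (k : ℝ) * (1 - max 0 (1 - ε / (2 * k))) ≤ k * (ε / (2 * k)) := by
        gcongr
        linarith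
      have h3 : (k : ℝ) * (ε / (2 * k)) = ε / 2 := by
        field_simp
      linarith
  obtain ⟨ρ1, hρ1, hin⟩ := hint d hd0 hd1
  set G : (Fin (n + 1) → ℂ) → ℝ := fun z => ‖eval z f‖ ^ (-(2 * d)) *
    (∏ i, ‖z i‖ ^ (-(2 * (b i : ℝ)))) * (∑ h ∈ Γ, ‖eval z h‖ ^ 2) ^ (-t) with hG
  have hfin : ∫⁻ z in Metric.ball (0 : Fin (n + 1) → ℂ) ρ1, ENNReal.ofReal (G z) < ⊤ :=
    hin.lintegral_lt_top
  obtain ⟨c', ρ0, hc', hρ0, hρ01, htube⟩ := tube hn a w ha hw W haw c hc f hf1 hf2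
  -- the null set
  have hae : ∀ᵐ z : Fin (n + 1) → ℂ, eval z f ≠ 0 ∧ (∀ j, z j ≠ 0) ∧
      eval z h0 ≠ 0 := by
    have h1 : ∀ᵐ z : Fin (n + 1) → ℂ, eval z f ≠ 0 := by
      rw [ae_iff]
      simpa using DP.vol_zero f hfne
    have h2 : ∀ j, ∀ᵐ z : Fin (n + 1) → ℂ, z j ≠ 0 := by
      intro j
      rw [ae_iff]
      have h3 := DP.vol_zero (X j : MvPolynomial (Fin (n + 1)) ℂ) (X_ne_zero _)
      simpa using h3
    have h3 : ∀ᵐ z : Fin (n + 1) → ℂ, eval z h0 ≠ 0 := by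
      rw [ae_iff]
      simpa using DP.vol_zero h0 hh0ne
    filter_upwards [h1, ae_all_iff.2 h2, h3] with z e1 e2 e3
    exact ⟨e1, e2, e3⟩
  -- the exponent
  set E2 : ℝ := 2 * (W * rho a b + k * (1 - d) - t * k) with hE2
  have hE2neg : E2 < 0 := by
    rw [hE2]
    linarith
  have key : ∀ ρ : ℝ, 0 < ρ → ρ ≤ ρ0 → ρ < ρ1 → ENNReal.ofReal (c' * C ^ (-t) * ρ ^ E2) ≤
      ∫⁻ z in Metric.ball (0 : Fin (n + 1) → ℂ) ρ1, ENNReal.ofReal (G z) := by
    intro ρ hρ hρle hρlt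
    have hρ11 : ρ ≤ 1 := hρle.trans hρ01
    set D : Set (Fin (n + 1) → ℂ) := {z | (∀ v, ‖z v‖ ≤ ρ ^ w v) ∧
      ‖eval z f‖ ≤ ρ ^ k} with hD
    have hDm : MeasurableSet D := by
      have h1 : IsClosed D := by
        have h2 : D = (⋂ v, {z : Fin (n + 1) → ℂ | ‖z v‖ ≤ ρ ^ w v}) ∩
            {z | ‖eval z f‖ ≤ ρ ^ k} := by
          ext z
          simp [hD]
        rw [h2]
        refine (isClosed_iInter fun v => ?_).inter ?_
        · exact isClosed_le (continuous_apply v).norm continuous_const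
        · exact isClosed_le (MvPolynomial.continuous_eval f).norm continuous_const
      exact h1.measurableSet
    have hDsub : D ⊆ Metric.ball (0 : Fin (n + 1) → ℂ) ρ1 := by
      intro z hz
      rw [mem_ball_zero_iff]
      refine lt_of_le_of_lt ((pi_norm_le_iff_of_nonneg hρ.le).2 fun v => ?_) hρlt
      exact (hz.1 v).trans (by
        calc ρ ^ w v ≤ ρ ^ 1 := pow_le_pow_of_le_one hρ.le hρ11 (hw v)
          _ = ρ := pow_one ρ)
    set K : ℝ := (ρ ^ k) ^ (-(2 * d)) * (∏ j, (ρ ^ w j) ^ (-(2 * (b j : ℝ)))) *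
      (C * (ρ ^ k) ^ 2) ^ (-t) with hK
    have hK0 : 0 ≤ K := by
      rw [hK]
      exact mul_nonneg (mul_nonneg (by positivity)
        (Finset.prod_nonneg fun j _ => by positivity)) (by positivity)
    have hpt : ∀ z ∈ D, eval z f ≠ 0 → (∀ j, z j ≠ 0) → eval z h0 ≠ 0 →
        K ≤ G z := by
      intro z hz e1 e2 e3
      have hS : 0 < ∑ h ∈ Γ, ‖eval z h‖ ^ 2 := by
        refine lt_of_lt_of_le ?_ (Finset.single_le_sum (f := fun h => ‖eval z h‖ ^ 2)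
          (fun h _ => by positivity) hh0)
        have : 0 < ‖eval z h0‖ := norm_pos_iff.2 e3
        positivity
      have hbnn : ∀ j, (0 : ℝ) ≤ b j := fun j => by exact_mod_cast (hb j).1
      have g1 : (ρ ^ k) ^ (-(2 * d)) ≤ ‖eval z f‖ ^ (-(2 * d)) :=
        Real.rpow_le_rpow_of_nonpos (norm_pos_iff.2 e1) hz.2 (by linarith)
      have g2 : ∏ j, (ρ ^ w j) ^ (-(2 * (b j : ℝ))) ≤
          ∏ j, ‖z j‖ ^ (-(2 * (b j : ℝ))) := by
        refine Finset.prod_le_prod (fun j _ => by positivity) fun j _ => ?_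
        refine Real.rpow_le_rpow_of_nonpos (norm_pos_iff.2 (e2 j)) (hz.1 j) ?_
        have := hbnn j
        linarith
      have g3 : (C * (ρ ^ k) ^ 2) ^ (-t) ≤ (∑ h ∈ Γ, ‖eval z h‖ ^ 2) ^ (-t) :=
        Real.rpow_le_rpow_of_nonpos hS (hCb ρ hρ hρ11 z hz.1 hz.2) (by linarith)
      rw [hK, hG]
      refine mul_le_mul (mul_le_mul g1 g2 (Finset.prod_nonneg fun j _ => by positivity)
        (by positivity)) g3 (by positivity) (mul_nonneg (by positivity)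
        (Finset.prod_nonneg fun j _ => by positivity))
    have hval : c' * C ^ (-t) * ρ ^ E2 =
        K * (c' * ρ ^ (2 * (∑ j, w j + (k - W)))) := by
      have k1 : (ρ ^ k) ^ (-(2 * d)) = ρ ^ ((k : ℝ) * (-(2 * d))) := by
        rw [← Real.rpow_natCast ρ k, ← Real.rpow_mul hρ.le]
      have k2 : ∏ j, (ρ ^ w j) ^ (-(2 * (b j : ℝ))) =
          ρ ^ (∑ j, (w j : ℝ) * (-(2 * (b j : ℝ)))) := by
        rw [Real.rpow_sum_of_pos hρ]
        refine Finset.prod_congr rfl fun j _ => ?_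
        rw [← Real.rpow_natCast ρ (w j), ← Real.rpow_mul hρ.le]
      have k3 : (C * (ρ ^ k) ^ 2) ^ (-t) = C ^ (-t) * ρ ^ ((k : ℝ) * 2 * (-t)) := by
        rw [Real.mul_rpow hC.le (by positivity), ← pow_mul, ← Real.rpow_natCast ρ (k * 2),
          ← Real.rpow_mul hρ.le]
        push_cast
        rfl
      have k4 : ρ ^ (2 * (∑ j, w j + (k - W))) =
          ρ ^ ((2 : ℝ) * (∑ j, (w j : ℝ) + (k - W))) := by
        rw [← Real.rpow_natCast ρ]
        congr 1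
        push_cast [Nat.cast_sub hk]
        ring
      rw [hK, k1, k2, k3, k4]
      have k5 : E2 = (k : ℝ) * (-(2 * d)) + ∑ j, (w j : ℝ) * (-(2 * (b j : ℝ))) +
          (k : ℝ) * 2 * (-t) + (2 : ℝ) * (∑ j, (w j : ℝ) + (k - W)) := by
        have k6 : ∑ j, (w j : ℝ) * (-(2 * (b j : ℝ))) + 2 * ∑ j, (w j : ℝ) =
            2 * (W * (rho a b + 1)) := by
          rw [← lctU_sum a w ha W haw b, Finset.mul_sum, Finset.mul_sum,
            ← Finset.sum_add_distrib]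
          exact Finset.sum_congr rfl fun j _ => by ring
        rw [hE2]
        linear_combination - k6
      rw [k5, Real.rpow_add hρ, Real.rpow_add hρ, Real.rpow_add hρ]
      ring
    calc ENNReal.ofReal (c' * C ^ (-t) * ρ ^ E2)
        = ENNReal.ofReal K *
          ENNReal.ofReal (c' * ρ ^ (2 * (∑ j, w j + (k - W)))) := by
          rw [hval, ENNReal.ofReal_mul hK0]
      _ ≤ ENNReal.ofReal K * volume D := by
          gcongr
          exact htube k hk ρ hρ hρle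
      _ = ∫⁻ _ in D, ENNReal.ofReal K := by rw [setLIntegral_const]
      _ ≤ ∫⁻ z in D, ENNReal.ofReal (G z) := by
          refine lintegral_mono_ae ((ae_restrict_iff' hDm).2 ?_)
          filter_upwards [hae] with z hz hzD
          exact ENNReal.ofReal_le_ofReal (hpt z hzD hz.1 hz.2.1 hz.2.2)
      _ ≤ _ := lintegral_mono_set hDsub
  -- the contradiction
  set I := ∫⁻ z in Metric.ball (0 : Fin (n + 1) → ℂ) ρ1, ENNReal.ofReal (G z) with hI
  have hA : 0 < c' * C ^ (-t) := by positivity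
  have ht1 := tendsto_rpow_atTop (show 0 < -E2 by linarith)
  have e1 := ht1.eventually (Filter.eventually_gt_atTop (I.toReal / (c' * C ^ (-t))))
  have e2 := Filter.eventually_gt_atTop (max ρ0⁻¹ ρ1⁻¹)
  obtain ⟨x, hx1, hx2⟩ := (e1.and e2).exists
  have hx0 : 0 < x := lt_of_lt_of_le (inv_pos.2 hρ0) ((le_max_left _ _).trans hx2.le)
  have hxa : x⁻¹ < ρ0 := inv_lt_of_inv_lt₀ hρ0 (lt_of_le_of_lt (le_max_left _ _) hx2)
  have hxb : x⁻¹ < ρ1 := inv_lt_of_inv_lt₀ hρ1 (lt_of_le_of_lt (le_max_right _ _) hx2)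
  have h1 := key x⁻¹ (inv_pos.2 hx0) hxa.le hxb
  have h2 : (x⁻¹) ^ E2 = x ^ (-E2) := by
    rw [Real.inv_rpow hx0.le, Real.rpow_neg hx0.le]
  rw [h2] at h1
  rw [div_lt_iff₀ hA] at hx1
  have h3 := ENNReal.toReal_mono hfin.ne h1
  rw [ENNReal.toReal_ofReal (by positivity)] at h3
  linarith

end BP
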