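import Mathlib

/-!
# Leading exponents of power series
-/

set_option autoImplicit false
set_option linter.unusedVariables false

noncomputable section

namespace BP

open MvPowerSeries

variable {K : Type*} [Field K] {σ : Type*} [LinearOrder σ] [WellFoundedGT σ]

/-- (`0` is the least exponent.) -/
theorem lexOrder_unit (φ : MvPowerSeries σ K) (h : constantCoeff φ ≠ 0) : lexOrder φ = 0 := by
  apply le_antisymm
  · have h1 : coeff (0 : σ →₀ ℕ) φ ≠ 0 := by
      rwa [coeff_zero_eq_constantCoeff_apply]
    have h2 := lexOrder_le_of_coeff_ne_zero h1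
    rwa [toLex_zero, WithTop.coe_zero] at h2
  · rw [le_lexOrder_iff]
    intro d hd
    exfalso
    have h3 : (toLex d : Lex (σ →₀ ℕ)) < 0 := by
      have h4 : ((toLex d : Lex (σ →₀ ℕ)) : WithTop (Lex (σ →₀ ℕ))) <
        ((0 : Lex (σ →₀ ℕ)) : WithTop (Lex (σ →₀ ℕ))) := by
        rwa [WithTop.coe_zero]
      exact WithTop.coe_lt_coe.1 h4
    exact absurd h3 (not_lt.2 zero_le)

theorem lexOrder_X (l : σ) : lexOrder (X l : MvPowerSeries σ K) =
    (toLex (Finsupp.single l 1) : Lex (σ →₀ ℕ)) := by
  classical
  apply le_antisymm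
  · apply lexOrder_le_of_coeff_ne_zero
    rw [coeff_X, if_pos rfl]
    exact one_ne_zero
  · rw [le_lexOrder_iff]
    intro d hd
    rw [coeff_X, if_neg]
    intro hdd
    rw [hdd] at hd
    exact lt_irrefl _ hd

/-- (`lexOrder_mul`.) -/
theorem lexOrder_pow (φ : MvPowerSeries σ K) (N : ℕ) : lexOrder (φ ^ N) = N • lexOrder φ := by
  induction N with
  | zero =>
    rw [pow_zero, zero_nsmul]
    apply lexOrder_unit
    rw [map_one]
    exact one_ne_zero
  | succ n ih =>
    rw [pow_succ, lexOrder_mul, ih, succ_nsmul]

/-- A product of powers. -/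
theorem lexOrder_prod {T : Type*} (s : Finset T) (φ : T → MvPowerSeries σ K) (N : T → ℕ)
    (d : T → σ →₀ ℕ) (h : ∀ t ∈ s, lexOrder (φ t) = (toLex (d t) : Lex (σ →₀ ℕ))) :
    lexOrder (∏ t ∈ s, φ t ^ N t) = (toLex (∑ t ∈ s, N t • d t) : Lex (σ →₀ ℕ)) := by
  classical
  induction s using Finset.induction_on with
  | empty =>
    rw [Finset.prod_empty, Finset.sum_empty, toLex_zero, WithTop.coe_zero]
    apply lexOrder_unit
    rw [map_one]
    exact one_ne_zero
  | insert a s ha ih =>
    rw [Finset.prod_insert ha, Finset.sum_insert ha, lexOrder_mul, lexOrder_pow,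
      ih (fun t ht => h t (Finset.mem_insert_of_mem ht)), h a (Finset.mem_insert_self a s),
      toLex_add, WithTop.coe_add]
    congr 1

/-- The leading exponent of `∑_l c_l X_l^(A_l)` is that of the last variable.  (An exponent `d`
smaller than `single last A_last` in the lexicographic order: the first index where they differ is
`last` (at an earlier index the value of the second is `0`), so `d = single last B`, `B < A_last`,
and the coefficient of `d` is zero, as `A_l ≥ 1`.) -/
theorem lexOrder_sum {m : ℕ} (c : Fin (m + 1) → K) (hc : ∀ l, c l ≠ 0) (A : Fin (m + 1) → ℕ)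
    (hA : ∀ l, 1 ≤ A l) :
    lexOrder (∑ l, C (c l) * X l ^ A l : MvPowerSeries (Fin (m + 1)) K) =
      (toLex (Finsupp.single (Fin.last m) (A (Fin.last m))) : Lex (Fin (m + 1) →₀ ℕ)) := by
  classical
  have hco : ∀ d : Fin (m + 1) →₀ ℕ,
      coeff d (∑ l, C (c l) * X l ^ A l : MvPowerSeries (Fin (m + 1)) K) =
        ∑ l, if d = Finsupp.single l (A l) then c l else 0 := by
    intro d
    rw [map_sum]
    refine Finset.sum_congr rfl fun l _ => ?_
    rw [coeff_C_mul, coeff_X_pow]
    split_ifs <;> simp
  apply le_antisymm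
  · apply lexOrder_le_of_coeff_ne_zero
    rw [hco, Finset.sum_eq_single (Fin.last m)]
    · rw [if_pos rfl]
      exact hc _
    · intro l _ hl
      rw [if_neg]
      intro h
      have h1 := DFunLike.congr_fun h (Fin.last m)
      rw [Finsupp.single_eq_same, Finsupp.single_apply, if_neg hl] at h1
      have := hA (Fin.last m)
      omega
    · intro h
      exact absurd (Finset.mem_univ _) h
  · rw [le_lexOrder_iff]
    intro d hd
    rw [WithTop.coe_lt_coe] at hd
    rw [hco]
    refine Finset.sum_eq_zero fun l _ => ?_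
    rw [if_neg]
    intro hdl
    subst hdl
    obtain ⟨i, hi, hlt⟩ := Finsupp.Lex.lt_iff.1 hd
    simp only [ofLex_toLex] at hi hlt
    have hil : i = Fin.last m := by
      by_contra hne
      have h0 : (Finsupp.single (Fin.last m) (A (Fin.last m))) i = 0 := by
        rw [Finsupp.single_apply, if_neg (fun h => hne h.symm)]
      rw [h0] at hlt
      omega
    subst hil
    by_cases hl : l = Fin.last m
    · subst hl
      exact lt_irrefl _ hlt
    · have h1 := hi l (lt_of_le_of_ne (Fin.le_last l) hl)
      rw [Finsupp.single_eq_same, Finsupp.single_apply, if_neg (fun h => hl h.symm)] at h1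
      have := hA l
      omega

end BP
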