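import Pool.Agent.Lib.MP_9e8926_ag_DP.LimW

/-!
# The limit
-/

set_option autoImplicit false
set_option linter.unusedVariables false

noncomputable section

namespace BP

private theorem LimB_pos (n : ℕ) (hn : 1 ≤ n) (c κ0 t A m : ℝ) (hc : 0 < c) (hκ : 0 < κ0)
    (ht : 0 < t) (hA : 0 ≤ A) (hm : 0 ≤ m) (S ℓ : ℕ → ℝ) (hℓ0 : ∀ N, 0 ≤ ℓ N)
    (hℓ : ∀ δ : ℝ, 0 < δ → ∀ᶠ N : ℕ in Filter.atTop,
      (n.factorial : ℝ) * ℓ N ≤ (m + δ) * (N : ℝ) ^ n)
    (hS : ∀ X : ℕ, c * max 0 ((X : ℝ) - A) ^ n ≤ S X)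
    (h : ∀ δ : ℝ, 0 < δ → ∃ M : ℝ, ∀ X Nm : ℕ, ∑ N ∈ Finset.Icc 1 Nm, (S X - ℓ N) ≤
      (t * c * ((n : ℝ) / (n + 1)) / κ0 + δ) * (X : ℝ) ^ (n + 1) + M) :
    κ0 ^ n * (n.factorial : ℝ) * c ≤ m * t ^ n := by
  have hn0 : (0 : ℝ) < n := by exact_mod_cast hn
  have key : ∀ δ : ℝ, 0 < δ →
      ((n : ℝ) / ((n : ℝ) / κ0 + (n + 1) * δ / (t * c))) ^ n * (n.factorial : ℝ) * c ≤
        m * t ^ n := by
    intro δ hδ
    obtain ⟨M, hM⟩ := h δ hδ
    obtain ⟨k, hk⟩ : ∃ k : ℝ, k = (n : ℝ) / κ0 + (n + 1) * δ / (t * c) := ⟨_, rfl⟩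
    have hk0 : 0 < k := by rw [hk]; positivity
    obtain ⟨M', hM'⟩ : ∃ M' : ℝ, M' = max M 0 / t := ⟨_, rfl⟩
    have hM'0 : 0 ≤ M' := by
      rw [hM']
      exact div_nonneg (le_max_right _ _) ht.le
    have hM't : t * M' = max M 0 := by
      rw [hM']
      field_simp
    obtain ⟨A', hA'⟩ : ∃ A' : ℝ, A' = max A (max 1 M') := ⟨_, rfl⟩
    have hAA' : A ≤ A' := by rw [hA']; exact le_max_left _ _
    have h1A' : 1 ≤ A' := by
      rw [hA']
      exact (le_max_left _ _).trans (le_max_right _ _)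
    have hMA' : M' ≤ A' := by
      rw [hA']
      exact (le_max_right _ _).trans (le_max_right _ _)
    have hlim := DP.limW n hn c (1 / k) 1 t A' m hc (by positivity) one_pos ht.le (by linarith) hm
      S (fun X => c * (X : ℝ) ^ (n + 1) * k / (n + 1) + M') ℓ hℓ0 hℓ
      (fun X => by
        refine le_trans ?_ (hS X)
        refine mul_le_mul_of_nonneg_left ?_ hc.le
        exact pow_le_pow_left₀ (le_max_left _ _) (max_le_max le_rfl (by linarith)) n)
      (fun X => by positivity)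
      (fun X => by
        have hX : (0 : ℝ) ≤ X := Nat.cast_nonneg X
        have e1 : c * (X : ℝ) ^ (n + 1) * k / (n + 1) ≤
            c * ((X : ℝ) + A') ^ (n + 1) / ((n + 1) * (1 / k)) := by
          have e2 : c * ((X : ℝ) + A') ^ (n + 1) / ((n + 1) * (1 / k)) =
              c * ((X : ℝ) + A') ^ (n + 1) * k / (n + 1) := by
            field_simp
          rw [e2]
          have e3 : (X : ℝ) ^ (n + 1) ≤ ((X : ℝ) + A') ^ (n + 1) :=
            pow_le_pow_left₀ hX (by linarith) _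
          have e4 : c * (X : ℝ) ^ (n + 1) * k ≤ c * ((X : ℝ) + A') ^ (n + 1) * k :=
            mul_le_mul_of_nonneg_right (mul_le_mul_of_nonneg_left e3 hc.le) hk0.le
          exact div_le_div_of_nonneg_right e4 (by positivity)
        have e5 : M' ≤ A' * ((X : ℝ) + A') ^ n := by
          have e6 : (1 : ℝ) ≤ ((X : ℝ) + A') ^ n := one_le_pow₀ (by linarith)
          nlinarith
        exact add_le_add e1 e5)
      (fun X Nm => by
        rw [one_mul]
        refine (hM X Nm).trans ?_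
        have e1 : t * (c * (X : ℝ) ^ (n + 1) * k / (n + 1) + M') =
            (t * c * ((n : ℝ) / (n + 1)) / κ0 + δ) * (X : ℝ) ^ (n + 1) + max M 0 := by
          rw [mul_add, hM't, hk]
          congr 1
          field_simp
        rw [e1]
        have := le_max_left M 0
        linarith)
    rw [one_pow, mul_one] at hlim
    rw [← hk]
    have e7 : 1 / k * (n : ℝ) = (n : ℝ) / k := by ring
    rw [e7] at hlim
    exact hlim
  have hcont : ContinuousAt (fun δ : ℝ => ((n : ℝ) / ((n : ℝ) / κ0 + (n + 1) * δ / (t * c))) ^ n *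
      (n.factorial : ℝ) * c) 0 := by
    have h1 : ContinuousAt (fun δ : ℝ => (n : ℝ) / κ0 + (n + 1) * δ / (t * c)) 0 := by
      have : Continuous (fun δ : ℝ => (n : ℝ) / κ0 + (n + 1) * δ / (t * c)) := by fun_prop
      exact this.continuousAt
    have h2 : (n : ℝ) / κ0 + (n + 1) * 0 / (t * c) ≠ 0 := by
      rw [mul_zero, zero_div, add_zero]
      positivity
    exact (((continuousAt_const.div h1 h2).pow n).mul continuousAt_const).mul continuousAt_const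
  have hlim2 : Filter.Tendsto (fun δ : ℝ =>
      ((n : ℝ) / ((n : ℝ) / κ0 + (n + 1) * δ / (t * c))) ^ n * (n.factorial : ℝ) * c)
      (nhdsWithin 0 (Set.Ioi 0)) (nhds (κ0 ^ n * (n.factorial : ℝ) * c)) := by
    have h3 := hcont.tendsto.mono_left (nhdsWithin_le_nhds (s := Set.Ioi (0 : ℝ)))
    have h4 : (n : ℝ) / ((n : ℝ) / κ0 + (n + 1) * 0 / (t * c)) = κ0 := by
      rw [mul_zero, zero_div, add_zero]
      field_simp
    rw [h4] at h3
    exact h3
  exact le_of_tendsto hlim2 (eventually_nhdsWithin_of_forall fun δ hδ => key δ hδ)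

/-- The form of `DP.limW` which is used here.  Proof.  If `t = 0` then, with `δ → 0`, the hypothesis
gives a contradiction or the left side is `≤ m t^n` trivially; more precisely, first treat `t > 0`.
For `δ > 0` let `1 / κ' = n / κ0 + (n + 1) δ / (t c)` and apply `DP.limW` with `η = 1`, `κ = κ'`,
`B X = c X^(n+1) / ((n + 1) κ') + max M 0 / t` (`t B X = (t c (n/(n+1)) / κ0 + δ) X^(n+1) + max M 0`),
and `A' ≥ A, 1, max M 0 / t` in place of `A`:
`(κ' n)^n n! c ≤ m t^n`.  Let `δ → 0`: `κ' n → κ0`.  The case `t = 0`: apply the case of a small `t' > 0`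
(the hypothesis holds for `t'` as well: `t c (n/(n+1)) / κ0 ≤ t' c (n/(n+1)) / κ0`), and `t' → 0`
(`n ≥ 1`). -/
theorem limB (n : ℕ) (hn : 1 ≤ n) (c κ0 t A m : ℝ) (hc : 0 < c) (hκ : 0 < κ0) (ht : 0 ≤ t)
    (hA : 0 ≤ A) (hm : 0 ≤ m) (S ℓ : ℕ → ℝ) (hℓ0 : ∀ N, 0 ≤ ℓ N)
    (hℓ : ∀ δ : ℝ, 0 < δ → ∀ᶠ N : ℕ in Filter.atTop,
      (n.factorial : ℝ) * ℓ N ≤ (m + δ) * (N : ℝ) ^ n)
    (hS : ∀ X : ℕ, c * max 0 ((X : ℝ) - A) ^ n ≤ S X)
    (h : ∀ δ : ℝ, 0 < δ → ∃ M : ℝ, ∀ X Nm : ℕ, ∑ N ∈ Finset.Icc 1 Nm, (S X - ℓ N) ≤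
      (t * c * ((n : ℝ) / (n + 1)) / κ0 + δ) * (X : ℝ) ^ (n + 1) + M) :
    κ0 ^ n * (n.factorial : ℝ) * c ≤ m * t ^ n := by
  rcases ht.eq_or_lt with h0 | htp
  · have key : ∀ t' : ℝ, 0 < t' → κ0 ^ n * (n.factorial : ℝ) * c ≤ m * t' ^ n := by
      intro t' ht'
      refine LimB_pos n hn c κ0 t' A m hc hκ ht' hA hm S ℓ hℓ0 hℓ hS fun δ hδ => ?_
      obtain ⟨M, hM⟩ := h δ hδ
      refine ⟨M, fun X Nm => (hM X Nm).trans ?_⟩
      have h1 : t * c * ((n : ℝ) / (n + 1)) / κ0 ≤ t' * c * ((n : ℝ) / (n + 1)) / κ0 := by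
        rw [← h0, zero_mul, zero_mul, zero_div]
        positivity
      have h2 : (0 : ℝ) ≤ (X : ℝ) ^ (n + 1) := by positivity
      have h3 := mul_le_mul_of_nonneg_right h1 h2
      linarith
    have hlim : Filter.Tendsto (fun t' : ℝ => m * t' ^ n) (nhdsWithin 0 (Set.Ioi 0))
        (nhds (m * (0 : ℝ) ^ n)) := by
      have hc' : Continuous fun t' : ℝ => m * t' ^ n := by fun_prop
      exact (hc'.tendsto 0).mono_left nhdsWithin_le_nhds
    rw [← h0]
    exact ge_of_tendsto hlim (eventually_nhdsWithin_of_forall fun t' ht' => key t' ht')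
  · exact LimB_pos n hn c κ0 t A m hc hκ htp hA hm S ℓ hℓ0 hℓ hS h

end BP
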