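import Pool.Agent.Lib.MP_9e8926_ag_BP.UpE

/-!
# Multiplicities
-/

set_option autoImplicit false

noncomputable section

namespace BP

open MvPolynomial

theorem finrank_comap {ι : Type*} {k : Type*} [Field k] (f : MvPolynomial ι k) (I : Ideal (Rg f))
    [Module.Finite k (Rg f ⧸ I)] :
    Module.Finite k (MvPolynomial ι k ⧸ I.comap (Ideal.Quotient.mk (Ideal.span {f}))) ∧
    Module.finrank k (MvPolynomial ι k ⧸ I.comap (Ideal.Quotient.mk (Ideal.span {f}))) =
      Module.finrank k (Rg f ⧸ I) := by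
  obtain ⟨φ, hφ⟩ : ∃ φ : MvPolynomial ι k →ₐ[k] (Rg f ⧸ I),
      φ = (Ideal.Quotient.mkₐ k I).comp (Ideal.Quotient.mkₐ k (Ideal.span {f})) := ⟨_, rfl⟩
  have hs : Function.Surjective φ := by
    rw [hφ]
    intro y
    obtain ⟨r, rfl⟩ := Ideal.Quotient.mk_surjective y
    obtain ⟨u, rfl⟩ := Ideal.Quotient.mk_surjective r
    exact ⟨u, rfl⟩
  have hk : I.comap (Ideal.Quotient.mk (Ideal.span {f})) = RingHom.ker φ := by
    ext u
    rw [Ideal.mem_comap, RingHom.mem_ker, hφ]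
    exact Ideal.Quotient.eq_zero_iff_mem.symm
  have e : (MvPolynomial ι k ⧸ I.comap (Ideal.Quotient.mk (Ideal.span {f}))) ≃ₐ[k]
      (Rg f ⧸ I) :=
    (Ideal.quotientEquivAlgOfEq k hk).trans (Ideal.quotientKerAlgEquivOfSurjective hs)
  exact ⟨Module.Finite.equiv e.symm.toLinearEquiv, e.toLinearEquiv.finrank_eq⟩

variable {k : Type*} [Field k] {n : ℕ}

private theorem limX_finrank_mono {R : Type*} [CommRing R] [Algebra k R] {I J : Ideal R}
    (hIJ : I ≤ J) [Module.Finite k (R ⧸ I)] :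
    Module.Finite k (R ⧸ J) ∧ Module.finrank k (R ⧸ J) ≤ Module.finrank k (R ⧸ I) := by
  have hs : Function.Surjective (Ideal.Quotient.factorₐ k hIJ).toLinearMap :=
    Ideal.Quotient.factor_surjective hIJ
  exact ⟨Module.Finite.of_surjective _ hs, LinearMap.finrank_le_finrank_of_surjective hs⟩

private theorem limX_pow_mul {R : Type*} [CommRing R] {I J : Ideal R} {i : ℕ} (h : I ^ i ≤ J)
    (j : ℕ) : I ^ (i * j) ≤ J ^ j := by
  rw [pow_mul]
  exact Ideal.pow_right_mono h j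

private theorem limX_le {f : MvPolynomial (Fin (n + 1)) k} (w : Fin (n + 1) → ℕ)
    {I : Ideal (Rg f)} {M : ℕ} (hM : mX f ^ M ≤ I) (s : ℕ) :
    ak f w ((∑ i, w i + 1) * (M * s)) ≤ I ^ s := by
  exact (ak_le_mX f w (M * s)).trans (limX_pow_mul hM s)

theorem cN_pos (w : Fin (n + 1) → ℕ) (hw : ∀ i, 0 < w i) (a0 : ℕ) (ha : 1 ≤ a0) :
    0 < cN w a0 := by
  unfold cN
  have h1 : 0 < ∏ i : Fin n, (w i.succ : ℝ) :=
    Finset.prod_pos fun i _ => by exact_mod_cast hw _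
  have h2 : (0 : ℝ) < a0 := by exact_mod_cast ha
  positivity

theorem aN_nonneg (w : Fin (n + 1) → ℕ) (a0 : ℕ) : 0 ≤ aN w a0 := by
  unfold aN
  positivity

variable (a w : Fin (n + 1) → ℕ) (ha : ∀ i, 1 ≤ a i)
  (hw : ∀ i, 0 < w i) (W : ℕ) (haw : ∀ i, a i * w i = W) (c : Fin (n + 1) → k)
  (hc : ∀ i, c i ≠ 0) (f : MvPolynomial (Fin (n + 1)) k) (hf1 : Ge w W f)
  (hf2 : comp w W f = f0 c a)

include ha hw haw hc hf1 hf2

theorem finite_pow (I : Ideal (Rg f)) (hI : IsPrim (mX f) I) (s : ℕ) :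
    Module.Finite k (Rg f ⧸ I ^ s) := by
  obtain ⟨-, M, hM⟩ := hI
  have h1 := (finrank_ak a w ha hw W haw c hc f hf1 hf2 ((∑ i, w i + 1) * (M * s))).1
  exact (limX_finrank_mono (k := k) (limX_le w hM s)).1

theorem finrank_bdd (I : Ideal (Rg f)) (hI : IsPrim (mX f) I) :
    ∃ C : ℝ, ∀ s : ℕ, 1 ≤ s →
      (Module.finrank k (Rg f ⧸ I ^ s) : ℝ) ≤ C * (s : ℝ) ^ n := by
  obtain ⟨-, M, hM⟩ := hI
  refine ⟨cN w (a 0) * (((∑ i, (w i : ℝ)) + 1) * M + aN w (a 0)) ^ n,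
    fun s hs => ?_⟩
  have h0 := cN_pos w hw (a 0) (ha 0)
  have hA := aN_nonneg w (a 0)
  have hs' : (1 : ℝ) ≤ s := by exact_mod_cast hs
  obtain ⟨h1, h2⟩ := finrank_ak a w ha hw W haw c hc f hf1 hf2 ((∑ i, w i + 1) * (M * s))
  have h3 := (limX_finrank_mono (k := k) (limX_le w hM s)).2
  have h4 := SN_up w hw (a 0) ((∑ i, w i + 1) * (M * s))
  have h5 : (Module.finrank k (Rg f ⧸ I ^ s) : ℝ) ≤
      (SN w (a 0) ((∑ i, w i + 1) * (M * s)) : ℝ) := by
    exact_mod_cast h3.trans h2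
  refine (h5.trans h4).trans ?_
  rw [mul_assoc, ← mul_pow]
  refine mul_le_mul_of_nonneg_left ?_ h0.le
  refine pow_le_pow_left₀ (by positivity) ?_ _
  push_cast
  nlinarith

private theorem limX_bdd (I : Ideal (Rg f)) (hI : IsPrim (mX f) I) :
    Filter.IsBoundedUnder (· ≤ ·) Filter.atTop (fun s : ℕ => (n.factorial : ℝ) *
      (Module.finrank k (Rg f ⧸ I ^ s) : ℝ) / (s : ℝ) ^ n) := by
  obtain ⟨C0, hC⟩ := finrank_bdd a w ha hw W haw c hc f hf1 hf2 I hI
  refine Filter.isBoundedUnder_of_eventually_le (a := (n.factorial : ℝ) * C0) ?_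
  filter_upwards [Filter.eventually_ge_atTop 1] with s hs
  have h0 : (0 : ℝ) < (s : ℝ) := by exact_mod_cast hs
  rw [div_le_iff₀ (by positivity), mul_assoc]
  exact mul_le_mul_of_nonneg_left (hC s hs) (by positivity)

theorem emult_nonneg (I : Ideal (Rg f)) (hI : IsPrim (mX f) I) :
    0 ≤ emult k n I := by
  unfold emult
  exact Filter.le_limsup_of_frequently_le
    (Filter.Eventually.frequently (Filter.Eventually.of_forall fun s => by positivity))
    (limX_bdd a w ha hw W haw c hc f hf1 hf2 I hI)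

theorem emult_ev (I : Ideal (Rg f)) (hI : IsPrim (mX f) I) (δ : ℝ) (hδ : 0 < δ) :
    ∀ᶠ s : ℕ in Filter.atTop, (n.factorial : ℝ) *
      (Module.finrank k (Rg f ⧸ I ^ s) : ℝ) ≤
        (emult k n I + δ) * (s : ℝ) ^ n := by
  have h1 : Filter.limsup (fun s : ℕ => (n.factorial : ℝ) *
      (Module.finrank k (Rg f ⧸ I ^ s) : ℝ) / (s : ℝ) ^ n) Filter.atTop <
      emult k n I + δ := by
    have h2 : emult k n I = Filter.limsup (fun s : ℕ => (n.factorial : ℝ) *
      (Module.finrank k (Rg f ⧸ I ^ s) : ℝ) / (s : ℝ) ^ n) Filter.atTop := rfl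
    rw [← h2]
    linarith
  have h3 := Filter.eventually_lt_of_limsup_lt h1
    (limX_bdd a w ha hw W haw c hc f hf1 hf2 I hI)
  filter_upwards [h3, Filter.eventually_ge_atTop 1] with s hs hs1
  have h0 : (0 : ℝ) < (s : ℝ) := by exact_mod_cast hs1
  exact ((div_lt_iff₀ (by positivity)).1 hs).le

theorem emult_ak (C : ℕ) (hC : 1 ≤ C) : emult k n (ak f w C) ≤
    (n.factorial : ℝ) * cN w (a 0) * ((C : ℝ) + ∑ i, (w i : ℝ)) ^ n := by
  have h0 := cN_pos w hw (a 0) (ha 0)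
  have hA := aN_nonneg w (a 0)
  have hb : ∀ s : ℕ, 1 ≤ s → (n.factorial : ℝ) *
      (Module.finrank k (Rg f ⧸ ak f w C ^ s) : ℝ) / (s : ℝ) ^ n ≤
      (n.factorial : ℝ) * cN w (a 0) *
        (((C : ℝ) + ∑ i, (w i : ℝ)) + aN w (a 0) * (1 / (s : ℝ))) ^ n := by
    intro s hs
    have hs0 : (0 : ℝ) < s := by exact_mod_cast hs
    obtain ⟨h1, h2⟩ := finrank_ak a w ha hw W haw c hc f hf1 hf2 ((C + ∑ i, w i) * s)
    have h3 := (limX_finrank_mono (k := k) (ak_pow f w C s)).2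
    have h4 := SN_up w hw (a 0) ((C + ∑ i, w i) * s)
    have h5 : (Module.finrank k (Rg f ⧸ ak f w C ^ s) : ℝ) ≤
        (SN w (a 0) ((C + ∑ i, w i) * s) : ℝ) := by
      exact_mod_cast h3.trans h2
    rw [div_le_iff₀ (by positivity)]
    calc (n.factorial : ℝ) * (Module.finrank k (Rg f ⧸ ak f w C ^ s) : ℝ)
        ≤ (n.factorial : ℝ) * (cN w (a 0) *
          ((((C + ∑ i, w i) * s : ℕ) : ℝ) + aN w (a 0)) ^ n) :=
          mul_le_mul_of_nonneg_left (h5.trans h4) (by positivity)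
      _ = _ := by
          rw [mul_assoc, mul_assoc, ← mul_pow]
          congr 3
          push_cast
          field_simp
  have hlim : Filter.Tendsto (fun s : ℕ => (n.factorial : ℝ) * cN w (a 0) *
        (((C : ℝ) + ∑ i, (w i : ℝ)) + aN w (a 0) * (1 / (s : ℝ))) ^ n)
      Filter.atTop (nhds ((n.factorial : ℝ) * cN w (a 0) *
        ((C : ℝ) + ∑ i, (w i : ℝ)) ^ n)) := by
    have h1 : Filter.Tendsto (fun s : ℕ => (1 : ℝ) / (s : ℝ)) Filter.atTop (nhds 0) :=
      tendsto_one_div_atTop_nhds_zero_nat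
    have h2 := ((h1.const_mul (aN w (a 0))).const_add
      ((C : ℝ) + ∑ i, (w i : ℝ))).pow n
    rw [mul_zero, add_zero] at h2
    exact h2.const_mul _
  unfold emult
  rw [← hlim.limsup_eq]
  refine Filter.limsup_le_limsup ?_ ?_ hlim.isBoundedUnder_le
  · filter_upwards [Filter.eventually_ge_atTop 1] with s hs
    exact hb s hs
  · refine Filter.IsCoboundedUnder.of_frequently_ge (a := 0) ?_
    exact Filter.Frequently.of_forall fun s => by positivity

end BP
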