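import Pool.Agent.Lib.MP_9e8926_ag_BP.FptC
import Pool.Agent.Lib.MP_9e8926_ag_BP.In
import Pool.Agent.Lib.MP_9e8926_ag_DP.RegK
import Pool.Agent.Lib.MP_9e8926_ag_BP.Wts

/-!
# Strong `F`-regularity
-/

set_option autoImplicit false
set_option linter.unusedVariables false

noncomputable section

namespace BP

open MvPolynomial
open DP (m0 J mem_m0 m0_eq_span mem_J)

variable {ι : Type*} [Fintype ι] {k : Type*} [Field k]

/-- The ideal of the `u` with `f^{q-1} Y_q u ∈ J q` for all `q = p^e`, `e ≥ 1`. -/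
private def Rgl_S (p : ℕ) (b : ι → ℚ) (f : MvPolynomial ι k) : Ideal (MvPolynomial ι k) where
  carrier := {u | ∀ e : ℕ, 1 ≤ e → f ^ (p ^ e - 1) * Yq b (p ^ e) * u ∈ J ι k (p ^ e)}
  zero_mem' := by
    intro e _
    rw [mul_zero]
    exact Ideal.zero_mem _
  add_mem' := by
    intro u v hu hv e he
    rw [mul_add]
    exact Ideal.add_mem _ (hu e he) (hv e he)
  smul_mem' := by
    intro c u hu e he
    rw [smul_eq_mul, mul_left_comm]
    exact Ideal.mul_mem_left _ _ (hu e he)

private theorem Rgl_sub {w : ι → ℕ} {s : ℕ} {u v : MvPolynomial ι k}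
    (hu : Ge w s u) (hv : Ge w s v) : Ge w s (u - v) := by
  classical
  intro m hm
  rcases Finset.mem_union.1 (support_sub _ u v hm) with h | h
  · exact hu m h
  · exact hv m h

private theorem Rgl_succ {w : ι → ℕ} {C : ℕ} {r : MvPolynomial ι k}
    (hge : Ge w C r) (h0 : comp w C r = 0) : r ∈ Wt k w (C + 1) := by
  classical
  intro m hm
  have h1 := hge m hm
  by_contra h2
  have h3 : wd w m = C := by omega
  have h4 : coeff m (comp w C r) = 0 := by rw [h0, coeff_zero]
  rw [coeff_comp, if_pos h3] at h4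
  exact mem_support_iff.1 hm h4

/-- Strong `F`-regularity of `(f, b)` from the nondegeneracy of the pairing for the leading form `F`.

Proof (model: `DP.regK` in `MP_9e8926_ag_DP/RegK.lean`).  Let `d` be such that
`f^(q-1) Y_q d ∈ J q` for all `q = p^e`, `e ≥ 1`; let `S` be the ideal of all such `d`.  Claim: for all
`C`, `d ∈ span {f} ⊔ Wt k w C`; with `C = (∑ w_i + 1) M` and `Wt_le_pow` this is the assertion
(contraposition).  Induction on `C`: `d = f v + r` with `r ∈ Wt k w C` (`C = 0`: `Wt k w 0 = ⊤`);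
`f v ∈ S` as `f^(q-1) f = f^q ∈ J q` (`DP.pow_mem_J`), so `r ∈ S`.  `Ge w C r`, `u = comp w C r ∈ PP C`.
Take `e` from `hnd C`: by `innIso` (with `I = S`) `F^(q-1) Y_q u ∈ J q`, so `F ∣ u`, `u = F v'`.  If
`C < W` then `u = comp C (F v') = 0` (`comp_mul_left_lt`), so `r ∈ Wt (C + 1)`.  Otherwise
`C = W + s'`, `u = comp (W + s') (F v') = F comp s' v'` (`comp_mul_left`); let `v'' = comp s' v'`; then
`r - f v''` satisfies `Ge w C` and its component of weight `C` is `u - F v'' = 0` (`comp_mul`), so it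
is in `Wt (C + 1)`. -/
theorem rgl (p : ℕ) [Fact p.Prime] [CharP k p] (w : ι → ℕ) (hw : ∀ i, 0 < w i) (W : ℕ) (hW : 0 < W)
    (f F : MvPolynomial ι k) (hf1 : Ge w W f) (hf2 : comp w W f = F) (b : ι → ℚ)
    (hnd : ∀ s : ℕ, ∃ e : ℕ, 1 ≤ e ∧ ∀ u ∈ PP k w s,
      F ^ (p ^ e - 1) * Yq b (p ^ e) * u ∈ J ι k (p ^ e) → F ∣ u) : Rgl p f b := by
  classical
  intro d M hd
  by_contra hcon
  have hF : F ∈ PP k w W := by
    rw [← hf2]
    exact comp_mem W f
  have hf0 : constantCoeff f = 0 := const_zero w W hW f hf1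
  have hdS : d ∈ Rgl_S p b f := by
    intro e he
    by_contra h
    exact hcon ⟨e, he, h⟩
  have hfS : ∀ v, f * v ∈ Rgl_S p b f := by
    intro v e _
    have h1 : f ^ (p ^ e - 1) * Yq b (p ^ e) * (f * v) = Yq b (p ^ e) * v * f ^ p ^ e := by
      have h2 : p ^ e = p ^ e - 1 + 1 := by
        have := Nat.pos_of_ne_zero (pow_ne_zero e (Fact.out : p.Prime).ne_zero)
        omega
      have h3 : f ^ p ^ e = f ^ (p ^ e - 1) * f := by
        rw [← pow_succ, ← h2]
      rw [h3]
      ring
    rw [h1]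
    exact Ideal.mul_mem_left _ _ (DP.pow_mem_J p f hf0 e)
  have key : ∀ C : ℕ, d ∈ Ideal.span {f} ⊔ Wt k w C := by
    intro C
    induction C with
    | zero =>
      refine Submodule.mem_sup_right ?_
      intro m _
      exact Nat.zero_le _
    | succ C ih =>
      obtain ⟨x, hx, r, hr, hxr⟩ := Submodule.mem_sup.1 ih
      obtain ⟨v, hv⟩ := Ideal.mem_span_singleton'.1 hx
      have hrS : r ∈ Rgl_S p b f := by
        have h1 : r = d - f * v := by
          rw [← hxr, ← hv]
          ring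
        rw [h1]
        exact Ideal.sub_mem _ hdS (hfS v)
      have hge : Ge w C r := hr
      obtain ⟨e, he, hdiv⟩ := hnd C
      have h1 : F ^ (p ^ e - 1) * Yq b (p ^ e) * comp w C r ∈ J ι k (p ^ e) :=
        innIso hf1 hf2 b (p ^ e) (Rgl_S p b f) (fun v hv => hv e he) (s := C)
          ⟨r, hrS, hge, rfl⟩
      obtain ⟨v', hv'⟩ := hdiv _ (comp_mem C r) h1
      have h3 := comp_of_mem (comp_mem (w := w) C r)
      rcases lt_or_ge C W with hC | hC
      · rw [hv', comp_mul_left_lt hF v' hC] at h3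
        rw [← hxr]
        refine Submodule.add_mem_sup hx ?_
        exact Rgl_succ hge (by rw [hv', ← h3])
      · obtain ⟨s', rfl⟩ := Nat.exists_eq_add_of_le hC
        rw [hv', comp_mul_left hF] at h3
        have h4 : d = (x + f * comp w s' v') + (r - f * comp w s' v') := by
          rw [← hxr]
          ring
        rw [h4]
        refine Submodule.add_mem_sup (Ideal.add_mem _ hx
          (Ideal.mul_mem_right _ _ (Ideal.mem_span_singleton_self f))) ?_
        refine Rgl_succ (Rgl_sub hge (ge_mul hf1 (ge_of_mem (comp_mem s' v')))) ?_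
        rw [map_sub, comp_mul hf1 (ge_of_mem (comp_mem s' v')), hf2,
          comp_of_mem (comp_mem s' v'), hv', h3, sub_self]
  exact hd (sup_le_sup_left (Wt_le_pow w M) _ (key _))

end BP
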