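import Pool.Agent.Lib.MP_9e8926_ag_BP.Fam
import Pool.Agent.Lib.MP_9e8926_ag_DP.BCa

/-!
# Base change of families of ideals
-/

set_option autoImplicit false

noncomputable section

namespace BP

open MvPolynomial
open DP (m0 J mem_m0 m0_eq_span mem_J)

variable {ι : Type*} [Fintype ι] {k K : Type*} [Field k] [Field K] [Algebra k K]

theorem map_Yq (b : ι → ℚ) (q : ℕ) :
    MvPolynomial.map (algebraMap k K) (Yq b q : MvPolynomial ι k) = Yq b q := by
  simp [Yq, map_prod]

theorem map_f0 (c : ι → k) (a : ι → ℕ) :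
    MvPolynomial.map (algebraMap k K) (f0 c a) = f0 (fun i => algebraMap k K (c i)) a := by
  simp [f0, map_sum]

private theorem Trf_J (q : ℕ) (u : MvPolynomial ι k) (hu : u ∈ J ι k q) :
    MvPolynomial.map (algebraMap k K) u ∈ J ι K q := by
  rw [mem_J] at hu ⊢
  intro m hm
  exact hu m (support_map_subset _ _ hm)

private theorem Trf_comp (w : ι → ℕ) (s : ℕ) (u : MvPolynomial ι k) :
    comp w s (MvPolynomial.map (algebraMap k K) u) =
      MvPolynomial.map (algebraMap k K) (comp w s u) := by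
  classical
  ext m
  simp only [comp, coeff_weightedHomogeneousComponent, coeff_map]
  split_ifs <;> simp

/-- Extension of the base field. -/
theorem fam_map (w : ι → ℕ) (W : ℕ) (f F : MvPolynomial ι k) (b : ι → ℚ) (p : ℕ) (t : ℝ)
    (Jc : ℕ → Ideal (MvPolynomial ι k)) (hJ : Fam w W f F b p t Jc) :
    Fam w W (MvPolynomial.map (algebraMap k K) f) (MvPolynomial.map (algebraMap k K) F) b p t
      (fun n => (Jc n).map (MvPolynomial.map (algebraMap k K))) ∧
    ∀ n, Module.finrank K (MvPolynomial ι K ⧸ (Jc n).map (MvPolynomial.map (algebraMap k K))) ≤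
      Module.finrank k (MvPolynomial ι k ⧸ Jc n) := by
  have hfin : ∀ n, Module.Finite K
      (MvPolynomial ι K ⧸ (Jc n).map (MvPolynomial.map (algebraMap k K))) ∧
    Module.finrank K (MvPolynomial ι K ⧸ (Jc n).map (MvPolynomial.map (algebraMap k K))) ≤
      Module.finrank k (MvPolynomial ι k ⧸ Jc n) := by
    intro n
    haveI := hJ.fin n
    exact DP.finrank_map (Jc n)
  refine ⟨⟨?_, ?_, ?_, ?_, ?_, ?_, ?_, ?_⟩, fun n => (hfin n).2⟩
  · rw [hJ.zero, Ideal.map_top]
  · intro i j hij
    exact Ideal.map_mono (hJ.anti hij)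
  · intro i j
    rw [← Ideal.map_mul]
    exact Ideal.map_mono (hJ.mul i j)
  · intro n
    exact Ideal.mem_map_of_mem _ (hJ.mem n)
  · exact fun n => (hfin n).1
  · intro m hm
    exact hJ.lead1 m (support_map_subset _ _ hm)
  · rw [Trf_comp, hJ.lead2]
  · intro e n hn u hu
    have h1 : (Jc n).map (MvPolynomial.map (algebraMap k K)) ≤
        Submodule.comap (LinearMap.mulLeft (MvPolynomial ι K)
          ((MvPolynomial.map (algebraMap k K) f) ^ (p ^ e - 1) * Yq b (p ^ e))) (J ι K (p ^ e)) := by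
      rw [Ideal.map_le_iff_le_comap]
      intro v hv
      change (MvPolynomial.map (algebraMap k K) f) ^ (p ^ e - 1) * Yq b (p ^ e) *
        MvPolynomial.map (algebraMap k K) v ∈ J ι K (p ^ e)
      have h2 := Trf_J (K := K) (p ^ e) _ (hJ.iso e n hn v hv)
      rwa [map_mul, map_mul, map_pow, map_Yq] at h2
    exact h1 hu

end BP
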