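import Pool.Agent.Lib.MP_9e8926_ag_BP.BalS
import Pool.Agent.Lib.MP_9e8926_ag_BP.LimX
import Pool.Agent.Lib.MP_9e8926_ag_BP.Rgl
import Pool.Agent.Lib.MP_9e8926_ag_BP.Trf
import Pool.Agent.Lib.MP_9e8926_ag_BP.LimB

/-!
# The lower bound for Frobenius volumes
-/

set_option autoImplicit false
set_option linter.unusedVariables false

noncomputable section

namespace BP

open MvPolynomial
open DP (m0 J mem_m0 m0_eq_span mem_J)

private theorem LowF_mul_mem {R : Type*} [CommRing R] {I : Ideal R} {x y : R} {i j : ℕ}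
    (hx : x ∈ I ^ i) (hy : y ∈ I ^ j) : x * y ∈ I ^ (i + j) := by
  rw [pow_add]
  exact Ideal.mul_mem_mul hx hy

theorem kap_pos (n W p J' : ℕ) (hW : 0 < W) (hp : 0 < p) (hJ : 1 ≤ J') : 0 < kap n W p J' := by
  have h1 : (0 : ℝ) < W := by exact_mod_cast hW
  have h2 : (0 : ℝ) < p := by exact_mod_cast hp
  have h3 : (0 : ℝ) < J' := by exact_mod_cast hJ
  unfold kap
  positivity

/-- Strong `F`-regularity of `(f, b)` (`rgl`, `nd`: for `s` take `e` with `s ≤ W p^e J'`). -/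
theorem rgl_f {k : Type*} [Field k] {n : ℕ} (p : ℕ) [Fact p.Prime] [CharP k p]
    (a w : Fin (n + 1) → ℕ) (hw : ∀ i, 0 < w i) (W : ℕ) (hW : 0 < W)
    (haw : ∀ i, a i * w i = W) (c : Fin (n + 1) → k) (hc : ∀ i, c i ≠ 0)
    (b : Fin (n + 1) → ℚ) (J' : ℕ) (hP : Par a b p J') (f : MvPolynomial (Fin (n + 1)) k)
    (hf1 : Ge w W f) (hf2 : comp w W f = f0 c a) : Rgl p f b := by
  have hp : p.Prime := Fact.out
  refine rgl p w hw W hW f (f0 c a) hf1 hf2 b fun s => ?_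
  obtain ⟨e, he⟩ : ∃ e : ℕ, s ≤ p ^ e := by
    refine ⟨s, ?_⟩
    exact (Nat.lt_pow_self hp.one_lt).le
  refine ⟨e + 1, by omega, fun u hu h => ?_⟩
  obtain ⟨κ, N, h1, h2, h3, h4, h5, h6, h7⟩ := hP.ex
  refine nd p e a w W hW haw c hc b κ h1 h2 N J' h3 h4 h5 h6 (h7 e) s ?_ u hu h
  have h8 : p ^ e ≤ p ^ e * J' := Nat.le_mul_of_pos_right _ hP.one
  exact he.trans (h8.trans (Nat.le_mul_of_pos_left _ hW))

variable {k : Type*} [Field k] {m : ℕ} (p : ℕ) [Fact p.Prime] [CharP k p] [PerfectField k]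
  (a w : Fin (m + 3) → ℕ) (ha : ∀ i, 1 ≤ a i)
  (hw : ∀ i, 0 < w i) (W : ℕ) (hW : 0 < W) (haw : ∀ i, a i * w i = W) (c : Fin (m + 3) → k)
  (hc : ∀ i, c i ≠ 0) (h0 : (a 0 : k) ≠ 0) (b : Fin (m + 3) → ℚ)
  (hb : ∀ i, 0 ≤ b i ∧ b i < 1) (hρ : 0 < rho a b) (hρ2 : rho a b ≤ 2) (J' : ℕ)
  (hP : Par a b p J') (f : MvPolynomial (Fin (m + 3)) k) (hf1 : Ge w W f)
  (hf2 : comp w W f = f0 c a)

include ha hw hW haw hc h0 hb hρ hρ2 hP hf1 hf2

private theorem low_t (I : Ideal (Rg f)) (hI : IsPrim (mX f) I) (t : ℝ)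
    (ht : fpt p f b I < t) :
    kap (m + 2) W p J' ^ (m + 2) * ((m + 2).factorial : ℝ) * cN w (a 0) ≤
      emult k (m + 2) I * t ^ (m + 2) := by
  have ht0 : 0 ≤ t := (Real.sSup_nonneg fun s hs => hs.1).trans ht.le
  have hp : p.Prime := Fact.out
  have hcharK : CharP (AlgebraicClosure k) p :=
    charP_of_injective_algebraMap (algebraMap k (AlgebraicClosure k)).injective p
  have hfinI : ∀ n, Module.Finite k (Rg f ⧸ I ^ n) := fun n =>
    finite_pow a w ha hw W haw c hc f hf1 hf2 I hI n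
  have hcom : ∀ n, Module.Finite k (MvPolynomial (Fin (m + 3)) k ⧸
      (I ^ n).comap (Ideal.Quotient.mk (Ideal.span {f}))) ∧
      Module.finrank k (MvPolynomial (Fin (m + 3)) k ⧸
      (I ^ n).comap (Ideal.Quotient.mk (Ideal.span {f}))) =
      Module.finrank k (Rg f ⧸ I ^ n) := fun n => by
    have := hfinI n
    exact finrank_comap f (I ^ n)
  have hR : Rgl p f b := rgl_f p a w hw W hW haw c hc b J' hP f hf1 hf2
  have hfam : Fam w W f (f0 c a) b p t
      (fun n => (I ^ n).comap (Ideal.Quotient.mk (Ideal.span {f}))) := by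
    refine ⟨?_, ?_, ?_, ?_, fun n => (hcom n).1, hf1, hf2, ?_⟩
    · have e1 : I ^ 0 = ⊤ := (pow_zero I).trans Ideal.one_eq_top
      rw [e1, Ideal.comap_top]
    · exact fun i j hij => Ideal.comap_mono (Ideal.pow_le_pow_right hij)
    · intro i j
      rw [Ideal.mul_le]
      intro x hx y hy
      rw [Ideal.mem_comap] at hx hy ⊢
      rw [map_mul]
      exact LowF_mul_mem hx hy
    · intro n
      rw [Ideal.mem_comap]
      have e1 : Ideal.Quotient.mk (Ideal.span {f}) f = 0 :=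
        Ideal.Quotient.eq_zero_iff_mem.2 (Ideal.mem_span_singleton_self _)
      rw [e1]
      exact Ideal.zero_mem _
    · intro e n hn u hu
      exact iso_of_lt p f (f_ne a w ha W c hc f hf2) (const_zero w W hW f hf1) b hR I hI.1 t ht
        e n hn u hu
  obtain ⟨hfamK, hrk⟩ := fam_map (K := AlgebraicClosure k) w W f (f0 c a) b p t _ hfam
  rw [map_f0] at hfamK
  have hcK : ∀ i, algebraMap k (AlgebraicClosure k) (c i) ≠ 0 := fun i => by
    rw [ne_eq, FaithfulSMul.algebraMap_eq_zero_iff]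
    exact hc i
  have h0K : (a 0 : AlgebraicClosure k) ≠ 0 := by
    rw [← map_natCast (algebraMap k (AlgebraicClosure k)), ne_eq,
      FaithfulSMul.algebraMap_eq_zero_iff]
    exact h0
  refine limB (m + 2) (by omega) (cN w (a 0)) (kap (m + 2) W p J') t (aN w (a 0))
    (emult k (m + 2) I) (cN_pos w hw _ (ha 0)) (kap_pos _ _ _ _ hW hp.pos hP.one) ht0
    (aN_nonneg w _) (emult_nonneg a w ha hw W haw c hc f hf1 hf2 I hI)
    (fun X => (SN w (a 0) X : ℝ))
    (fun n => (Module.finrank k (Rg f ⧸ I ^ n) : ℝ)) (fun n => Nat.cast_nonneg _)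
    (fun δ hδ => emult_ev a w ha hw W haw c hc f hf1 hf2 I hI δ hδ)
    (fun X => SN_low (by omega) w hw (a 0) X) ?_
  intro δ hδ
  obtain ⟨M, hM⟩ := bal_sum (K := AlgebraicClosure k) p a w ha hw W hW haw _ hcK h0K b hb hρ hρ2
    J' hP _ t ht0 _ hfamK δ hδ
  refine ⟨M, fun X Nm => le_trans (Finset.sum_le_sum fun N _ => ?_) (hM X Nm)⟩
  have h5 := hrk N
  rw [(hcom N).2] at h5
  have h6 : (Module.finrank (AlgebraicClosure k) (MvPolynomial (Fin (m + 3)) (AlgebraicClosure k) ⧸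
      ((I ^ N).comap (Ideal.Quotient.mk (Ideal.span {f}))).map
        (MvPolynomial.map (algebraMap k (AlgebraicClosure k)))) : ℝ) ≤
      (Module.finrank k (Rg f ⧸ I ^ N) : ℝ) := by exact_mod_cast h5
  linarith

theorem emult_low (I : Ideal (Rg f)) (hI : IsPrim (mX f) I) :
    kap (m + 2) W p J' ^ (m + 2) * ((m + 2).factorial : ℝ) * cN w (a 0) ≤
      emult k (m + 2) I * fpt p f b I ^ (m + 2) := by
  by_contra hcon
  push Not at hcon
  have hcont : ContinuousAt (fun s : ℝ => emult k (m + 2) I * s ^ (m + 2))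
      (fpt p f b I) := (continuous_const.mul (continuous_pow _)).continuousAt
  have h1 := hcont.eventually (gt_mem_nhds hcon)
  obtain ⟨ε, hε, h2⟩ := Metric.eventually_nhds_iff.1 h1
  have h3 : dist (fpt p f b I + ε / 2) (fpt p f b I) < ε := by
    rw [Real.dist_eq, abs_lt]
    constructor <;> linarith
  have h4 := h2 h3
  have h5 := low_t p a w ha hw W hW haw c hc h0 b hb hρ hρ2 J' hP f hf1 hf2 I hI
    (fpt p f b I + ε / 2) (by linarith)
  exact absurd h5 (not_le.2 h4)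

theorem fvol_low : kap (m + 2) W p J' ^ (m + 2) * ((m + 2).factorial : ℝ) * cN w (a 0) ≤
    Fvol p (m + 2) f b := by
  have hne : {v : ℝ | ∃ I : Ideal (Rg f), IsPrim (mX f) I ∧
      v = emult k (m + 2) I * fpt p f b I ^ (m + 2)}.Nonempty :=
    ⟨_, mX f, ⟨le_rfl, 1, by rw [pow_one]⟩, rfl⟩
  refine le_csInf hne ?_
  rintro _ ⟨I, hI, rfl⟩
  exact emult_low p a w ha hw W hW haw c hc h0 b hb hρ hρ2 J' hP f hf1 hf2 I hI

end BP
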