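import Pool.Agent.Lib.MP_9e8926_ag_BP.GrB

/-!
# Values and derivatives of `f` on small scaled polydiscs

Model: `Pool/Agent/Lib/MP_9e8926_ag_DP/LuE.lean`.
-/

set_option autoImplicit false
set_option linter.unusedVariables false

noncomputable section

namespace BP

open MvPolynomial

section aux

variable {n : ℕ} {w : Fin (n + 1) → ℕ} {z : Fin (n + 1) → ℂ} {ρ : ℝ}

private theorem BLuE_pow {x y : ℂ} {M : ℝ} (hx : ‖x‖ ≤ M) (hy : ‖y‖ ≤ M) (n : ℕ) :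
    ‖x ^ n - y ^ n‖ ≤ n * M ^ (n - 1) * ‖x - y‖ := by
  have hM : 0 ≤ M := (norm_nonneg x).trans hx
  induction n with
  | zero => simp
  | succ n ih =>
    have h1 : x ^ (n + 1) - y ^ (n + 1) = x * (x ^ n - y ^ n) + (x - y) * y ^ n := by ring
    have h2 : M * (n * M ^ (n - 1)) = n * M ^ n := by
      rcases Nat.eq_zero_or_pos n with rfl | hn
      · simp
      · obtain ⟨k, rfl⟩ := Nat.exists_eq_succ_of_ne_zero hn.ne'
        rw [Nat.succ_sub_one, pow_succ]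
        ring
    rw [h1, Nat.add_sub_cancel]
    calc ‖x * (x ^ n - y ^ n) + (x - y) * y ^ n‖
        ≤ ‖x‖ * ‖x ^ n - y ^ n‖ + ‖x - y‖ * ‖y‖ ^ n := by
          refine (norm_add_le _ _).trans ?_
          rw [norm_mul, norm_mul, norm_pow]
      _ ≤ M * (n * M ^ (n - 1) * ‖x - y‖) + ‖x - y‖ * M ^ n := by
          refine add_le_add (mul_le_mul hx ih (norm_nonneg _) hM) ?_
          exact mul_le_mul_of_nonneg_left (pow_le_pow_left₀ (norm_nonneg _) hy n) (norm_nonneg _)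
      _ = (M * (n * M ^ (n - 1)) + M ^ n) * ‖x - y‖ := by ring
      _ = ((n + 1 : ℕ) : ℝ) * M ^ n * ‖x - y‖ := by
          rw [h2]
          push_cast
          ring

private theorem BLuE_mon (hρ : 0 < ρ) (hz : ∀ i, ‖z i‖ ≤ ρ ^ w i) (m : Fin (n + 1) →₀ ℕ) :
    ‖m.prod fun v e => z v ^ e‖ ≤ ρ ^ wd w m := by
  rw [Finsupp.prod_fintype _ _ (fun v => pow_zero _), norm_prod, wd,
    ← Finset.prod_pow_eq_pow_sum]
  refine Finset.prod_le_prod (fun i _ => norm_nonneg _) fun i _ => ?_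
  rw [norm_pow, pow_mul]
  exact pow_le_pow_left₀ (norm_nonneg _) (hz i) _

private theorem BLuE_mon' {δ : ℝ} (hρ : 0 < ρ) (hρ1 : ρ ≤ 1) (hρδ : ρ ≤ δ)
    (hz : ∀ i, ‖z i‖ ≤ ρ ^ w i) (m : Fin (n + 1) →₀ ℕ) {V : ℕ} (hV : V < wd w m) :
    ‖m.prod fun v e => z v ^ e‖ ≤ δ * ρ ^ V := by
  refine (BLuE_mon hρ hz m).trans ((pow_le_pow_of_le_one hρ.le hρ1 hV).trans ?_)
  rw [pow_succ, mul_comm]
  exact mul_le_mul_of_nonneg_right hρδ (by positivity)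

private theorem BLuE_wd {m : Fin (n + 1) →₀ ℕ} (h : m 0 ≠ 0) :
    wd w (m - Finsupp.single 0 1) + w 0 = wd w m := by
  classical
  have e : m = (m - Finsupp.single 0 1) + Finsupp.single 0 1 := by
    rw [tsub_add_cancel_of_le]
    rw [Finsupp.single_le_iff]
    omega
  have h1 : wd w (Finsupp.single (0 : Fin (n + 1)) 1) = w 0 := by
    unfold wd
    simp [Finsupp.single_apply]
  conv_rhs => rw [e, wd_add, h1]

private theorem BLuE_point (hn : 1 ≤ n) (a : Fin (n + 1) → ℕ) (ha : ∀ i, 1 ≤ a i)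
    (c : Fin (n + 1) → ℂ) (hc : ∀ i, c i ≠ 0) :
    ∃ z0 : Fin (n + 1) → ℂ, (∀ v, ‖z0 v‖ ≤ 1 / 4) ∧ z0 0 ≠ 0 ∧ ∑ i, c i * z0 i ^ a i = 0 := by
  classical
  obtain ⟨i1, hi1⟩ : ∃ i1 : Fin (n + 1), i1 ≠ 0 := by
    refine ⟨⟨n, by omega⟩, fun h => ?_⟩
    have := congrArg Fin.val h
    simp at this
    omega
  have hc0 : 0 < ‖c 0‖ := norm_pos_iff.2 (hc 0)
  have hc1 : 0 < ‖c i1‖ := norm_pos_iff.2 (hc i1)
  obtain ⟨s, hs0, hs4, hsc⟩ : ∃ s : ℝ, 0 < s ∧ s ≤ 1 / 4 ∧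
      ‖c i1‖ * s ≤ ‖c 0‖ * (1 / 4) ^ a 0 := by
    refine ⟨min (1 / 4) (‖c 0‖ * (1 / 4) ^ a 0 / ‖c i1‖), lt_min (by norm_num) (by positivity),
      min_le_left _ _, ?_⟩
    have h1 := min_le_right (1 / 4) (‖c 0‖ * (1 / 4) ^ a 0 / ‖c i1‖)
    rw [le_div_iff₀ hc1] at h1
    rw [mul_comm]
    exact h1
  obtain ⟨ξ, hξ⟩ := IsAlgClosed.exists_pow_nat_eq (-(c i1 * (s : ℂ) ^ a i1) / c 0) (n := a 0)
    (ha 0)
  have hξc : c 0 * ξ ^ a 0 + c i1 * (s : ℂ) ^ a i1 = 0 := by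
    rw [hξ, mul_div_cancel₀ _ (hc 0)]
    ring
  have hs1 : ‖(s : ℂ)‖ = s := by
    rw [Complex.norm_real, Real.norm_of_nonneg hs0.le]
  have hξ4 : ‖ξ‖ ≤ 1 / 4 := by
    have h1 : c 0 * ξ ^ a 0 = -(c i1 * (s : ℂ) ^ a i1) := by
      linear_combination hξc
    have h2 : ‖c 0‖ * ‖ξ‖ ^ a 0 = ‖c i1‖ * s ^ a i1 := by
      have h3 := congrArg norm h1
      rwa [norm_neg, norm_mul, norm_mul, norm_pow, norm_pow, hs1] at h3
    have h4 : s ^ a i1 ≤ s := pow_le_of_le_one hs0.le (by linarith) (by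
      have := ha i1
      omega)
    have h5 : ‖c 0‖ * ‖ξ‖ ^ a 0 ≤ ‖c 0‖ * (1 / 4) ^ a 0 := by
      rw [h2]
      exact (mul_le_mul_of_nonneg_left h4 hc1.le).trans hsc
    have h6 := le_of_mul_le_mul_left h5 hc0
    have ha0 : a 0 ≠ 0 := by
      have := ha 0
      omega
    exact (pow_le_pow_iff_left₀ (norm_nonneg _) (by norm_num) ha0).1 h6
  have hξ0 : ξ ≠ 0 := by
    rintro rfl
    rw [zero_pow (by have := ha 0; omega), mul_zero, zero_add] at hξc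
    have hs' : (s : ℂ) ≠ 0 := by exact_mod_cast hs0.ne'
    exact mul_ne_zero (hc i1) (pow_ne_zero _ hs') hξc
  refine ⟨fun i => if i = 0 then ξ else if i = i1 then (s : ℂ) else 0, ?_, ?_, ?_⟩
  · intro v
    dsimp only
    split_ifs
    · exact hξ4
    · rw [hs1]
      exact hs4
    · rw [norm_zero]
      norm_num
  · simpa using hξ0
  · rw [← Finset.sum_subset (Finset.subset_univ {0, i1})]
    · rw [Finset.sum_pair (Ne.symm hi1)]
      simp only [if_true, if_neg hi1]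
      exact hξc
    · intro i _ hi
      rw [Finset.mem_insert, Finset.mem_singleton, not_or] at hi
      dsimp only
      rw [if_neg hi.1, if_neg hi.2, zero_pow (by have := ha i; omega), mul_zero]

end aux

/-- (`g = f - f0 c a`; for `wd m < W` both have coefficient zero, for `wd m = W` the coefficients agree,
`coeff_comp`.) -/
theorem exists_g {n : ℕ} (a w : Fin (n + 1) → ℕ) (W : ℕ) (haw : ∀ i, a i * w i = W)
    (c : Fin (n + 1) → ℂ) (f : MvPolynomial (Fin (n + 1)) ℂ) (hf1 : Ge w W f)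
    (hf2 : comp w W f = f0 c a) :
    ∃ g : MvPolynomial (Fin (n + 1)) ℂ, f = f0 c a + g ∧ ∀ m ∈ g.support, W < wd w m := by
  classical
  refine ⟨f - f0 c a, by ring, ?_⟩
  intro m hm
  by_contra h
  rw [mem_support_iff, coeff_sub] at hm
  rcases lt_or_eq_of_le (not_lt.1 h) with h1 | h1
  · have h2 : coeff m f = 0 := by
      by_contra h3
      have := hf1 m (mem_support_iff.2 h3)
      omega
    have h4 : coeff m (f0 c a) = 0 := by
      by_contra h3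
      have := f0_mem (k := ℂ) (w := w) a W haw c m (mem_support_iff.2 h3)
      omega
    rw [h2, h4, sub_zero] at hm
    exact hm rfl
  · have h2 := coeff_comp (w := w) W f m
    rw [if_pos h1, hf2] at h2
    rw [h2, sub_self] at hm
    exact hm rfl

/-- Proof.  `f = f0 c a + g` (`exists_g`).  Let `s > 0` be small, `ξ ∈ ℂ` with
`c_0 ξ^(a_0) = - c_1 s^(a_1)` (`IsAlgClosed.exists_pow_nat_eq`), so `ξ ≠ 0`, and `|ξ| ≤ 1/4`, `s ≤ 1/4` if `s`
is small (`|ξ|^(a_0) = |c_1 / c_0| s^(a_1)`).  `z0 = (ξ, s, 0, …, 0)`; `f0 c a (z0) = 0` and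
`f0 c a (ρ^w z0) = ρ^W f0 c a (z0) = 0`.  Let `0 < ρ ≤ δ ≤ δ0 ≤ 1/4` and
`|z_v - ρ^{w_v} z0_v| ≤ δ ρ^{w_v}`; so `|z_v| ≤ ρ^{w_v} / 2`.
* `|z_v^(a_v) - (ρ^{w_v} z0_v)^(a_v)| ≤ a_v ρ^{w_v (a_v - 1)} δ ρ^{w_v} = a_v δ ρ^W`
  (`|x^n - y^n| ≤ n M^(n-1) |x - y|`, see `LuF_pow` in `DP/LuF.lean`), so
  `|f0 (z)| ≤ (∑ |c_v| a_v) δ ρ^W`; every monomial of `g` is at most `ρ^(wd m) ≤ ρ^(W + 1) ≤ δ ρ^W`.
* `∂_0 f0 (z) = a_0 c_0 z_0^(a_0 - 1)`, `|z_0| ≥ (|ξ| - δ) ρ^{w_0} ≥ (|ξ| / 2) ρ^{w_0}` if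
  `δ0 ≤ |ξ| / 2`, so `|∂_0 f0 (z)| ≥ a_0 |c_0| (|ξ| / 2)^(a_0 - 1) ρ^(W - w_0)`
  (`w_0 (a_0 - 1) = W - w_0`); every monomial `m` of `g` with `m_0 ≥ 1` contributes to `∂_0 g (z)` at most
  `|c_m| m_0 ρ^(wd m - w_0) ≤ |c_m| m_0 δ ρ^(W - w_0)`.  Take `δ0` small. -/
theorem val_est {n : ℕ} (hn : 1 ≤ n) (a w : Fin (n + 1) → ℕ) (ha : ∀ i, 1 ≤ a i)
    (hw : ∀ i, 0 < w i) (W : ℕ) (haw : ∀ i, a i * w i = W) (c : Fin (n + 1) → ℂ)
    (hc : ∀ i, c i ≠ 0) (f : MvPolynomial (Fin (n + 1)) ℂ) (hf1 : Ge w W f)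
    (hf2 : comp w W f = f0 c a) :
    ∃ (z0 : Fin (n + 1) → ℂ) (δ0 C c1 : ℝ), 0 < δ0 ∧ δ0 ≤ 1 / 4 ∧ 0 < C ∧ 0 < c1 ∧
      (∀ v, ‖z0 v‖ ≤ 1 / 4) ∧ ∀ δ ρ : ℝ, 0 < ρ → ρ ≤ δ → δ ≤ δ0 → ∀ z : Fin (n + 1) → ℂ,
      (∀ v, ‖z v - (ρ : ℂ) ^ w v * z0 v‖ ≤ δ * ρ ^ w v) →
      ‖eval z f‖ ≤ C * δ * ρ ^ W ∧ c1 * ρ ^ (W - w 0) ≤ ‖eval z (pderiv 0 f)‖ := by
  classical
  obtain ⟨g, hfg, hg⟩ := exists_g a w W haw c f hf1 hf2
  obtain ⟨z0, hz04, hz00, hq0⟩ := BLuE_point hn a ha c hc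
  have hξ : 0 < ‖z0 0‖ := norm_pos_iff.2 hz00
  have hc0 : 0 < ‖c 0‖ := norm_pos_iff.2 (hc 0)
  have ha0 : (0 : ℝ) < a 0 := by exact_mod_cast ha 0
  have hwW : ∀ i, w i ≤ W := fun i => by
    rw [← haw i]
    exact Nat.le_mul_of_pos_left _ (ha i)
  set A : ℝ := ∑ i, ‖c i‖ * a i with hA
  set G : ℝ := ∑ m ∈ g.support, ‖coeff m g‖ with hG
  set D : ℝ := ∑ m ∈ g.support, ‖coeff m g‖ * m 0 with hD
  set B : ℝ := ‖c 0‖ * (a 0 * (‖z0 0‖ / 2) ^ (a 0 - 1)) with hB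
  have hA0 : 0 ≤ A := Finset.sum_nonneg fun _ _ => by positivity
  have hG0 : 0 ≤ G := Finset.sum_nonneg fun _ _ => norm_nonneg _
  have hD0 : 0 ≤ D := Finset.sum_nonneg fun _ _ => by positivity
  have hB0 : 0 < B := by positivity
  refine ⟨z0, min (1 / 4) (min (‖z0 0‖ / 2) (B / (2 * (D + 1)))), A + G + 1, B / 2,
    lt_min (by norm_num) (lt_min (by positivity) (by positivity)), min_le_left _ _,
    by positivity, by positivity, hz04, ?_⟩
  intro δ ρ hρ hρδ hδ z hz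
  have hδ4 : δ ≤ 1 / 4 := hδ.trans (min_le_left _ _)
  have hδξ : δ ≤ ‖z0 0‖ / 2 := hδ.trans ((min_le_right _ _).trans (min_le_left _ _))
  have hδD : δ * (2 * (D + 1)) ≤ B := by
    have h1 := hδ.trans ((min_le_right _ _).trans (min_le_right _ _))
    rwa [le_div_iff₀ (by positivity)] at h1
  have hδ0 : 0 < δ := hρ.trans_le hρδ
  have hδ1 : δ ≤ 1 := by linarith
  have hρ1 : ρ ≤ 1 := hρδ.trans hδ1
  have hnρ : ∀ n : ℕ, ‖(ρ : ℂ) ^ n‖ = ρ ^ n := fun n => by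
    rw [norm_pow, Complex.norm_real, Real.norm_eq_abs, abs_of_pos hρ]
  have hy : ∀ i, ‖(ρ : ℂ) ^ w i * z0 i‖ ≤ ρ ^ w i := fun i => by
    rw [norm_mul, hnρ]
    exact mul_le_of_le_one_right (by positivity) ((hz04 i).trans (by norm_num))
  have hx : ∀ i, ‖z i‖ ≤ ρ ^ w i := by
    intro i
    have h2 : ‖(ρ : ℂ) ^ w i * z0 i‖ ≤ ρ ^ w i * (1 / 4) := by
      rw [norm_mul, hnρ]
      exact mul_le_mul_of_nonneg_left (hz04 _) (by positivity)
    have h3 := norm_add_le (z i - (ρ : ℂ) ^ w i * z0 i) ((ρ : ℂ) ^ w i * z0 i)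
    rw [sub_add_cancel] at h3
    have h4 : δ * ρ ^ w i ≤ 1 / 4 * ρ ^ w i := mul_le_mul_of_nonneg_right hδ4 (by positivity)
    have h5 : 0 < ρ ^ w i := by positivity
    have h6 := hz i
    linarith
  have hpow : ∀ i, (ρ ^ w i) ^ (a i - 1) * ρ ^ w i = ρ ^ W := fun i => by
    rw [← pow_succ, Nat.sub_add_cancel (ha i), ← pow_mul, mul_comm (w i), haw i]
  constructor
  · -- the value
    have e1 : eval z f = ∑ i, c i * (z i ^ a i - ((ρ : ℂ) ^ w i * z0 i) ^ a i) + eval z g := by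
      have e2 : ∑ i, c i * ((ρ : ℂ) ^ w i * z0 i) ^ a i = 0 := by
        have e3 : ∀ i, c i * ((ρ : ℂ) ^ w i * z0 i) ^ a i =
            (ρ : ℂ) ^ W * (c i * z0 i ^ a i) := fun i => by
          rw [mul_pow, ← pow_mul, mul_comm (w i), haw i]
          ring
        simp only [e3]
        rw [← Finset.mul_sum, hq0, mul_zero]
      have e4 : eval z (f0 c a) = ∑ i, c i * z i ^ a i := by
        simp [f0]
      simp only [mul_sub, Finset.sum_sub_distrib]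
      rw [e2, sub_zero, hfg, map_add, e4]
    have h1 : ‖∑ i, c i * (z i ^ a i - ((ρ : ℂ) ^ w i * z0 i) ^ a i)‖ ≤ A * (δ * ρ ^ W) := by
      rw [hA, Finset.sum_mul]
      refine (norm_sum_le _ _).trans (Finset.sum_le_sum fun i _ => ?_)
      rw [norm_mul, mul_assoc]
      refine mul_le_mul_of_nonneg_left ?_ (norm_nonneg _)
      refine (BLuE_pow (hx i) (hy i) (a i)).trans ?_
      rw [← hpow i]
      have h2 := mul_le_mul_of_nonneg_left (hz i)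
        (show 0 ≤ (a i : ℝ) * (ρ ^ w i) ^ (a i - 1) by positivity)
      refine h2.trans (le_of_eq ?_)
      ring
    have h2 : ‖eval z g‖ ≤ G * (δ * ρ ^ W) := by
      rw [eval_eq, hG, Finset.sum_mul]
      refine (norm_sum_le _ _).trans (Finset.sum_le_sum fun m hm => ?_)
      rw [norm_mul]
      refine mul_le_mul_of_nonneg_left ?_ (norm_nonneg _)
      exact BLuE_mon' hρ hρ1 hρδ hx m (hg m hm)
    rw [e1]
    refine (norm_add_le _ _).trans ((add_le_add h1 h2).trans ?_)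
    have h3 : 0 ≤ δ * ρ ^ W := by positivity
    nlinarith
  · -- the derivative
    have e1 : eval z (pderiv 0 f) =
        c 0 * (a 0 * z 0 ^ (a 0 - 1)) + eval z (pderiv 0 g) := by
      rw [hfg, map_add, map_add, f0, map_sum]
      congr 1
      rw [Finset.sum_eq_single 0]
      · rw [pderiv_C_mul, pderiv_pow, pderiv_X_self]
        simp
      · intro i _ hi
        rw [pderiv_C_mul, pderiv_pow, pderiv_X_of_ne hi]
        simp
      · intro h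
        exact absurd (Finset.mem_univ _) h
    have h1 : ‖eval z (pderiv 0 g)‖ ≤ D * (δ * ρ ^ (W - w 0)) := by
      have e2 : pderiv 0 g = ∑ m ∈ g.support,
          monomial (m - Finsupp.single 0 1) (coeff m g * (m 0 : ℂ)) := by
        conv_lhs => rw [g.as_sum, map_sum]
        exact Finset.sum_congr rfl fun m _ => pderiv_monomial
      rw [e2, map_sum, hD, Finset.sum_mul]
      refine (norm_sum_le _ _).trans (Finset.sum_le_sum fun m hm => ?_)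
      rw [eval_monomial, norm_mul, norm_mul, Complex.norm_natCast]
      by_cases h0 : m 0 = 0
      · rw [h0]
        simp
      refine mul_le_mul_of_nonneg_left ?_ (by positivity)
      have h2 := BLuE_wd (w := w) h0
      have h3 := hg m hm
      have h4 := hwW 0
      exact BLuE_mon' hρ hρ1 hρδ hx _ (by omega)
    have h2 : B * ρ ^ (W - w 0) ≤ ‖c 0 * (a 0 * z 0 ^ (a 0 - 1))‖ := by
      have h3 := hz 0
      have h5 := norm_sub_norm_le ((ρ : ℂ) ^ w 0 * z0 0) (z 0)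
      rw [norm_sub_rev, norm_mul, hnρ] at h5
      have h6 : ρ ^ w 0 * (‖z0 0‖ / 2) ≤ ‖z 0‖ := by
        have h7 : δ * ρ ^ w 0 ≤ ‖z0 0‖ / 2 * ρ ^ w 0 :=
          mul_le_mul_of_nonneg_right hδξ (by positivity)
        linarith
      have h8 : (ρ ^ w 0 * (‖z0 0‖ / 2)) ^ (a 0 - 1) ≤ ‖z 0‖ ^ (a 0 - 1) :=
        pow_le_pow_left₀ (by positivity) h6 _
      have h9 : W - w 0 = w 0 * (a 0 - 1) := by
        rw [← haw 0, Nat.mul_sub, mul_one, mul_comm]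
      rw [norm_mul, norm_mul, norm_pow, Complex.norm_natCast, hB, h9, pow_mul, mul_assoc]
      refine mul_le_mul_of_nonneg_left ?_ (norm_nonneg _)
      rw [mul_assoc]
      refine mul_le_mul_of_nonneg_left ?_ (by positivity)
      rw [← mul_pow, mul_comm (‖z0 0‖ / 2)]
      exact h8
    rw [e1]
    have h3 := norm_sub_norm_le (c 0 * (a 0 * z 0 ^ (a 0 - 1))) (-(eval z (pderiv 0 g)))
    rw [sub_neg_eq_add, norm_neg] at h3
    have h4 : 0 < ρ ^ (W - w 0) := by positivity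
    have h5 := mul_le_mul_of_nonneg_right hδD h4.le
    nlinarith

end BP
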