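import Pool.Agent.Lib.MP_9e8926_ag_BP.Gr

/-!
# Lipschitz bounds on scaled polydiscs

Model: `Pool/Agent/Lib/MP_9e8926_ag_DP/LuF.lean`.
-/

set_option autoImplicit false
set_option linter.unusedVariables false

noncomputable section

namespace BP

open MvPolynomial

private theorem LuF_pow {x y : ℂ} {M : ℝ} (hx : ‖x‖ ≤ M) (hy : ‖y‖ ≤ M) (n : ℕ) :
    ‖x ^ n - y ^ n‖ ≤ n * M ^ (n - 1) * ‖x - y‖ := by
  have hM : 0 ≤ M := (norm_nonneg x).trans hx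
  induction n with
  | zero => simp
  | succ n ih =>
    have h1 : x ^ (n + 1) - y ^ (n + 1) = x * (x ^ n - y ^ n) + (x - y) * y ^ n := by ring
    have h2 : M * (n * M ^ (n - 1)) = n * M ^ n := by
      rcases Nat.eq_zero_or_pos n with rfl | hn
      · simp
      · obtain ⟨k, rfl⟩ := Nat.exists_eq_succ_of_ne_zero hn.ne'
        rw [Nat.succ_sub_one, pow_succ]
        ring
    rw [h1, Nat.add_sub_cancel]
    calc ‖x * (x ^ n - y ^ n) + (x - y) * y ^ n‖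
        ≤ ‖x‖ * ‖x ^ n - y ^ n‖ + ‖x - y‖ * ‖y‖ ^ n := by
          refine (norm_add_le _ _).trans ?_
          rw [norm_mul, norm_mul, norm_pow]
      _ ≤ M * (n * M ^ (n - 1) * ‖x - y‖) + ‖x - y‖ * M ^ n := by
          refine add_le_add (mul_le_mul hx ih (norm_nonneg _) hM) ?_
          exact mul_le_mul_of_nonneg_left (pow_le_pow_left₀ (norm_nonneg _) hy n) (norm_nonneg _)
      _ = (M * (n * M ^ (n - 1)) + M ^ n) * ‖x - y‖ := by ring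
      _ = ((n + 1 : ℕ) : ℝ) * M ^ n * ‖x - y‖ := by
          rw [h2]
          push_cast
          ring

private theorem LuF_sum {n : ℕ} (w : Fin (n + 1) → ℕ) (m : Fin (n + 1) →₀ ℕ) :
    w 0 * m 0 + ∑ v ∈ Finset.univ.erase 0, w v * m v = wd w m :=
  Finset.add_sum_erase Finset.univ (fun v => w v * m v) (Finset.mem_univ (0 : Fin (n + 1)))

private theorem LuF_mono {n : ℕ} (w : Fin (n + 1) → ℕ) (W : ℕ) (m : Fin (n + 1) →₀ ℕ)
    (hm : W ≤ wd w m) {ρ : ℝ} (h0 : 0 < ρ) (h1 : ρ ≤ 1) (z : Fin (n + 1) → ℂ) (l l' : ℂ)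
    (hl : ∀ v, ‖(z + Pi.single 0 l : Fin (n + 1) → ℂ) v‖ ≤ ρ ^ w v)
    (hl' : ∀ v, ‖(z + Pi.single 0 l' : Fin (n + 1) → ℂ) v‖ ≤ ρ ^ w v) :
    ‖∏ v, (z + Pi.single 0 l' : Fin (n + 1) → ℂ) v ^ m v -
      ∏ v, (z + Pi.single 0 l : Fin (n + 1) → ℂ) v ^ m v‖ ≤
      m 0 * ρ ^ (W - w 0) * ‖l' - l‖ := by
  have e : ∀ a : ℂ, ∏ v, (z + Pi.single 0 a : Fin (n + 1) → ℂ) v ^ m v =
      (z 0 + a) ^ m 0 * ∏ v ∈ Finset.univ.erase 0, z v ^ m v := by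
    intro a
    rw [← Finset.mul_prod_erase Finset.univ _ (Finset.mem_univ (0 : Fin (n + 1)))]
    refine congr_arg₂ (· * ·) ?_ (Finset.prod_congr rfl fun v hv => ?_)
    · rw [Pi.add_apply, Pi.single_eq_same]
    · rw [Pi.add_apply, Pi.single_eq_of_ne (Finset.ne_of_mem_erase hv), add_zero]
  have e1 : ∀ (a : ℂ), (∀ v, ‖(z + Pi.single 0 a : Fin (n + 1) → ℂ) v‖ ≤ ρ ^ w v) →
      ‖z 0 + a‖ ≤ ρ ^ w 0 := by
    intro a ha
    have h2 := ha 0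
    rwa [Pi.add_apply, Pi.single_eq_same] at h2
  have e2 : ‖∏ v ∈ Finset.univ.erase 0, z v ^ m v‖ ≤
      ρ ^ ∑ v ∈ Finset.univ.erase 0, w v * m v := by
    rw [norm_prod, ← Finset.prod_pow_eq_pow_sum]
    refine Finset.prod_le_prod (fun _ _ => norm_nonneg _) fun v hv => ?_
    have h2 := hl v
    rw [Pi.add_apply, Pi.single_eq_of_ne (Finset.ne_of_mem_erase hv), add_zero] at h2
    rw [norm_pow, pow_mul]
    exact pow_le_pow_left₀ (norm_nonneg _) h2 _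
  rw [e, e, ← sub_mul, norm_mul]
  have e3 := LuF_pow (e1 l' hl') (e1 l hl) (m 0)
  rw [add_sub_add_left_eq_sub] at e3
  rcases Nat.eq_zero_or_pos (m 0) with hn | hn
  · rw [hn]
    simp
  · have e4 : (ρ ^ w 0) ^ (m 0 - 1) * ρ ^ ∑ v ∈ Finset.univ.erase 0, w v * m v ≤
        ρ ^ (W - w 0) := by
      rw [← pow_mul, ← pow_add]
      refine pow_le_pow_of_le_one h0.le h1 ?_
      have h3 := LuF_sum w m
      obtain ⟨k, hk⟩ := Nat.exists_eq_succ_of_ne_zero hn.ne'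
      rw [hk, Nat.succ_sub_one]
      rw [hk, Nat.mul_succ] at h3
      omega
    calc ‖(z 0 + l') ^ m 0 - (z 0 + l) ^ m 0‖ * ‖∏ v ∈ Finset.univ.erase 0, z v ^ m v‖
        ≤ (m 0 * (ρ ^ w 0) ^ (m 0 - 1) * ‖l' - l‖) *
          ρ ^ ∑ v ∈ Finset.univ.erase 0, w v * m v :=
          mul_le_mul e3 e2 (norm_nonneg _) (by positivity)
      _ = m 0 * ((ρ ^ w 0) ^ (m 0 - 1) *
          ρ ^ ∑ v ∈ Finset.univ.erase 0, w v * m v) * ‖l' - l‖ := by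
          ring
      _ ≤ m 0 * ρ ^ (W - w 0) * ‖l' - l‖ := by
          refine mul_le_mul_of_nonneg_right ?_ (norm_nonneg _)
          exact mul_le_mul_of_nonneg_left e4 (Nat.cast_nonneg _)

/-- Copy of `DP.lip_est` (with `ρ ^ (W - w 0)` in place of `ρ ^ ax`).  For one monomial `m` of `f`
(weight `≥ W`), as a function of `x_0` with the other variables fixed: `z^m = x_0^{m_0} R`,
`|R| ≤ ρ^{wd m - w_0 m_0}`, and `|u^n - v^n| ≤ n max(|u|,|v|)^{n-1} |u - v|`, so the difference is at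
most `m_0 ρ^{w_0 (m_0 - 1)} ρ^{wd m - w_0 m_0} |l' - l| = m_0 ρ^{wd m - w_0} |l' - l| ≤
m_0 ρ^{W - w_0} |l' - l|` (`ρ ≤ 1`; if `m_0 = 0` it is 0).  `C = 1 + ∑_m |c_m| m_0`. -/
theorem lip_est {n : ℕ} (w : Fin (n + 1) → ℕ) (W : ℕ) (f : MvPolynomial (Fin (n + 1)) ℂ)
    (hf1 : Ge w W f) :
    ∃ C : ℝ, 1 ≤ C ∧ ∀ ρ : ℝ, 0 < ρ → ρ ≤ 1 → ∀ (z : Fin (n + 1) → ℂ) (l l' : ℂ),
      (∀ v, ‖(z + Pi.single 0 l : Fin (n + 1) → ℂ) v‖ ≤ ρ ^ w v) →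
      (∀ v, ‖(z + Pi.single 0 l' : Fin (n + 1) → ℂ) v‖ ≤ ρ ^ w v) →
      ‖eval (z + Pi.single 0 l') f - eval (z + Pi.single 0 l) f‖
        ≤ C * ρ ^ (W - w 0) * ‖l' - l‖ := by
  refine ⟨1 + ∑ m ∈ f.support, ‖f.coeff m‖ * m 0, ?_, ?_⟩
  · have h : 0 ≤ ∑ m ∈ f.support, ‖f.coeff m‖ * (m 0 : ℝ) :=
      Finset.sum_nonneg fun m _ => by positivity
    linarith
  · intro ρ h0 h1 z l l' hl hl'
    rw [eval_eq', eval_eq', ← Finset.sum_sub_distrib]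
    have h2 : ‖∑ m ∈ f.support, (f.coeff m *
        ∏ v, (z + Pi.single 0 l' : Fin (n + 1) → ℂ) v ^ m v - f.coeff m *
        ∏ v, (z + Pi.single 0 l : Fin (n + 1) → ℂ) v ^ m v)‖ ≤
        ∑ m ∈ f.support, ‖f.coeff m‖ * (m 0 * ρ ^ (W - w 0) * ‖l' - l‖) := by
      refine norm_sum_le_of_le _ fun m hm => ?_
      rw [← mul_sub, norm_mul]
      exact mul_le_mul_of_nonneg_left (LuF_mono w W m (hf1 m hm) h0 h1 z l l' hl hl')
        (norm_nonneg _)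
    refine h2.trans ?_
    have h3 : ∑ m ∈ f.support, ‖f.coeff m‖ * ((m 0 : ℝ) * ρ ^ (W - w 0) * ‖l' - l‖) =
        (∑ m ∈ f.support, ‖f.coeff m‖ * (m 0 : ℝ)) * ρ ^ (W - w 0) * ‖l' - l‖ := by
      rw [Finset.sum_mul, Finset.sum_mul]
      exact Finset.sum_congr rfl fun m _ => by ring
    rw [h3]
    have h4 : 0 ≤ ρ ^ (W - w 0) * ‖l' - l‖ := by positivity
    nlinarith

end BP
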