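import Pool.Agent.Lib.MP_9e8926_ag_DP.LuA
import Pool.Agent.Lib.MP_9e8926_ag_BP.LuE
import Pool.Agent.Lib.MP_9e8926_ag_BP.LuF

/-!
# Zeros of `f` on small scaled polydiscs

Model: `Pool/Agent/Lib/MP_9e8926_ag_DP/LuB.lean`.
-/

set_option autoImplicit false
set_option linter.unusedVariables false

noncomputable section

namespace BP

open MvPolynomial

private theorem LuB_eval {υ : Type*} [DecidableEq υ] (v0 : υ) (z : υ → ℂ) (T : ℂ)
    (f : MvPolynomial υ ℂ) :
    Polynomial.eval T (aeval (fun v => Polynomial.C (z v) +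
      (if v = v0 then (Polynomial.X : Polynomial ℂ) else 0)) f) =
      eval (z + Pi.single v0 T) f := by
  induction f using MvPolynomial.induction_on with
  | C c =>
    rw [eval_C, ← MvPolynomial.algebraMap_eq, AlgHom.commutes, Polynomial.algebraMap_apply,
      Algebra.algebraMap_self, RingHom.id_apply, Polynomial.eval_C]
  | add p q hp hq => rw [map_add, Polynomial.eval_add, hp, hq, map_add]
  | mul_X p v hp =>
    rw [map_mul, Polynomial.eval_mul, hp, map_mul, eval_X, aeval_X]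
    congr 1
    rw [Polynomial.eval_add, Polynomial.eval_C, Pi.add_apply, Pi.single_apply]
    split_ifs <;> simp

private theorem LuB_der {υ : Type*} [DecidableEq υ] (v0 : υ) (z : υ → ℂ)
    (f : MvPolynomial υ ℂ) :
    Polynomial.eval 0 (Polynomial.derivative (aeval (fun v => Polynomial.C (z v) +
      (if v = v0 then (Polynomial.X : Polynomial ℂ) else 0)) f)) =
      eval z (pderiv v0 f) := by
  induction f using MvPolynomial.induction_on with
  | C c =>
    rw [pderiv_C, map_zero, ← MvPolynomial.algebraMap_eq, AlgHom.commutes,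
      Polynomial.algebraMap_apply, Algebra.algebraMap_self, RingHom.id_apply,
      Polynomial.derivative_C, Polynomial.eval_zero]
  | add p q hp hq =>
    rw [map_add, Polynomial.derivative_add, Polynomial.eval_add, hp, hq, map_add, map_add]
  | mul_X p v hp =>
    have h0 := LuB_eval v0 z 0 p
    rw [Pi.single_zero, add_zero] at h0
    rw [map_mul, Polynomial.derivative_mul, Polynomial.eval_add, Polynomial.eval_mul,
      Polynomial.eval_mul, hp, h0, pderiv_mul, map_add, map_mul, map_mul, eval_X, aeval_X,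
      pderiv_X]
    congr 1
    · congr 1
      rw [Polynomial.eval_add, Polynomial.eval_C]
      split_ifs <;> simp
    · congr 1
      rw [Polynomial.derivative_add, Polynomial.derivative_C, zero_add, Pi.single_apply]
      split_ifs <;> simp

private theorem LuB_deg {υ : Type*} [DecidableEq υ] (v0 : υ) (z : υ → ℂ)
    (f : MvPolynomial υ ℂ) :
    (aeval (fun v => Polynomial.C (z v) +
      (if v = v0 then (Polynomial.X : Polynomial ℂ) else 0)) f).natDegree ≤ f.totalDegree := by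
  rw [aeval_def, eval₂_eq]
  refine Polynomial.natDegree_sum_le_of_forall_le _ _ fun m hm => ?_
  refine (Polynomial.natDegree_mul_le).trans ?_
  rw [Polynomial.algebraMap_apply, Polynomial.natDegree_C, zero_add]
  refine (Polynomial.natDegree_prod_le _ _).trans ?_
  refine le_trans (Finset.sum_le_sum (g := fun i => m i) fun i _ => ?_) (le_totalDegree hm)
  refine (Polynomial.natDegree_pow_le).trans ?_
  have h1 : (Polynomial.C (z i) + (if i = v0 then (Polynomial.X : Polynomial ℂ) else 0)).natDegree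
      ≤ 1 := by
    refine (Polynomial.natDegree_add_le _ _).trans (max_le ?_ ?_)
    · rw [Polynomial.natDegree_C]
      exact Nat.zero_le _
    · split_ifs
      · exact Polynomial.natDegree_X_le
      · rw [Polynomial.natDegree_zero]
        exact Nat.zero_le _
  calc m i * _ ≤ m i * 1 := Nat.mul_le_mul_left _ h1
    _ = m i := mul_one _

/-- Copy of `DP.root_est` with `ρ ^ w 0` (radius of the variable `x_0`) and `ρ ^ (W - w 0)`
(derivative) in place of `ρ ^ ax`, `ρ ^ W` in place of `ρ ^ (2 ax)`; `W = (W - w 0) + w 0`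
(`w 0 ≤ W` because `a 0 ≥ 1`).  With `h(T) = f(z + T e_0)` (the private lemmas `LuB_eval`, `LuB_der`,
`LuB_deg` of `DP/LuB.lean` are for a general index type: copy them) `DP.exists_root_near` at `0` gives
a root `l` with `|l| c1 ρ^{W - w_0} ≤ D C0 δ ρ^W`, so `|l| ≤ ρ^{w_0} / 2` if `2 (D + 1) C0 δ ≤ c1`. -/
theorem root_est {n : ℕ} (hn : 1 ≤ n) (a w : Fin (n + 1) → ℕ) (ha : ∀ i, 1 ≤ a i)
    (hw : ∀ i, 0 < w i) (W : ℕ) (haw : ∀ i, a i * w i = W) (c : Fin (n + 1) → ℂ)
    (hc : ∀ i, c i ≠ 0) (f : MvPolynomial (Fin (n + 1)) ℂ) (hf1 : Ge w W f)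
    (hf2 : comp w W f = f0 c a) :
    ∃ (z0 : Fin (n + 1) → ℂ) (δ C ρ0 : ℝ), 0 < δ ∧ 1 ≤ C ∧ 0 < ρ0 ∧ ρ0 ≤ 1 ∧
      (∀ v, ‖z0 v‖ + δ ≤ 1 / 2) ∧ ∀ ρ : ℝ, 0 < ρ → ρ ≤ ρ0 → ∀ z : Fin (n + 1) → ℂ,
      (∀ v, ‖z v - (ρ : ℂ) ^ w v * z0 v‖ ≤ δ * ρ ^ w v) →
      ∃ l : ℂ, ‖l‖ ≤ ρ ^ w 0 / 2 ∧ ∀ l' : ℂ, ‖l'‖ ≤ ρ ^ w 0 / 2 →
        ‖eval (z + Pi.single 0 l') f‖ ≤ C * ρ ^ (W - w 0) * ‖l' - l‖ := by
  classical
  obtain ⟨z0, δ0, C0, c1, hδ0, hδ4, hC0, hc1, hz0, hval⟩ :=
    val_est hn a w ha hw W haw c hc f hf1 hf2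
  obtain ⟨C, hC1, hlip⟩ := lip_est w W f hf1
  have hwW : W = (W - w 0) + w 0 := by
    have h1 : w 0 ≤ W := by
      rw [← haw 0]
      exact Nat.le_mul_of_pos_left _ (ha 0)
    omega
  set D := f.totalDegree with hD
  have hDC : 0 < 2 * ((D : ℝ) + 1) * C0 := by positivity
  set δ := min δ0 (c1 / (2 * ((D : ℝ) + 1) * C0)) with hδ
  have hδpos : 0 < δ := lt_min hδ0 (by positivity)
  have hδle : δ ≤ δ0 := min_le_left _ _
  have hδle' : δ * (2 * ((D : ℝ) + 1) * C0) ≤ c1 := by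
    have := min_le_right δ0 (c1 / (2 * ((D : ℝ) + 1) * C0))
    rwa [← hδ, le_div_iff₀ hDC] at this
  refine ⟨z0, δ, C, δ, hδpos, hC1, hδpos, by linarith, fun v => ?_, ?_⟩
  · have := hz0 v
    linarith
  · intro ρ hρ hρδ z hz
    obtain ⟨h1, h2⟩ := hval δ ρ hρ hρδ hδle z hz
    have hρ1 : ρ ≤ 1 := by linarith
    have hρa : 0 < ρ ^ w 0 := pow_pos hρ _
    have hρb : 0 < ρ ^ (W - w 0) := pow_pos hρ _
    set h : Polynomial ℂ := aeval (fun v => Polynomial.C (z v) +
      (if v = 0 then (Polynomial.X : Polynomial ℂ) else 0)) f with hh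
    have hev0 : h.eval 0 = eval z f := by
      rw [hh, LuB_eval, Pi.single_zero, add_zero]
    have hder : h.derivative.eval 0 = eval z (pderiv 0 f) := by
      rw [hh, LuB_der]
    have hne : h.derivative.eval 0 ≠ 0 := by
      rw [hder, ← norm_pos_iff]
      exact lt_of_lt_of_le (mul_pos hc1 hρb) h2
    obtain ⟨l, hl, hl2⟩ := DP.exists_root_near h D (LuB_deg _ _ _) 0 hne
    rw [sub_zero, hder, hev0] at hl2
    have hl3 : ‖l‖ ≤ ρ ^ w 0 / 2 := by
      have h3 : ‖l‖ * (c1 * ρ ^ (W - w 0)) ≤ (ρ ^ w 0 / 2) * (c1 * ρ ^ (W - w 0)) := by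
        calc ‖l‖ * (c1 * ρ ^ (W - w 0)) ≤ ‖l‖ * ‖eval z (pderiv 0 f)‖ :=
              mul_le_mul_of_nonneg_left h2 (norm_nonneg _)
          _ ≤ D * ‖eval z f‖ := hl2
          _ ≤ D * (C0 * δ * ρ ^ W) := mul_le_mul_of_nonneg_left h1 (Nat.cast_nonneg _)
          _ = (D * C0 * δ) * (ρ ^ (W - w 0) * ρ ^ w 0) := by
              rw [← pow_add, ← hwW]
              ring
          _ ≤ (c1 / 2) * (ρ ^ (W - w 0) * ρ ^ w 0) := by
              refine mul_le_mul_of_nonneg_right ?_ (by positivity)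
              have h4 : 0 ≤ δ * (2 * C0) := by positivity
              nlinarith
          _ = (ρ ^ w 0 / 2) * (c1 * ρ ^ (W - w 0)) := by ring
      exact le_of_mul_le_mul_right h3 (mul_pos hc1 hρb)
    have hcoord : ∀ l'' : ℂ, ‖l''‖ ≤ ρ ^ w 0 / 2 → ∀ v,
        ‖(z + Pi.single 0 l'' : Fin (n + 1) → ℂ) v‖ ≤ ρ ^ w v := by
      intro l'' hl'' v
      have hw : 0 < ρ ^ w v := pow_pos hρ _
      have h3 : ‖z v‖ ≤ ρ ^ w v / 2 := by
        have h4 : z v = (z v - (ρ : ℂ) ^ w v * z0 v) + (ρ : ℂ) ^ w v * z0 v := by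
          ring
        rw [h4]
        refine (norm_add_le _ _).trans ?_
        rw [norm_mul, norm_pow, Complex.norm_real, Real.norm_of_nonneg hρ.le]
        have h5 := hz v
        have h6 := mul_le_mul_of_nonneg_left (hz0 v) hw.le
        nlinarith
      rw [Pi.add_apply, Pi.single_apply]
      split_ifs with hv
      · rw [hv] at h3 ⊢
        refine (norm_add_le _ _).trans ?_
        linarith
      · rw [add_zero]
        linarith
    refine ⟨l, hl3, fun l' hl' => ?_⟩
    have h3 := hlip ρ hρ hρ1 z l l' (hcoord l hl3) (hcoord l' hl')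
    have h4 : eval (z + Pi.single 0 l) f = 0 := by
      rw [← LuB_eval, ← hh]
      exact hl
    rwa [h4, sub_zero] at h3

end BP
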