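import Pool.Agent.Lib.MP_9e8926_ag_BP.LuB
import Pool.Agent.Lib.MP_9e8926_ag_DP.LuC
import Pool.Agent.Lib.MP_9e8926_ag_DP.LuV

/-!
# Volume of the tube around `f = 0` in a scaled polydisc

Model: `Pool/Agent/Lib/MP_9e8926_ag_DP/LuD.lean`.
-/

set_option autoImplicit false
set_option linter.unusedVariables false

noncomputable section

namespace BP

open MvPolynomial MeasureTheory

/-- (Copy of `DP.wt_bound`: each monomial of `u ∈ Wt C` is at most `ρ^{wd m} ≤ ρ^C` in absolute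
value.) -/
theorem wt_bound {n : ℕ} (w : Fin (n + 1) → ℕ) (C : ℕ) (u : MvPolynomial (Fin (n + 1)) ℂ)
    (hu : u ∈ Wt ℂ w C) : ∃ c : ℝ, 0 ≤ c ∧ ∀ ρ : ℝ, 0 ≤ ρ → ρ ≤ 1 → ∀ z : Fin (n + 1) → ℂ,
      (∀ v, ‖z v‖ ≤ ρ ^ w v) → ‖eval z u‖ ≤ c * ρ ^ C := by
  refine ⟨∑ m ∈ u.support, ‖u.coeff m‖, Finset.sum_nonneg fun _ _ => norm_nonneg _, ?_⟩
  intro ρ h0 h1 z hz
  rw [eval_eq', Finset.sum_mul]
  refine norm_sum_le_of_le _ fun m hm => ?_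
  rw [norm_mul, norm_prod]
  refine mul_le_mul_of_nonneg_left ?_ (norm_nonneg _)
  calc ∏ v, ‖z v ^ m v‖ ≤ ∏ v, ρ ^ (w v * m v) := by
        refine Finset.prod_le_prod (fun _ _ => norm_nonneg _) fun v _ => ?_
        rw [norm_pow, pow_mul]
        exact pow_le_pow_left₀ (norm_nonneg _) (hz v) _
    _ = ρ ^ wd w m := by
        rw [Finset.prod_pow_eq_pow_sum]
        rfl
    _ ≤ ρ ^ C := pow_le_pow_of_le_one h0 h1 (hu m hm)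

/-- Copy of `DP.tube`: `DP.cover` with `U = {z | ∀ v, ‖z v - ρ^{w_v} z0 v‖ ≤ δ ρ^{w_v}}`,
`U' = {z | ∀ v, ‖z v‖ ≤ ρ^{w_v}}`, `F = ‖f‖`, `R = ρ^{w_0} / 2`, `L = C ρ^{W - w_0}`,
`s = ρ^{k - W + w_0} / (2 C)` (`≤ R` because `k ≥ W`, `ρ ≤ 1`, `C ≥ 1`), `2 L s = ρ^k`:
`vol U = ∏ (π δ² ρ^{2 w_v})` (`DP.vol_box`), `s² / (9 R²) = ρ^{2 (k - W)} / (9 C²)`. -/
theorem tube {n : ℕ} (hn : 1 ≤ n) (a w : Fin (n + 1) → ℕ) (ha : ∀ i, 1 ≤ a i)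
    (hw : ∀ i, 0 < w i) (W : ℕ) (haw : ∀ i, a i * w i = W) (c : Fin (n + 1) → ℂ)
    (hc : ∀ i, c i ≠ 0) (f : MvPolynomial (Fin (n + 1)) ℂ) (hf1 : Ge w W f)
    (hf2 : comp w W f = f0 c a) :
    ∃ (c1 ρ0 : ℝ), 0 < c1 ∧ 0 < ρ0 ∧ ρ0 ≤ 1 ∧ ∀ k : ℕ, W ≤ k → ∀ ρ : ℝ, 0 < ρ → ρ ≤ ρ0 →
      ENNReal.ofReal (c1 * ρ ^ (2 * (∑ v, w v + (k - W)))) ≤
        volume {z : Fin (n + 1) → ℂ | (∀ v, ‖z v‖ ≤ ρ ^ w v) ∧ ‖eval z f‖ ≤ ρ ^ k} := by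
  obtain ⟨z0, δ, C, ρ0, hδ, hC, hρ0, hρ1, hz0, hroot⟩ :=
    root_est hn a w ha hw W haw c hc f hf1 hf2
  have hC0 : 0 < C := by linarith
  have hwW : w 0 ≤ W := by
    rw [← haw 0]
    exact Nat.le_mul_of_pos_left _ (ha 0)
  refine ⟨(Real.pi * δ ^ 2) ^ (n + 1) / (9 * C ^ 2), ρ0, by positivity, hρ0, hρ1, ?_⟩
  intro k hk ρ hρ hρle
  have hρ1' : ρ ≤ 1 := hρle.trans hρ1
  set U : Set (Fin (n + 1) → ℂ) :=
    {z | ∀ v, ‖z v - (ρ : ℂ) ^ w v * z0 v‖ ≤ δ * ρ ^ w v} with hU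
  set U' : Set (Fin (n + 1) → ℂ) := {z | ∀ v, ‖z v‖ ≤ ρ ^ w v} with hU'
  set s : ℝ := ρ ^ (w 0 + (k - W)) / (2 * C) with hs
  have hs0 : 0 < s := by positivity
  have hsR : s ≤ ρ ^ w 0 / 2 := by
    rw [hs, div_le_div_iff₀ (by positivity) (by norm_num)]
    have h1 : ρ ^ (w 0 + (k - W)) ≤ ρ ^ w 0 := pow_le_pow_of_le_one hρ.le hρ1' (by omega)
    have h2 : ρ ^ w 0 * 1 ≤ ρ ^ w 0 * C := mul_le_mul_of_nonneg_left hC (by positivity)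
    nlinarith
  have hLs : 2 * (C * ρ ^ (W - w 0)) * s = ρ ^ k := by
    have h1 : ρ ^ k = ρ ^ (W - w 0) * ρ ^ (w 0 + (k - W)) := by
      rw [← pow_add]; congr 1; omega
    rw [hs, h1]
    field_simp
  have hcov := DP.cover (0 : Fin (n + 1)) U U' (fun z => ‖eval z f‖) (ρ ^ w 0 / 2)
    (C * ρ ^ (W - w 0)) s hs0 hsR (by positivity) (by
      intro z hz
      obtain ⟨l, hl, hl'⟩ := hroot ρ hρ hρle z hz
      refine ⟨l, hl, fun l' hl1 => ⟨?_, hl' l' hl1⟩⟩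
      intro v
      have h1 : ‖z v‖ ≤ ρ ^ w v / 2 := by
        have h2 := hz v
        have h3 : ‖(ρ : ℂ) ^ w v * z0 v‖ = ρ ^ w v * ‖z0 v‖ := by
          rw [norm_mul, norm_pow, Complex.norm_real, Real.norm_of_nonneg hρ.le]
        have h4 : ‖z v‖ ≤ ‖z v - (ρ : ℂ) ^ w v * z0 v‖ + ‖(ρ : ℂ) ^ w v * z0 v‖ := by
          have := norm_add_le (z v - (ρ : ℂ) ^ w v * z0 v) ((ρ : ℂ) ^ w v * z0 v)
          simpa using this
        have h5 := hz0 v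
        have h6 : 0 < ρ ^ w v := by positivity
        rw [h3] at h4
        nlinarith
      rw [Pi.add_apply]
      by_cases hv : v = 0
      · subst hv
        rw [Pi.single_eq_same]
        refine (norm_add_le _ _).trans ?_
        linarith
      · rw [Pi.single_eq_of_ne hv, add_zero]
        have h6 : 0 < ρ ^ w v := by positivity
        linarith)
  have hset : {z ∈ U' | ‖eval z f‖ ≤ 2 * (C * ρ ^ (W - w 0)) * s} =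
      {z : Fin (n + 1) → ℂ | (∀ v, ‖z v‖ ≤ ρ ^ w v) ∧ ‖eval z f‖ ≤ ρ ^ k} := by
    rw [hLs]
    rfl
  rw [hset] at hcov
  have hvolU : volume U = ENNReal.ofReal (∏ v, (Real.pi * (δ * ρ ^ w v) ^ 2)) :=
    DP.vol_box (fun v => (ρ : ℂ) ^ w v * z0 v) (fun v => δ * ρ ^ w v) (fun v => by positivity)
  rw [hvolU] at hcov
  have hB : 0 < 9 * (ρ ^ w 0 / 2) ^ 2 / s ^ 2 := by positivity
  have hdiv := ENNReal.div_le_of_le_mul' hcov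
  rw [← ENNReal.ofReal_div_of_pos hB] at hdiv
  refine le_trans (ENNReal.ofReal_le_ofReal (le_of_eq ?_)) hdiv
  have hprod : ∏ v, (Real.pi * (δ * ρ ^ w v) ^ 2) =
      (Real.pi * δ ^ 2) ^ (n + 1) * ρ ^ (2 * ∑ v, w v) := by
    have h1 : ∀ v, Real.pi * (δ * ρ ^ w v) ^ 2 = (Real.pi * δ ^ 2) * ρ ^ (2 * w v) := by
      intro v
      rw [mul_pow, ← pow_mul, mul_comm (w v) 2]
      ring
    rw [Finset.prod_congr rfl fun v _ => h1 v, Finset.prod_mul_distrib, Finset.prod_const,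
      Finset.prod_pow_eq_pow_sum, Finset.card_univ, Fintype.card_fin, ← Finset.mul_sum]
  rw [hprod, hs]
  have hk1 : ρ ^ (w 0 + (k - W)) = ρ ^ w 0 * ρ ^ (k - W) := pow_add _ _ _
  have hk2 : ρ ^ (2 * (∑ v, w v + (k - W))) =
      ρ ^ (2 * ∑ v, w v) * (ρ ^ (k - W)) ^ 2 := by
    rw [← pow_mul, ← pow_add]; congr 1; ring
  rw [hk1, hk2]
  have h3 : ρ ^ w 0 ≠ 0 := by positivity
  field_simp

end BP
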