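import Pool.Agent.Lib.MP_9e8926_ag_BP.LimX
import Pool.Agent.Lib.MP_9e8926_ag_BP.FptC

/-!
# The upper bound for Frobenius volumes
-/

set_option autoImplicit false

noncomputable section

namespace BP

open MvPolynomial
open DP (m0 J mem_m0 m0_eq_span mem_J)

private theorem upF_X {k : Type*} [Field k] {ι : Type*} [Fintype ι] (w : ι → ℕ) (j : ι) :
    (X j : MvPolynomial ι k) ∈ Wt k w (w j) := by
  classical
  intro m hm
  rw [support_X, Finset.mem_singleton] at hm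
  subst hm
  unfold wd
  refine le_trans ?_ (Finset.single_le_sum
    (f := fun j' => w j' * (Finsupp.single j 1 : ι →₀ ℕ) j')
    (fun _ _ => Nat.zero_le _) (Finset.mem_univ j))
  simp

private theorem upF_Y {k : Type*} [Field k] {ι : Type*} [Fintype ι] (w : ι → ℕ) (c : ι → ℕ) :
    (∏ j, X j ^ c j : MvPolynomial ι k) ∈ Wt k w (∑ j, w j * c j) := by
  classical
  have key : ∀ s : Finset ι, (∏ j ∈ s, X j ^ c j :
      MvPolynomial ι k) ∈ Wt k w (∑ j ∈ s, w j * c j) := by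
    intro s
    induction s using Finset.induction_on with
    | empty => exact fun m _ => Nat.zero_le _
    | insert j s hj ih =>
      rw [Finset.prod_insert hj, Finset.sum_insert hj]
      exact Wt_mul w _ _ (Ideal.mul_mem_mul
        (Wt_pow w _ _ (Ideal.pow_mem_pow (upF_X w j) _)) ih)
  exact key Finset.univ

private theorem upF_wt {ι : Type*} [Fintype ι] (w : ι → ℕ) (m : ι →₀ ℕ) (q : ℕ)
    (h : ∀ v, m v < q) : wd w m ≤ (∑ j, w j) * (q - 1) := by
  rw [Finset.sum_mul]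
  exact Finset.sum_le_sum fun j _ => Nat.mul_le_mul_left _ (by have := h j; omega)

private theorem upF_real {n : ℕ} (a w : Fin (n + 1) → ℕ) (ha : ∀ i, 1 ≤ a i) (W : ℕ)
    (haw : ∀ i, a i * w i = W) (b : Fin (n + 1) → ℚ)
    (C q T : ℕ) (t : ℝ) (hq : 2 ≤ q) (hC : 1 ≤ C)
    (hT : t * ((q : ℝ) - 1) ≤ T)
    (h : W * (q - 1) + (∑ j, w j * ⌈(b j : ℝ) * ((q : ℝ) - 1)⌉₊ + C * T) ≤
      (∑ j, w j) * (q - 1)) : t ≤ W * rho a b / C := by
  have hC0 : (0 : ℝ) < C := by exact_mod_cast hC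
  have hq0 : (0 : ℝ) < (q : ℝ) - 1 := by
    have : (2 : ℝ) ≤ q := by exact_mod_cast hq
    linarith
  have h1 := (Nat.cast_le (α := ℝ)).2 h
  push_cast [Nat.cast_sub (show 1 ≤ q by omega)] at h1
  have h2 : (∑ j, (w j : ℝ) * (b j : ℝ)) * ((q : ℝ) - 1) ≤
      ∑ j, (w j : ℝ) * (⌈(b j : ℝ) * ((q : ℝ) - 1)⌉₊ : ℝ) := by
    rw [Finset.sum_mul]
    refine Finset.sum_le_sum fun j _ => ?_
    rw [mul_assoc]
    exact mul_le_mul_of_nonneg_left (Nat.le_ceil _) (Nat.cast_nonneg _)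
  have h3 : (W : ℝ) * rho a b = ∑ j, (w j : ℝ) - ∑ j, (w j : ℝ) * (b j : ℝ) - W := by
    unfold rho
    rw [mul_sub, mul_one, Finset.mul_sum, ← Finset.sum_sub_distrib]
    congr 1
    refine Finset.sum_congr rfl fun j _ => ?_
    have h4 : (a j : ℝ) ≠ 0 := by
      have := ha j
      positivity
    have h5 : (W : ℝ) = a j * w j := by
      rw [← haw j]
      push_cast
      ring
    rw [h5]
    field_simp
  have h4 : (C : ℝ) * (t * ((q : ℝ) - 1)) ≤ C * T := mul_le_mul_of_nonneg_left hT hC0.le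
  rw [le_div_iff₀ hC0]
  have h5 : t * C * ((q : ℝ) - 1) ≤ W * rho a b * ((q : ℝ) - 1) := by
    rw [h3]
    nlinarith
  exact le_of_mul_le_mul_right h5 hq0

theorem upF_lim (A c κn : ℝ) (n : ℕ) :
    Filter.Tendsto (fun C : ℕ => A * ((C : ℝ) + c) ^ n * (κn / (C : ℝ)) ^ n) Filter.atTop
      (nhds (A * κn ^ n)) := by
  have h1 : Filter.Tendsto (fun C : ℕ => κn * c / (C : ℝ)) Filter.atTop (nhds 0) :=
    tendsto_const_div_atTop_nhds_zero_nat _
  have h2 := ((h1.const_add κn).pow n).const_mul A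
  rw [add_zero] at h2
  refine h2.congr' ?_
  filter_upwards [Filter.eventually_gt_atTop 0] with C hC
  have hC0 : (C : ℝ) ≠ 0 := by exact_mod_cast hC.ne'
  rw [mul_assoc, ← mul_pow]
  congr 2
  field_simp

variable {k : Type*} [Field k] {n : ℕ} (p : ℕ) [Fact p.Prime] [CharP k p] [PerfectField k]
  (a w : Fin (n + 1) → ℕ) (ha : ∀ i, 1 ≤ a i)
  (hw : ∀ i, 0 < w i) (W : ℕ) (hW : 0 < W) (haw : ∀ i, a i * w i = W) (c : Fin (n + 1) → k)
  (hc : ∀ i, c i ≠ 0) (f : MvPolynomial (Fin (n + 1)) k) (hf1 : Ge w W f)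
  (hf2 : comp w W f = f0 c a) (b : Fin (n + 1) → ℚ) (hρ : 0 < rho a b)

include ha hw hW haw hc hf1 hf2 hρ

theorem fpt_ak (C : ℕ) (hC : 1 ≤ C) : fpt p f b (ak f w C) ≤ W * rho a b / C := by
  refine Real.sSup_le (fun t ht => ?_) (by positivity)
  obtain ⟨e, he, φ, hφ, a', ha', hφa⟩ := ht.2 1 (fun s hs h0 => hs (by
    rw [mul_one] at h0
    rw [h0]
    exact Ideal.zero_mem _))
  set T := ⌈t * ((p ^ e : ℕ) - 1 : ℝ)⌉₊ with hT
  rw [ak, ← Ideal.map_pow] at ha'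
  obtain ⟨a'', ha'', rfl⟩ := (Ideal.mem_map_iff_of_surjective _
    Ideal.Quotient.mk_surjective).1 ha'
  have hwt := Wt_pow w C T ha''
  rw [one_mul, ← map_mul] at hφa
  have h1 := fed_up p f (f_ne a w ha W c hc f hf2) (const_zero w W hW f hf1) e φ hφ _ hφa
  rw [mem_J] at h1
  push Not at h1
  obtain ⟨m, hm, hlt⟩ := h1
  have hq2 : 2 ≤ p ^ e := by
    have hp := (Fact.out : p.Prime).two_le
    calc 2 ≤ p := hp
      _ = p ^ 1 := (pow_one p).symm
      _ ≤ p ^ e := Nat.pow_le_pow_right (by omega) he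
  have hfW : f ∈ Wt k w W := hf1
  have h2 : f ^ (p ^ e - 1) * (Yq b (p ^ e) * a'') ∈ Wt k w
      (W * (p ^ e - 1) + (∑ j, w j * ⌈(b j : ℝ) * (((p ^ e : ℕ) : ℝ) - 1)⌉₊ + C * T)) :=
    Wt_mul w _ _ (Ideal.mul_mem_mul
      (Wt_pow w _ _ (Ideal.pow_mem_pow hfW _))
      (Wt_mul w _ _ (Ideal.mul_mem_mul (upF_Y w _) hwt)))
  exact upF_real a w ha W haw b C (p ^ e) T t hq2 hC (Nat.le_ceil _)
    ((h2 m hm).trans (upF_wt w m (p ^ e) hlt))

theorem fvol_up : Fvol p n f b ≤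
    (W * rho a b) ^ n * (n.factorial : ℝ) * cN w (a 0) := by
  have hlim := upF_lim ((n.factorial : ℝ) * cN w (a 0)) (∑ i, (w i : ℝ)) (W * rho a b) n
  have heq : (n.factorial : ℝ) * cN w (a 0) * (W * rho a b) ^ n =
      (W * rho a b) ^ n * (n.factorial : ℝ) * cN w (a 0) := by
    ring
  rw [heq] at hlim
  have hfn : ∀ I : Ideal (Rg f), 0 ≤ fpt p f b I :=
    fun I => Real.sSup_nonneg fun t ht => ht.1
  refine ge_of_tendsto hlim ?_
  filter_upwards [Filter.eventually_ge_atTop 1] with C hC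
  have hbdd : BddBelow {v : ℝ | ∃ I : Ideal (Rg f), IsPrim (mX f) I ∧
      v = emult k n I * fpt p f b I ^ n} := by
    refine ⟨0, ?_⟩
    rintro _ ⟨I, hI, rfl⟩
    exact mul_nonneg (emult_nonneg a w ha hw W haw c hc f hf1 hf2 I hI) (pow_nonneg (hfn I) _)
  have hprim := ak_prim f w hw C hC
  have h1 : Fvol p n f b ≤
      emult k n (ak f w C) * fpt p f b (ak f w C) ^ n :=
    csInf_le hbdd ⟨_, hprim, rfl⟩
  refine h1.trans ?_
  have h2 := emult_ak a w ha hw W haw c hc f hf1 hf2 C hC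
  have h3 := fpt_ak p a w ha hw W hW haw c hc f hf1 hf2 b hρ C hC
  have h4 := hfn (ak f w C)
  exact mul_le_mul h2 (pow_le_pow_left₀ h4 h3 _) (pow_nonneg h4 _)
    ((emult_nonneg a w ha hw W haw c hc f hf1 hf2 _ hprim).trans h2)

end BP
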