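import Pool.Agent.Lib.MP_9e8926_ag_BP.LctU
import Pool.Agent.Lib.MP_9e8926_ag_BP.LimX

/-!
# The upper bound for the normalized volume
-/

set_option autoImplicit false

noncomputable section

namespace BP

open MvPolynomial

theorem volhat_up {n : ℕ} (hn : 1 ≤ n) (a w : Fin (n + 1) → ℕ) (ha : ∀ i, 1 ≤ a i)
    (hw : ∀ i, 0 < w i) (W : ℕ) (hW : 0 < W) (haw : ∀ i, a i * w i = W) (c : Fin (n + 1) → ℂ)
    (hc : ∀ i, c i ≠ 0) (f : MvPolynomial (Fin (n + 1)) ℂ) (hf1 : Ge w W f)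
    (hf2 : comp w W f = f0 c a) (b : Fin (n + 1) → ℚ) (hb : ∀ i, 0 ≤ b i ∧ b i < 1)
    (hρ : 0 < rho a b) :
    volhat n f b ≤ (W * rho a b) ^ n * (n.factorial : ℝ) * cN w (a 0) := by
  set S : ℝ := ∑ i, (w i : ℝ) with hS
  have hlct0 : ∀ I : Ideal (Rg f), 0 ≤ lct f b I := fun I =>
    Real.sSup_nonneg fun t ht => ht.1
  have key : ∀ k : ℕ, W ≤ k → volhat n f b ≤
      ((n.factorial : ℝ) * cN w (a 0)) * (W * rho a b * (1 + S / (k : ℝ))) ^ n := by
    intro k hk
    have hk1 : 1 ≤ k := by omega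
    have hk0 : (0 : ℝ) < k := by exact_mod_cast hk1
    have hprim : IsPrim (mX f) (ak f w k) := ak_prim f w hw k hk1
    have h1 : volhat n f b ≤ emult ℂ n (ak f w k) * lct f b (ak f w k) ^ n := by
      unfold volhat
      refine csInf_le ⟨0, ?_⟩ ⟨ak f w k, hprim, rfl⟩
      rintro v ⟨I, hI, rfl⟩
      exact mul_nonneg (emult_nonneg a w ha hw W haw c hc f hf1 hf2 I hI)
        (pow_nonneg (hlct0 I) _)
    have h2 := emult_ak a w ha hw W haw c hc f hf1 hf2 k hk1
    have h3 := lct_ak hn a w ha hw W hW haw c hc f hf1 hf2 b hb hρ k hk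
    have h4 := hlct0 (ak f w k)
    have h5 := emult_nonneg a w ha hw W haw c hc f hf1 hf2 _ hprim
    refine h1.trans ((mul_le_mul h2 (pow_le_pow_left₀ h4 h3 _) (pow_nonneg h4 _)
      (h5.trans h2)).trans (le_of_eq ?_))
    rw [mul_assoc, ← mul_pow]
    congr 2
    field_simp
    rw [hS]
  have h1 : Filter.Tendsto (fun k : ℕ => ((n.factorial : ℝ) * cN w (a 0)) *
      (W * rho a b * (1 + S / (k : ℝ))) ^ n) Filter.atTop
      (nhds (((n.factorial : ℝ) * cN w (a 0)) * (W * rho a b * (1 + 0)) ^ n)) :=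
    (((tendsto_const_div_atTop_nhds_zero_nat _).const_add 1).const_mul (W * rho a b) |>.pow
      n).const_mul _
  have h2 : ((n.factorial : ℝ) * cN w (a 0)) * (W * rho a b * (1 + 0)) ^ n =
      (W * rho a b) ^ n * (n.factorial : ℝ) * cN w (a 0) := by
    rw [add_zero, mul_one]
    ring
  rw [h2] at h1
  refine ge_of_tendsto h1 ?_
  filter_upwards [Filter.eventually_ge_atTop W] with k hk
  exact key k hk

end BP
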