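import Pool.Agent.Lib.MP_9e8926_ag_BP.CntN

/-!
# The weights
-/

set_option autoImplicit false

noncomputable section

namespace BP

open MvPolynomial

theorem exists_w {n : ℕ} (a : Fin (n + 1) → ℕ) (ha : ∀ i, 1 ≤ a i) :
    ∃ (w : Fin (n + 1) → ℕ) (W : ℕ), 0 < W ∧ (∀ i, 0 < w i) ∧ (∀ i, a i * w i = W) ∧
      (∀ m : Fin (n + 1) →₀ ℕ, 1 < ∑ i, (m i : ℝ) / (a i : ℝ) → W < wd w m) ∧
      (W : ℝ) ^ n * ((n.factorial : ℝ) * cN w (a 0)) = ∏ i, (a i : ℝ) := by
  classical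
  refine ⟨fun i => ∏ j ∈ Finset.univ.erase i, a j, ∏ j, a j, Finset.prod_pos fun i _ => ha i,
    fun i => Finset.prod_pos fun j _ => ha j, fun i => Finset.mul_prod_erase _ _ (Finset.mem_univ i),
    ?_, ?_⟩
  · intro m hm
    have hW : (0 : ℝ) < ((∏ j, a j : ℕ) : ℝ) := by
      exact_mod_cast Finset.prod_pos fun i _ => ha i
    have h1 : ((wd (fun i => ∏ j ∈ Finset.univ.erase i, a j) m : ℕ) : ℝ) =
        ((∏ j, a j : ℕ) : ℝ) * ∑ i, (m i : ℝ) / (a i : ℝ) := by
      unfold wd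
      rw [Finset.mul_sum]
      push_cast
      refine Finset.sum_congr rfl fun i _ => ?_
      have h2 : (a i : ℝ) ≠ 0 := by
        have := ha i
        positivity
      rw [← Finset.mul_prod_erase Finset.univ (fun j => (a j : ℝ)) (Finset.mem_univ i)]
      field_simp
    have h3 : ((∏ j, a j : ℕ) : ℝ) < ((wd (fun i => ∏ j ∈ Finset.univ.erase i, a j) m : ℕ) : ℝ) := by
      rw [h1]
      nlinarith
    exact_mod_cast h3
  · unfold cN
    have h1 : ∀ i : Fin n, ((∏ j ∈ Finset.univ.erase i.succ, a j : ℕ) : ℝ) ≠ 0 := fun i => by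
      have : 0 < ∏ j ∈ Finset.univ.erase i.succ, a j := Finset.prod_pos fun j _ => ha j
      positivity
    have h2 : (((∏ j, a j : ℕ) : ℝ)) ^ n =
        (∏ i : Fin n, (a i.succ : ℝ)) * ∏ i : Fin n, ((∏ j ∈ Finset.univ.erase i.succ, a j : ℕ) : ℝ) := by
      rw [← Finset.prod_mul_distrib]
      have h3 : ∀ i : Fin n, (a i.succ : ℝ) * ((∏ j ∈ Finset.univ.erase i.succ, a j : ℕ) : ℝ) =
          ((∏ j, a j : ℕ) : ℝ) := fun i => by
        rw [← Finset.mul_prod_erase Finset.univ a (Finset.mem_univ i.succ)]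
        push_cast
        ring
      rw [Finset.prod_congr rfl fun i _ => h3 i, Finset.prod_const, Finset.card_univ,
        Fintype.card_fin]
    rw [h2, Fin.prod_univ_succ]
    have h3 : ∏ i : Fin n, ((∏ j ∈ Finset.univ.erase i.succ, a j : ℕ) : ℝ) ≠ 0 :=
      Finset.prod_ne_zero_iff.2 fun i _ => h1 i
    have h4 : (n.factorial : ℝ) ≠ 0 := by positivity
    field_simp

end BP
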