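import Pool.Agent.Lib.MP_9e8926_ag_BP.LowF
import Pool.Agent.Lib.MP_9e8926_ag_BP.UpF
import Pool.Agent.Lib.MP_9e8926_ag_BP.VolU
import Pool.Agent.Lib.MP_9e8926_ag_BP.Wgt
import Pool.Agent.Lib.MP_9e8926_ag_BP.Cst
import Pool.Agent.Lib.MP_9e8926_ag_FV.ResF

/-!
# The main theorem
-/

set_option autoImplicit false

noncomputable section

namespace BP

open MvPolynomial

private theorem map_ff {A B : Type*} [CommRing A] [CommRing B] (θ : A →+* B) {n : ℕ}
    (c : Fin (n + 1) → A) (a : Fin (n + 1) → ℕ) (g : MvPolynomial (Fin (n + 1)) A) :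
    map θ (f0 c a + g) = f0 (fun i => θ (c i)) a + map θ g := by
  simp only [f0, map_add, map_sum, map_mul, map_pow, map_C, map_X]

theorem main (A : Type) [CommRing A] [IsDomain A] [Algebra.FiniteType ℤ A] (ι : A →+* ℂ)
    (hι : Function.Injective ι) {n : ℕ} (hn : 2 ≤ n) (a : Fin (n + 1) → ℕ) (ha : ∀ i, 1 ≤ a i)
    (c : Fin (n + 1) → A) (hc : ∀ i, c i ≠ 0) (b : Fin (n + 1) → ℚ)
    (hb : ∀ i, 0 ≤ b i ∧ b i < 1) (hρ : 0 < rho a b)
    (hρ2 : ∀ i, rho a b ≤ 2 * ((1 - (b i : ℝ)) / a i)) (g : MvPolynomial (Fin (n + 1)) A)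
    (hg : ∀ m ∈ g.support, 1 < ∑ i, (m i : ℝ) / (a i : ℝ)) :
    volhat n (map ι (f0 c a + g)) b ≤ rho a b ^ n * ∏ i, (a i : ℝ) ∧
    ∃ C : ℝ, ∃ s : A, s ≠ 0 ∧ ∀ μ : Ideal A, μ.IsMaximal → s ∉ μ → ∀ p : ℕ, CharP (A ⧸ μ) p →
      |Fvol p n (map (Ideal.Quotient.mk μ) (f0 c a + g)) b - rho a b ^ n * ∏ i, (a i : ℝ)| ≤
        C / p := by
  obtain ⟨m, rfl⟩ : ∃ m, n = m + 2 := ⟨n - 2, by omega⟩
  obtain ⟨w, W, hW, hw, haw, hwt, hval⟩ := exists_w a ha
  have hH : ∀ {B : Type} [CommRing B] (θ : A →+* B), ∀ m' ∈ (map θ g).support, W < wd w m' :=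
    fun θ m' hm' => hwt m' (hg m' (support_map_subset θ g hm'))
  have hρ3 : rho a b ≤ 2 := by
    have h1 : (1 - (b 0 : ℝ)) / a 0 ≤ 1 := by
      have h2 : (1 : ℝ) ≤ a 0 := by exact_mod_cast ha 0
      have h3 : (0 : ℝ) ≤ b 0 := by exact_mod_cast (hb 0).1
      rw [div_le_one (by linarith)]
      linarith
    have := hρ2 0
    linarith
  have hP : (0 : ℝ) ≤ ∏ i, (a i : ℝ) := Finset.prod_nonneg fun i _ => Nat.cast_nonneg _
  have hV : (W * rho a b) ^ (m + 2) * ((m + 2).factorial : ℝ) * cN w (a 0) =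
      rho a b ^ (m + 2) * ∏ i, (a i : ℝ) := by
    rw [← hval, mul_pow]
    ring
  obtain ⟨P0, hP0⟩ := exists_par hn a ha b hb hρ hρ2
  obtain ⟨C, hC⟩ := cst (m + 2) (by omega) (∏ i, (a i : ℝ)) (rho a b) hP hρ
  refine ⟨?_, C, (((P0 + a 0).factorial : ℕ) : A) * ∏ i, c i, ?_, ?_⟩
  · rw [map_ff, ← hV]
    have hl := lead_f (w := w) a W haw (fun i => ι (c i)) (map ι g) (hH ι)
    exact volhat_up (by omega) a w ha hw W hW haw (fun i => ι (c i))
      (fun i => (map_ne_zero_iff ι hι).2 (hc i)) _ hl.1 hl.2 b hb hρ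
  · have hc0 : CharZero A := by
      refine ⟨fun m n h => ?_⟩
      have h1 : ι (m : A) = ι (n : A) := by rw [h]
      rw [map_natCast, map_natCast] at h1
      exact_mod_cast h1
    refine mul_ne_zero ?_ (Finset.prod_ne_zero_iff.2 fun i _ => hc i)
    exact_mod_cast (Nat.factorial_pos _).ne'
  · intro μ hμ hcμ p hp
    let _ : Field (A ⧸ μ) := Ideal.Quotient.field μ
    have : Finite (A ⧸ μ) := FV.finite_of_surj A (A ⧸ μ) (Ideal.Quotient.mk μ)
      Ideal.Quotient.mk_surjective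
    have hpr : Fact p.Prime := by
      have := hp
      exact ⟨CharP.char_is_prime (A ⧸ μ) p⟩
    have h6 : (((P0 + a 0).factorial : ℕ) : A ⧸ μ) ≠ 0 ∧ ∀ i, Ideal.Quotient.mk μ (c i) ≠ 0 := by
      have h1 : Ideal.Quotient.mk μ ((((P0 + a 0).factorial : ℕ) : A) * ∏ i, c i) ≠ 0 := fun h =>
        hcμ (Ideal.Quotient.eq_zero_iff_mem.1 h)
      rw [map_mul, map_prod] at h1
      refine ⟨?_, fun i => ?_⟩
      · have h2 := left_ne_zero_of_mul h1
        rwa [map_natCast] at h2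
      · exact Finset.prod_ne_zero_iff.1 (right_ne_zero_of_mul h1) i (Finset.mem_univ i)
    have hpK : P0 + a 0 < p := by
      by_contra hcon
      push Not at hcon
      apply h6.1
      rw [CharP.cast_eq_zero_iff (A ⧸ μ) p]
      exact (Nat.Prime.dvd_factorial hpr.out).2 hcon
    have h0 : ((a 0 : ℕ) : A ⧸ μ) ≠ 0 := by
      intro h
      rw [CharP.cast_eq_zero_iff (A ⧸ μ) p] at h
      have h1 := Nat.le_of_dvd (ha 0) h
      omega
    obtain ⟨J', hJ'⟩ := hP0 p (by omega)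
    rw [map_ff]
    have hl := lead_f (w := w) a W haw (fun i => Ideal.Quotient.mk μ (c i))
      (map (Ideal.Quotient.mk μ) g) (hH (Ideal.Quotient.mk μ))
    have h1 := fvol_low p a w ha hw W hW haw (fun i => Ideal.Quotient.mk μ (c i)) h6.2 h0 b hb
      hρ hρ3 J' hJ' _ hl.1 hl.2
    have h2 := fvol_up p a w ha hw W hW haw (fun i => Ideal.Quotient.mk μ (c i)) h6.2 _
      hl.1 hl.2 b hρ
    rw [hV] at h2
    have h3 := hC p J' hpr.out.one_lt.le hJ'.one (by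
      have := hJ'.lo
      push_cast at this ⊢
      exact this) (by
      have := hJ'.up
      push_cast at this ⊢
      exact this)
    have h4 : kap (m + 2) W p J' ^ (m + 2) * ((m + 2).factorial : ℝ) * cN w (a 0) =
        (∏ i, (a i : ℝ)) * ((2 * (J' : ℝ) / p) /
          (1 + (4 * ((m + 2 : ℕ) : ℝ) + 4) / (J' : ℝ)) ^ (m + 2 - 1)) ^ (m + 2) := by
      have h5 : kap (m + 2) W p J' = W * ((2 * (J' : ℝ) / p) /
          (1 + (4 * ((m + 2 : ℕ) : ℝ) + 4) / (J' : ℝ)) ^ (m + 2 - 1)) := by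
        have h7 : (0 : ℝ) < p := by exact_mod_cast hpr.out.pos
        have h8 : (0 : ℝ) < J' := by exact_mod_cast hJ'.one
        unfold kap
        field_simp
      rw [h5, mul_pow, ← hval]
      ring
    rw [h4] at h1
    rw [abs_sub_comm, abs_of_nonneg (by linarith)]
    rw [mul_comm (∏ i, (a i : ℝ)) (rho a b ^ (m + 2))] at h3
    linarith

end BP
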