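import Pool.Agent.Lib.MP_9e8926_ag_BP.SLc

/-!
# Nondegeneracy for linear forms
-/

set_option autoImplicit false
set_option linter.unusedVariables false

noncomputable section

namespace BP

open MvPolynomial

variable {k : Type*} [Field k]

/-- Let `q = p^(e+1)`, `Q = p^e`.  Proof.  Put `v = sb c u`, `L = lin (c ∘ succ)`.  By `elim` (with
`r_i = Q κ_i ≤ Q p = q`): `v L^(q - Q κ_0) ∈ (x_i^(Q κ_(i+1)))`, and `q - Q κ_0 = Q (p - κ_0)`, so (by
`lin_pow`) `v * ex Q (L_Q^(p - κ_0))` with `L_Q = lin (fun i => c i.succ ^ Q)` is in this ideal.  By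
`cls_mem` with `a = Q` (constant), `γ = 0`, `N = κ ∘ succ` (`Q N_i ≤ Q κ_(i+1)`):
for every class `ε ∈ [0, Q)^n`, `cls Q ε v * L_Q^(p - κ_0) ∈ (x_i^κ_(i+1))`; the same for `L_Q^N` as
`p - κ_0 ≤ N`.  By `deg_cls` (weights one) `totalDegree (cls Q ε v) * Q ≤ totalDegree v ≤ Q J'`
(`sb_deg`), so the degree is `≤ J'`.  By `sl2` (with `j = J'`, `d_i = c_(i+1)^Q ≠ 0`)
`cls Q ε v ∈ (x_i^κ_(i+1))`, and by `eq_zero_of_mem_Jr` (`D = J'`) `cls Q ε v = 0`.  By `recon` `v = 0`,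
and `dvd_of_sb`. -/
theorem nd_lin {n : ℕ} (p : ℕ) [Fact p.Prime] [CharP k p] (e : ℕ) (c : Fin (n + 1) → k)
    (hc : ∀ i, c i ≠ 0) (κ : Fin (n + 1) → ℕ) (hκ1 : ∀ i, 1 ≤ κ i) (hκ2 : ∀ i, κ i ≤ p)
    (N J' : ℕ) (hN : p - κ 0 ≤ N) (h1 : 2 * J' + N + n ≤ ∑ i : Fin n, κ i.succ)
    (h2 : J' + N < p) (h3 : ∀ i : Fin n, J' < κ i.succ)
    (u : MvPolynomial (Fin (n + 1)) k) (hu : u.totalDegree ≤ p ^ e * J')
    (h : u * lin c ^ (p ^ (e + 1) - 1) ∈ Jr k (fun i => p ^ e * κ i)) : lin c ∣ u := by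
  obtain ⟨Q, hQ⟩ : ∃ Q, Q = p ^ e := ⟨_, rfl⟩
  have hQ1 : 1 ≤ Q := by
    rw [hQ]
    exact Nat.one_le_pow _ _ (Fact.out : p.Prime).pos
  obtain ⟨d, hd⟩ : ∃ d : Fin n → k, d = fun i => c i.succ ^ Q := ⟨_, rfl⟩
  have hd0 : ∀ i, d i ≠ 0 := by
    intro i
    rw [hd]
    exact pow_ne_zero _ (hc _)
  have hel := elim p c (hc 0) (e + 1) (fun i => p ^ e * κ i)
    (fun i => by
      rw [pow_succ]
      exact Nat.mul_le_mul_left _ (hκ2 i)) u h
  have hexp : p ^ (e + 1) - p ^ e * κ 0 = p ^ e * (p - κ 0) := by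
    rw [pow_succ, Nat.mul_sub]
  have hlin : lin (fun i : Fin n => c i.succ) ^ (p ^ (e + 1) - p ^ e * κ 0) =
      ex (fun _ => Q) (lin d ^ (p - κ 0)) := by
    rw [hexp, pow_mul, lin_pow p (fun i : Fin n => c i.succ) e, map_pow, hd, hQ]
  rw [hlin, ← hQ] at hel
  have hdeg : ∀ ε : Fin n → ℕ, (∀ i, ε i < Q) →
      (cls (fun _ => Q) ε (sb c u)).totalDegree ≤ J' := by
    intro ε hε
    have h4 := deg_cls (fun _ => Q) ε (fun _ => 1) Q (Q * J') hε (fun i => (mul_one Q).ge)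
      (sb c u) (fun m hm => by
        have h5 := MvPolynomial.le_totalDegree hm
        rw [Finsupp.sum_fintype _ _ (fun _ => rfl)] at h5
        unfold wd
        simp only [one_mul]
        rw [hQ]
        exact h5.trans ((sb_deg c u).trans hu))
    rw [mul_comm Q J'] at h4
    exact Nat.le_of_mul_le_mul_right h4 hQ1
  have hcls : ∀ ε : Fin n → ℕ, (∀ i, ε i < Q) → cls (fun _ => Q) ε (sb c u) = 0 := by
    intro ε hε
    have h4 : cls (fun _ => Q) ε (sb c u) * lin d ^ (p - κ 0) ∈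
        Jr k (fun i : Fin n => κ i.succ) := by
      refine cls_mem (fun _ => Q) ε hε (fun _ => 0) (fun i : Fin n => κ i.succ)
        (fun i : Fin n => Q * κ i.succ) (fun i => le_refl _) (sb c u) (lin d ^ (p - κ 0)) ?_
      simp only [pow_zero, Finset.prod_const_one, one_mul]
      exact hel
    have h5 : lin d ^ N * cls (fun _ => Q) ε (sb c u) ∈ Jr k (fun i : Fin n => κ i.succ) := by
      have e1 : lin d ^ N * cls (fun _ => Q) ε (sb c u) =
          lin d ^ (N - (p - κ 0)) * (cls (fun _ => Q) ε (sb c u) * lin d ^ (p - κ 0)) := by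
        have e2 : lin d ^ N = lin d ^ (N - (p - κ 0)) * lin d ^ (p - κ 0) := by
          rw [← pow_add]
          congr 1
          omega
        rw [e2]
        ring
      rw [e1]
      exact Ideal.mul_mem_left _ _ h4
    have h6 := sl2 p (fun i : Fin n => κ i.succ) d hd0 J' N h1 h2 _ (hdeg ε hε) h5
    exact eq_zero_of_mem_Jr _ J' h3 _ (hdeg ε hε) h6
  refine dvd_of_sb c (hc 0) u ?_
  rw [recon (fun _ => Q) (fun _ => hQ1) (sb c u)]
  refine Finset.sum_eq_zero fun ε hε => ?_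
  rw [hcls ε (fun i => Finset.mem_range.1 (Fintype.mem_piFinset.1 hε i)), map_zero, mul_zero]

end BP
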