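import Pool.Agent.Lib.MP_9e8926_ag_BP.Pre

/-!
# Residue classes of exponents
-/

set_option autoImplicit false
set_option linter.unusedVariables false

noncomputable section

namespace BP

open MvPolynomial

variable {ι : Type*} [Fintype ι] {k : Type*} [CommRing k]

/-- The exponent `e + a β`. -/
def emb (a e : ι → ℕ) (β : ι →₀ ℕ) : ι →₀ ℕ :=
  Finsupp.equivFunOnFinite.symm fun i => e i + a i * β i

/-- The part of `h` with exponents `≡ e mod a`, divided by `x^e`, as a polynomial in the
`y_i = x_i^{a_i}`. -/
def cls (a e : ι → ℕ) (h : MvPolynomial ι k) : MvPolynomial ι k :=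
  open Classical in
  ∑ m ∈ h.support.filter (fun m => ∀ i, m i % a i = e i),
    monomial (Finsupp.equivFunOnFinite.symm fun i => m i / a i) (coeff m h)

/-- The substitution `y_i = x_i^{a_i}`. -/
def ex (a : ι → ℕ) : MvPolynomial ι k →ₐ[k] MvPolynomial ι k := aeval fun i => X i ^ a i

private theorem PiA_mod {a e : ι → ℕ} (he : ∀ i, e i < a i) (β : ι →₀ ℕ) (i : ι) :
    emb a e β i % a i = e i := by
  change (e i + a i * β i) % a i = e i
  rw [Nat.add_mul_mod_self_left, Nat.mod_eq_of_lt (he i)]

private theorem PiA_div {a e : ι → ℕ} (he : ∀ i, e i < a i) (β : ι →₀ ℕ) (i : ι) :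
    emb a e β i / a i = β i := by
  change (e i + a i * β i) / a i = β i
  rw [Nat.add_mul_div_left _ _ (lt_of_le_of_lt (Nat.zero_le _) (he i)),
    Nat.div_eq_of_lt (he i), zero_add]

/-- (Coefficient of `β` in the sum: the exponent `m` contributes iff `m % a = e`, `m / a = β`, i.e.
`m = e + a β`; for `e_i < a_i` the exponent `e + a β` satisfies both.) -/
theorem coeff_cls (a e : ι → ℕ) (he : ∀ i, e i < a i) (h : MvPolynomial ι k) (β : ι →₀ ℕ) :
    coeff β (cls a e h) = coeff (emb a e β) h := by
  classical
  unfold cls
  rw [coeff_sum]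
  simp only [coeff_monomial]
  rw [Finset.sum_eq_single (emb a e β)]
  · rw [if_pos]
    ext i
    exact PiA_div he β i
  · intro m hm hne
    rw [if_neg]
    intro hcon
    refine hne ?_
    ext i
    have h1 := (Finset.mem_filter.1 hm).2 i
    have h2 : m i / a i = β i := DFunLike.congr_fun hcon i
    change m i = e i + a i * β i
    rw [← h1, ← h2, Nat.mod_add_div]
  · intro hn
    have h1 : emb a e β ∉ h.support := fun hs =>
      hn (Finset.mem_filter.2 ⟨hs, fun i => PiA_mod he β i⟩)
    rw [notMem_support_iff.1 h1, ite_self]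

private theorem PiA_add {a e : ι → ℕ} (he : ∀ i, e i < a i) (g h : MvPolynomial ι k) :
    cls a e (g + h) = cls a e g + cls a e h := by
  ext β
  rw [coeff_add, coeff_cls a e he, coeff_cls a e he, coeff_cls a e he, coeff_add]

private theorem PiA_X {a e : ι → ℕ} (he : ∀ i, e i < a i) (g : MvPolynomial ι k) (i : ι) :
    cls a e (g * X i ^ a i) = cls a e g * X i := by
  classical
  ext β
  rw [coeff_cls a e he]
  by_cases hβ : β i = 0
  · rw [coeff_mul_X', if_neg (by rwa [Finsupp.mem_support_iff, not_not]), X_pow_eq_monomial,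
      coeff_mul_monomial', if_neg]
    intro hle
    have h1 := hle i
    rw [Finsupp.single_eq_same] at h1
    have h2 : emb a e β i = e i + a i * β i := rfl
    rw [h2, hβ, mul_zero, add_zero] at h1
    exact absurd (he i) (not_lt.2 h1)
  · obtain ⟨γ, hγ⟩ : ∃ γ : ι →₀ ℕ, β = γ + Finsupp.single i 1 := by
      refine ⟨β - Finsupp.single i 1, (tsub_add_cancel_of_le ?_).symm⟩
      rw [Finsupp.single_le_iff]
      omega
    have h3 : emb a e β = emb a e γ + Finsupp.single i (a i) := by
      ext j
      rw [Finsupp.add_apply]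
      change e j + a j * β j = e j + a j * γ j + _
      rw [hγ, Finsupp.add_apply]
      by_cases hj : j = i
      · subst hj
        rw [Finsupp.single_eq_same, Finsupp.single_eq_same]
        ring
      · rw [Finsupp.single_eq_of_ne hj, Finsupp.single_eq_of_ne hj, add_zero, add_zero]
    rw [h3, hγ, coeff_mul_X, X_pow_eq_monomial, coeff_mul_monomial, mul_one, coeff_cls a e he]

/-- `cls` is linear over the subring of polynomials in the `x_i^{a_i}`.  (Both sides are additive in
`h` and `F`: `cls` is additive by `coeff_cls`; for monomials `h = x^m`, `F = y^β` use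
`x^m x^{aβ}`, `(m + a β) % a = m % a`, `(m + a β) / a = m / a + β`; or compare
coefficients with `coeff_cls`.) -/
theorem cls_mul_ex (a e : ι → ℕ) (he : ∀ i, e i < a i) (h F : MvPolynomial ι k) :
    cls a e (h * ex a F) = cls a e h * F := by
  induction F using MvPolynomial.induction_on generalizing h with
  | C c =>
    ext β
    have h1 : ex a (C c : MvPolynomial ι k) = C c := by
      unfold ex
      rw [aeval_C, algebraMap_eq]
    rw [h1, coeff_cls a e he, mul_comm, mul_comm _ (C c), coeff_C_mul, coeff_C_mul,
      coeff_cls a e he]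
  | add p q hp hq =>
    rw [map_add, mul_add, PiA_add he, hp, hq, mul_add]
  | mul_X p i hp =>
    have h1 : ex a (X i : MvPolynomial ι k) = X i ^ a i := by
      unfold ex
      rw [aeval_X]
    rw [map_mul, h1, ← mul_assoc, PiA_X he, hp, mul_assoc]

/-- (Every exponent `m` is `e + a β` with `e = m % a`, `β = m / a` for exactly one `e` in the box;
induction on `h` or comparison of coefficients.) -/
theorem recon [DecidableEq ι] (a : ι → ℕ) (ha : ∀ i, 1 ≤ a i) (h : MvPolynomial ι k) :
    h = ∑ e ∈ Fintype.piFinset (fun i => Finset.range (a i)),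
      (∏ i, X i ^ e i) * ex a (cls a e h) := by
  have hbox : ∀ e ∈ Fintype.piFinset (fun i => Finset.range (a i)), ∀ i, e i < a i :=
    fun e he i => Finset.mem_range.1 (Fintype.mem_piFinset.1 he i)
  induction h using MvPolynomial.induction_on' with
  | monomial m c =>
    obtain ⟨e₀, he₀⟩ : ∃ e₀ : ι → ℕ, e₀ = fun i => m i % a i := ⟨_, rfl⟩
    have hlt : ∀ i, e₀ i < a i := fun i => by
      rw [he₀]
      exact Nat.mod_lt _ (ha i)
    have hmem : e₀ ∈ Fintype.piFinset (fun i => Finset.range (a i)) :=
      Fintype.mem_piFinset.2 fun i => Finset.mem_range.2 (hlt i)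
    rw [Finset.sum_eq_single_of_mem e₀ hmem]
    · obtain ⟨u, hu⟩ : ∃ u : ι →₀ ℕ, u = Finsupp.equivFunOnFinite.symm fun i => m i / a i :=
        ⟨_, rfl⟩
      have hui : ∀ i, u i = m i / a i := fun i => by
        rw [hu]
        rfl
      have hei : ∀ i, e₀ i + a i * u i = m i := fun i => by
        rw [he₀, hui]
        exact Nat.mod_add_div _ _
      have h1 : cls a e₀ (monomial m c) = monomial u c := by
        ext β
        rw [coeff_cls a e₀ hlt, coeff_monomial, coeff_monomial]
        have h2 : m = emb a e₀ β ↔ u = β := by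
          constructor
          · intro h3
            ext i
            rw [hui, h3, PiA_div hlt]
          · intro h3
            ext i
            rw [← h3]
            exact (hei i).symm
        simp only [h2]
      rw [h1]
      unfold ex
      rw [aeval_monomial, algebraMap_eq, Finsupp.prod_fintype _ _ (fun i => pow_zero _),
        monomial_eq, Finsupp.prod_fintype _ _ (fun i => pow_zero _), mul_left_comm,
        ← Finset.prod_mul_distrib]
      congr 1
      refine Finset.prod_congr rfl fun i _ => ?_
      rw [← pow_mul, ← pow_add, hei]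
    · intro e he hne
      have h1 : cls a e (monomial m c) = 0 := by
        ext β
        rw [coeff_cls a e (hbox e he), coeff_monomial, if_neg, coeff_zero]
        intro hcon
        refine hne ?_
        funext i
        rw [he₀, hcon]
        exact (PiA_mod (hbox e he) β i).symm
      rw [h1, map_zero, mul_zero]
  | add p q hp hq =>
    have h1 : ∑ e ∈ Fintype.piFinset (fun i => Finset.range (a i)),
        (∏ i, X i ^ e i) * ex a (cls a e (p + q)) =
        ∑ e ∈ Fintype.piFinset (fun i => Finset.range (a i)),
          ((∏ i, X i ^ e i) * ex a (cls a e p) + (∏ i, X i ^ e i) * ex a (cls a e q)) :=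
      Finset.sum_congr rfl fun e he => by rw [PiA_add (hbox e he), map_add, mul_add]
    rw [h1, Finset.sum_add_distrib, ← hp, ← hq]

/-- (`totalDegree` is the maximum of `|β|` over the support; by `coeff_cls` the exponent
`e + a β` is in the support of `h`, so `W |β| ≤ ∑ w_i a_i β_i ≤ wd w (e + a β) ≤ s`.) -/
theorem deg_cls (a e w : ι → ℕ) (W s : ℕ) (he : ∀ i, e i < a i) (hW : ∀ i, W ≤ a i * w i)
    (h : MvPolynomial ι k) (hs : ∀ m ∈ h.support, wd w m ≤ s) :
    (cls a e h).totalDegree * W ≤ s := by
  rcases Nat.eq_zero_or_pos W with h0 | h0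
  · rw [h0, mul_zero]
    exact Nat.zero_le _
  · have h1 : (cls a e h).totalDegree ≤ s / W := by
      refine Finset.sup_le fun β hβ => (Nat.le_div_iff_mul_le h0).2 ?_
      have h2 : coeff (emb a e β) h ≠ 0 := by
        rw [← coeff_cls a e he]
        exact mem_support_iff.1 hβ
      have h3 := hs _ (mem_support_iff.2 h2)
      refine le_trans ?_ h3
      rw [Finsupp.sum_fintype _ _ (fun _ => rfl), Finset.sum_mul]
      unfold wd
      refine Finset.sum_le_sum fun i _ => ?_
      change β i * W ≤ w i * (e i + a i * β i)
      have h4 := Nat.mul_le_mul_left (β i) (hW i)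
      nlinarith
    exact (Nat.mul_le_mul_right W h1).trans (Nat.div_mul_le_self s W)

end BP
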