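import Pool.Agent.Lib.MP_9e8926_ag_BP.PiA

/-!
# The ideals `(x_i ^ r_i)`
-/

set_option autoImplicit false
set_option linter.unusedVariables false

noncomputable section

namespace BP

open MvPolynomial

variable {ι : Type*} [Fintype ι] {k : Type*} [CommRing k]

/-- (Copy of `DP.mem_J` with exponents `r_i`.  `←`: a polynomial is the sum of its monomials.
`→`: the condition defines an ideal which contains the generators.) -/
theorem mem_Jr (r : ι → ℕ) (u : MvPolynomial ι k) :
    u ∈ Jr k r ↔ ∀ m ∈ u.support, ∃ i, r i ≤ m i := by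
  have h := @mem_ideal_span_monomial_image ι k _ u (Set.range fun i => Finsupp.single i (r i))
  have e : ((fun s => monomial s (1 : k)) '' (Set.range fun i : ι => Finsupp.single i (r i))) =
      Set.range fun i : ι => (X i : MvPolynomial ι k) ^ r i := by
    rw [← Set.range_comp]
    congr 1
    funext i
    simp only [Function.comp_apply]
    rw [X_pow_eq_monomial]
  rw [e] at h
  unfold Jr
  rw [h]
  refine forall₂_congr fun m _ => ?_
  simp [Finsupp.single_le_iff]

theorem Jr_mono {r r' : ι → ℕ} (h : ∀ i, r i ≤ r' i) : Jr k r' ≤ Jr k r := by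
  intro u hu
  rw [mem_Jr] at hu ⊢
  intro m hm
  obtain ⟨i, hi⟩ := hu m hm
  exact ⟨i, (h i).trans hi⟩

theorem J_eq_Jr (q : ℕ) : DP.J ι k q = Jr k (fun _ => q) := rfl

private theorem PiB_mon (δ : ι → ℕ) : (∏ i, (X i : MvPolynomial ι k) ^ δ i) =
    monomial (Finsupp.equivFunOnFinite.symm δ) 1 := by
  rw [monomial_eq, C_1, one_mul, Finsupp.prod_fintype _ _ (fun i => pow_zero _)]
  rfl

/-- The coefficients of a multiple of a monomial (`coeff_monomial_mul`, `∏ X_i^{δ_i}` is
`monomial δ 1`). -/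
theorem coeff_prod_mul (δ : ι → ℕ) (u : MvPolynomial ι k) (m : ι →₀ ℕ) :
    coeff (m + Finsupp.equivFunOnFinite.symm δ) ((∏ i, X i ^ δ i) * u) = coeff m u := by
  rw [PiB_mon, add_comm m, coeff_monomial_mul, one_mul]

/-- (By `mem_Jr`: the exponents of `x^δ u` are `m + δ` with `m` an exponent of `u`.) -/
theorem mul_mem_Jr (r δ : ι → ℕ) (u : MvPolynomial ι k) :
    (∏ i, X i ^ δ i) * u ∈ Jr k (fun i => r i + δ i) ↔ u ∈ Jr k r := by
  constructor
  · intro h
    rw [mem_Jr] at h ⊢
    intro m hm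
    have h1 : m + Finsupp.equivFunOnFinite.symm δ ∈ ((∏ i, X i ^ δ i) * u).support := by
      rw [mem_support_iff, coeff_prod_mul]
      exact mem_support_iff.1 hm
    obtain ⟨i, hi⟩ := h _ h1
    refine ⟨i, ?_⟩
    have h2 : (m + Finsupp.equivFunOnFinite.symm δ) i = m i + δ i := rfl
    simp only [h2] at hi
    omega
  · intro h
    rw [mem_Jr] at h ⊢
    intro m hm
    rw [mem_support_iff, PiB_mon, coeff_monomial_mul'] at hm
    split_ifs at hm with h1
    · rw [one_mul] at hm
      obtain ⟨i, hi⟩ := h _ (mem_support_iff.2 hm)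
      refine ⟨i, ?_⟩
      have h2 : (m - Finsupp.equivFunOnFinite.symm δ) i = m i - δ i := rfl
      have h3 : δ i ≤ m i := h1 i
      rw [h2] at hi
      show r i + δ i ≤ m i
      omega
    · exact absurd rfl hm

/-- The main property of `cls`.  (By `mem_Jr` and `cls_mul_ex`: a coefficient `β` of
`cls a e h * F = cls a e (h * ex a F)` with `β_i < N_i` for all `i` is by `coeff_cls` and
`coeff_prod_mul` the coefficient of `γ + e + a β` in `x^γ (h * ex a F)`, and
`γ_i + e_i + a_i β_i ≤ γ_i + (a_i - 1) + a_i (N_i - 1) < r_i`.) -/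
theorem cls_mem (a e : ι → ℕ) (he : ∀ i, e i < a i) (γ N r : ι → ℕ)
    (hr : ∀ i, a i * N i + γ i ≤ r i) (h F : MvPolynomial ι k)
    (hm : (∏ i, X i ^ γ i) * (h * ex a F) ∈ Jr k r) : cls a e h * F ∈ Jr k N := by
  rw [mem_Jr]
  intro β hβ
  by_contra hc
  push Not at hc
  rw [mem_support_iff, ← cls_mul_ex a e he, coeff_cls a e he] at hβ
  have h1 : emb a e β + Finsupp.equivFunOnFinite.symm γ ∈
      ((∏ i, X i ^ γ i) * (h * ex a F)).support := by
    rw [mem_support_iff, coeff_prod_mul]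
    exact hβ
  obtain ⟨i, hi⟩ := (mem_Jr r _).1 hm _ h1
  have h2 : (emb a e β + Finsupp.equivFunOnFinite.symm γ) i = e i + a i * β i + γ i := rfl
  rw [h2] at hi
  have h3 := he i
  have h4 := hr i
  have h5 : a i * β i + a i ≤ a i * N i := by
    have h6 : a i * (β i + 1) ≤ a i * N i := Nat.mul_le_mul_left _ (hc i)
    rwa [mul_add, mul_one] at h6
  omega

/-- (For a nonzero polynomial whose exponents satisfy `m_i ≤ |m| ≤ D < r_i` there is no exponent with
`r_i ≤ m_i`.) -/
theorem eq_zero_of_mem_Jr (r : ι → ℕ) (D : ℕ) (hD : ∀ i, D < r i) (u : MvPolynomial ι k)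
    (hu : u.totalDegree ≤ D) (h : u ∈ Jr k r) : u = 0 := by
  by_contra hne
  obtain ⟨m, hm⟩ := support_nonempty.2 hne
  obtain ⟨i, hi⟩ := (mem_Jr r u).1 h m hm
  have h1 := le_totalDegree hm
  have h2 : m i ≤ m.sum fun _ e => e := by
    rw [Finsupp.sum_fintype _ _ (fun _ => rfl)]
    exact Finset.single_le_sum (f := fun j => m j) (fun j _ => Nat.zero_le _)
      (Finset.mem_univ i)
  have h3 := hD i
  omega

end BP
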