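import Pool.Agent.Lib.MP_9e8926_ag_BP.Defs
import Pool.Agent.Lib.MP_9e8926_ag_DP.Frb

/-!
# Auxiliary notions
-/

set_option autoImplicit false

noncomputable section

namespace BP

open MvPolynomial

variable {ι : Type*}

/-- The weight of a monomial. -/
def wd [Fintype ι] (w : ι → ℕ) (m : ι →₀ ℕ) : ℕ := ∑ i, w i * m i

/-- The polynomials all of whose monomials have weight `s`. -/
def PP (k : Type*) [CommRing k] [Fintype ι] (w : ι → ℕ) (s : ℕ) :
    Submodule k (MvPolynomial ι k) where
  carrier := {u | ∀ m ∈ u.support, wd w m = s}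
  zero_mem' := by simp
  add_mem' := by
    classical
    intro a b ha hb m hm
    rcases Finset.mem_union.1 (support_add hm) with h | h
    · exact ha m h
    · exact hb m h
  smul_mem' := by
    intro c u hu m hm
    exact hu m (support_smul hm)

/-- The part of weight `s` of a polynomial. -/
def comp {k : Type*} [CommRing k] (w : ι → ℕ) (s : ℕ) :
    MvPolynomial ι k →ₗ[k] MvPolynomial ι k :=
  weightedHomogeneousComponent w s

/-- The polynomials all of whose monomials have weight at least `s`. -/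
def Ge {k : Type*} [CommRing k] [Fintype ι] (w : ι → ℕ) (s : ℕ) (h : MvPolynomial ι k) : Prop :=
  ∀ m ∈ h.support, s ≤ wd w m

/-- The leading forms of weight `s` of the elements of an ideal. -/
def inn {k : Type*} [CommRing k] [Fintype ι] (w : ι → ℕ) (I : Ideal (MvPolynomial ι k)) (s : ℕ) :
    Submodule k (MvPolynomial ι k) where
  carrier := {u | ∃ h ∈ I, Ge w s h ∧ comp w s h = u}
  zero_mem' := ⟨0, I.zero_mem, by simp [Ge], map_zero _⟩
  add_mem' := by
    classical
    rintro a b ⟨h, h1, h2, rfl⟩ ⟨g, g1, g2, rfl⟩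
    refine ⟨h + g, I.add_mem h1 g1, ?_, map_add _ _ _⟩
    intro m hm
    rcases Finset.mem_union.1 (support_add hm) with h | h
    · exact h2 m h
    · exact g2 m h
  smul_mem' := by
    rintro c u ⟨h, h1, h2, rfl⟩
    refine ⟨c • h, ?_, ?_, map_smul _ _ _⟩
    · rw [MvPolynomial.smul_eq_C_mul]
      exact I.mul_mem_left _ h1
    · intro m hm
      exact h2 m (support_smul hm)

/-- The diagonal form `∑ c_i x_i ^ a_i`. -/
def f0 {k : Type*} [CommRing k] [Fintype ι] (c : ι → k) (a : ι → ℕ) : MvPolynomial ι k :=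
  ∑ i, C (c i) * X i ^ a i

/-- The multiples of `F` of weight `s`. -/
def F0 {k : Type*} [CommRing k] [Fintype ι] (w : ι → ℕ) (F : MvPolynomial ι k) (s : ℕ) :
    Submodule k (MvPolynomial ι k) := PP k w s ⊓ (Ideal.span {F}).restrictScalars k

/-- The polynomials all of whose monomials have weight at least `N`. -/
def Wt (k : Type*) [CommRing k] [Fintype ι] (w : ι → ℕ) (N : ℕ) : Ideal (MvPolynomial ι k) where
  carrier := {u | ∀ m ∈ u.support, N ≤ wd w m}
  zero_mem' := by simp
  add_mem' := by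
    classical
    intro a b ha hb m hm
    rcases Finset.mem_union.1 (support_add hm) with h | h
    · exact ha m h
    · exact hb m h
  smul_mem' := by
    classical
    intro c u hu m hm
    rw [smul_eq_mul] at hm
    obtain ⟨m1, -, m2, h2, rfl⟩ := Finset.mem_add.1 (support_mul c u hm)
    refine (hu m2 h2).trans ?_
    refine Finset.sum_le_sum fun i _ => ?_
    exact Nat.mul_le_mul_left _ (by simp)

/-- The ideal of the elements of weight at least `N` in the coordinate ring of `f = 0`. -/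
def ak {k : Type*} [CommRing k] [Fintype ι] (f : MvPolynomial ι k) (w : ι → ℕ) (N : ℕ) :
    Ideal (Rg f) := (Wt k w N).map (Ideal.Quotient.mk (Ideal.span {f}))

/-- The ideal `(x_i ^ r_i)`. -/
def Jr (k : Type*) [CommRing k] (r : ι → ℕ) : Ideal (MvPolynomial ι k) :=
  Ideal.span (Set.range fun i => X i ^ r i)

/-- The number of monomials `x^m` of weight `s` with `m_0 < a0`. -/
def NN {n : ℕ} (w : Fin (n + 1) → ℕ) (a0 : ℕ) (s : ℕ) : ℕ :=
  Set.ncard {m : Fin (n + 1) → ℕ | m 0 < a0 ∧ ∑ i, w i * m i = s}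

/-- The number of monomials `x^m` of weight less than `X` with `m_0 < a0`. -/
def SN {n : ℕ} (w : Fin (n + 1) → ℕ) (a0 : ℕ) (X : ℕ) : ℕ := ∑ s ∈ Finset.range X, NN w a0 s

/-- The weight of the socle. -/
def sig [Fintype ι] (w : ι → ℕ) (W : ℕ) (b : ι → ℚ) (q : ℕ) : ℤ :=
  ∑ i, (w i : ℤ) * ((q : ℤ) - 1 - (⌈(b i : ℝ) * ((q : ℝ) - 1)⌉₊ : ℕ)) - (W : ℤ) * ((q : ℤ) - 1)

/-- The number `∑ (1 - b_i) / a_i - 1`. -/
def rho [Fintype ι] (a : ι → ℕ) (b : ι → ℚ) : ℝ := ∑ i, (1 - (b i : ℝ)) / (a i : ℝ) - 1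

end BP
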