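import Pool.Agent.Lib.MP_9e8926_ag_BP.Pre

/-!
# The index set of the valuation

The variables are `x_0, …, x_(m+2)`.  An index is `((i, j), β)` with `i < α = a_0 / g`,
`g = gcd (a_0, a_1)`, `j < a_(m+2)`, `β : Fin (m + 2) → ℕ`; it stands for the monomial
`x_0^i x_(m+2)^j x_1^(β_0) x_2^(β_1) ⋯ x_(m+1)^(β_m) z^(β_(m+1))`, where `z = x_0^α - ζ x_1^(a_1 / g)` has
weight `W / g`.
-/

set_option autoImplicit false
set_option linter.unusedVariables false

noncomputable section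

namespace BP

/-- The weights of the free generators. -/
def wG {m : ℕ} (w : Fin (m + 3) → ℕ) (Wg : ℕ) (v : Fin (m + 2)) : ℕ :=
  if v = Fin.last (m + 1) then Wg else w v.succ

/-- The weight of an index. -/
def dG {m A B : ℕ} (w : Fin (m + 3) → ℕ) (Wg : ℕ) (x : (Fin A × Fin B) × (Fin (m + 2) → ℕ)) : ℕ :=
  w 0 * x.1.1 + w (Fin.last (m + 2)) * x.1.2 + ∑ v, wG w Wg v * x.2 v

/-- The leading exponent of an index (`aL = a_(m+2)`). -/
def eG {m A B : ℕ} (aL : ℕ) (x : (Fin A × Fin B) × (Fin (m + 2) → ℕ)) : Fin (m + 1) →₀ ℕ :=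
  Finsupp.equivFunOnFinite.symm fun l =>
    if l = Fin.last m then x.1.2 + aL * x.2 (Fin.last (m + 1)) else x.2 l.succ

private theorem PreG_nat {g A B a0 a1 w0 w1 i i' b b' : ℕ} (hg : 0 < g) (hw1 : 0 < w1)
    (hcop : Nat.Coprime A B) (hA : g * A = a0) (hB : g * B = a1) (haw : a0 * w0 = a1 * w1)
    (hx : i < A) (hy : i' < A) (h3 : w0 * i + w1 * b = w0 * i' + w1 * b') : i = i' ∧ b = b' := by
  have hAB : A * w0 = B * w1 := by
    have h4 : g * (A * w0) = g * (B * w1) := by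
      rw [← mul_assoc, ← mul_assoc, hA, hB, haw]
    exact Nat.eq_of_mul_eq_mul_left hg h4
  have h5 : B * i + A * b = B * i' + A * b' := by
    refine Nat.eq_of_mul_eq_mul_left hw1 ?_
    have h6 : A * (w0 * i + w1 * b) = A * (w0 * i' + w1 * b') := by rw [h3]
    calc w1 * (B * i + A * b) = (B * w1) * i + A * w1 * b := by ring
      _ = (A * w0) * i + A * w1 * b := by rw [hAB]
      _ = A * (w0 * i + w1 * b) := by ring
      _ = A * (w0 * i' + w1 * b') := h6
      _ = (A * w0) * i' + A * w1 * b' := by ring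
      _ = (B * w1) * i' + A * w1 * b' := by rw [hAB]
      _ = w1 * (B * i' + A * b') := by ring
  have h6 : i = i' := by
    have h7 : B * i ≡ B * i' [MOD A] := by
      have h8 := congrArg (· % A) h5
      simp only [Nat.add_mul_mod_self_left] at h8
      exact h8
    have h9 := Nat.ModEq.cancel_left_of_coprime hcop h7
    have h10 : i % A = i' % A := h9
    rwa [Nat.mod_eq_of_lt hx, Nat.mod_eq_of_lt hy] at h10
  refine ⟨h6, ?_⟩
  rw [h6] at h3
  exact Nat.eq_of_mul_eq_mul_left hw1 (Nat.add_left_cancel h3)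

/-- Weight and leading exponent determine the index.  (From `eG`: `β_(l+1)` for `l < m`, and
`j + aL β_(m+1)` with `j < aL` gives `j` and `β_(m+1)`.  Then `w_0 i + w_1 β_0` is determined;
`w_0 = u (a_1 / g)`, `w_1 = u (a_0 / g)` with `u > 0` (`w_0 a_0 = w_1 a_1`), `a_0 / g` and `a_1 / g`
coprime, so `i` is determined modulo `a_0 / g`, hence `i` and `β_0`.) -/
theorem eG_inj {m : ℕ} (a w : Fin (m + 3) → ℕ) (W : ℕ) (hW : 0 < W) (haw : ∀ i, a i * w i = W)
    (x y : (Fin (a 0 / Nat.gcd (a 0) (a 1)) × Fin (a (Fin.last (m + 2)))) × (Fin (m + 2) → ℕ))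
    (h1 : dG w (W / Nat.gcd (a 0) (a 1)) x = dG w (W / Nat.gcd (a 0) (a 1)) y)
    (h2 : eG (a (Fin.last (m + 2))) x = eG (a (Fin.last (m + 2))) y) : x = y := by
  have hlast : ∀ v : Fin (m + 1), v = Fin.last m → v.succ = Fin.last (m + 1) := by
    intro v hv
    rw [hv, Fin.succ_last]
  have e2 : ∀ l : Fin (m + 1), eG (a (Fin.last (m + 2))) x l = eG (a (Fin.last (m + 2))) y l := by
    intro l
    rw [h2]
  have eG_apply : ∀ (z : (Fin (a 0 / Nat.gcd (a 0) (a 1)) × Fin (a (Fin.last (m + 2)))) ×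
      (Fin (m + 2) → ℕ)) (l : Fin (m + 1)), eG (a (Fin.last (m + 2))) z l =
      if l = Fin.last m then (z.1.2 : ℕ) + a (Fin.last (m + 2)) * z.2 (Fin.last (m + 1))
      else z.2 l.succ := by
    intro z l
    rfl
  -- the last components
  have e3 := e2 (Fin.last m)
  rw [eG_apply, eG_apply, if_pos rfl, if_pos rfl] at e3
  have hj : (x.1.2 : ℕ) = y.1.2 := by
    have h3 := congrArg (· % a (Fin.last (m + 2))) e3
    simp only [Nat.add_mul_mod_self_left] at h3
    rwa [Nat.mod_eq_of_lt x.1.2.2, Nat.mod_eq_of_lt y.1.2.2] at h3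
  have haL : 0 < a (Fin.last (m + 2)) := lt_of_le_of_lt (Nat.zero_le _) x.1.2.2
  have hb : x.2 (Fin.last (m + 1)) = y.2 (Fin.last (m + 1)) := by
    rw [hj] at e3
    exact Nat.eq_of_mul_eq_mul_left haL (Nat.add_left_cancel e3)
  have hβ : ∀ v : Fin (m + 1), x.2 v.succ = y.2 v.succ := by
    intro v
    by_cases hv : v = Fin.last m
    · rw [hlast v hv]
      exact hb
    · have h3 := e2 v
      rwa [eG_apply, eG_apply, if_neg hv, if_neg hv] at h3
  -- the weights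
  have h0 : wG w (W / Nat.gcd (a 0) (a 1)) 0 = w 1 := by
    unfold wG
    rw [if_neg]
    · rfl
    · intro h
      have h3 := congrArg Fin.val h
      simp at h3
  have h3 : w 0 * (x.1.1 : ℕ) + w 1 * x.2 0 = w 0 * (y.1.1 : ℕ) + w 1 * y.2 0 := by
    unfold dG at h1
    rw [Fin.sum_univ_succ (fun v => wG w (W / Nat.gcd (a 0) (a 1)) v * x.2 v),
      Fin.sum_univ_succ (fun v => wG w (W / Nat.gcd (a 0) (a 1)) v * y.2 v), h0, hj] at h1
    have h4 : ∑ i : Fin (m + 1), wG w (W / Nat.gcd (a 0) (a 1)) i.succ * x.2 i.succ =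
        ∑ i : Fin (m + 1), wG w (W / Nat.gcd (a 0) (a 1)) i.succ * y.2 i.succ :=
      Finset.sum_congr rfl fun i _ => by rw [hβ i]
    rw [h4] at h1
    omega
  have ha0 : 0 < a 0 := Nat.pos_of_ne_zero fun h => by
    have h4 := haw 0
    rw [h, zero_mul] at h4
    omega
  have hw1 : 0 < w 1 := Nat.pos_of_ne_zero fun h => by
    have h4 := haw 1
    rw [h, mul_zero] at h4
    omega
  have hg : 0 < Nat.gcd (a 0) (a 1) := Nat.gcd_pos_of_pos_left _ ha0
  have hcop : Nat.Coprime (a 0 / Nat.gcd (a 0) (a 1)) (a 1 / Nat.gcd (a 0) (a 1)) :=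
    Nat.coprime_div_gcd_div_gcd hg
  have hA : Nat.gcd (a 0) (a 1) * (a 0 / Nat.gcd (a 0) (a 1)) = a 0 :=
    Nat.mul_div_cancel' (Nat.gcd_dvd_left _ _)
  have hB : Nat.gcd (a 0) (a 1) * (a 1 / Nat.gcd (a 0) (a 1)) = a 1 :=
    Nat.mul_div_cancel' (Nat.gcd_dvd_right _ _)
  obtain ⟨h6, h7⟩ := PreG_nat hg hw1 hcop hA hB (by rw [haw 0, haw 1]) x.1.1.2 y.1.1.2 h3
  refine Prod.ext (Prod.ext (Fin.ext h6) (Fin.ext hj)) ?_
  funext v
  refine Fin.cases h7 hβ v

theorem finite_G {m A B : ℕ} (w : Fin (m + 3) → ℕ) (hw : ∀ i, 0 < w i) (Wg : ℕ) (hWg : 0 < Wg)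
    (s : ℕ) : Set.Finite {x : (Fin A × Fin B) × (Fin (m + 2) → ℕ) | dG w Wg x ≤ s} := by
  have hwG : ∀ v : Fin (m + 2), 0 < wG w Wg v := by
    intro v
    unfold wG
    split_ifs
    · exact hWg
    · exact hw _
  refine Set.Finite.subset (Set.finite_univ.prod
    (Set.Finite.pi' (t := fun _ : Fin (m + 2) => Set.Iic s) fun _ => Set.finite_Iic s)) ?_
  intro x hx
  refine ⟨Set.mem_univ _, ?_⟩
  intro v
  have h1 : dG w Wg x ≤ s := hx
  unfold dG at h1
  have h2 : wG w Wg v * x.2 v ≤ ∑ v, wG w Wg v * x.2 v :=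
    Finset.single_le_sum (f := fun v => wG w Wg v * x.2 v) (fun _ _ => Nat.zero_le _)
      (Finset.mem_univ v)
  have h3 : x.2 v ≤ wG w Wg v * x.2 v := Nat.le_mul_of_pos_left _ (hwG v)
  exact Set.mem_Iic.2 (by omega)

end BP
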