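import Mathlib

/-!
# Roots of power series, leading exponents
-/

set_option autoImplicit false
set_option linter.unusedVariables false

noncomputable section

namespace BP

open MvPowerSeries

variable {K : Type*} [Field K] {σ : Type*} [Finite σ]

private def VV (k : ℕ) (f : MvPowerSeries σ K) : Prop :=
  ∀ m : σ →₀ ℕ, Finsupp.degree m < k → coeff m f = 0

private theorem VV_iff (k : ℕ) (f : MvPowerSeries σ K) : VV k f ↔ (k : ℕ∞) ≤ f.order := by
  constructor
  · intro h
    exact MvPowerSeries.nat_le_order h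
  · intro h m hm
    refine MvPowerSeries.coeff_of_lt_order (lt_of_lt_of_le ?_ h)
    exact_mod_cast hm

private theorem VV_add {k : ℕ} {f g : MvPowerSeries σ K} (hf : VV k f) (hg : VV k g) :
    VV k (f + g) := by
  intro m hm
  rw [map_add, hf m hm, hg m hm, add_zero]

private theorem VV_sub {k : ℕ} {f g : MvPowerSeries σ K} (hf : VV k f) (hg : VV k g) :
    VV k (f - g) := by
  intro m hm
  rw [map_sub, hf m hm, hg m hm, sub_zero]

private theorem VV_mul {k l : ℕ} {f g : MvPowerSeries σ K} (hf : VV k f) (hg : VV l g) :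
    VV (k + l) (f * g) := by
  rw [VV_iff] at hf hg ⊢
  push_cast
  exact (add_le_add hf hg).trans MvPowerSeries.le_order_mul

private theorem VV_mono {k l : ℕ} (h : l ≤ k) {f : MvPowerSeries σ K} (hf : VV k f) : VV l f :=
  fun m hm => hf m (lt_of_lt_of_le hm h)

private theorem VV_mul_left {k : ℕ} {f : MvPowerSeries σ K} (g : MvPowerSeries σ K)
    (hf : VV k f) : VV k (g * f) := by
  have : VV 0 g := fun m hm => absurd hm (Nat.not_lt_zero _)
  simpa using VV_mul this hf

private theorem VV_pow_sub {k : ℕ} {f g : MvPowerSeries σ K} (h : VV k (f - g)) (N : ℕ) :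
    VV k (f ^ N - g ^ N) := by
  obtain ⟨c, hc⟩ := sub_dvd_pow_sub_pow f g N
  rw [hc, mul_comm]
  exact VV_mul_left _ h

private theorem step (N : ℕ) (hN : (N : K) ≠ 0) (E : MvPowerSeries σ K)
    (k : ℕ) (B : MvPowerSeries σ K) (hB : VV 1 (B - 1)) (h : VV (k + 1) (1 + E - B ^ N)) :
    ∃ B' : MvPowerSeries σ K, VV (k + 1) (B' - B) ∧ VV 1 (B' - 1) ∧ VV (k + 2) (1 + E - B' ^ N) := by
  set c : MvPowerSeries σ K := C ((N : K)⁻¹) * (1 + E - B ^ N) with hc
  have hc1 : VV (k + 1) c := VV_mul_left _ h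
  have hNc : (N : MvPowerSeries σ K) * c = 1 + E - B ^ N := by
    rw [hc, ← mul_assoc]
    have : (N : MvPowerSeries σ K) * C ((N : K)⁻¹) = 1 := by
      have h1 : (N : MvPowerSeries σ K) = C (N : K) := by simp
      rw [h1, ← map_mul, mul_inv_cancel₀ hN, map_one]
    rw [this, one_mul]
  refine ⟨B + c, ?_, ?_, ?_⟩
  · simpa using hc1
  · have : B + c - 1 = (B - 1) + c := by ring
    rw [this]
    exact VV_add hB (VV_mono (by omega) hc1)
  · -- (B + c)^N = B^N + N B^(N-1) c + c^2 * q
    obtain ⟨q, hq⟩ := Polynomial.powAddExpansion B c N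
    have h1 : 1 + E - (B + c) ^ N = -((B ^ (N - 1) - 1 ^ (N - 1)) * ((N : MvPowerSeries σ K) * c))
        - q * c ^ 2 := by
      rw [hq]
      have : (1 : MvPowerSeries σ K) + E = B ^ N + (N : MvPowerSeries σ K) * c := by
        rw [hNc]; ring
      rw [this]; ring
    rw [h1]
    have h2 : VV (1 + (k + 1)) ((B ^ (N - 1) - 1 ^ (N - 1)) * ((N : MvPowerSeries σ K) * c)) :=
      VV_mul (VV_pow_sub (by simpa using hB) _) (VV_mul_left _ hc1)
    have h3 : VV (k + 2) (-((B ^ (N - 1) - 1 ^ (N - 1)) * ((N : MvPowerSeries σ K) * c))) := by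
      have : VV (k + 2) ((-1) * ((B ^ (N - 1) - 1 ^ (N - 1)) * ((N : MvPowerSeries σ K) * c))) :=
        VV_mul_left _ (VV_mono (by omega) h2)
      simpa using this
    refine VV_sub h3 (VV_mul_left _ ?_)
    rw [pow_two]
    exact VV_mono (by omega) (VV_mul hc1 hc1)

/-- Hensel's lemma for the roots of a power series with constant term `1`. -/
theorem exists_root (N : ℕ) (hN : (N : K) ≠ 0) (E : MvPowerSeries σ K)
    (hE : constantCoeff E = 0) : ∃ B : MvPowerSeries σ K, B ^ N = 1 + E ∧ constantCoeff B = 1 := by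
  classical
  have hE1 : VV 1 E := by
    intro m hm
    have : m = 0 := by
      have : Finsupp.degree m = 0 := by omega
      exact (Finsupp.degree_eq_zero_iff m).1 this
    rw [this]
    simpa using hE
  let P : ℕ → Type _ := fun k => {B : MvPowerSeries σ K // VV 1 (B - 1) ∧ VV (k + 1) (1 + E - B ^ N)}
  let nx : ∀ k, P k → P (k + 1) := fun k B =>
    ⟨(step N hN E k B.1 B.2.1 B.2.2).choose,
      (step N hN E k B.1 B.2.1 B.2.2).choose_spec.2.1,
      (step N hN E k B.1 B.2.1 B.2.2).choose_spec.2.2⟩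
  have hnx : ∀ k (B : P k), VV (k + 1) ((nx k B).1 - B.1) := fun k B =>
    (step N hN E k B.1 B.2.1 B.2.2).choose_spec.1
  let B0 : P 0 := ⟨1, by
      constructor
      · intro m hm; simp
      · simpa using hE1⟩
  let Bs : ∀ k, P k := fun k => Nat.rec B0 (fun k B => nx k B) k
  have hBs : ∀ k, VV (k + 1) ((Bs (k + 1)).1 - (Bs k).1) := fun k => hnx k (Bs k)
  have hst : ∀ k l, k ≤ l → VV (k + 1) ((Bs l).1 - (Bs k).1) := by
    intro k l hkl
    induction l, hkl using Nat.le_induction with
    | base => intro m hm; simp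
    | succ l hl ih =>
      have : (Bs (l + 1)).1 - (Bs k).1 = ((Bs (l + 1)).1 - (Bs l).1) + ((Bs l).1 - (Bs k).1) := by
        ring
      rw [this]
      exact VV_add (VV_mono (by omega) (hBs l)) ih
  let B : MvPowerSeries σ K := fun m => coeff m (Bs (Finsupp.degree m)).1
  have hB : ∀ k, VV (k + 1) (B - (Bs k).1) := by
    intro k m hm
    have h1 : coeff m B = coeff m (Bs (Finsupp.degree m)).1 := rfl
    rw [map_sub, h1]
    have := hst (Finsupp.degree m) k (by omega) m (by omega)
    rw [map_sub] at this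
    rw [← neg_sub, this, neg_zero]
  refine ⟨B, ?_, ?_⟩
  · ext m
    have h1 : VV (Finsupp.degree m + 1) (B ^ N - (1 + E)) := by
      have : B ^ N - (1 + E) = (B ^ N - (Bs (Finsupp.degree m)).1 ^ N)
          - (1 + E - (Bs (Finsupp.degree m)).1 ^ N) := by ring
      rw [this]
      exact VV_sub (VV_pow_sub (hB _) N) (Bs (Finsupp.degree m)).2.2
    have := h1 m (by omega)
    rw [map_sub, sub_eq_zero] at this
    exact this
  · have h1 : VV 1 (B - 1) := by
      have : B - 1 = (B - (Bs 0).1) + ((Bs 0).1 - 1) := by ring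
      rw [this]
      exact VV_add (hB 0) (Bs 0).2.1
    have := h1 0 (by simp)
    rw [map_sub, sub_eq_zero] at this
    rw [← coeff_zero_eq_constantCoeff_apply, this]
    simp

end BP
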