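import Pool.Agent.Lib.MP_9e8926_ag_BP.SubL

/-!
# The lowering operator
-/

set_option autoImplicit false
set_option linter.unusedVariables false

noncomputable section

namespace BP

open MvPolynomial

variable {K : Type*} [Field K] {n : ℕ}

/-- The lowering operator `∑ d_i⁻¹ ((κ_i - 1) ∂_i - x_i ∂_i²)`. -/
def low (κ : Fin n → ℕ) (d : Fin n → K) (h : MvPolynomial (Fin n) K) : MvPolynomial (Fin n) K :=
  ∑ i, C (d i)⁻¹ * (C ((κ i : K) - 1) * pderiv i h - X i * pderiv i (pderiv i h))

theorem low_add (κ : Fin n → ℕ) (d : Fin n → K) (h h' : MvPolynomial (Fin n) K) :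
    low κ d (h + h') = low κ d h + low κ d h' := by
  simp only [low]
  rw [← Finset.sum_add_distrib]
  refine Finset.sum_congr rfl fun i _ => ?_
  simp only [map_add]
  ring

private theorem low_zero (κ : Fin n → ℕ) (d : Fin n → K) :
    low κ d (0 : MvPolynomial (Fin n) K) = 0 := by
  simp [low]

private theorem low_sum (κ : Fin n → ℕ) (d : Fin n → K) {α : Type*} (s : Finset α)
    (g : α → MvPolynomial (Fin n) K) : low κ d (∑ a ∈ s, g a) = ∑ a ∈ s, low κ d (g a) := by
  classical
  induction s using Finset.induction_on with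
  | empty => simp [low_zero]
  | insert a s ha ih => rw [Finset.sum_insert ha, Finset.sum_insert ha, low_add, ih]

private theorem pd_ne (i l : Fin n) (hil : i ≠ l) (N : ℕ) (u : MvPolynomial (Fin n) K) :
    pderiv i (X l ^ N * u) = X l ^ N * pderiv i u := by
  have h1 : pderiv i (X l ^ N : MvPolynomial (Fin n) K) = 0 := by
    rw [pderiv_pow, pderiv_X_of_ne (Ne.symm hil), mul_zero]
  rw [pderiv_mul, h1, zero_mul, zero_add]

private theorem pd_eq (l : Fin n) (N : ℕ) (u : MvPolynomial (Fin n) K) :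
    pderiv l (X l ^ (N + 1) * u) = ((N : MvPolynomial (Fin n) K) + 1) * X l ^ N * u +
      X l ^ (N + 1) * pderiv l u := by
  rw [pderiv_mul, pderiv_pow, pderiv_X_self, mul_one]
  push_cast
  rfl

private theorem X_pd (l : Fin n) (N : ℕ) :
    X l * pderiv l (X l ^ N : MvPolynomial (Fin n) K) = (N : MvPolynomial (Fin n) K) * X l ^ N := by
  rw [pderiv_pow, pderiv_X_self, mul_one]
  rcases N with _ | N
  · simp
  · rw [Nat.add_sub_cancel]; ring

private theorem gen_mem (κ : Fin n → ℕ) (l : Fin n) (u : MvPolynomial (Fin n) K) :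
    X l ^ κ l * u ∈ Jr K κ :=
  Ideal.mul_mem_right _ _ (Ideal.subset_span ⟨l, rfl⟩)

private theorem low_gen (κ : Fin n → ℕ) (d : Fin n → K) (l : Fin n)
    (u : MvPolynomial (Fin n) K) : low κ d (X l ^ κ l * u) ∈ Jr K κ := by
  rw [low]
  refine Ideal.sum_mem _ fun i _ => ?_
  by_cases hil : i = l
  · subst hil
    refine Ideal.mul_mem_left _ _ ?_
    rcases hk : κ i with _ | N
    · have h1 := gen_mem κ i (C (((κ i : ℕ) : K) - 1) * pderiv i (X i ^ κ i * u) -
        X i * pderiv i (pderiv i (X i ^ κ i * u)))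
      rw [hk, pow_zero, one_mul] at h1
      exact h1
    · have key : C (((N + 1 : ℕ) : K) - 1) * pderiv i (X i ^ (N + 1) * u) -
          X i * pderiv i (pderiv i (X i ^ (N + 1) * u)) = X i ^ (N + 1) *
          ((N : MvPolynomial (Fin n) K) * pderiv i u - 2 * ((N : MvPolynomial (Fin n) K) + 1) *
            pderiv i u - X i * pderiv i (pderiv i u)) := by
        have e0 : pderiv i (((N : MvPolynomial (Fin n) K) + 1) * X i ^ N * u) =
            ((N : MvPolynomial (Fin n) K) + 1) *
              (pderiv i (X i ^ N) * u + X i ^ N * pderiv i u) := by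
          rw [mul_assoc, pderiv_mul, pderiv_mul]
          have : pderiv i ((N : MvPolynomial (Fin n) K) + 1) = 0 := by
            have : ((N : MvPolynomial (Fin n) K) + 1) = C ((N : K) + 1) := by
              rw [C_add, C_1, map_natCast]
            rw [this, pderiv_C]
          rw [this]; ring
        rw [pd_eq, map_add, e0, pd_eq]
        have e1 : C (((N + 1 : ℕ) : K) - 1) = (N : MvPolynomial (Fin n) K) := by
          push_cast
          rw [add_sub_cancel_right, map_natCast]
        rw [e1]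
        linear_combination (-((N : MvPolynomial (Fin n) K) + 1) * u) * X_pd (K := K) i N
      rw [key]
      have := gen_mem κ i ((N : MvPolynomial (Fin n) K) * pderiv i u -
        2 * ((N : MvPolynomial (Fin n) K) + 1) * pderiv i u - X i * pderiv i (pderiv i u))
      rwa [hk] at this
  · rw [pd_ne i l hil, pd_ne i l hil]
    have : C (d i)⁻¹ * (C ((κ i : K) - 1) * (X l ^ κ l * pderiv i u) -
        X i * (X l ^ κ l * pderiv i (pderiv i u))) = X l ^ κ l *
        (C (d i)⁻¹ * (C ((κ i : K) - 1) * pderiv i u - X i * pderiv i (pderiv i u))) := by ring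
    rw [this]
    exact gen_mem κ l _

private theorem pd_lin (d : Fin n → K) (i : Fin n) : pderiv i (lin d) = C (d i) := by
  classical
  rw [lin, map_sum, Finset.sum_eq_single i]
  · rw [pderiv_C_mul, pderiv_X_self, mul_one]
  · intro j _ hj
    rw [pderiv_C_mul, pderiv_X_of_ne hj, mul_zero]
  · simp

private theorem lin_homog (d : Fin n → K) : (lin d).IsHomogeneous 1 := by
  rw [lin]
  refine IsHomogeneous.sum _ _ _ fun i _ => ?_
  have := (isHomogeneous_C (Fin n) (d i)).mul (isHomogeneous_X K i)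
  simpa using this

private theorem pd0 (i : Fin n) (h : MvPolynomial (Fin n) K) (hh : h.IsHomogeneous 0) :
    pderiv i h = 0 := by
  rw [← totalDegree_zero_iff_isHomogeneous, totalDegree_eq_zero_iff_eq_C] at hh
  rw [hh, pderiv_C]

/-- (On a monomial `x^m`: `low (x^m) = ∑ d_i⁻¹ m_i (κ_i - m_i) x^(m - e_i)`.  If `m_l ≥ κ_l`: the terms
`i ≠ l` keep `m_l`, the term `i = l` is zero for `m_l = κ_l` and has exponent
`m_l - 1 ≥ κ_l` otherwise.  Or: a generator `x_l^κ_l`: for `h = x_l^κ_l u` expand the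
derivatives: the terms not divisible by `x_l^κ_l` are
`(κ_l - 1) κ_l x_l^(κ_l - 1) u - x_l (κ_l (κ_l - 1) x_l^(κ_l - 2) u + 2 κ_l x_l^(κ_l - 1) ∂_l u)`, i.e. in
`(x_l^κ_l)`.) -/
theorem low_mem (κ : Fin n → ℕ) (d : Fin n → K) (h : MvPolynomial (Fin n) K) (hh : h ∈ Jr K κ) :
    low κ d h ∈ Jr K κ := by
  rw [Jr, Ideal.mem_span_range_iff_exists_fun] at hh
  obtain ⟨c, rfl⟩ := hh
  rw [low_sum]
  refine Ideal.sum_mem _ fun l _ => ?_
  rw [mul_comm]
  exact low_gen κ d l (c l)

/-- Commutation with the linear form.  (`∂_i (L h) = d_i h + L ∂_i h`,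
`∂_i² (L h) = 2 d_i ∂_i h + L ∂_i² h`, so `low (L h) = L low h + ∑ (κ_i - 1) h - 2 ∑ x_i ∂_i h`, and
Euler's formula `∑ x_i ∂_i h = j h` (`IsHomogeneous.sum_X_mul_pderiv`, or on monomials).) -/
theorem low_lin (κ : Fin n → ℕ) (d : Fin n → K) (hd : ∀ i, d i ≠ 0) (j : ℕ)
    (h : MvPolynomial (Fin n) K) (hh : h.IsHomogeneous j) :
    low κ d (lin d * h) = lin d * low κ d h + C ((∑ i, ((κ i : K) - 1)) - 2 * j) * h := by
  have hE := hh.sum_X_mul_pderiv
  have h1 : ∀ i : Fin n, C (d i)⁻¹ * (C ((κ i : K) - 1) * pderiv i (lin d * h) -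
      X i * pderiv i (pderiv i (lin d * h))) = lin d * (C (d i)⁻¹ *
      (C ((κ i : K) - 1) * pderiv i h - X i * pderiv i (pderiv i h))) +
      (C ((κ i : K) - 1) * h - 2 * (X i * pderiv i h)) := by
    intro i
    have e : (C (d i)⁻¹ * C (d i) : MvPolynomial (Fin n) K) = 1 := by
      rw [← C_mul, inv_mul_cancel₀ (hd i), C_1]
    rw [pderiv_mul, pd_lin, map_add, pderiv_mul, pderiv_mul, pderiv_C, pd_lin]
    linear_combination (C ((κ i : K) - 1) * h - 2 * (X i * pderiv i h)) * e
  simp only [low]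
  rw [Finset.sum_congr rfl fun i _ => h1 i, Finset.sum_add_distrib, ← Finset.mul_sum,
    Finset.sum_sub_distrib, ← Finset.mul_sum, hE, ← Finset.sum_mul, ← map_sum]
  rw [C_sub, C_mul, nsmul_eq_mul, map_natCast, map_ofNat]
  ring

/-- (`pderiv` lowers the degree by one; for `j = 0` the polynomial `h` is constant.) -/
theorem low_hom (κ : Fin n → ℕ) (d : Fin n → K) (j : ℕ) (h : MvPolynomial (Fin n) K)
    (hh : h.IsHomogeneous j) : (low κ d h).IsHomogeneous (j - 1) ∧ (j = 0 → low κ d h = 0) := by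
  rcases j with _ | _ | j
  · have h0 : low κ d h = 0 := by
      rw [low]
      refine Finset.sum_eq_zero fun i _ => ?_
      rw [pd0 i h hh, map_zero, mul_zero, mul_zero, sub_zero, mul_zero]
    rw [h0]
    exact ⟨isHomogeneous_zero _ _ _, fun _ => rfl⟩
  · refine ⟨?_, fun h => absurd h (by omega)⟩
    rw [low]
    refine IsHomogeneous.sum _ _ _ fun i _ => ?_
    have h1 : (pderiv i h).IsHomogeneous 0 := hh.pderiv
    rw [pd0 i _ h1, mul_zero, sub_zero]
    have := (isHomogeneous_C (Fin n) (d i)⁻¹).mul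
      ((isHomogeneous_C (Fin n) ((κ i : K) - 1)).mul h1)
    simpa using this
  · refine ⟨?_, fun h => absurd h (by omega)⟩
    rw [low]
    refine IsHomogeneous.sum _ _ _ fun i _ => ?_
    have h1 : (pderiv i h).IsHomogeneous (j + 1) := hh.pderiv
    have h2 : (pderiv i (pderiv i h)).IsHomogeneous j := h1.pderiv
    have h3 := (isHomogeneous_C (Fin n) ((κ i : K) - 1)).mul h1
    have h4 := (isHomogeneous_X K i).mul h2
    rw [zero_add] at h3
    rw [add_comm] at h4
    have := (isHomogeneous_C (Fin n) (d i)⁻¹).mul (h3.sub h4)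
    simpa using this

/-- (Induction on `N` with `low_lin` applied to `lin d ^ N * h`, homogeneous of degree `N + j`:
`(N + 1) (c - 2 j - N) = N (c - 2 j - N + 1) + (c - 2 (j + N))`.) -/
theorem low_lin_pow (κ : Fin n → ℕ) (d : Fin n → K) (hd : ∀ i, d i ≠ 0) (j N : ℕ)
    (h : MvPolynomial (Fin n) K) (hh : h.IsHomogeneous j) :
    low κ d (lin d ^ (N + 1) * h) = lin d ^ (N + 1) * low κ d h +
      C (((N : K) + 1) * ((∑ i, ((κ i : K) - 1)) - 2 * j - N)) * (lin d ^ N * h) := by
  induction N with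
  | zero =>
    have := low_lin κ d hd j h hh
    simp only [zero_add, pow_one, pow_zero, one_mul, Nat.cast_zero, sub_zero]
    exact this
  | succ N ih =>
    have h1 : (lin d ^ (N + 1) * h).IsHomogeneous (N + 1 + j) := by
      have := ((lin_homog d).pow (N + 1)).mul hh
      simpa using this
    have h2 := low_lin κ d hd _ _ h1
    rw [show lin d ^ (N + 1 + 1) * h = lin d * (lin d ^ (N + 1) * h) by ring, h2, ih]
    simp only [C_mul, C_add, C_sub, C_1, map_natCast, Nat.cast_add, Nat.cast_one, map_ofNat]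
    ring

end BP
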