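import Pool.Agent.Lib.MP_9e8926_ag_BP.SLa

/-!
# The Lefschetz property of monomial complete intersections in low degrees, characteristic `p`
-/

set_option autoImplicit false
set_option linter.unusedVariables false

noncomputable section

namespace BP

open MvPolynomial

variable {K : Type*} [Field K] {n : ℕ}

/-- A power of the linear form is not in the ideal: the coefficient of `∏ x_i^(κ_i - 1)` in
`(lin d)^N`, `N = ∑ (κ_i - 1) < p`, is the multinomial coefficient `N! / ∏ (κ_i - 1)!` times
`∏ d_i^(κ_i - 1)`, not zero as `N! ≠ 0` in `K`.  (Or by induction on the number of factors: apply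
`∏ ∂_i^(κ_i - 1)` to `(lin d)^N`: the result is `N! ∏ d_i^(κ_i - 1)`, while the operator sends the
ideal `(x_i^κ_i)` into the ideal of the polynomials without constant term.) -/
theorem lin_pow_not_mem (p : ℕ) [Fact p.Prime] [CharP K p] (κ : Fin n → ℕ) (hκ : ∀ i, 1 ≤ κ i)
    (d : Fin n → K) (hd : ∀ i, d i ≠ 0) (N : ℕ) (hN : N + n = ∑ i, κ i) (hp : N < p) :
    lin d ^ N ∉ Jr K κ := by
  intro hmem
  have hsum : (∑ i, (κ i - 1)) = N := by
    have h1 : ∑ i, κ i = (∑ i, (κ i - 1)) + n := by
      have h2 : ∀ i ∈ Finset.univ, κ i = (κ i - 1) + 1 := fun i _ => by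
        have := hκ i
        omega
      rw [Finset.sum_congr rfl h2, Finset.sum_add_distrib]
      simp
    omega
  have hne : (Nat.multinomial Finset.univ (fun i => κ i - 1) : K) ≠ 0 := by
    intro h0
    have h1 := Nat.multinomial_spec (Finset.univ : Finset (Fin n)) (fun i => κ i - 1)
    rw [hsum] at h1
    have h2 : ((N.factorial : ℕ) : K) = 0 := by
      rw [← h1, Nat.cast_mul, h0, mul_zero]
    rw [CharP.cast_eq_zero_iff K p, (Fact.out : p.Prime).dvd_factorial] at h2
    omega
  have hlin : lin d = ∑ i, d i • (X i : MvPolynomial (Fin n) K) := by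
    unfold lin
    exact Finset.sum_congr rfl fun i _ => (MvPolynomial.smul_eq_C_mul _ _).symm
  have hcoef : coeff (Finsupp.equivFunOnFinite.symm (fun i => κ i - 1)) (lin d ^ N) ≠ 0 := by
    rw [hlin, coeff_linearCombination_X_pow_of_fintype, if_pos]
    · refine mul_ne_zero ?_ ?_
      · rw [Finsupp.multinomial_eq_of_support_subset (Finset.subset_univ _)]
        exact hne
      · rw [Finsupp.prod]
        exact Finset.prod_ne_zero_iff.2 fun i _ => pow_ne_zero _ (hd i)
    · rw [Finsupp.sum_fintype _ _ (fun _ => rfl)]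
      exact hsum
  obtain ⟨i, hi⟩ := (mem_Jr κ (lin d ^ N)).1 hmem _ (mem_support_iff.2 hcoef)
  have h1 : κ i ≤ κ i - 1 := hi
  have := hκ i
  omega

/-- Reduction of one exponent: a polynomial of degree `< ∑ (κ_i - 1)` which is in `(x_i^κ'_i)` for
every `κ' = κ - e_l` is in `(x_i^κ_i)`.  (`mem_Jr`: let `m` be an exponent with `m_i < κ_i` for all
`i`; for every `l` the exponent is in the ideal of `κ - e_l`, so `m_l ≥ κ_l - 1`; so
`|m| ≥ ∑ (κ_i - 1)`, a contradiction.) -/
theorem mem_of_reduce (κ : Fin n → ℕ) (hκ : ∀ i, 1 ≤ κ i) (j : ℕ) (hj : j + n < ∑ i, κ i)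
    (h : MvPolynomial (Fin n) K) (hh : h.totalDegree ≤ j)
    (hr : ∀ l, h ∈ Jr K (fun i => if i = l then κ i - 1 else κ i)) : h ∈ Jr K κ := by
  rw [mem_Jr]
  intro m hm
  by_contra hc
  push Not at hc
  have h1 : ∀ l, κ l ≤ m l + 1 := by
    intro l
    obtain ⟨i, hi⟩ := (mem_Jr _ h).1 (hr l) m hm
    by_cases hil : i = l
    · rw [if_pos hil] at hi
      subst hil
      omega
    · rw [if_neg hil] at hi
      have := hc i
      omega
  have h2 : ∑ l, κ l ≤ (∑ l, m l) + n := by
    have h3 := Finset.sum_le_sum (fun l (_ : l ∈ (Finset.univ : Finset (Fin n))) => h1 l)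
    rw [Finset.sum_add_distrib] at h3
    simpa using h3
  have h4 := (le_totalDegree hm).trans hh
  rw [Finsupp.sum_fintype _ _ (fun _ => rfl)] at h4
  omega

/-- Homogeneous components.  (`Jr` is a monomial ideal: `mem_Jr`, `coeff_homogeneousComponent`.) -/
theorem mem_of_components (κ : Fin n → ℕ) (h : MvPolynomial (Fin n) K)
    (hh : ∀ j, homogeneousComponent j h ∈ Jr K κ) : h ∈ Jr K κ := by
  rw [mem_Jr]
  intro m hm
  refine (mem_Jr κ _).1 (hh m.degree) m ?_
  rw [mem_support_iff, coeff_homogeneousComponent, if_pos rfl]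
  exact mem_support_iff.1 hm

end BP
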