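import Pool.Agent.Lib.MP_9e8926_ag_BP.SLb

/-!
# The Lefschetz property of monomial complete intersections in low degrees, characteristic `p`
-/

set_option autoImplicit false
set_option linter.unusedVariables false

noncomputable section

namespace BP

open MvPolynomial

variable {K : Type*} [Field K] {n : ℕ}

private theorem SLc_hom (d : Fin n → K) (N : ℕ) : (lin d ^ N).IsHomogeneous N := by
  have h1 : (lin d).IsHomogeneous 1 := by
    unfold lin
    refine IsHomogeneous.sum _ _ _ fun i _ => ?_
    have h2 := (isHomogeneous_C (Fin n) (d i)).mul (isHomogeneous_X K i)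
    rwa [zero_add] at h2
  have h2 := h1.pow N
  rwa [one_mul] at h2

private theorem SLc_comp (κ : Fin n → ℕ) {u : MvPolynomial (Fin n) K} (hu : u ∈ Jr K κ) (j : ℕ) :
    homogeneousComponent j u ∈ Jr K κ := by
  rw [mem_Jr] at hu ⊢
  intro m hm
  refine hu m ?_
  rw [mem_support_iff] at hm ⊢
  intro h0
  apply hm
  rw [coeff_homogeneousComponent, h0, ite_self]

private theorem SLc_C {κ : Fin n → ℕ} {a : K} (ha : a ≠ 0) {u : MvPolynomial (Fin n) K}
    (h : C a * u ∈ Jr K κ) : u ∈ Jr K κ := by
  have h1 := (Jr K κ).mul_mem_left (C a⁻¹) h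
  rwa [← mul_assoc, ← C_mul, inv_mul_cancel₀ ha, C_1, one_mul] at h1

private theorem SLc_ind (p : ℕ) [Fact p.Prime] [CharP K p] (d : Fin n → K)
    (hd : ∀ i, d i ≠ 0) (S : ℕ) : ∀ κ : Fin n → ℕ, ∑ i, κ i = S → ∀ j N : ℕ,
      2 * j + N + n ≤ ∑ i, κ i → j + N < p → ∀ h : MvPolynomial (Fin n) K, h.IsHomogeneous j →
        lin d ^ N * h ∈ Jr K κ → h ∈ Jr K κ := by
  induction S using Nat.strong_induction_on with
  | _ S ih =>
  intro κ hS
  by_cases hκ : ∀ i, 1 ≤ κ i
  swap
  · push Not at hκ
    obtain ⟨i, hi⟩ := hκ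
    have hi0 : κ i = 0 := by omega
    have h1 : (1 : MvPolynomial (Fin n) K) ∈ Jr K κ := by
      have h2 : (X i : MvPolynomial (Fin n) K) ^ κ i ∈ Jr K κ := Ideal.subset_span ⟨i, rfl⟩
      rwa [hi0, pow_zero] at h2
    intro j N _ _ h _ _
    have h2 := (Jr K κ).mul_mem_left h h1
    rwa [mul_one] at h2
  -- the first case
  have hA : ∀ j N : ℕ, 2 * j + N + n < ∑ i, κ i → j + N < p →
      ∀ h : MvPolynomial (Fin n) K, h.IsHomogeneous j → lin d ^ N * h ∈ Jr K κ → h ∈ Jr K κ := by
    intro j N h1 h2 h hh hL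
    refine mem_of_reduce κ hκ j (by omega) h hh.totalDegree_le fun l => ?_
    have hsum : ∑ i, (if i = l then κ i - 1 else κ i) + 1 = ∑ i, κ i := by
      rw [← Finset.add_sum_erase Finset.univ (fun i => if i = l then κ i - 1 else κ i)
        (Finset.mem_univ l), ← Finset.add_sum_erase Finset.univ κ (Finset.mem_univ l), if_pos rfl]
      have e : ∑ i ∈ Finset.univ.erase l, (if i = l then κ i - 1 else κ i) =
          ∑ i ∈ Finset.univ.erase l, κ i :=
        Finset.sum_congr rfl fun i hi => if_neg (Finset.ne_of_mem_erase hi)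
      rw [e]
      have := hκ l
      omega
    refine ih (∑ i, (if i = l then κ i - 1 else κ i)) (by omega) _ rfl j N (by omega) h2 h hh ?_
    exact Jr_mono (fun i => by split_ifs <;> omega) hL
  intro j N h1 h2 h hh hL
  rcases h1.lt_or_eq with h3 | h3
  · exact hA j N h3 h2 h hh hL
  rcases Nat.eq_zero_or_pos N with hN | hN
  · rwa [hN, pow_zero, one_mul] at hL
  rcases Nat.eq_zero_or_pos j with hj | hj
  · have hC : h = C (coeff 0 h) := by
      apply totalDegree_eq_zero_iff_eq_C.1
      have := hh.totalDegree_le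
      omega
    by_cases ha : coeff 0 h = 0
    · rw [hC, ha, C_0]
      exact (Jr K κ).zero_mem
    · exfalso
      rw [hC, mul_comm] at hL
      exact lin_pow_not_mem p κ hκ d hd N (by omega) (by omega) (SLc_C ha hL)
  · obtain ⟨M, rfl⟩ : ∃ M, N = M + 1 := ⟨N - 1, by omega⟩
    have e1 := low_lin_pow κ d hd j M h hh
    have e2 := low_mem κ d _ hL
    have e3 : (∑ i, ((κ i : K) - 1)) - 2 * j - M = 1 := by
      have e4 : (∑ i, ((κ i : K) - 1)) = ((∑ i, κ i : ℕ) : K) - n := by
        rw [Finset.sum_sub_distrib]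
        push_cast
        rw [Finset.sum_const, Finset.card_univ, Fintype.card_fin, nsmul_eq_mul, mul_one]
      rw [e4, ← h3]
      push_cast
      ring
    rw [e3, mul_one] at e1
    rw [e1] at e2
    have hlow : low κ d h ∈ Jr K κ := by
      refine hA (j - 1) (M + 1 + 1) (by omega) (by omega) _ (low_hom κ d j h hh).1 ?_
      have e5 := (Jr K κ).mul_mem_left (lin d) e2
      have e6 := (Jr K κ).mul_mem_left (C ((M : K) + 1)) hL
      have e7 := (Jr K κ).sub_mem e5 e6
      have e8 : lin d * (lin d ^ (M + 1) * low κ d h + C ((M : K) + 1) * (lin d ^ M * h)) -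
          C ((M : K) + 1) * (lin d ^ (M + 1) * h) = lin d ^ (M + 1 + 1) * low κ d h := by ring
      rwa [e8] at e7
    have e9 : C ((M : K) + 1) * (lin d ^ M * h) ∈ Jr K κ := by
      have e10 := (Jr K κ).sub_mem e2 ((Jr K κ).mul_mem_left (lin d ^ (M + 1)) hlow)
      rwa [add_sub_cancel_left] at e10
    have hM0 : ((M : K) + 1) ≠ 0 := by
      intro h0
      have h4 : ((M + 1 : ℕ) : K) = 0 := by
        push_cast
        exact h0
      rw [CharP.cast_eq_zero_iff K p] at h4
      have := Nat.le_of_dvd (by omega) h4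
      omega
    exact hA j M (by omega) (by omega) h hh (SLc_C hM0 e9)

/-- The Lefschetz property for homogeneous polynomials.  Strong induction on `∑ κ_i`, for all
`κ, j, N, h`; if some `κ_i = 0` the ideal is the unit ideal (so we may assume `κ_i ≥ 1`; the
statement is proved for all `κ`).  Put `c = ∑ (κ_i - 1) = ∑ κ_i - n`.

Case `2 j + N < c`.  For every `l` the element `h` is in the ideal of `κ - e_l`, by the induction
hypothesis (`2 j + N ≤ c - 1`, and `(x_i^κ_i) ≤ (x_i^(κ - e_l)_i)`, `Jr_mono`); conclude with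
`mem_of_reduce` (`j < c`).

Case `2 j + N = c`.  If `N = 0` there is nothing to prove.  If `j = 0`, `h` is a constant, `N = c < p`;
`lin_pow_not_mem` gives `h = 0`.  Let `j, N ≥ 1`, `L = lin d`.  By `low_mem`, `low (L^N h) ∈ I`, and by
`low_lin_pow` (with `N - 1`) `low (L^N h) = L^N low h + N (c - 2 j - N + 1) L^(N-1) h =
L^N low h + N L^(N-1) h`.  Multiply by `L`: `L^(N+1) low h ∈ I`.  The polynomial `low h` is
homogeneous of degree `j - 1`, and `2 (j - 1) + (N + 1) = c - 1 < c`, `(j - 1) + (N + 1) < p`: by the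
first case `low h ∈ I`.  So `N L^(N-1) h ∈ I`, and `N ≠ 0` in `K` as `N < p`: `L^(N-1) h ∈ I`, with
`2 j + (N - 1) < c`: by the first case `h ∈ I`. -/
theorem sl2_hom (p : ℕ) [Fact p.Prime] [CharP K p] (κ : Fin n → ℕ) (d : Fin n → K)
    (hd : ∀ i, d i ≠ 0) (j N : ℕ) (h1 : 2 * j + N + n ≤ ∑ i, κ i) (h2 : j + N < p)
    (h : MvPolynomial (Fin n) K) (hh : h.IsHomogeneous j) (hL : lin d ^ N * h ∈ Jr K κ) :
    h ∈ Jr K κ := by
  exact SLc_ind p d hd _ κ rfl j N h1 h2 h hh hL

/-- The Lefschetz property.  (Homogeneous components: the component of degree `j' + N` of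
`L^N h` is `L^N` times the component of degree `j' ≤ j` of `h`; `mem_Jr` shows that the components
of an element of `Jr` are in `Jr`; `sl2_hom` for `j' ≤ j`; `mem_of_components`.) -/
theorem sl2 (p : ℕ) [Fact p.Prime] [CharP K p] (κ : Fin n → ℕ) (d : Fin n → K)
    (hd : ∀ i, d i ≠ 0) (j N : ℕ) (h1 : 2 * j + N + n ≤ ∑ i, κ i) (h2 : j + N < p)
    (h : MvPolynomial (Fin n) K) (hh : h.totalDegree ≤ j) (hL : lin d ^ N * h ∈ Jr K κ) :
    h ∈ Jr K κ := by
  refine mem_of_components κ h fun i => ?_
  rcases le_or_gt i j with hij | hij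
  · refine sl2_hom p κ d hd i N (by omega) (by omega) _ (homogeneousComponent_isHomogeneous i h) ?_
    have e1 : homogeneousComponent (N + i) (lin d ^ N * h) =
        lin d ^ N * homogeneousComponent i h := by
      conv_lhs => rw [← sum_homogeneousComponent h, Finset.mul_sum, map_sum]
      have e2 : ∀ l ∈ Finset.range (h.totalDegree + 1),
          homogeneousComponent (N + i) (lin d ^ N * homogeneousComponent l h) =
            if l = i then lin d ^ N * homogeneousComponent i h else 0 := by
        intro l _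
        have e3 : lin d ^ N * homogeneousComponent l h ∈ homogeneousSubmodule (Fin n) K (N + l) :=
          (SLc_hom d N).mul (homogeneousComponent_isHomogeneous l h)
        rw [homogeneousComponent_of_mem e3]
        by_cases hl : l = i
        · rw [if_pos hl, hl, if_pos rfl]
        · rw [if_neg hl, if_neg fun h4 => hl (by omega)]
      rw [Finset.sum_congr rfl e2, Finset.sum_ite_eq' (Finset.range (h.totalDegree + 1)) i
        (fun _ => lin d ^ N * homogeneousComponent i h)]
      split_ifs with hi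
      · rfl
      · rw [homogeneousComponent_eq_zero i h (by
          rw [Finset.mem_range] at hi
          omega), mul_zero]
    rw [← e1]
    exact SLc_comp κ hL _
  · rw [homogeneousComponent_eq_zero i h (by omega)]
    exact (Jr K κ).zero_mem

end BP
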