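import Pool.Agent.Lib.MP_9e8926_ag_BP.Par

/-!
# Bounds for the weight of the socle
-/

set_option autoImplicit false
set_option linter.unusedVariables false

noncomputable section

namespace BP

private theorem sig_real {n : ℕ} (a w : Fin (n + 1) → ℕ) (ha : ∀ i, 1 ≤ a i) (W : ℕ)
    (haw : ∀ i, a i * w i = W) (b : Fin (n + 1) → ℚ) (hb : ∀ i, 0 ≤ b i ∧ b i < 1) (q : ℕ)
    (hq : 1 ≤ q) :
    (W : ℝ) * rho a b * ((q : ℝ) - 1) - (n + 1) * W ≤ ((sig w W b q : ℤ) : ℝ) ∧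
      ((sig w W b q : ℤ) : ℝ) ≤ W * rho a b * ((q : ℝ) - 1) := by
  have hq' : (0 : ℝ) ≤ (q : ℝ) - 1 := by
    have : (1 : ℝ) ≤ q := by exact_mod_cast hq
    linarith
  have haw' : ∀ i, (a i : ℝ) * w i = W := fun i => by exact_mod_cast haw i
  have ha' : ∀ i, (1 : ℝ) ≤ a i := fun i => by exact_mod_cast ha i
  have hw' : ∀ i, (w i : ℝ) = W / a i := fun i => by
    rw [← haw' i]
    have := ha' i
    field_simp
  have h1 : ((sig w W b q : ℤ) : ℝ) = ∑ i, (w i : ℝ) * ((q : ℝ) - 1 -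
      (⌈(b i : ℝ) * ((q : ℝ) - 1)⌉₊ : ℕ)) - W * ((q : ℝ) - 1) := by
    unfold sig
    push_cast
    rfl
  have h2 : (W : ℝ) * rho a b * ((q : ℝ) - 1) =
      ∑ i, (w i : ℝ) * ((1 - (b i : ℝ)) * ((q : ℝ) - 1)) - W * ((q : ℝ) - 1) := by
    unfold rho
    have h3 : ∑ i, (w i : ℝ) * ((1 - (b i : ℝ)) * ((q : ℝ) - 1)) =
        W * (∑ i, (1 - (b i : ℝ)) / (a i : ℝ)) * ((q : ℝ) - 1) := by
      rw [Finset.mul_sum, Finset.sum_mul]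
      refine Finset.sum_congr rfl fun i _ => ?_
      rw [hw' i]
      ring
    rw [h3]
    ring
  have hb0 : ∀ i, (0 : ℝ) ≤ b i := fun i => by exact_mod_cast (hb i).1
  have hγ0 : ∀ i, (b i : ℝ) * ((q : ℝ) - 1) ≤ (⌈(b i : ℝ) * ((q : ℝ) - 1)⌉₊ : ℕ) := fun i =>
    Nat.le_ceil _
  have hγ1 : ∀ i, ((⌈(b i : ℝ) * ((q : ℝ) - 1)⌉₊ : ℕ) : ℝ) ≤ (b i : ℝ) * ((q : ℝ) - 1) + 1 :=
    fun i => (Nat.ceil_lt_add_one (mul_nonneg (hb0 i) hq')).le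
  have hwW : ∀ i, (w i : ℝ) ≤ W := by
    intro i
    rw [← haw' i]
    have h0 : (0 : ℝ) ≤ w i := Nat.cast_nonneg _
    nlinarith [ha' i]
  have hup : ∑ i, (w i : ℝ) * ((q : ℝ) - 1 - (⌈(b i : ℝ) * ((q : ℝ) - 1)⌉₊ : ℕ)) ≤
      ∑ i, (w i : ℝ) * ((1 - (b i : ℝ)) * ((q : ℝ) - 1)) := by
    refine Finset.sum_le_sum fun i _ => ?_
    refine mul_le_mul_of_nonneg_left ?_ (Nat.cast_nonneg _)
    have := hγ0 i
    linarith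
  have hlo : ∑ i, (w i : ℝ) * ((1 - (b i : ℝ)) * ((q : ℝ) - 1)) - (n + 1) * W ≤
      ∑ i, (w i : ℝ) * ((q : ℝ) - 1 - (⌈(b i : ℝ) * ((q : ℝ) - 1)⌉₊ : ℕ)) := by
    have h3 : ((n : ℝ) + 1) * W = ∑ _i : Fin (n + 1), (W : ℝ) := by
      simp
    rw [h3, ← Finset.sum_sub_distrib]
    refine Finset.sum_le_sum fun i _ => ?_
    have h4 := hγ1 i
    have h5 := hwW i
    have h6 : (0 : ℝ) ≤ w i := Nat.cast_nonneg _
    have h7 : (w i : ℝ) * ((⌈(b i : ℝ) * ((q : ℝ) - 1)⌉₊ : ℕ) - (b i : ℝ) * ((q : ℝ) - 1)) ≤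
        w i * 1 := mul_le_mul_of_nonneg_left (by linarith) h6
    nlinarith
  rw [h1, h2]
  constructor <;> linarith

/-- Let `q = p^(e+1)`, `Q = p^e`, `S = W Q J'`.  Proof.  `w_i = W / a_i ≤ W`,
`γ_i = ⌈b_i (q - 1)⌉₊ ∈ [b_i (q - 1), b_i (q - 1) + 1]`.  So `sig ≤ W ρ (q - 1) ≤ W ρ q` and
`sig ≥ W ρ (q - 1) - ∑ w_i ≥ W ρ (q - 1) - (n + 1) W`.  `2 S = W Q (2 J')`,
`W Q (p ρ - 4 n - 4) ≤ 2 S ≤ W Q (p ρ - 3 n - 2)`.  Hence `sig - 2 S ≤ (4 n + 4) W Q` and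
`sig - 2 S ≥ W ((3 n + 2) Q - ρ - (n + 1)) ≥ W (2 n - 1) ≥ (n + 1) W` as `ρ ≤ 2`, `Q ≥ 1`, `n ≥ 2`.
-/
theorem sig_bounds {n : ℕ} (hn : 2 ≤ n) (a w : Fin (n + 1) → ℕ) (ha : ∀ i, 1 ≤ a i) (W : ℕ)
    (haw : ∀ i, a i * w i = W) (b : Fin (n + 1) → ℚ) (hb : ∀ i, 0 ≤ b i ∧ b i < 1)
    (hρ : 0 < rho a b) (hρ2 : rho a b ≤ 2) (p J' : ℕ) (hp : 1 ≤ p) (hP : Par a b p J') (e : ℕ) :
    ((n + 1 : ℕ) * W : ℤ) ≤ sig w W b (p ^ (e + 1)) - 2 * (W * (p ^ e * J') : ℕ) ∧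
    sig w W b (p ^ (e + 1)) ≤ 2 * (W * (p ^ e * J') : ℕ) + ((4 * n + 4) * W * p ^ e : ℕ) := by
  have hp' : (1 : ℝ) ≤ p := by exact_mod_cast hp
  have hQ : 1 ≤ p ^ e := Nat.one_le_pow _ _ hp
  have hQ' : (1 : ℝ) ≤ ((p ^ e : ℕ) : ℝ) := by exact_mod_cast hQ
  have hq : 1 ≤ p ^ (e + 1) := Nat.one_le_pow _ _ hp
  obtain ⟨h1, h2⟩ := sig_real a w ha W haw b hb (p ^ (e + 1)) hq
  have hqQ : ((p ^ (e + 1) : ℕ) : ℝ) = p * ((p ^ e : ℕ) : ℝ) := by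
    push_cast
    ring
  rw [hqQ] at h1 h2
  set Q : ℝ := ((p ^ e : ℕ) : ℝ) with hQd
  have hW0 : (0 : ℝ) ≤ W := Nat.cast_nonneg _
  have hlo := hP.lo
  have hup := hP.up
  have hn' : (2 : ℝ) ≤ n := by exact_mod_cast hn
  have hWQ : 0 ≤ (W : ℝ) * Q := by positivity
  have e1 : (W : ℝ) * Q * (2 * J') ≤ W * Q * (p * rho a b - (3 * n + 2)) :=
    mul_le_mul_of_nonneg_left hup hWQ
  have e2 : (W : ℝ) * Q * (p * rho a b - (4 * n + 4)) ≤ W * Q * (2 * J') :=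
    mul_le_mul_of_nonneg_left hlo hWQ
  constructor
  · have h3 : ((n + 1 : ℕ) : ℝ) * W ≤
        ((sig w W b (p ^ (e + 1)) : ℤ) : ℝ) - 2 * (W * (Q * J')) := by
      push_cast
      have e3 : (W : ℝ) * (3 * n + 2) ≤ W * Q * (3 * n + 2) := by
        have : (W : ℝ) * 1 ≤ W * Q := mul_le_mul_of_nonneg_left hQ' hW0
        have h4 := mul_le_mul_of_nonneg_right this (by positivity : (0 : ℝ) ≤ 3 * n + 2)
        linarith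
      have e4 : (W : ℝ) * rho a b ≤ W * 2 := mul_le_mul_of_nonneg_left hρ2 hW0
      have e5 : (W : ℝ) * 2 ≤ W * n := mul_le_mul_of_nonneg_left hn' hW0
      nlinarith
    have h4 : (((n + 1 : ℕ) * W : ℤ) : ℝ) ≤ ((sig w W b (p ^ (e + 1)) -
        2 * (W * (p ^ e * J') : ℕ) : ℤ) : ℝ) := by
      rw [hQd] at h3
      push_cast at h3 ⊢
      linarith
    exact_mod_cast h4
  · have h3 : ((sig w W b (p ^ (e + 1)) : ℤ) : ℝ) ≤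
        2 * (W * (Q * J')) + (4 * n + 4) * W * Q := by
      have e3 : (0 : ℝ) ≤ W * rho a b := mul_nonneg hW0 hρ.le
      nlinarith
    have h4 : ((sig w W b (p ^ (e + 1)) : ℤ) : ℝ) ≤
        ((2 * (W * (p ^ e * J') : ℕ) + ((4 * n + 4) * W * p ^ e : ℕ) : ℤ) : ℝ) := by
      rw [hQd] at h3
      push_cast at h3 ⊢
      linarith
    exact_mod_cast h4

end BP
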