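import Pool.Agent.Lib.MP_9e8926_ag_BP.KerT

/-!
# The superadditive function
-/

set_option autoImplicit false
set_option linter.unusedVariables false

noncomputable section

namespace BP

open MvPolynomial

private theorem Val_lds {m : ℕ} {K : Type*} [Field K]
    {V V' : Submodule K (MvPowerSeries (Fin (m + 1)) K)} (h : V ≤ V') : lds V ⊆ lds V' := by
  rintro e ⟨v, hv, h1⟩
  exact ⟨v, h hv, h1⟩

private theorem Val_thr (T : ℕ → Prop) (hT : ∀ l l', l ≤ l' → T l' → T l)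
    (hb : ∃ Λ, ∀ l, Λ ≤ l → ¬ T l) : ∃ G : ℕ, ∀ l, 1 ≤ l → (l ≤ G ↔ T l) := by
  classical
  obtain ⟨Λ, hΛ⟩ := hb
  have hex : ∃ n, ¬ T (n + 1) := ⟨Λ, hΛ _ (Nat.le_succ _)⟩
  refine ⟨Nat.find hex, fun l hl => ⟨fun h => ?_, fun h => ?_⟩⟩
  · obtain ⟨l', rfl⟩ : ∃ l', l = l' + 1 := ⟨l - 1, by omega⟩
    have h1 := Nat.find_min hex (show l' < Nat.find hex by omega)
    exact not_not.mp h1
  · by_contra hcon
    exact Nat.find_spec hex (hT _ _ (by omega) h)

private theorem Val_pow {ι : Type*} [Fintype ι] {K : Type*} [Field K] {w : ι → ℕ}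
    (Jc : ℕ → Ideal (MvPolynomial ι K)) (hmul : ∀ i j, Jc i * Jc j ≤ Jc (i + j)) {l s : ℕ}
    {h : MvPolynomial ι K} (hh : h ∈ inn w (Jc l) s) (n : ℕ) :
    h ^ (n + 1) ∈ inn w (Jc ((n + 1) * l)) ((n + 1) * s) := by
  induction n with
  | zero => simpa using hh
  | succ n ih =>
    have h1 := mul_inn ih hh
    have h2 := inn_mono (w := w) (hmul ((n + 1) * l) l) ((n + 1) * s + s) h1
    rw [pow_succ, show (n + 1 + 1) * l = (n + 1) * l + l by ring,
      show (n + 1 + 1) * s = (n + 1) * s + s by ring]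
    exact h2

private theorem Val_dG {m A B : ℕ} (w : Fin (m + 3) → ℕ) (Wg : ℕ) (i i' : Fin A) (j j' : Fin B)
    (u v y δ : Fin (m + 2) → ℕ) (k : ℕ) (h : ∀ l, k * u l + δ l + y l = v l)
    (hk : k * (w 0 * i + w (Fin.last (m + 2)) * j) = ∑ l, wG w Wg l * δ l) :
    k * dG w Wg ((i, j), u) + dG w Wg ((i', j'), y) = dG w Wg ((i', j'), v) := by
  unfold dG
  simp only
  have h1 : ∑ l, wG w Wg l * v l = k * ∑ l, wG w Wg l * u l + ∑ l, wG w Wg l * δ l +
      ∑ l, wG w Wg l * y l := by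
    rw [Finset.mul_sum, ← Finset.sum_add_distrib, ← Finset.sum_add_distrib]
    refine Finset.sum_congr rfl fun l _ => ?_
    rw [← h l]
    ring
  rw [h1, ← hk]
  ring

private theorem Val_eG {m A B : ℕ} (aL : ℕ) (i i' : Fin A) (j j' : Fin B)
    (u v y δ : Fin (m + 2) → ℕ) (k : ℕ) (h : ∀ l, k * u l + δ l + y l = v l)
    (h0 : ∀ l, l ≠ 0 → l ≠ Fin.last (m + 1) → δ l = 0)
    (hL : aL * δ (Fin.last (m + 1)) = k * j) :
    k • eG aL ((i, j), u) + eG aL ((i', j'), y) = eG aL ((i', j'), v) := by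
  ext l
  unfold eG
  simp only [Finsupp.coe_add, Finsupp.coe_smul, Pi.add_apply, Pi.smul_apply,
    Finsupp.equivFunOnFinite_symm_apply_apply, smul_eq_mul]
  by_cases hl : l = Fin.last m
  · simp only [if_pos hl]
    rw [← h (Fin.last (m + 1))]
    calc _ = k * j + aL * (k * u (Fin.last (m + 1))) + (j' + aL * y (Fin.last (m + 1))) := by ring
      _ = aL * δ (Fin.last (m + 1)) + aL * (k * u (Fin.last (m + 1))) +
          (j' + aL * y (Fin.last (m + 1))) := by rw [hL]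
      _ = _ := by ring
  · simp only [if_neg hl]
    have h2 : l.succ ≠ Fin.last (m + 1) := by
      intro h3
      apply hl
      rw [← Fin.succ_last] at h3
      exact Fin.succ_injective _ h3
    rw [← h l.succ, h0 l.succ (Fin.succ_ne_zero l) h2]
    ring

private theorem Val_num {m : ℕ} (a w : Fin (m + 3) → ℕ) (ha : ∀ i, 1 ≤ a i) (W : ℕ)
    (haw : ∀ i, a i * w i = W) (t i j : ℕ) (hi : i < a 0 / Nat.gcd (a 0) (a 1))
    (hj : j < a (Fin.last (m + 2))) :
    ∃ δ : Fin (m + 2) → ℕ, (∀ l, l ≠ 0 → l ≠ Fin.last (m + 1) → δ l = 0) ∧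
      a (Fin.last (m + 2)) * δ (Fin.last (m + 1)) =
        a 0 / Nat.gcd (a 0) (a 1) * a (Fin.last (m + 2)) * t * j ∧
      (∀ l, δ l ≤ a 0 / Nat.gcd (a 0) (a 1) * a (Fin.last (m + 2)) * t *
        (if l = 0 then a 1 else if l = Fin.last (m + 1) then 1 else 0)) ∧
      a 0 / Nat.gcd (a 0) (a 1) * a (Fin.last (m + 2)) * t *
        (w 0 * i + w (Fin.last (m + 2)) * j) =
        ∑ l, wG w (W / Nat.gcd (a 0) (a 1)) l * δ l := by
  obtain ⟨g, hg⟩ : ∃ g, g = Nat.gcd (a 0) (a 1) := ⟨_, rfl⟩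
  have hg0 : 0 < g := by
    rw [hg]
    exact Nat.gcd_pos_of_pos_left _ (ha 0)
  obtain ⟨α, hα⟩ : g ∣ a 0 := by rw [hg]; exact Nat.gcd_dvd_left _ _
  obtain ⟨b, hb⟩ : g ∣ a 1 := by rw [hg]; exact Nat.gcd_dvd_right _ _
  have h1 : a 0 / g = α := by rw [hα]; exact Nat.mul_div_cancel_left _ hg0
  obtain ⟨aL, haL⟩ : ∃ aL, aL = a (Fin.last (m + 2)) := ⟨_, rfl⟩
  have h2 : W / g = α * w 0 := by
    rw [← haw 0, hα, mul_assoc]
    exact Nat.mul_div_cancel_left _ hg0
  have h3 : W / g = b * w 1 := by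
    rw [← haw 1, hb, mul_assoc]
    exact Nat.mul_div_cancel_left _ hg0
  have h4 : g * (W / g) = aL * w (Fin.last (m + 2)) := by
    rw [h2, haL, haw, ← haw 0, hα]
    ring
  rw [← hg, h1] at hi ⊢
  rw [← haL] at hj ⊢
  obtain ⟨g', rfl⟩ : ∃ g', g = g' + 1 := ⟨g - 1, by omega⟩
  have hne : (Fin.last (m + 1)) ≠ (0 : Fin (m + 2)) := by
    intro h
    have := congrArg Fin.val h
    simp at this
  refine ⟨fun l => if l = 0 then b * (aL * t * i + g' * (α * t * j)) else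
    if l = Fin.last (m + 1) then α * t * j else 0, ?_, ?_, ?_, ?_⟩
  · intro l hl1 hl2
    simp only [if_neg hl1, if_neg hl2]
  · simp only [if_neg hne, if_true]
    ring
  · intro l
    simp only
    split_ifs with h5 h6
    · rw [hb]
      have h7 : aL * t * i ≤ α * aL * t := by
        calc aL * t * i ≤ aL * t * α := Nat.mul_le_mul_left _ hi.le
          _ = _ := by ring
      have h8 : α * t * j ≤ α * aL * t := by
        calc α * t * j ≤ α * t * aL := Nat.mul_le_mul_left _ hj.le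
          _ = _ := by ring
      calc b * (aL * t * i + g' * (α * t * j)) ≤ b * (α * aL * t + g' * (α * aL * t)) :=
            Nat.mul_le_mul_left _ (Nat.add_le_add h7 (Nat.mul_le_mul_left _ h8))
        _ = _ := by ring
    · rw [mul_one]
      calc α * t * j ≤ α * t * aL := Nat.mul_le_mul_left _ hj.le
        _ = _ := by ring
    · exact Nat.zero_le _
  · rw [Fin.sum_univ_succ, Fin.sum_univ_castSucc]
    have h5 : ∀ l : Fin m, wG w (W / (g' + 1)) (Fin.castSucc l).succ *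
        (if (Fin.castSucc l).succ = 0 then b * (aL * t * i + g' * (α * t * j)) else
          if (Fin.castSucc l).succ = Fin.last (m + 1) then α * t * j else 0) = 0 := by
      intro l
      rw [if_neg (Fin.succ_ne_zero _), if_neg, mul_zero]
      rw [← Fin.succ_last]
      intro h6
      exact (Fin.castSucc_lt_last l).ne (Fin.succ_injective _ h6)
    rw [Finset.sum_eq_zero fun l _ => h5 l, Fin.succ_last]
    rw [show Fin.last m.succ = Fin.last (m + 1) from rfl]
    beta_reduce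
    rw [if_pos rfl, if_neg hne, if_pos rfl, zero_add]
    have h6 : wG w (W / (g' + 1)) 0 = w 1 := by
      unfold wG
      rw [if_neg hne.symm]
      rfl
    have h7 : wG w (W / (g' + 1)) (Fin.last (m + 1)) = W / (g' + 1) := by
      unfold wG
      rw [if_pos rfl]
    rw [h6, h7]
    obtain ⟨V, hV⟩ : ∃ V, V = W / (g' + 1) := ⟨_, rfl⟩
    rw [← hV] at h2 h3 h4 ⊢
    have h8 : w 1 * (b * (aL * t * i + g' * (α * t * j))) =
        V * (aL * t * i + g' * (α * t * j)) := by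
      rw [h3]
      ring
    rw [h8]
    calc _ = α * w 0 * (aL * t * i) + aL * w (Fin.last (m + 2)) * (α * t * j) := by ring
      _ = V * (aL * t * i) + (g' + 1) * V * (α * t * j) := by rw [← h2, ← h4]
      _ = _ := by ring

/-- The function `G` attached to a family of ideals.  Here `g = gcd (a_0, a_1)`, `α = a_0 / g`,
`aL = a_(m+2)`; `κ = α aL`; `c0 = (a_1, 0, …, 0, 1)`.

Proof.  For an index `x` of weight `s` and `λ ≥ 1` let `T(x, λ)` be: `eG x ∈ lds (Θ (inn (Jc λ) s))`.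
It is antitone in `λ` (`inn_mono`), and false for large `λ` (`hbd`: then `inn (Jc λ) s ≤ F0 s` is
killed by `Θ`).  Put `G x = sSup {λ | λ = 0 ∨ T(x, λ)}` (or `Nat.find` minus one), so that for `λ ≥ 1`
`λ ≤ G x ↔ T(x, λ)`.  First claim: `card_lds` with `U = inn (Jc λ) s` (`F0_le`).
Second claim: let `k` be a multiple of `κ`, `x' = (cl, ⌊β / k⌋)`, `cl = (i, j)`, `x = (cl', β + k c0)`,
`λ = G x'`; we may assume `λ ≥ 1`.  Let `h ∈ inn (Jc λ) (dG x')` with leading exponent `eG x'`.  Let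
`y = (cl', β + k c0 - k ⌊β / k⌋ - δ)`, where `δ_0 = (k i / α) (a_1 / g) + (k j / aL) (g - 1) (a_1 / g)`,
`δ_(m+1) = k j / aL`, other `δ_v = 0` (integers, as `α aL` divides `k`).  As `i < α`, `j < aL`:
`δ_0 ≤ k (a_1 / g) + k (g - 1) (a_1 / g) = k a_1` and `δ_(m+1) ≤ k`, so all entries are `≥ 0`.  One checks
`k dG x' + dG y = dG x` (using `w_0 α = w_1 (a_1 / g) = W / g`, `w_(m+2) aL = W`) and
`k eG x' + eG y = eG x`.  With `M` from `exists_M` for `y`: `h^k M ∈ inn (Jc (k λ)) (dG x)` (`mul_inn`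
`k - 1` times with `Fam`'s `mul`, `inn_mono`, `inn_mul_pp`), with leading exponent `eG x`
(`lexOrder_mul`).  So `k λ ≤ G x`. -/
theorem exists_G {m : ℕ} {K : Type*} [Field K] [IsAlgClosed K] (a w : Fin (m + 3) → ℕ)
    (ha : ∀ i, 1 ≤ a i) (hw : ∀ i, 0 < w i) (W : ℕ) (hW : 0 < W) (haw : ∀ i, a i * w i = W)
    (c : Fin (m + 3) → K) (hc : ∀ i, c i ≠ 0) (h0 : (a 0 : K) ≠ 0)
    (f : MvPolynomial (Fin (m + 3)) K) (hf1 : Ge w W f) (hf2 : comp w W f = f0 c a)
    (Jc : ℕ → Ideal (MvPolynomial (Fin (m + 3)) K)) (hanti : Antitone Jc)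
    (hmul : ∀ i j, Jc i * Jc j ≤ Jc (i + j)) (hmem : ∀ n, f ∈ Jc n)
    (hbd : ∀ s, ∃ Λ, ∀ l, Λ ≤ l → inn w (Jc l) s ≤ F0 w (f0 c a) s) :
    ∃ G : (Fin (a 0 / Nat.gcd (a 0) (a 1)) × Fin (a (Fin.last (m + 2)))) ×
        (Fin (m + 2) → ℕ) → ℕ,
      (∀ s l : ℕ, 1 ≤ l → Set.ncard {x | dG w (W / Nat.gcd (a 0) (a 1)) x = s ∧ l ≤ G x} +
        Module.finrank K (F0 w (f0 c a) s) = Module.finrank K (inn w (Jc l) s)) ∧
      ∀ k : ℕ, 0 < k → a 0 / Nat.gcd (a 0) (a 1) * a (Fin.last (m + 2)) ∣ k → ∀ cl cl' (β : Fin (m + 2) → ℕ),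
        k * G (cl, fun v => β v / k) ≤ G (cl', fun v => β v +
          k * (if v = 0 then a 1 else if v = Fin.last (m + 1) then 1 else 0)) := by
  classical
  obtain ⟨Θ, z, hT⟩ := exists_tht a w ha W hW haw c hc h0
  obtain ⟨Wg, hWg⟩ : ∃ Wg, Wg = W / Nat.gcd (a 0) (a 1) := ⟨_, rfl⟩
  obtain ⟨T, hTd⟩ : ∃ T : (Fin (a 0 / Nat.gcd (a 0) (a 1)) × Fin (a (Fin.last (m + 2)))) ×
      (Fin (m + 2) → ℕ) → ℕ → Prop, T = fun x l => eG (a (Fin.last (m + 2))) x ∈
        lds ((inn w (Jc l) (dG w Wg x)).map Θ.toLinearMap) := ⟨_, rfl⟩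
  have hG : ∀ x, ∃ G : ℕ, ∀ l, 1 ≤ l → (l ≤ G ↔ T x l) := by
    intro x
    apply Val_thr
    · intro l l' hl h
      rw [hTd] at h ⊢
      exact Val_lds (Submodule.map_mono (inn_mono (hanti hl) _)) h
    · obtain ⟨Λ, hΛ⟩ := hbd (dG w Wg x)
      refine ⟨Λ, fun l hl h => ?_⟩
      rw [hTd] at h
      obtain ⟨v, hv, h1⟩ := h
      obtain ⟨u, hu, rfl⟩ := Submodule.mem_map.mp hv
      have h2 := hΛ l hl hu
      have h3 : u ∈ Ideal.span {f0 c a} := h2.2
      obtain ⟨r, hr⟩ := Ideal.mem_span_singleton'.mp h3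
      have h4 : Θ.toLinearMap u = 0 := by
        rw [AlgHom.toLinearMap_apply, ← hr, map_mul, hT.zero, mul_zero]
      rw [h4, MvPowerSeries.lexOrder_zero] at h1
      exact absurd h1 (WithTop.top_ne_coe)
  choose G hG using hG
  refine ⟨G, ?_, ?_⟩
  · intro s l hl
    rw [← hWg]
    have h1 := card_lds ha hw hW haw hc hT s (inn w (Jc l) s) (inn_le _ _)
      (F0_le hf1 hf2 (hmem l) s)
    rw [← hWg] at h1
    rw [← h1]
    congr 2
    ext x
    constructor
    · rintro ⟨h2, h3⟩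
      refine ⟨h2, ?_⟩
      have h4 := (hG x l hl).1 h3
      rw [hTd] at h4
      rw [h2] at h4
      exact h4
    · rintro ⟨h2, h3⟩
      refine ⟨h2, (hG x l hl).2 ?_⟩
      rw [hTd]
      beta_reduce
      rw [h2]
      exact h3
  · intro k hk hdvd cl cl' β
    obtain ⟨i, j⟩ := cl
    obtain ⟨i', j'⟩ := cl'
    obtain ⟨t, ht⟩ := hdvd
    obtain ⟨δ, hδ0, hδL, hδle, hδw⟩ := Val_num a w ha W haw t i j i.2 j.2
    rw [← ht] at hδL hδle hδw
    rw [← hWg] at hδw
    obtain ⟨v, hv⟩ : ∃ v : Fin (m + 2) → ℕ, v = fun l => β l +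
        k * (if l = 0 then a 1 else if l = Fin.last (m + 1) then 1 else 0) := ⟨_, rfl⟩
    obtain ⟨u, hu⟩ : ∃ u : Fin (m + 2) → ℕ, u = fun l => β l / k := ⟨_, rfl⟩
    rw [← hv, ← hu]
    have hy : ∀ l, ∃ y : ℕ, k * u l + δ l + y = v l := by
      intro l
      have h1 : k * u l ≤ β l := by
        rw [hu]
        exact Nat.mul_div_le _ _
      have h2 := hδle l
      refine ⟨v l - (k * u l + δ l), Nat.add_sub_cancel' ?_⟩
      rw [hv]
      exact Nat.add_le_add h1 h2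
    choose y hy using hy
    have h1 := Val_dG w Wg i i' j j' u v y δ k hy hδw
    have h2 := Val_eG (a (Fin.last (m + 2))) i i' j j' u v y δ k hy hδ0 hδL
    obtain ⟨l, hl⟩ : ∃ l, l = G ((i, j), u) := ⟨_, rfl⟩
    rw [← hl]
    rcases Nat.eq_zero_or_pos l with h0' | hpos
    · rw [h0', mul_zero]
      exact Nat.zero_le _
    rw [hG _ _ (Nat.mul_pos hk hpos)]
    have h3 := (hG ((i, j), u) l hpos).1 hl.le
    rw [hTd] at h3 ⊢
    obtain ⟨v', hv', h4⟩ := h3
    obtain ⟨h, hh, rfl⟩ := Submodule.mem_map.mp hv'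
    obtain ⟨M, hM1, hM2⟩ := exists_M a w W c Θ z hT ((i', j'), y)
    rw [← hWg] at hM1
    refine ⟨Θ.toLinearMap (h ^ k * M), Submodule.mem_map_of_mem ?_, ?_⟩
    · rw [← h1]
      obtain ⟨k', rfl⟩ : ∃ k', k = k' + 1 := ⟨k - 1, by omega⟩
      exact inn_mul_pp (Val_pow Jc hmul hh k') hM1
    · have h5 := lexOrder_prod (K := K) (σ := Fin (m + 1)) (Finset.univ : Finset Bool)
        (fun b => if b then Θ h else Θ M) (fun b => if b then k else 1)
        (fun b => if b then eG (a (Fin.last (m + 2))) ((i, j), u) else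
          eG (a (Fin.last (m + 2))) ((i', j'), y)) (by
            intro b _
            cases b
            · simpa using hM2
            · simpa using h4)
      rw [Fintype.prod_bool, Fintype.sum_bool] at h5
      simp only [if_true, Bool.false_eq_true, if_false, pow_one, one_smul] at h5
      rw [h2] at h5
      rw [AlgHom.toLinearMap_apply, map_mul, map_pow]
      exact h5

end BP
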