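import Pool.Agent.Lib.MP_9e8926_ag_BP.Slj
import Pool.Agent.Lib.MP_9e8926_ag_BP.Val
import Pool.Agent.Lib.MP_9e8926_ag_BP.Com

/-!
# The slab inequality for the superadditive function
-/

set_option autoImplicit false
set_option linter.unusedVariables false

noncomputable section

namespace BP

open MvPolynomial

/-- The degrees of the classes. -/
def dl {m A B : ℕ} (w : Fin (m + 3) → ℕ) (i : Fin A × Fin B) : ℕ :=
  w 0 * i.1 + w (Fin.last (m + 2)) * i.2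

theorem dgc_eq {m A B : ℕ} (w : Fin (m + 3) → ℕ) (Wg : ℕ)
    (x : (Fin A × Fin B) × (Fin (m + 2) → ℕ)) : dgc (wG w Wg) (dl w) x = dG w Wg x := rfl

private theorem Slb_wG {m : ℕ} (w : Fin (m + 3) → ℕ) (hw : ∀ i, 0 < w i) (Wg : ℕ)
    (hWg : 0 < Wg) (v : Fin (m + 2)) : 1 ≤ wG w Wg v := by
  unfold wG
  split_ifs
  · exact hWg
  · exact hw _

/-- the sum of the levels `1, …, Λ` is the sum of the truncated function -/
private theorem Slb_min {m A B : ℕ} (w : Fin (m + 3) → ℕ) (hw : ∀ i, 0 < w i) (Wg : ℕ)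
    (hWg : 0 < Wg) (G : (Fin A × Fin B) × (Fin (m + 2) → ℕ) → ℕ) (Y Λ : ℕ) :
    ∑ s ∈ Finset.range Y, ∑ l ∈ Finset.Icc 1 Λ, Set.ncard {x | dG w Wg x = s ∧ l ≤ G x} =
      ∑ x ∈ idx (wG w Wg) (dl w) Y, min (G x) Λ := by
  classical
  have h1 : ∀ s ∈ Finset.range Y, ∀ l, Set.ncard {x | dG w Wg x = s ∧ l ≤ G x} =
      ∑ x ∈ idx (wG w Wg) (dl w) Y, if dG w Wg x = s then (if l ≤ G x then 1 else 0) else 0 := by
    intro s hs l
    have h2 : {x | dG w Wg x = s ∧ l ≤ G x} =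
        (((idx (wG w Wg) (dl w) Y).filter fun x => dG w Wg x = s ∧ l ≤ G x : Finset _) :
          Set ((Fin A × Fin B) × (Fin (m + 2) → ℕ))) := by
      ext x
      rw [Set.mem_setOf_eq, Finset.mem_coe, Finset.mem_filter,
        mem_idx _ (Slb_wG w hw Wg hWg)]
      refine ⟨fun h => ⟨?_, h⟩, fun h => h.2⟩
      rw [dgc_eq, h.1]
      exact Finset.mem_range.1 hs
    rw [h2, Set.ncard_coe_finset, Finset.card_filter]
    refine Finset.sum_congr rfl fun x _ => ?_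
    by_cases h3 : dG w Wg x = s <;> simp [h3]
  rw [Finset.sum_congr rfl fun s hs => Finset.sum_congr rfl fun l _ => h1 s hs l]
  rw [Finset.sum_congr rfl fun s _ => Finset.sum_comm, Finset.sum_comm]
  refine Finset.sum_congr rfl fun x hx => ?_
  rw [mem_idx _ (Slb_wG w hw Wg hWg), dgc_eq] at hx
  rw [Finset.sum_eq_single (dG w Wg x)]
  · rw [Finset.sum_congr rfl fun l _ => if_pos rfl, ← Finset.card_filter]
    have h4 : (Finset.Icc 1 Λ).filter (fun l => l ≤ G x) = Finset.Icc 1 (min (G x) Λ) := by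
      ext l
      simp only [Finset.mem_filter, Finset.mem_Icc, le_min_iff]
      tauto
    rw [h4, Nat.card_Icc, Nat.add_sub_cancel]
  · intro s _ hs
    exact Finset.sum_eq_zero fun l _ => if_neg fun h => hs h.symm
  · intro h
    exact absurd (Finset.mem_range.2 hx) h

/-- (Layer cake: for a finite set `T` and `Λ` at least all values,
`∑_{x ∈ T} G x = ∑_{l = 1}^Λ #{x ∈ T | l ≤ G x}`; sum over `s < X`.) -/
theorem HX_layer {m A B : ℕ} (w : Fin (m + 3) → ℕ) (hw : ∀ i, 0 < w i) (Wg : ℕ) (hWg : 0 < Wg)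
    (G : (Fin A × Fin B) × (Fin (m + 2) → ℕ) → ℕ) (X : ℕ) :
    ∃ Λ0 : ℕ, ∀ Λ : ℕ, Λ0 ≤ Λ → ∀ Y : ℕ, Y ≤ X →
      HX (wG w Wg) (dl w) G Y = ∑ s ∈ Finset.range Y, ∑ l ∈ Finset.Icc 1 Λ,
        Set.ncard {x | dG w Wg x = s ∧ l ≤ G x} := by
  refine ⟨(idx (wG w Wg) (dl w) X).sup G, fun Λ hΛ Y hY => ?_⟩
  rw [Slb_min w hw Wg hWg]
  unfold HX
  refine Finset.sum_congr rfl fun x hx => (min_eq_left ?_).symm
  have hx' : x ∈ idx (wG w Wg) (dl w) X := by
    rw [mem_idx _ (Slb_wG w hw Wg hWg)] at hx ⊢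
    omega
  exact (Finset.le_sup (f := G) hx').trans hΛ

/-- For every `Λ` the sum over the levels `≤ Λ` is at most the whole sum. -/
theorem HX_layer_le {m A B : ℕ} (w : Fin (m + 3) → ℕ) (hw : ∀ i, 0 < w i) (Wg : ℕ) (hWg : 0 < Wg)
    (G : (Fin A × Fin B) × (Fin (m + 2) → ℕ) → ℕ) (X Λ : ℕ) :
    ∑ s ∈ Finset.range X, ∑ l ∈ Finset.Icc 1 Λ, Set.ncard {x | dG w Wg x = s ∧ l ≤ G x} ≤
      HX (wG w Wg) (dl w) G X := by
  rw [Slb_min w hw Wg hWg]
  unfold HX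
  exact Finset.sum_le_sum fun x _ => min_le_left _ _

end BP
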