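import Pool.Agent.Lib.MP_9e8926_ag_BP.Slb

/-!
# The slab inequality
-/

set_option autoImplicit false
set_option linter.unusedVariables false

noncomputable section

namespace BP

open MvPolynomial

private theorem Slc_sum (N S lo : ℕ) (h1 : lo ≤ S) (h2 : S ≤ N) (f : ℕ → ℕ) :
    ∑ s ∈ Finset.Ico lo S, (f (N - s) : ℝ) =
      ((∑ r ∈ Finset.range (N - lo + 1), f r : ℕ) : ℝ) -
        ((∑ r ∈ Finset.range (N - S + 1), f r : ℕ) : ℝ) := by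
  rw [Finset.sum_Ico_reflect (fun r => (f r : ℝ)) lo (show S ≤ N + 1 by omega),
    show N + 1 - S = N - S + 1 by omega, show N + 1 - lo = N - lo + 1 by omega,
    Finset.sum_Ico_eq_sub _ (show N - S + 1 ≤ N - lo + 1 by omega)]
  push_cast
  rfl

/-- The slab inequality.  Proof.  Let `S = W Q J'`, `lo ≤ S`.  By `HX_layer` (`X = S`)
`HX S - HX lo = ∑_{lo ≤ s < S} ∑_{l ≤ Λ} #{…}`, the counts are
`finrank (inn (Jc l) s) - finrank (F0 s)` (hypothesis `hG`), and `slice` bounds twice the inner sum by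
`t q NN (sig - s)`.  The degrees `sig - s`, `lo ≤ s < S`, are the numbers in
`[sig - S + 1, sig - lo + 1)` (all positive, `sig ≥ 2 S`). -/
theorem slab_ineq {m : ℕ} {K : Type*} [Field K] (p : ℕ) [Fact p.Prime] [CharP K p] (e : ℕ)
    (a w : Fin (m + 3) → ℕ) (ha : ∀ i, 1 ≤ a i) (hw : ∀ i, 0 < w i) (W : ℕ) (hW : 0 < W)
    (haw : ∀ i, a i * w i = W) (c : Fin (m + 3) → K) (hc : ∀ i, c i ≠ 0) (b : Fin (m + 3) → ℚ)
    (hb : ∀ i, 0 ≤ b i ∧ b i < 1) (hρ : 0 < rho a b) (hρ2 : rho a b ≤ 2) (J' : ℕ)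
    (hP : Par a b p J') (f : MvPolynomial (Fin (m + 3)) K) (t : ℝ) (ht : 0 ≤ t)
    (Jc : ℕ → Ideal (MvPolynomial (Fin (m + 3)) K)) (hJ : Fam w W f (f0 c a) b p t Jc)
    (G : (Fin (a 0 / Nat.gcd (a 0) (a 1)) × Fin (a (Fin.last (m + 2)))) × (Fin (m + 2) → ℕ) → ℕ)
    (hG : ∀ s l : ℕ, 1 ≤ l → Set.ncard {x | dG w (W / Nat.gcd (a 0) (a 1)) x = s ∧ l ≤ G x} +
      Module.finrank K (F0 w (f0 c a) s) = Module.finrank K (inn w (Jc l) s))
    (lo : ℕ) (hlo : lo ≤ W * (p ^ e * J')) :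
    2 * ((HX (wG w (W / Nat.gcd (a 0) (a 1))) (dl w) G (W * (p ^ e * J')) : ℝ) -
      HX (wG w (W / Nat.gcd (a 0) (a 1))) (dl w) G lo) ≤ t * (p : ℝ) ^ (e + 1) *
      ((SN w (a 0) (sig w W b (p ^ (e + 1)) - lo + 1).toNat : ℝ) -
        SN w (a 0) (sig w W b (p ^ (e + 1)) - (W * (p ^ e * J') : ℕ) + 1).toNat) := by
  have hg : 0 < Nat.gcd (a 0) (a 1) := Nat.gcd_pos_of_pos_left _ (ha 0)
  have hgW : Nat.gcd (a 0) (a 1) ∣ W := (Nat.gcd_dvd_left _ _).trans ⟨w 0, (haw 0).symm⟩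
  have hWg : 0 < W / Nat.gcd (a 0) (a 1) := Nat.div_pos (Nat.le_of_dvd hW hgW) hg
  obtain ⟨Λ, hΛ⟩ := HX_layer w hw (W / Nat.gcd (a 0) (a 1)) hWg G (W * (p ^ e * J'))
  have hS := hΛ Λ le_rfl _ le_rfl
  have hL := hΛ Λ le_rfl lo hlo
  have hp : 1 ≤ p := (Fact.out : p.Prime).one_lt.le
  obtain ⟨sb1, -⟩ := sig_bounds (n := m + 2) (by omega) a w ha W haw b hb hρ hρ2 p J' hp hP e
  have hsl := fun s (hs : s ≤ W * (p ^ e * J')) => slice (n := m + 2) (by omega) p e a w ha W hW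
    haw c hc b hb hρ hρ2 J' hP f t ht Jc hJ s hs Λ
  generalize hSd : W * (p ^ e * J') = S at *
  obtain ⟨N, hN⟩ : ∃ N : ℕ, (N : ℤ) = sig w W b (p ^ (e + 1)) := by
    refine ⟨(sig w W b (p ^ (e + 1))).toNat, Int.toNat_of_nonneg ?_⟩
    have : (0 : ℤ) ≤ ((m + 2 + 1 : ℕ) : ℤ) * (W : ℤ) := by positivity
    push_cast at sb1 this
    omega
  rw [← hN] at sb1 hsl ⊢
  have hSN : S ≤ N := by
    have : (0 : ℤ) ≤ ((m + 2 + 1 : ℕ) : ℤ) * (W : ℤ) := by positivity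
    push_cast at sb1 this
    omega
  have e1 : ((N : ℤ) - (lo : ℤ) + 1).toNat = N - lo + 1 := by omega
  have e2 : ((N : ℤ) - ((S : ℕ) : ℤ) + 1).toNat = N - S + 1 := by omega
  rw [e1, e2, SN, SN, ← Slc_sum N S lo hlo hSN, Finset.mul_sum]
  have key : (HX (wG w (W / Nat.gcd (a 0) (a 1))) (dl w) G S : ℝ) -
      HX (wG w (W / Nat.gcd (a 0) (a 1))) (dl w) G lo =
      ∑ s ∈ Finset.Ico lo S, ∑ l ∈ Finset.Icc 1 Λ, ((Module.finrank K (inn w (Jc l) s) : ℝ) -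
        Module.finrank K (F0 w (f0 c a) s)) := by
    rw [hS, hL]
    push_cast
    rw [← Finset.sum_Ico_eq_sub _ hlo]
    refine Finset.sum_congr rfl fun s _ => Finset.sum_congr rfl fun l hl => ?_
    rw [Finset.mem_Icc] at hl
    rw [← hG s l hl.1]
    push_cast
    ring
  rw [key, Finset.mul_sum]
  refine Finset.sum_le_sum fun s hs => ?_
  rw [Finset.mem_Ico] at hs
  have h3 := hsl s hs.2.le
  rwa [show ((N : ℤ) - (s : ℤ)).toNat = N - s by omega] at h3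

end BP
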