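import Pool.Agent.Lib.MP_9e8926_ag_BP.Fam
import Pool.Agent.Lib.MP_9e8926_ag_BP.Sig

/-!
# The main inequality in one degree
-/

set_option autoImplicit false
set_option linter.unusedVariables false

noncomputable section

namespace BP

open MvPolynomial

variable {K : Type*} [Field K] {n : ℕ}

/-- In degrees `s ≤ W Q J'` the leading forms of `Jc λ`, `λ ≥ t q`, are multiples of `F`
(`innIso`, `nd`). -/
theorem inn_top_level (p : ℕ) [Fact p.Prime] [CharP K p] (e : ℕ) (a w : Fin (n + 1) → ℕ) (W : ℕ)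
    (hW : 0 < W) (haw : ∀ i, a i * w i = W) (c : Fin (n + 1) → K) (hc : ∀ i, c i ≠ 0)
    (b : Fin (n + 1) → ℚ) (J' : ℕ) (hP : Par a b p J') (f : MvPolynomial (Fin (n + 1)) K) (t : ℝ)
    (Jc : ℕ → Ideal (MvPolynomial (Fin (n + 1)) K)) (hJ : Fam w W f (f0 c a) b p t Jc)
    (s : ℕ) (hs : s ≤ W * (p ^ e * J')) (l : ℕ) (hl : t * (p : ℝ) ^ (e + 1) ≤ l) :
    inn w (Jc l) s ≤ F0 w (f0 c a) s := by
  intro u hu
  obtain ⟨κ, N, k1, k2, k3, k4, k5, k6, k7⟩ := hP.ex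
  have hu' : u ∈ PP K w s := inn_le _ _ hu
  have h1 := innIso hJ.lead1 hJ.lead2 b (p ^ (e + 1)) (Jc l)
    (fun v hv => hJ.iso (e + 1) l hl v hv) hu
  have h2 := nd p e a w W hW haw c hc b κ k1 k2 N J' k3 k4 k5 k6 (k7 e)
    s hs u hu' h1
  exact ⟨hu', Ideal.mem_span_singleton.2 h2⟩

end BP
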