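import Pool.Agent.Lib.MP_9e8926_ag_BP.Sli

/-!
# The main inequality in one degree
-/

set_option autoImplicit false
set_option linter.unusedVariables false

noncomputable section

namespace BP

open MvPolynomial

variable {K : Type*} [Field K] {n : ℕ}

private theorem Slj_empty {w : Fin (n + 1) → ℕ} {s : ℕ}
    (h : ¬ ∃ m : Fin (n + 1) →₀ ℕ, wd w m = s)
    (N : Submodule K (MvPolynomial (Fin (n + 1)) K)) (hN : N ≤ PP K w s) :
    Module.finrank K N = 0 := by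
  have h1 : N = ⊥ := by
    rw [Submodule.eq_bot_iff]
    intro u hu
    have h2 : ∀ m ∈ u.support, wd w m = s := hN hu
    have h3 : u.support = ∅ := by
      rw [Finset.eq_empty_iff_forall_notMem]
      intro m hm
      exact h ⟨m, h2 m hm⟩
    exact MvPolynomial.support_eq_empty.1 h3
  rw [h1, finrank_bot]

private theorem Slj_sum (d : ℕ → ℝ) (ν Λ : ℕ) (N x : ℝ) (hN : 0 ≤ N) (hx : 0 ≤ x)
    (hν : (ν : ℝ) ≤ x + 1) (h0 : ∀ l, 0 ≤ d l) (h1 : ∀ l, ν ≤ l → d l = 0)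
    (h2 : ∀ l, l ≤ ν → d l + d (ν - l) ≤ N) :
    2 * ∑ l ∈ Finset.Icc 1 Λ, d l ≤ x * N := by
  have h3 : ∑ l ∈ Finset.Icc 1 Λ, d l ≤ ∑ l ∈ Finset.Ico 1 ν, d l := by
    have h4 : ∑ l ∈ (Finset.Icc 1 Λ).filter (fun l => l < ν), d l =
        ∑ l ∈ Finset.Icc 1 Λ, d l := by
      refine Finset.sum_filter_of_ne fun l _ hl => ?_
      by_contra hc
      exact hl (h1 l (not_lt.mp hc))
    rw [← h4]
    refine Finset.sum_le_sum_of_subset_of_nonneg ?_ fun l _ _ => h0 l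
    intro l hl
    rw [Finset.mem_filter, Finset.mem_Icc] at hl
    rw [Finset.mem_Ico]
    exact ⟨hl.1.1, hl.2⟩
  have h5 : ∑ l ∈ Finset.Ico 1 ν, d (ν - l) = ∑ l ∈ Finset.Ico 1 ν, d l := by
    have h6 := Finset.sum_Ico_reflect d 1 (m := ν) (n := ν) (Nat.le_succ ν)
    rw [h6]
    congr 1
    congr 1
    omega
  have h7 : 2 * ∑ l ∈ Finset.Ico 1 ν, d l ≤ ∑ l ∈ Finset.Ico 1 ν, N := by
    have h8 : 2 * ∑ l ∈ Finset.Ico 1 ν, d l = ∑ l ∈ Finset.Ico 1 ν, (d l + d (ν - l)) := by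
      rw [Finset.sum_add_distrib, h5]
      ring
    rw [h8]
    refine Finset.sum_le_sum fun l hl => ?_
    rw [Finset.mem_Ico] at hl
    exact h2 l hl.2.le
  rw [Finset.sum_const, Nat.card_Ico, nsmul_eq_mul] at h7
  have h9 : ((ν - 1 : ℕ) : ℝ) ≤ x := by
    rcases Nat.eq_zero_or_pos ν with h | h
    · rw [h]
      simpa using hx
    · have h10 : ((ν - 1 : ℕ) : ℝ) = ν - 1 := by
        rw [Nat.cast_sub h]
        simp
      rw [h10]
      linarith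
  have h11 : ((ν - 1 : ℕ) : ℝ) * N ≤ x * N := mul_le_mul_of_nonneg_right h9 hN
  linarith

/-- Proof.  Let `q = p^(e+1)`, `d(λ) = finrank (inn (Jc λ) s) - finrank (F0 s) ≥ 0` (`F0_le`),
`S = W Q J' ≥ s`.  If there is no exponent of weight `s`, `PP s = 0` and the left side is `0`.
Otherwise `sig - 2 s ≥ sig - 2 S ≥ (n + 1) W` (`sig_bounds`) and `exists_mono` gives `μ` with
`s' = s + wd μ`, `s + s' = sig`.  Let `ν = ⌈t q⌉₊`.  For `λ ≥ ν` `d(λ) = 0` (`inn_top_level`).  For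
`1 ≤ λ < ν`: `ort` with `U = inn (Jc λ) s`, `U' = inn (Jc (ν - λ)) s'` (orthogonal: `mul_inn`,
`Fam.mul`, `innIso` at level `ν ≥ t q`; `hnd` is `nd`) gives
`finrank U + finrank U' ≤ finrank F0_s + finrank PP_s'`, and `mon` gives
`finrank (inn (Jc (ν - λ)) s) + finrank F0_s' ≤ finrank U' + finrank F0_s`; with `finrank_F0` for `s'`:
`d(λ) + d(ν - λ) ≤ NN s'`.  Sum over `1 ≤ λ ≤ ν - 1`: `2 ∑ d(λ) ≤ (ν - 1) NN s' ≤ t q NN s'`
(if `ν ≥ 1`; `Nat.ceil_lt_add_one`).  For the sum over `1 ≤ λ ≤ Λ` use `d ≥ 0` and `d(λ) = 0` for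
`λ ≥ ν`. -/
theorem slice (hn : 2 ≤ n) (p : ℕ) [Fact p.Prime] [CharP K p] (e : ℕ) (a w : Fin (n + 1) → ℕ)
    (ha : ∀ i, 1 ≤ a i) (W : ℕ) (hW : 0 < W) (haw : ∀ i, a i * w i = W) (c : Fin (n + 1) → K)
    (hc : ∀ i, c i ≠ 0) (b : Fin (n + 1) → ℚ) (hb : ∀ i, 0 ≤ b i ∧ b i < 1) (hρ : 0 < rho a b)
    (hρ2 : rho a b ≤ 2) (J' : ℕ) (hP : Par a b p J') (f : MvPolynomial (Fin (n + 1)) K) (t : ℝ)
    (ht : 0 ≤ t) (Jc : ℕ → Ideal (MvPolynomial (Fin (n + 1)) K))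
    (hJ : Fam w W f (f0 c a) b p t Jc) (s : ℕ) (hs : s ≤ W * (p ^ e * J')) (Λ : ℕ) :
    2 * ∑ l ∈ Finset.Icc 1 Λ, ((Module.finrank K (inn w (Jc l) s) : ℝ) -
      Module.finrank K (F0 w (f0 c a) s)) ≤
      t * (p : ℝ) ^ (e + 1) * NN w (a 0) (sig w W b (p ^ (e + 1)) - s).toNat := by
  have hw : ∀ i, 0 < w i := by
    intro i
    rcases Nat.eq_zero_or_pos (w i) with h0 | h0
    · have h1 := haw i
      rw [h0, mul_zero] at h1
      omega
    · exact h0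
  have hp : 1 ≤ p := (Fact.out : p.Prime).one_lt.le
  have hx : 0 ≤ t * (p : ℝ) ^ (e + 1) := by positivity
  by_cases hm : ∃ m : Fin (n + 1) →₀ ℕ, wd w m = s
  swap
  · have h1 : ∑ l ∈ Finset.Icc 1 Λ, ((Module.finrank K (inn w (Jc l) s) : ℝ) -
        Module.finrank K (F0 w (f0 c a) s)) = 0 := by
      refine Finset.sum_eq_zero fun l _ => ?_
      rw [Slj_empty hm _ (inn_le _ _), Slj_empty hm (F0 w (f0 c a) s) inf_le_left]
      simp
    rw [h1, mul_zero]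
    positivity
  obtain ⟨m, hm⟩ := hm
  have hsb := (sig_bounds hn a w ha W haw b hb hρ hρ2 p J' hp hP e).1
  have hsb' : ((n + 1) * W : ℤ) ≤ sig w W b (p ^ (e + 1)) - 2 * s := by
    have h1 : ((s : ℕ) : ℤ) ≤ ((W * (p ^ e * J') : ℕ) : ℤ) := by exact_mod_cast hs
    have h2 : (((n + 1 : ℕ) : ℤ)) = (n : ℤ) + 1 := by push_cast; ring
    rw [h2] at hsb
    linarith
  obtain ⟨μ, hμ⟩ := exists_mono ha hw haw b (p ^ (e + 1)) s m hm hsb'
  have hss : ((s : ℕ) : ℤ) + ((s + wd w μ : ℕ) : ℤ) = sig w W b (p ^ (e + 1)) := by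
    push_cast
    rw [hμ]
    ring
  have hnat : (sig w W b (p ^ (e + 1)) - s).toNat = s + wd w μ := by
    rw [← hss]
    have h1 : ((s : ℕ) : ℤ) + ((s + wd w μ : ℕ) : ℤ) - s = ((s + wd w μ : ℕ) : ℤ) := by ring
    rw [h1, Int.toNat_natCast]
  rw [hnat]
  have hfinS : FiniteDimensional K (PP K w s : Submodule K (MvPolynomial (Fin (n + 1)) K)) :=
    PP_finite (k := K) hw s
  have hfin : ∀ l, FiniteDimensional K (inn w (Jc l) s) := fun l =>
    Submodule.finiteDimensional_of_le (inn_le (Jc l) s)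
  have hfinF : FiniteDimensional K (F0 w (f0 c a) s) :=
    Submodule.finiteDimensional_of_le (inf_le_left : F0 w (f0 c a) s ≤ PP K w s)
  have hle : ∀ l s, F0 w (f0 c a) s ≤ inn w (Jc l) s := fun l s =>
    F0_le hJ.lead1 hJ.lead2 (hJ.mem l) s
  refine Slj_sum (fun l => (Module.finrank K (inn w (Jc l) s) : ℝ) -
    Module.finrank K (F0 w (f0 c a) s)) ⌈t * (p : ℝ) ^ (e + 1)⌉₊ Λ _ _ (Nat.cast_nonneg _) hx
    (Nat.ceil_lt_add_one hx).le (fun l => ?_) (fun l hl => ?_) (fun l hl => ?_)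
  · have h1 := Submodule.finrank_mono (hle l s)
    have h2 : (Module.finrank K (F0 w (f0 c a) s) : ℝ) ≤ Module.finrank K (inn w (Jc l) s) := by
      exact_mod_cast h1
    exact sub_nonneg.2 h2
  · have hl' : t * (p : ℝ) ^ (e + 1) ≤ l :=
      (Nat.le_ceil _).trans (by exact_mod_cast hl)
    have h1 := inn_top_level p e a w W hW haw c hc b J' hP f t Jc hJ s hs l hl'
    have h2 : inn w (Jc l) s = F0 w (f0 c a) s := le_antisymm h1 (hle l s)
    change (Module.finrank K (inn w (Jc l) s) : ℝ) - Module.finrank K (F0 w (f0 c a) s) = 0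
    rw [h2]
    ring
  · have hF : f0 c a ∈ PP K w W := f0_mem a W haw c
    have hq : 1 ≤ p ^ (e + 1) := Nat.one_le_pow _ _ hp
    obtain ⟨κ, N, k1, k2, k3, k4, k5, k6, k7⟩ := hP.ex
    have h1 := ort hw W (f0 c a) hF b (p ^ (e + 1)) hq s (s + wd w μ) hss
      (fun u hu h => nd p e a w W hW haw c hc b κ k1 k2 N J' k3 k4 k5 k6 (k7 e) s hs u hu h)
      (inn w (Jc l) s) (inn w (Jc (⌈t * (p : ℝ) ^ (e + 1)⌉₊ - l)) (s + wd w μ))
      (inn_le _ _) (inn_le _ _) (fun u hu u' hu' => by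
        have h2 := mul_inn hu hu'
        have h3 : Jc l * Jc (⌈t * (p : ℝ) ^ (e + 1)⌉₊ - l) ≤ Jc ⌈t * (p : ℝ) ^ (e + 1)⌉₊ := by
          have h4 := hJ.mul l (⌈t * (p : ℝ) ^ (e + 1)⌉₊ - l)
          rwa [Nat.add_sub_of_le hl] at h4
        have h5 := inn_mono h3 _ h2
        exact innIso hJ.lead1 hJ.lead2 b (p ^ (e + 1)) (Jc ⌈t * (p : ℝ) ^ (e + 1)⌉₊)
          (fun v hv => hJ.iso (e + 1) _ (Nat.le_ceil _) v hv) h5)
    have h2 := mon (by omega) ha hw hc (Jc (⌈t * (p : ℝ) ^ (e + 1)⌉₊ - l))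
      (hle (⌈t * (p : ℝ) ^ (e + 1)⌉₊ - l)) μ s
    have h3 := finrank_F0 (k := K) (c := c) ha hw haw hc (s + wd w μ)
    have e1 : (Module.finrank K (inn w (Jc l) s) : ℝ) +
        Module.finrank K (inn w (Jc (⌈t * (p : ℝ) ^ (e + 1)⌉₊ - l)) (s + wd w μ)) ≤
        Module.finrank K (F0 w (f0 c a) s) +
        Module.finrank K (PP K w (s + wd w μ) : Submodule K (MvPolynomial (Fin (n + 1)) K)) := by
      exact_mod_cast h1
    have e2 : (Module.finrank K (inn w (Jc (⌈t * (p : ℝ) ^ (e + 1)⌉₊ - l)) s) : ℝ) +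
        Module.finrank K (F0 w (f0 c a) (s + wd w μ)) ≤
        Module.finrank K (inn w (Jc (⌈t * (p : ℝ) ^ (e + 1)⌉₊ - l)) (s + wd w μ)) +
        Module.finrank K (F0 w (f0 c a) s) := by
      exact_mod_cast h2
    have e3 : (Module.finrank K (F0 w (f0 c a) (s + wd w μ)) : ℝ) + NN w (a 0) (s + wd w μ) =
        Module.finrank K (PP K w (s + wd w μ) : Submodule K (MvPolynomial (Fin (n + 1)) K)) := by
      exact_mod_cast h3
    change ((Module.finrank K (inn w (Jc l) s) : ℝ) - Module.finrank K (F0 w (f0 c a) s)) +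
      ((Module.finrank K (inn w (Jc (⌈t * (p : ℝ) ^ (e + 1)⌉₊ - l)) s) : ℝ) -
      Module.finrank K (F0 w (f0 c a) s)) ≤ NN w (a 0) (s + wd w μ)
    linarith

end BP
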