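import Pool.Agent.Lib.MP_9e8926_ag_BP.PiB

/-!
# Elimination of a variable by a linear form
-/

set_option autoImplicit false
set_option linter.unusedVariables false

noncomputable section

namespace BP

open MvPolynomial

variable {k : Type*} [Field k]

/-- The linear form `∑ c_i x_i`. -/
def lin {n : ℕ} (c : Fin n → k) : MvPolynomial (Fin n) k := ∑ i, C (c i) * X i

/-- Substitution of `x_0 = - ∑_{i ≥ 1} (c_i / c_0) x_i`. -/
def sb {n : ℕ} (c : Fin (n + 1) → k) : MvPolynomial (Fin (n + 1)) k →ₐ[k] MvPolynomial (Fin n) k :=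
  aeval (Fin.cons (-(∑ i : Fin n, C (c i.succ / c 0) * X i)) X)

private theorem SubL_sb0 {n : ℕ} (c : Fin (n + 1) → k) :
    sb c (X 0) = C (-(c 0)⁻¹) * lin (fun i : Fin n => c i.succ) := by
  unfold sb lin
  rw [aeval_X, Fin.cons_zero, C_neg, neg_mul, Finset.mul_sum]
  congr 1
  refine Finset.sum_congr rfl fun i _ => ?_
  rw [div_eq_inv_mul, C_mul, mul_assoc]

private theorem SubL_sbS {n : ℕ} (c : Fin (n + 1) → k) (i : Fin n) :
    sb c (X i.succ) = X i := by
  unfold sb
  rw [aeval_X, Fin.cons_succ]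

/-- (The difference `u - rename succ (sb c u)` is divisible by `lin c`: true for constants and the
variables (`X 0 - rename succ (sb c (X 0)) = X 0 + ∑ (c_i/c_0) X_i = c_0⁻¹ lin c`), and the
set of such `u` is a subalgebra: `MvPolynomial.induction_on`.) -/
theorem sb_dvd {n : ℕ} (c : Fin (n + 1) → k) (hc : c 0 ≠ 0) (u : MvPolynomial (Fin (n + 1)) k) :
    lin c ∣ u - rename Fin.succ (sb c u) := by
  induction u using MvPolynomial.induction_on with
  | C a =>
    have h1 : sb c (C a) = C a := by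
      unfold sb
      rw [aeval_C, algebraMap_eq]
    rw [h1, rename_C, sub_self]
    exact dvd_zero _
  | add p q hp hq =>
    have h1 : p + q - rename Fin.succ (sb c (p + q)) =
        (p - rename Fin.succ (sb c p)) + (q - rename Fin.succ (sb c q)) := by
      rw [map_add, map_add]
      ring
    rw [h1]
    exact dvd_add hp hq
  | mul_X p i hp =>
    have hX : lin c ∣ X i - rename Fin.succ (sb c (X i)) := by
      refine Fin.cases ?_ (fun j => ?_) i
      · refine ⟨C (c 0)⁻¹, ?_⟩
        have h1 : (C (c 0) : MvPolynomial (Fin (n + 1)) k) * C (c 0)⁻¹ = 1 := by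
          rw [← C_mul, mul_inv_cancel₀ hc, C_1]
        rw [SubL_sb0, map_mul, rename_C]
        unfold lin
        rw [map_sum, Fin.sum_univ_succ, C_neg]
        have h2 : (∑ i : Fin n, rename Fin.succ (C (c i.succ) * X i : MvPolynomial (Fin n) k)) =
            ∑ i : Fin n, C (c i.succ) * X i.succ := by
          refine Finset.sum_congr rfl fun i _ => ?_
          rw [map_mul, rename_C, rename_X]
        rw [h2]
        linear_combination (-X 0) * h1
      · rw [SubL_sbS, rename_X, sub_self]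
        exact dvd_zero _
    have h1 : p * X i - rename Fin.succ (sb c (p * X i)) =
        (p - rename Fin.succ (sb c p)) * X i +
        rename Fin.succ (sb c p) * (X i - rename Fin.succ (sb c (X i))) := by
      rw [map_mul, map_mul]
      ring
    rw [h1]
    exact dvd_add (hp.mul_right _) (hX.mul_left _)

theorem dvd_of_sb {n : ℕ} (c : Fin (n + 1) → k) (hc : c 0 ≠ 0) (u : MvPolynomial (Fin (n + 1)) k)
    (h : sb c u = 0) : lin c ∣ u := by
  have := sb_dvd c hc u
  rwa [h, map_zero, sub_zero] at this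

/-- (Every variable is sent to a polynomial of total degree `≤ 1`.) -/
theorem sb_deg {n : ℕ} (c : Fin (n + 1) → k) (u : MvPolynomial (Fin (n + 1)) k) :
    (sb c u).totalDegree ≤ u.totalDegree := by
  have hX : ∀ i, (sb c (X i)).totalDegree ≤ 1 := by
    intro i
    refine Fin.cases ?_ (fun j => ?_) i
    · rw [SubL_sb0]
      refine (totalDegree_mul _ _).trans ?_
      rw [totalDegree_C, zero_add]
      unfold lin
      refine totalDegree_finsetSum_le fun i _ => ?_
      refine (totalDegree_mul _ _).trans ?_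
      rw [totalDegree_C, zero_add, totalDegree_X]
    · rw [SubL_sbS, totalDegree_X]
  have h1 : sb c u = ∑ d ∈ u.support, C (coeff d u) * ∏ i, (sb c (X i)) ^ d i := by
    conv_lhs => rw [u.as_sum]
    rw [map_sum]
    refine Finset.sum_congr rfl fun d _ => ?_
    rw [monomial_eq, map_mul, Finsupp.prod_fintype _ _ (fun i => pow_zero _), map_prod]
    congr 1
    · unfold sb
      rw [aeval_C, algebraMap_eq]
    · refine Finset.prod_congr rfl fun i _ => ?_
      rw [map_pow]
  rw [h1]
  refine totalDegree_finsetSum_le fun d hd => ?_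
  refine (totalDegree_mul _ _).trans ?_
  rw [totalDegree_C, zero_add]
  refine (totalDegree_finsetProd _ _).trans ?_
  refine le_trans ?_ (le_totalDegree hd)
  rw [Finsupp.sum_fintype _ _ (fun _ => rfl)]
  refine Finset.sum_le_sum fun i _ => ?_
  refine (totalDegree_pow _ _).trans ?_
  calc d i * (sb c (X i)).totalDegree ≤ d i * 1 := Nat.mul_le_mul_left _ (hX i)
    _ = d i := mul_one _

/-- (`∑ (c_i x_i)` to the power `p^e`: `sum_pow_char_pow` or `add_pow_char_pow`.) -/
theorem lin_pow {n : ℕ} (p : ℕ) [Fact p.Prime] [CharP k p] (c : Fin n → k) (e : ℕ) :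
    lin c ^ p ^ e = ex (fun _ => p ^ e) (lin fun i => c i ^ p ^ e) := by
  unfold lin
  rw [sum_pow_char_pow p, map_sum]
  refine Finset.sum_congr rfl fun i _ => ?_
  unfold ex
  rw [mul_pow, map_mul, aeval_C, aeval_X, algebraMap_eq, C_pow]

private theorem SubL_ren {n : ℕ} (w : MvPolynomial (Fin n) k) :
    finSuccEquiv k n (rename Fin.succ w) = Polynomial.C w := by
  induction w using MvPolynomial.induction_on with
  | C a =>
    rw [rename_C]
    exact (finSuccEquiv k n).commutes a
  | add p q hp hq => rw [map_add, map_add, hp, hq, Polynomial.C_add]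
  | mul_X p i hp => rw [map_mul, map_mul, hp, rename_X, finSuccEquiv_X_succ, Polynomial.C_mul]

private theorem SubL_lin {n : ℕ} (c : Fin (n + 1) → k) :
    finSuccEquiv k n (lin c) = Polynomial.C (C (c 0)) * Polynomial.X +
      Polynomial.C (lin fun i : Fin n => c i.succ) := by
  have h1 : lin c = C (c 0) * X 0 + rename Fin.succ (lin fun i : Fin n => c i.succ) := by
    unfold lin
    rw [Fin.sum_univ_succ, map_sum]
    congr 1
    refine Finset.sum_congr rfl fun i _ => ?_
    rw [map_mul, rename_C, rename_X]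
  have h2 : finSuccEquiv k n (C (c 0)) = Polynomial.C (C (c 0)) :=
    (finSuccEquiv k n).commutes (c 0)
  rw [h1, map_add, map_mul, SubL_ren, finSuccEquiv_X_zero, h2]

/-- Elimination: `q = p^e`.  Proof.  `lin c ^ q = ∑ c_i^q x_i^q ∈ (x_i^q)` (`lin_pow`, or directly).
Write `v' = rename succ (sb c v)`, `v = v' + lin c * g` (`sb_dvd`).  Then
`v' (lin c)^(q-1) = v (lin c)^(q-1) - g (lin c)^q ∈ (x_i^q)`.  Coefficients: for an exponent `m` of
`sb c v` (in the variables `Fin n`) with all `m_i < q` the coefficient of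
`x_0^(q-1) x^m` in `v' (lin c)^(q-1)` is `c_0^(q-1)` times the coefficient of `m` in `sb c v`
(only the term `c_0^(q-1) x_0^(q-1)` of `(lin c)^(q-1)` contains `x_0^(q-1)`; all other terms
have `x_0`-degree `< q - 1`, and `v'` does not contain `x_0`); e.g. with `finSuccEquiv`: the image of
`lin c` is `C c_0 * X + C (lin (c ∘ succ))` of degree one, so `(lin c)^(q-1)` has leading
coefficient `c_0^(q-1)` in degree `q - 1`.  So this coefficient is zero (`mem_Jr`). -/
theorem elim_q {n : ℕ} (p : ℕ) [Fact p.Prime] [CharP k p] (c : Fin (n + 1) → k) (hc : c 0 ≠ 0)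
    (e : ℕ) (v : MvPolynomial (Fin (n + 1)) k)
    (h : v * lin c ^ (p ^ e - 1) ∈ Jr k (fun _ => p ^ e)) : sb c v ∈ Jr k (fun _ => p ^ e) := by
  have hq : 1 ≤ p ^ e := Nat.one_le_pow _ _ (Fact.out : p.Prime).pos
  have hlin : lin c ^ (p ^ e) ∈ Jr k (fun _ : Fin (n + 1) => p ^ e) := by
    unfold lin
    rw [sum_pow_char_pow p]
    refine Ideal.sum_mem _ fun i _ => ?_
    rw [mul_pow]
    exact Ideal.mul_mem_left _ _ (Ideal.subset_span ⟨i, rfl⟩)
  obtain ⟨g, hg⟩ := sb_dvd c hc v
  have h1 : rename Fin.succ (sb c v) * lin c ^ (p ^ e - 1) ∈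
      Jr k (fun _ : Fin (n + 1) => p ^ e) := by
    have h2 : rename Fin.succ (sb c v) * lin c ^ (p ^ e - 1) =
        v * lin c ^ (p ^ e - 1) - g * lin c ^ (p ^ e) := by
      have h3 : lin c ^ (p ^ e) = lin c * lin c ^ (p ^ e - 1) := by
        rw [← pow_succ', Nat.sub_add_cancel hq]
      rw [h3]
      linear_combination (-lin c ^ (p ^ e - 1)) * hg
    rw [h2]
    exact Ideal.sub_mem _ h (Ideal.mul_mem_left _ _ hlin)
  rw [mem_Jr] at h1 ⊢
  intro m hm
  by_contra hcon
  push Not at hcon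
  have h4 : coeff (m.cons (p ^ e - 1)) (rename Fin.succ (sb c v) * lin c ^ (p ^ e - 1)) =
      c 0 ^ (p ^ e - 1) * coeff m (sb c v) := by
    rw [← finSuccEquiv_coeff_coeff, map_mul, map_pow, SubL_ren, SubL_lin, Polynomial.coeff_C_mul]
    have h5 : (Polynomial.C (C (c 0) : MvPolynomial (Fin n) k) * Polynomial.X +
        Polynomial.C (lin fun i : Fin n => c i.succ)).natDegree ≤ 1 :=
      Polynomial.natDegree_linear_le
    have h6 := Polynomial.coeff_pow_of_natDegree_le (m := p ^ e - 1) h5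
    rw [mul_one] at h6
    rw [h6]
    simp only [Polynomial.coeff_add, Polynomial.coeff_C_mul, Polynomial.coeff_X_one, mul_one,
      Polynomial.coeff_C_succ, add_zero]
    rw [← C_pow, mul_comm, coeff_C_mul]
  have h7 : m.cons (p ^ e - 1) ∈
      (rename Fin.succ (sb c v) * lin c ^ (p ^ e - 1)).support := by
    rw [mem_support_iff, h4]
    exact mul_ne_zero (pow_ne_zero _ hc) (mem_support_iff.1 hm)
  obtain ⟨i, hi⟩ := h1 _ h7
  revert hi
  refine Fin.cases ?_ (fun j => ?_) i
  · rw [Finsupp.cons_zero]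
    omega
  · rw [Finsupp.cons_succ]
    have := hcon j
    omega

/-- Elimination, general exponents `r_i ≤ q = p^e`.  (Apply `elim_q` to
`v = u ∏ x_i^(q - r_i)` (`mul_mem_Jr`: `r_i + (q - r_i) = q`).  `sb c v` is `sb c u` times
`sb c (x_0)^(q - r_0) = (-c_0⁻¹ lin (c ∘ succ))^(q - r_0)` times `∏_{i ≥ 1} x_i^(q - r_i)`; cancel the
unit `(-c_0⁻¹)^(q - r_0)` and apply `mul_mem_Jr` again.) -/
theorem elim {n : ℕ} (p : ℕ) [Fact p.Prime] [CharP k p] (c : Fin (n + 1) → k) (hc : c 0 ≠ 0)
    (e : ℕ) (r : Fin (n + 1) → ℕ) (hr : ∀ i, r i ≤ p ^ e) (u : MvPolynomial (Fin (n + 1)) k)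
    (h : u * lin c ^ (p ^ e - 1) ∈ Jr k r) :
    sb c u * lin (fun i : Fin n => c i.succ) ^ (p ^ e - r 0) ∈ Jr k (fun i : Fin n => r i.succ) := by
  have h1 : (∏ i, X i ^ (p ^ e - r i)) * (u * lin c ^ (p ^ e - 1)) ∈
      Jr k (fun i => r i + (p ^ e - r i)) := (mul_mem_Jr r (fun i => p ^ e - r i) _).2 h
  have h2 : (fun i => r i + (p ^ e - r i)) = fun _ : Fin (n + 1) => p ^ e := by
    funext i
    have := hr i
    omega
  rw [h2, ← mul_assoc] at h1
  have h3 := elim_q p c hc e _ h1
  rw [map_mul, map_prod, Fin.prod_univ_succ, map_pow, SubL_sb0] at h3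
  have h4 : (∏ i : Fin n, sb c (X i.succ ^ (p ^ e - r i.succ))) =
      ∏ i : Fin n, (X i : MvPolynomial (Fin n) k) ^ (p ^ e - r i.succ) := by
    refine Finset.prod_congr rfl fun i _ => ?_
    rw [map_pow, SubL_sbS]
  rw [h4] at h3
  have h5 := Ideal.mul_mem_left _ (C (-c 0) ^ (p ^ e - r 0)) h3
  have h6 : (C (-c 0) : MvPolynomial (Fin n) k) ^ (p ^ e - r 0) * (C (-(c 0)⁻¹)) ^ (p ^ e - r 0) =
      1 := by
    rw [← mul_pow, ← C_mul, neg_mul_neg, mul_inv_cancel₀ hc, C_1, one_pow]
  have h7 : C (-c 0) ^ (p ^ e - r 0) *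
      ((C (-(c 0)⁻¹) * lin fun i : Fin n => c i.succ) ^ (p ^ e - r 0) *
        (∏ i : Fin n, (X i : MvPolynomial (Fin n) k) ^ (p ^ e - r i.succ)) * sb c u) =
      (∏ i : Fin n, (X i : MvPolynomial (Fin n) k) ^ (p ^ e - r i.succ)) *
        (sb c u * lin (fun i : Fin n => c i.succ) ^ (p ^ e - r 0)) := by
    rw [mul_pow]
    linear_combination ((lin fun i : Fin n => c i.succ) ^ (p ^ e - r 0) *
        (∏ i : Fin n, (X i : MvPolynomial (Fin n) k) ^ (p ^ e - r i.succ)) * sb c u) * h6
  rw [h7] at h5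
  have h8 : (fun _ : Fin n => p ^ e) =
      fun i : Fin n => r i.succ + (p ^ e - r i.succ) := by
    funext i
    have := hr i.succ
    omega
  rw [h8] at h5
  exact (mul_mem_Jr (fun i : Fin n => r i.succ) (fun i => p ^ e - r i.succ) _).1 h5

end BP
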