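import Pool.Agent.Lib.MP_9e8926_ag_BP.GrB
import Pool.Agent.Lib.MP_9e8926_ag_BP.Rt
import Pool.Agent.Lib.MP_9e8926_ag_BP.LexA
import Pool.Agent.Lib.MP_9e8926_ag_BP.PreG

/-!
# The parametrization by power series
-/

set_option autoImplicit false
set_option linter.unusedVariables false

noncomputable section

namespace BP

open MvPolynomial

/-- A homomorphism to a power series ring with known leading exponents of the generators and of the
special element `z` of weight `W / g`. -/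
structure Tht {m : ℕ} {K : Type*} [Field K] (a w : Fin (m + 3) → ℕ) (W : ℕ) (c : Fin (m + 3) → K)
    (Θ : MvPolynomial (Fin (m + 3)) K →ₐ[K] MvPowerSeries (Fin (m + 1)) K)
    (z : MvPolynomial (Fin (m + 3)) K) : Prop where
  zero : Θ (f0 c a) = 0
  x0 : MvPowerSeries.lexOrder (Θ (X 0)) = 0
  x1 : MvPowerSeries.lexOrder (Θ (X 1)) = 0
  xl : ∀ l : Fin (m + 1), MvPowerSeries.lexOrder (Θ (X l.succ.succ)) =
    (toLex (Finsupp.single l 1) : Lex (Fin (m + 1) →₀ ℕ))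
  zw : z ∈ PP K w (W / Nat.gcd (a 0) (a 1))
  zl : MvPowerSeries.lexOrder (Θ z) =
    (toLex (Finsupp.single (Fin.last m) (a (Fin.last (m + 2)))) : Lex (Fin (m + 1) →₀ ℕ))

private theorem Tht_pp {m : ℕ} {K : Type*} [Field K] (w : Fin (m + 3) → ℕ) (i : Fin (m + 3))
    (N : ℕ) : (X i ^ N : MvPolynomial (Fin (m + 3)) K) ∈ PP K w (w i * N) := by
  classical
  intro d hd
  rw [X_pow_eq_monomial] at hd
  have h := Finset.mem_singleton.1 (support_monomial_subset hd)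
  rw [h]
  unfold wd
  rw [Finset.sum_eq_single i]
  · rw [Finsupp.single_eq_same]
  · intro j _ hj
    rw [Finsupp.single_eq_of_ne hj, mul_zero]
  · intro h
    exact absurd (Finset.mem_univ i) h

/-- Proof.  Let `g = gcd (a_0, a_1)`, `α = a_0 / g`, `β = a_1 / g`, `ζ ∈ K` with `ζ^(a_0) = - c_1 / c_0`
(`K` algebraically closed, `a_0 ≥ 1`), `E = ∑_l (c_(l+2) / c_1) X_l^(a_(l+2))`, `B^(a_0) = 1 + E`
(`exists_root`).  Put `Θ (x_0) = ζ B`, `Θ (x_1) = 1`, `Θ (x_(l+2)) = X_l` (`aeval`).  Then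
`Θ (f0) = c_0 ζ^(a_0) (1 + E) + c_1 + c_1 E = 0`.  `z = x_0^α - ζ^α x_1^β` (weight
`α w_0 = β w_1 = W / g`).  `Θ z = ζ^α (B^α - 1)` and
`E = (B^α)^g - 1 = (B^α - 1) ∑_{i<g} B^(α i)`; the sum has constant term `g ≠ 0` in `K` (`g` divides
`a_0`), so its leading exponent is `0` (`lexOrder_unit`), and `lexOrder (Θ z) = lexOrder E`
(`lexOrder_mul`), which is `lexOrder_sum`. -/
theorem exists_tht {m : ℕ} {K : Type*} [Field K] [IsAlgClosed K] (a w : Fin (m + 3) → ℕ)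
    (ha : ∀ i, 1 ≤ a i) (W : ℕ) (hW : 0 < W) (haw : ∀ i, a i * w i = W) (c : Fin (m + 3) → K)
    (hc : ∀ i, c i ≠ 0) (h0 : (a 0 : K) ≠ 0) :
    ∃ (Θ : MvPolynomial (Fin (m + 3)) K →ₐ[K] MvPowerSeries (Fin (m + 1)) K)
      (z : MvPolynomial (Fin (m + 3)) K), Tht a w W c Θ z := by
  classical
  obtain ⟨g, hg⟩ : ∃ g, g = Nat.gcd (a 0) (a 1) := ⟨_, rfl⟩
  have hg0 : 0 < g := hg ▸ Nat.gcd_pos_of_pos_left _ (ha 0)
  obtain ⟨α, hα⟩ : g ∣ a 0 := hg ▸ Nat.gcd_dvd_left _ _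
  obtain ⟨β, hβ⟩ : g ∣ a 1 := hg ▸ Nat.gcd_dvd_right _ _
  have hg1 : (g : K) ≠ 0 := by
    intro h
    apply h0
    rw [hα]
    push_cast
    rw [h, zero_mul]
  have hWg0 : W / g = w 0 * α := by
    have h1 : W = w 0 * α * g := by
      rw [← haw 0, hα]
      ring
    rw [h1, Nat.mul_div_cancel _ hg0]
  have hWg1 : W / g = w 1 * β := by
    have h1 : W = w 1 * β * g := by
      rw [← haw 1, hβ]
      ring
    rw [h1, Nat.mul_div_cancel _ hg0]
  obtain ⟨ζ, hζ⟩ := IsAlgClosed.exists_pow_nat_eq (-c 1 / c 0) (ha 0)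
  have hζ0 : ζ ≠ 0 := by
    intro h
    rw [h, zero_pow (Nat.one_le_iff_ne_zero.1 (ha 0))] at hζ
    exact div_ne_zero (neg_ne_zero.2 (hc 1)) (hc 0) hζ.symm
  obtain ⟨E, hE⟩ : ∃ E : MvPowerSeries (Fin (m + 1)) K, E = ∑ l : Fin (m + 1),
      MvPowerSeries.C (c l.succ.succ / c 1) * MvPowerSeries.X l ^ a l.succ.succ := ⟨_, rfl⟩
  have hE0 : MvPowerSeries.constantCoeff E = 0 := by
    rw [hE, map_sum]
    refine Finset.sum_eq_zero fun l _ => ?_
    rw [map_mul, map_pow, MvPowerSeries.constantCoeff_X,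
      zero_pow (Nat.one_le_iff_ne_zero.1 (ha _)), mul_zero]
  obtain ⟨B, hB, hB1⟩ := exists_root (a 0) h0 E hE0
  obtain ⟨φ, hφ⟩ : ∃ φ : Fin (m + 3) → MvPowerSeries (Fin (m + 1)) K, φ = Fin.cons
    (MvPowerSeries.C ζ * B) (Fin.cons 1 fun l => MvPowerSeries.X l) := ⟨_, rfl⟩
  have hφ0 : φ 0 = MvPowerSeries.C ζ * B := by rw [hφ, Fin.cons_zero]
  have hφ1 : φ 1 = 1 := by
    have h1 : (1 : Fin (m + 3)) = Fin.succ 0 := rfl
    rw [hφ, h1, Fin.cons_succ, Fin.cons_zero]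
  have hφl : ∀ l : Fin (m + 1), φ l.succ.succ = MvPowerSeries.X l := by
    intro l
    rw [hφ, Fin.cons_succ, Fin.cons_succ]
  have hC : ∀ (x : K), (aeval φ) (C x : MvPolynomial (Fin (m + 3)) K) =
      MvPowerSeries.C (σ := Fin (m + 1)) x := by
    intro x
    rw [MvPolynomial.aeval_C]
    rfl
  have hz : (aeval φ) (X 0 ^ α - C (ζ ^ α) * X 1 ^ β : MvPolynomial (Fin (m + 3)) K) =
      MvPowerSeries.C (ζ ^ α) * (B ^ α - 1) := by
    have e1 : (aeval φ) (X 0 ^ α : MvPolynomial (Fin (m + 3)) K) =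
        MvPowerSeries.C (ζ ^ α) * B ^ α := by
      rw [map_pow, aeval_X, hφ0, mul_pow, ← map_pow]
    have e2 : (aeval φ) (X 1 ^ β : MvPolynomial (Fin (m + 3)) K) = 1 := by
      rw [map_pow, aeval_X, hφ1, one_pow]
    rw [map_sub, map_mul, e1, e2, hC]
    ring
  refine ⟨aeval φ, X 0 ^ α - C (ζ ^ α) * X 1 ^ β, ?_, ?_, ?_, ?_, ?_, ?_⟩
  · -- zero
    unfold f0
    rw [map_sum, Fin.sum_univ_succ, Fin.sum_univ_succ]
    have e1 : (aeval φ) (C (c 0) * X 0 ^ a 0 : MvPolynomial (Fin (m + 3)) K) =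
        MvPowerSeries.C (-c 1) * (1 + E) := by
      rw [map_mul, map_pow, aeval_X, hC, hφ0, mul_pow, hB, ← map_pow, hζ, ← mul_assoc, ← map_mul,
        mul_div_cancel₀ _ (hc 0)]
    have e2 : (aeval φ) (C (c (Fin.succ 0)) * X (Fin.succ 0) ^ a (Fin.succ 0) :
        MvPolynomial (Fin (m + 3)) K) = MvPowerSeries.C (c 1) := by
      have h1 : (Fin.succ 0 : Fin (m + 3)) = 1 := rfl
      rw [h1, map_mul, map_pow, aeval_X, hC, hφ1, one_pow, mul_one]
    have e3 : ∑ l : Fin (m + 1), (aeval φ) (C (c l.succ.succ) * X l.succ.succ ^ a l.succ.succ :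
        MvPolynomial (Fin (m + 3)) K) = MvPowerSeries.C (c 1) * E := by
      rw [hE, Finset.mul_sum]
      refine Finset.sum_congr rfl fun l _ => ?_
      rw [map_mul, map_pow, aeval_X, hC, hφl, ← mul_assoc, ← map_mul, mul_div_cancel₀ _ (hc 1)]
    rw [e1, e2, e3, map_neg]
    ring
  · rw [aeval_X, hφ0]
    refine lexOrder_unit _ ?_
    rw [map_mul, hB1, mul_one, MvPowerSeries.constantCoeff_C]
    exact hζ0
  · rw [aeval_X, hφ1]
    refine lexOrder_unit _ ?_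
    rw [map_one]
    exact one_ne_zero
  · intro l
    rw [aeval_X, hφl]
    exact lexOrder_X l
  · rw [← hg]
    refine Submodule.sub_mem _ ?_ ?_
    · rw [hWg0]
      exact Tht_pp w 0 α
    · rw [hWg1, ← MvPolynomial.smul_eq_C_mul]
      exact Submodule.smul_mem _ _ (Tht_pp w 1 β)
  · rw [hz, MvPowerSeries.lexOrder_mul]
    obtain ⟨S, hS⟩ : ∃ S : MvPowerSeries (Fin (m + 1)) K, S = ∑ i ∈ Finset.range g, (B ^ α) ^ i :=
      ⟨_, rfl⟩
    have hES : E = S * (B ^ α - 1) := by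
      rw [hS, geom_sum_mul, ← pow_mul, mul_comm α g, ← hα, hB]
      ring
    have hS0 : MvPowerSeries.lexOrder S = 0 := by
      refine lexOrder_unit _ ?_
      have h1 : MvPowerSeries.constantCoeff S = (g : K) := by
        rw [hS, map_sum]
        have h2 : ∀ i ∈ Finset.range g,
            MvPowerSeries.constantCoeff ((B ^ α) ^ i) = (1 : K) := by
          intro i _
          rw [map_pow, map_pow, hB1, one_pow, one_pow]
        rw [Finset.sum_congr rfl h2]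
        simp
      rw [h1]
      exact hg1
    have hζS : MvPowerSeries.lexOrder (MvPowerSeries.C (σ := Fin (m + 1)) (ζ ^ α)) = 0 := by
      refine lexOrder_unit _ ?_
      rw [MvPowerSeries.constantCoeff_C]
      exact pow_ne_zero _ hζ0
    have h3 := congrArg MvPowerSeries.lexOrder hES
    rw [MvPowerSeries.lexOrder_mul, hS0, zero_add] at h3
    rw [hζS, zero_add, ← h3, hE]
    have h4 := lexOrder_sum (K := K) (fun l : Fin (m + 1) => c l.succ.succ / c 1)
      (fun l => div_ne_zero (hc _) (hc _)) (fun l => a l.succ.succ) (fun l => ha _)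
    rw [h4]
    rfl

end BP
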