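import Pool.Agent.Lib.MP_9e8926_ag_BP.Tht

/-!
# The monomials of the indices
-/

set_option autoImplicit false
set_option linter.unusedVariables false

noncomputable section

namespace BP

open MvPolynomial

private theorem thtM_prod {ι T : Type*} [Fintype ι] {k : Type*} [CommRing k] (w : ι → ℕ)
    (s : Finset T) (u : T → MvPolynomial ι k) (N d : T → ℕ) (h : ∀ t ∈ s, u t ∈ PP k w (d t)) :
    (∏ t ∈ s, u t ^ N t) ∈ PP k w (∑ t ∈ s, d t * N t) := by
  classical
  induction s using Finset.induction_on with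
  | empty =>
    rw [Finset.prod_empty, Finset.sum_empty]
    exact PP_one
  | insert a s ha ih =>
    rw [Finset.prod_insert ha, Finset.sum_insert ha]
    refine PP_mul ?_ (ih fun t ht => h t (Finset.mem_insert_of_mem ht))
    rw [mul_comm]
    exact PP_pow (h a (Finset.mem_insert_self a s)) _

private theorem thtM_smul {σ : Type*} [LinearOrder σ] (n : ℕ) (d : σ →₀ ℕ) :
    n • (toLex d : Lex (σ →₀ ℕ)) = toLex (n • d) := by
  induction n with
  | zero => rw [zero_nsmul, zero_nsmul, toLex_zero]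
  | succ n ih => rw [succ_nsmul, succ_nsmul, ih, toLex_add]

/-- The monomial of an index. -/
theorem exists_M {m : ℕ} {K : Type*} [Field K] (a w : Fin (m + 3) → ℕ) (W : ℕ)
    (c : Fin (m + 3) → K) (Θ : MvPolynomial (Fin (m + 3)) K →ₐ[K] MvPowerSeries (Fin (m + 1)) K)
    (z : MvPolynomial (Fin (m + 3)) K) (hT : Tht a w W c Θ z)
    (x : (Fin (a 0 / Nat.gcd (a 0) (a 1)) × Fin (a (Fin.last (m + 2)))) × (Fin (m + 2) → ℕ)) :
    ∃ M : MvPolynomial (Fin (m + 3)) K, M ∈ PP K w (dG w (W / Nat.gcd (a 0) (a 1)) x) ∧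
      MvPowerSeries.lexOrder (Θ M) =
        (toLex (eG (a (Fin.last (m + 2))) x) : Lex (Fin (m + 1) →₀ ℕ)) := by
  classical
  obtain ⟨⟨i, j⟩, β⟩ := x
  refine ⟨X 0 ^ (i : ℕ) * X (Fin.last (m + 2)) ^ (j : ℕ) *
    (∏ v : Fin (m + 1), X v.castSucc.succ ^ β v.castSucc) * z ^ β (Fin.last (m + 1)), ?_, ?_⟩
  · have h1 : dG w (W / Nat.gcd (a 0) (a 1)) ((i, j), β) =
        (i : ℕ) * w 0 + (j : ℕ) * w (Fin.last (m + 2)) +
          (∑ v : Fin (m + 1), w v.castSucc.succ * β v.castSucc) +
          β (Fin.last (m + 1)) * (W / Nat.gcd (a 0) (a 1)) := by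
      unfold dG wG
      rw [Fin.sum_univ_castSucc, if_pos rfl]
      have h2 : ∀ v : Fin (m + 1), (if v.castSucc = Fin.last (m + 1) then
          W / Nat.gcd (a 0) (a 1) else w v.castSucc.succ) * β v.castSucc =
          w v.castSucc.succ * β v.castSucc := by
        intro v
        rw [if_neg (Fin.castSucc_lt_last v).ne]
      rw [Finset.sum_congr rfl fun v _ => h2 v]
      ring
    rw [h1]
    exact PP_mul (PP_mul (PP_mul (PP_pow (PP_X 0) _) (PP_pow (PP_X _) _))
      (thtM_prod w _ _ _ _ fun v _ => PP_X _)) (PP_pow hT.zw _)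
  · rw [map_mul, map_mul, map_mul, map_pow, map_pow, map_pow, map_prod]
    simp only [map_pow]
    have hxl : MvPowerSeries.lexOrder (Θ (X (Fin.last (m + 2)))) =
        (toLex (Finsupp.single (Fin.last m) 1) : Lex (Fin (m + 1) →₀ ℕ)) := by
      have h := hT.xl (Fin.last m)
      rwa [Fin.succ_last, Fin.succ_last] at h
    have hd : ∀ v : Fin (m + 1), MvPowerSeries.lexOrder (Θ (X v.castSucc.succ)) =
        (toLex ((Fin.cases 0 (fun u : Fin m => Finsupp.single u.castSucc 1) v :
          Fin (m + 1) →₀ ℕ)) : Lex (Fin (m + 1) →₀ ℕ)) := by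
      intro v
      refine Fin.cases ?_ (fun u => ?_) v
      · rw [Fin.cases_zero, toLex_zero, WithTop.coe_zero]
        exact hT.x1
      · have hu : (u.succ.castSucc.succ : Fin (m + 3)) = u.castSucc.succ.succ := by
          ext
          simp
        rw [Fin.cases_succ, ← hT.xl u.castSucc, hu]
    rw [MvPowerSeries.lexOrder_mul, MvPowerSeries.lexOrder_mul, MvPowerSeries.lexOrder_mul,
      lexOrder_pow, lexOrder_pow, lexOrder_pow, hT.x0, hxl, hT.zl,
      lexOrder_prod _ _ _ _ fun v _ => hd v, nsmul_zero, zero_add]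
    rw [← WithTop.coe_nsmul, ← WithTop.coe_nsmul, ← WithTop.coe_add, ← WithTop.coe_add,
      WithTop.coe_inj]
    rw [thtM_smul, thtM_smul, ← toLex_add, ← toLex_add]
    congr 1
    ext l
    rw [Finsupp.add_apply, Finsupp.add_apply, Finsupp.smul_apply, Finsupp.smul_apply,
      Finsupp.finset_sum_apply, Fin.sum_univ_succ]
    have he : eG (a (Fin.last (m + 2))) ((i, j), β) l = if l = Fin.last m then
        (j : ℕ) + a (Fin.last (m + 2)) * β (Fin.last (m + 1)) else β l.succ := rfl
    rw [he]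
    simp only [Fin.cases_zero, Fin.cases_succ, Finsupp.smul_apply, Finsupp.coe_zero,
      Pi.zero_apply, smul_zero, zero_add, smul_eq_mul, Finsupp.single_apply]
    refine Fin.lastCases ?_ (fun u => ?_) l
    · rw [if_pos rfl, if_pos rfl, if_pos rfl, Finset.sum_eq_zero]
      · ring
      · intro v _
        rw [if_neg (Fin.castSucc_lt_last v).ne, mul_zero]
    · rw [if_neg (Fin.castSucc_lt_last u).ne, if_neg (Fin.castSucc_lt_last u).ne',
        if_neg (Fin.castSucc_lt_last u).ne', mul_zero, mul_zero, zero_add, add_zero,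
        Finset.sum_eq_single u]
      · rw [if_pos rfl, mul_one, Fin.succ_castSucc]
      · intro v _ hv
        rw [if_neg (fun h => hv (Fin.castSucc_injective _ h)), mul_zero]
      · intro h
        exact absurd (Finset.mem_univ _) h

end BP
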