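import Pool.Agent.Lib.MP_9e8926_ag_BP.Wts
import Pool.Agent.Lib.MP_9e8926_ag_BP.FW
import Pool.Agent.Lib.MP_9e8926_ag_BP.InB
import Pool.Agent.Lib.MP_9e8926_ag_BP.CntN

/-!
# Colengths of the weight ideals
-/

set_option autoImplicit false

noncomputable section

namespace BP

open MvPolynomial

variable {k : Type*} [Field k] {n : ℕ} (a w : Fin (n + 1) → ℕ) (ha : ∀ i, 1 ≤ a i)
  (hw : ∀ i, 0 < w i) (W : ℕ) (haw : ∀ i, a i * w i = W) (c : Fin (n + 1) → k)
  (hc : ∀ i, c i ≠ 0) (f : MvPolynomial (Fin (n + 1)) k) (hf1 : Ge w W f)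
  (hf2 : comp w W f = f0 c a)

include ha hw haw hc hf1 hf2

theorem finrank_ak (C : ℕ) :
    Module.Finite k (Rg f ⧸ ak f w C) ∧
    Module.finrank k (Rg f ⧸ ak f w C) ≤ SN w (a 0) C := by
  have hI : Wt k w C ≤ Ideal.span {f} ⊔ Wt k w C := le_sup_right
  obtain ⟨h1, h2⟩ := finrank_le_sum hw (Ideal.span {f} ⊔ Wt k w C) C hI
  have e : (Rg f ⧸ ak f w C) ≃ₗ[k]
      (MvPolynomial (Fin (n + 1)) k ⧸ (Ideal.span {f} ⊔ Wt k w C)) :=
    (DoubleQuot.quotQuotEquivQuotSupₐ k (Ideal.span {f}) (Wt k w C)).toLinearEquiv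
  refine ⟨Module.Finite.equiv e.symm, ?_⟩
  rw [e.finrank_eq]
  have h3 : ∑ s ∈ Finset.range C, Module.finrank k (PP k w s :
      Submodule k (MvPolynomial (Fin (n + 1)) k)) =
      ∑ s ∈ Finset.range C, Module.finrank k (F0 w (f0 c a) s) + SN w (a 0) C := by
    rw [SN, ← Finset.sum_add_distrib]
    exact Finset.sum_congr rfl fun s _ => (finrank_F0 ha hw haw hc s).symm
  have h4 : ∑ s ∈ Finset.range C, Module.finrank k (F0 w (f0 c a) s) ≤
      ∑ s ∈ Finset.range C, Module.finrank k (inn w (Ideal.span {f} ⊔ Wt k w C) s) := by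
    refine Finset.sum_le_sum fun s _ => ?_
    haveI := PP_finite (k := k) hw s
    haveI : Module.Finite k (inn w (Ideal.span {f} ⊔ Wt k w C) s) :=
      Submodule.finiteDimensional_of_le (inn_le _ s)
    exact Submodule.finrank_mono (F0_le hf1 hf2
      (Ideal.mem_sup_left (Ideal.mem_span_singleton_self f)) s)
  omega

end BP
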